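import Pool.Agent.H215R2.EZ.Stubs

/-! Project EZ, task BLK: sub-block of an independence structure. -/

namespace H215EZ

universe u v

theorem t_BLK : S_BLK.{u, v} := by
  intro M _ σ G N k C w h m
  refine ⟨h.ts, ?_, ?_, ?_, ?_, ?_, ?_, ?_, ?_⟩
  · intro J J' hJ
    exact h.mono _ _ (fun q hq => ⟨hq.1, hJ hq.2⟩)
  · intro J
    exact h.closed _
  · intro J g i hi
    exact h.mem _ g (m, i) ⟨rfl, hi⟩
  · intro J J' x y hd hx hy
    refine h.comm _ _ x y ?_ hx hy
    rw [Set.disjoint_left] at hd ⊢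
    exact fun q hq hq' => hd hq.2 hq'.2
  · intro J J' x y hd hx hy
    refine h.ind _ _ x y ?_ hx hy
    rw [Set.disjoint_left] at hd ⊢
    exact fun q hq hq' => hd hq.2 hq'.2
  · exact fun g i => h.sa g (m, i)
  · exact fun g i => h.sq g (m, i)
  · exact fun g i => h.mean g (m, i)

end H215EZ
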