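import Pool.Agent.H215R2.EZ.Stubs

set_option autoImplicit false

open scoped ComplexOrder

universe v

namespace H215EZ

namespace CFB

variable {G : Type v}

theorem kpr_succ (f : G →₀ ℝ) (K : G → G → ℝ) (r : ℕ) (g h : G) :
    kpr f K (r + 1) g h = ∑ x ∈ f.support, f x * (K g x * kpr f K r x h) := rfl

theorem kpr_right (f : G →₀ ℝ) (K : G → G → ℝ) (r : ℕ) : ∀ g h : G,
    kpr f K (r + 1) g h = ∑ x ∈ f.support, f x * (kpr f K r g x * K x h) := by
  induction r with
  | zero => intro g h; rfl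
  | succ r ih =>
    intro g h
    calc kpr f K (r + 1 + 1) g h = ∑ x ∈ f.support, f x * (K g x * kpr f K (r + 1) x h) := rfl
      _ = ∑ x ∈ f.support, f x * (K g x * ∑ y ∈ f.support, f y * (kpr f K r x y * K y h)) := by
          simp only [ih]
      _ = ∑ y ∈ f.support, f y * ((∑ x ∈ f.support, f x * (K g x * kpr f K r x y)) * K y h) := by
          simp only [Finset.mul_sum, Finset.sum_mul]
          rw [Finset.sum_comm]
          refine Finset.sum_congr rfl (fun x _ => Finset.sum_congr rfl (fun y _ => ?_))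
          ring
      _ = _ := rfl

theorem kpr_symm {K : G → G → ℝ} (hK : ∀ g h, K g h = K h g) (f : G →₀ ℝ) (r : ℕ) : ∀ g h : G,
    kpr f K r g h = kpr f K r h g := by
  induction r with
  | zero => exact hK
  | succ r ih =>
    intro g h
    rw [kpr_succ, kpr_right]
    refine Finset.sum_congr rfl (fun x _ => ?_)
    rw [ih x h, hK g x]
    ring

theorem K_le {K : G → G → ℝ} (hK : IsCorr K) (g h : G) : |K g h| ≤ 1 := by
  classical
  by_cases hgh : g = h
  · subst hgh
    rw [hK.diag g]
    simp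
  · have h1 := hK.psd {g, h} (fun _ => 1)
    have h2 := hK.psd {g, h} (fun x => if x = g then 1 else -1)
    have hne : h ≠ g := fun e => hgh e.symm
    simp only [Finset.sum_pair hgh, hK.diag, hK.symm h g, if_true, if_neg hne] at h1 h2
    rw [abs_le]
    constructor <;> linarith

theorem kpr_le {K : G → G → ℝ} (hK : IsCorr K) {f : G →₀ ℝ} (hf : IsProb f) (r : ℕ) : ∀ g h : G,
    |kpr f K r g h| ≤ 1 := by
  induction r with
  | zero => exact K_le hK
  | succ r ih =>
    intro g h
    rw [kpr_succ]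
    have hs : ∑ x ∈ f.support, f x = 1 := hf.sum
    rw [← hs]
    refine (Finset.abs_sum_le_sum_abs _ _).trans (Finset.sum_le_sum (fun x _ => ?_))
    rw [abs_mul, abs_mul, abs_of_nonneg (hf.nonneg x)]
    have h1 := K_le hK g x
    have h2 := ih x h
    have h3 : |K g x| * |kpr f K r x h| ≤ 1 := by
      calc |K g x| * |kpr f K r x h| ≤ 1 * 1 := mul_le_mul h1 h2 (abs_nonneg _) zero_le_one
        _ = 1 := one_mul 1
    calc f x * (|K g x| * |kpr f K r x h|) ≤ f x * 1 := mul_le_mul_of_nonneg_left h3 (hf.nonneg x)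
      _ = f x := mul_one _

theorem Qr_le {K : G → G → ℝ} (hK : IsCorr K) {f : G →₀ ℝ} (hf : IsProb f) (R : ℕ) (p : ℕ → ℝ) (g h : G) :
    |Qr R p f K g h| ≤ ∑ r ∈ Finset.range R, |p r| := by
  unfold Qr
  refine (Finset.abs_sum_le_sum_abs _ _).trans (Finset.sum_le_sum (fun r _ => ?_))
  rw [abs_mul]
  calc |p r| * |kpr f K r g h| ≤ |p r| * 1 := mul_le_mul_of_nonneg_left (kpr_le hK hf r g h) (abs_nonneg _)
    _ = |p r| := mul_one _

theorem sumE {f : G →₀ ℝ} (hf : IsProb f) {E : Finset G} (hE : f.support ⊆ E) : ∑ g ∈ E, f g = 1 := by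
  have hs : ∑ x ∈ f.support, f x = 1 := hf.sum
  rw [← hs]
  symm
  exact Finset.sum_subset hE (fun x _ hx => Finsupp.notMem_support_iff.mp hx)

theorem gram {K : G → G → ℝ} (hK : IsCorr K) (E : Finset G) : ∃ (m : ℕ) (W : Fin m → G → ℝ),
    ∀ g ∈ E, ∀ h ∈ E, K g h = ∑ i, W i g * W i h := by
  classical
  have hps : (Matrix.of (fun g h : E => K g h)).PosSemidef := by
    rw [Matrix.posSemidef_iff_dotProduct_mulVec]
    refine ⟨?_, fun x => ?_⟩
    · ext g h
      simp [Matrix.conjTranspose_apply, hK.symm h g]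
    · have := hK.psd E (fun g => if hg : g ∈ E then x ⟨g, hg⟩ else 0)
      rw [← Finset.sum_coe_sort E] at this
      simp only [← Finset.sum_coe_sort E (fun h => _ * _ * K _ h)] at this
      simp only [dotProduct, Matrix.mulVec, Matrix.of_apply, Pi.star_apply, star_trivial, Finset.mul_sum]
      refine le_trans this (le_of_eq ?_)
      refine Finset.sum_congr rfl (fun g _ => Finset.sum_congr rfl (fun h _ => ?_))
      simp only [Finset.coe_mem, dite_true, Subtype.coe_eta]
      ring
  obtain ⟨m, v, hv⟩ := Matrix.posSemidef_iff_eq_sum_vecMulVec.mp hps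
  refine ⟨m, fun i g => if hg : g ∈ E then v i ⟨g, hg⟩ else 0, fun g hg h hh => ?_⟩
  have := congrFun (congrFun hv ⟨g, hg⟩) ⟨h, hh⟩
  simp only [Matrix.of_apply, Matrix.sum_apply, Matrix.vecMulVec_apply, star_trivial] at this
  rw [this]
  simp [hg, hh]

end CFB

open CFB

theorem t_CFB : S_CFB.{v} := by
  intro G E K hK R p f hf hE
  refine ⟨fun g h => ?_, ?_, fun c => ⟨?_, ?_⟩⟩
  · unfold cf Qr
    simp only [kpr_symm hK.symm f _ g h]
    ring
  · have hs := sumE hf hE
    calc ∑ g ∈ E, ∑ h ∈ E, |cf R p f K g h|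
        ≤ ∑ g ∈ E, ∑ h ∈ E, f g * (∑ r ∈ Finset.range R, |p r|) * f h := by
          refine Finset.sum_le_sum (fun g _ => Finset.sum_le_sum (fun h _ => ?_))
          unfold cf
          rw [abs_mul, abs_mul, abs_of_nonneg (hf.nonneg g), abs_of_nonneg (hf.nonneg h)]
          exact mul_le_mul_of_nonneg_right
            (mul_le_mul_of_nonneg_left (Qr_le hK hf R p g h) (hf.nonneg g)) (hf.nonneg h)
      _ = (∑ g ∈ E, f g) * (∑ r ∈ Finset.range R, |p r|) * ∑ h ∈ E, f h := by
          rw [Finset.sum_mul, Finset.sum_mul]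
          exact Finset.sum_congr rfl (fun g _ => (Finset.mul_sum _ _ _).symm)
      _ = _ := by rw [hs, one_mul, mul_one]
  · obtain ⟨m, W, hW⟩ := gram hK E
    have : qf E c K = ∑ i, ∑ j, (∑ g ∈ E, ∑ h ∈ E, c g h * W i g * W j h) ^ 2 := by
      have e1 : ∀ i j, (∑ g ∈ E, ∑ h ∈ E, c g h * W i g * W j h) ^ 2 =
          ∑ g ∈ E, ∑ h ∈ E, ∑ g' ∈ E, ∑ h' ∈ E,
            (c g h * W i g * W j h) * (c g' h' * W i g' * W j h') := by
        intro i j
        rw [sq, Finset.sum_mul]
        refine Finset.sum_congr rfl (fun g _ => ?_)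
        rw [Finset.sum_mul]
        refine Finset.sum_congr rfl (fun h _ => ?_)
        rw [Finset.mul_sum]
        refine Finset.sum_congr rfl (fun g' _ => ?_)
        rw [Finset.mul_sum]
      simp only [e1]
      unfold qf
      have e2 : ∀ g ∈ E, ∀ h ∈ E, ∀ g' ∈ E, ∀ h' ∈ E, c g h * c g' h' * K g g' * K h h' =
          ∑ i, ∑ j, (c g h * W i g * W j h) * (c g' h' * W i g' * W j h') := by
        intro g hg h hh g' hg' h' hh'
        rw [hW g hg g' hg', hW h hh h' hh', mul_assoc, Finset.sum_mul_sum, Finset.mul_sum]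
        refine Finset.sum_congr rfl (fun i _ => ?_)
        rw [Finset.mul_sum]
        exact Finset.sum_congr rfl (fun j _ => by ring)
      calc ∑ g ∈ E, ∑ h ∈ E, ∑ g' ∈ E, ∑ h' ∈ E, c g h * c g' h' * K g g' * K h h'
          = ∑ g ∈ E, ∑ h ∈ E, ∑ g' ∈ E, ∑ h' ∈ E, ∑ i, ∑ j,
              (c g h * W i g * W j h) * (c g' h' * W i g' * W j h') :=
            Finset.sum_congr rfl (fun g hg => Finset.sum_congr rfl (fun h hh =>
              Finset.sum_congr rfl (fun g' hg' => Finset.sum_congr rfl (fun h' hh' =>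
                e2 g hg h hh g' hg' h' hh'))))
        _ = _ := by
            simp only [Finset.sum_comm (s := E) (t := (Finset.univ : Finset (Fin m)))]
    rw [this]
    positivity
  · have hb : ∀ g h g' h', c g h * c g' h' * K g g' * K h h' ≤ |c g h| * |c g' h'| := by
      intro g h g' h'
      calc c g h * c g' h' * K g g' * K h h' ≤ |c g h * c g' h' * K g g' * K h h'| := le_abs_self _
        _ = |c g h| * |c g' h'| * (|K g g'| * |K h h'|) := by simp only [abs_mul]; ring
        _ ≤ |c g h| * |c g' h'| * (1 * 1) :=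
            mul_le_mul_of_nonneg_left (mul_le_mul (K_le hK _ _) (K_le hK _ _) (abs_nonneg _) zero_le_one)
              (by positivity)
        _ = |c g h| * |c g' h'| := by ring
    calc qf E c K ≤ ∑ g ∈ E, ∑ h ∈ E, ∑ g' ∈ E, ∑ h' ∈ E, |c g h| * |c g' h'| :=
          Finset.sum_le_sum (fun g _ => Finset.sum_le_sum (fun h _ => Finset.sum_le_sum (fun g' _ =>
            Finset.sum_le_sum (fun h' _ => hb g h g' h'))))
      _ = (∑ g ∈ E, ∑ h ∈ E, |c g h|) ^ 2 := by
          rw [sq, Finset.sum_mul]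
          refine Finset.sum_congr rfl (fun g _ => ?_)
          rw [Finset.sum_mul]
          refine Finset.sum_congr rfl (fun h _ => ?_)
          rw [Finset.mul_sum]
          refine Finset.sum_congr rfl (fun g' _ => ?_)
          rw [Finset.mul_sum]

end H215EZ
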