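import Pool.Agent.H215R2.EZ.Stubs

/-! Characteristic function bound (helper323). -/

open scoped ComplexOrder

namespace H215EZ

universe u

namespace CH

variable {M : Type u} [CStarAlgebra M]

theorem exp_eq (x : M) (hx : IsSelfAdjoint x) (t : ℝ) :
    NormedSpace.exp ((Complex.I * t) • x) = cfc (fun y : ℝ => Real.cos (t * y)) x +
      Complex.I • cfc (fun y : ℝ => Real.sin (t * y)) x := by
  have hn : IsStarNormal x := hx.isStarNormal
  have hn2 : IsStarNormal ((Complex.I * t) • x) := by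
    constructor
    rw [star_smul, hx.star_eq]
    exact (Commute.refl x).smul_left _ |>.smul_right _
  have h1 : NormedSpace.exp ((Complex.I * t) • x) =
      cfc (fun z : ℂ => Complex.exp ((Complex.I * t) * z)) x := by
    rw [← CFC.complex_exp_eq_normedSpace_exp hn2]
    exact (cfc_comp_const_mul (Complex.I * t) Complex.exp x (by fun_prop) hn).symm
  rw [h1, cfc_real_eq_complex (fun y : ℝ => Real.cos (t * y)) hx,
    cfc_real_eq_complex (fun y : ℝ => Real.sin (t * y)) hx,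
    ← cfc_const_mul Complex.I (fun z : ℂ => ((Real.sin (t * z.re) : ℝ) : ℂ)) x
      (by
        have : Continuous fun z : ℂ => ((Real.sin (t * z.re) : ℝ) : ℂ) := by fun_prop
        exact this.continuousOn),
    ← cfc_add (a := x) (fun z : ℂ => ((Real.cos (t * z.re) : ℝ) : ℂ))
      (fun z : ℂ => Complex.I * ((Real.sin (t * z.re) : ℝ) : ℂ))
      (by
        have : Continuous fun z : ℂ => ((Real.cos (t * z.re) : ℝ) : ℂ) := by fun_prop
        exact this.continuousOn)
      (by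
        have : Continuous fun z : ℂ => Complex.I * ((Real.sin (t * z.re) : ℝ) : ℂ) := by fun_prop
        exact this.continuousOn)]
  refine cfc_congr fun z hz => ?_
  have hz' : z = (z.re : ℂ) := hx.mem_spectrum_eq_re hz
  change Complex.exp (Complex.I * t * z) = ((Real.cos (t * z.re) : ℝ) : ℂ) +
    Complex.I * ((Real.sin (t * z.re) : ℝ) : ℂ)
  conv_lhs => rw [hz']
  have h2 : Complex.I * t * (z.re : ℂ) = ((t * z.re : ℝ) : ℂ) * Complex.I := by
    push_cast
    ring
  rw [h2, Complex.exp_mul_I, Complex.ofReal_cos, Complex.ofReal_sin]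
  ring

theorem mono {τ : M →ₗ[ℂ] ℂ} (hτ : IsTrSt τ) (x : M) (hx : IsSelfAdjoint x) (f g : ℝ → ℝ)
    (hf : Continuous f) (hg : Continuous g) (h : ∀ y, f y ≤ g y) :
    (τ (cfc f x)).re ≤ (τ (cfc g x)).re := by
  have h1 : star (cfc (fun y => √(g y - f y)) x) * cfc (fun y => √(g y - f y)) x =
      cfc g x - cfc f x := by
    have hc : Continuous fun y => √(g y - f y) := (hg.sub hf).sqrt
    rw [← cfc_star, ← cfc_mul _ _ x (by exact hc.continuousOn) (by exact hc.continuousOn),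
      ← cfc_sub g f x (by exact hg.continuousOn) (by exact hf.continuousOn)]
    congr 1
    funext y
    rw [star_trivial, Real.mul_self_sqrt (sub_nonneg.2 (h y))]
  have h2 := hτ.nonneg (cfc (fun y => √(g y - f y)) x)
  rw [h1, map_sub] at h2
  have h3 := (Complex.le_def.1 h2).1
  rw [Complex.sub_re, Complex.zero_re] at h3
  linarith

theorem poly {τ : M →ₗ[ℂ] ℂ} (hτ : IsTrSt τ) (x : M) (hx : IsSelfAdjoint x)
    (h0 : τ x = 0) (a0 a1 a2 a4 : ℝ) :
    (τ (cfc (fun y : ℝ => a0 + a1 * y + a2 * y ^ 2 + a4 * y ^ 4) x)).re =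
      a0 + a2 * (τ (x * x)).re + a4 * (τ (x * x * x * x)).re := by
  have h1 : cfc (fun y : ℝ => a0 + a1 * y + a2 * y ^ 2 + a4 * y ^ 4) x =
      Polynomial.aeval x (Polynomial.C a0 + Polynomial.C a1 * Polynomial.X +
        Polynomial.C a2 * Polynomial.X ^ 2 + Polynomial.C a4 * Polynomial.X ^ 4) := by
    rw [← cfc_polynomial _ x hx]
    congr 1
    funext y
    simp
  rw [h1]
  simp only [map_add, map_mul, map_pow, Polynomial.aeval_C, Polynomial.aeval_X,
    Algebra.algebraMap_eq_smul_one, smul_mul_assoc, one_mul]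
  have hs : ∀ (r : ℝ) (z : M), τ (r • z) = (r : ℂ) * τ z := by
    intro r z
    rw [← Complex.coe_smul, map_smul, smul_eq_mul]
  have h4 : x ^ 4 = x * x * x * x := by
    rw [pow_succ, pow_succ, pow_two]
  rw [hs, hs, hs, hs, hτ.one, h0, pow_two, h4]
  simp

theorem real_of_sa (hBAS : S_BAS.{u}) {τ : M →ₗ[ℂ] ℂ} (hτ : IsTrSt τ) (y : M)
    (hy : IsSelfAdjoint y) : τ y = ((τ y).re : ℂ) := by
  have h1 := (hBAS M τ hτ).2.1 y
  rw [hy.star_eq] at h1
  exact (Complex.conj_eq_iff_re.1 h1.symm).symm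

theorem cos_bd (u : ℝ) : |Real.cos u - (1 - u ^ 2 / 2)| ≤ 5 / 2 * u ^ 4 := by
  rcases le_or_gt |u| 1 with h | h
  · refine (Real.cos_bound h).trans ?_
    have : |u| ^ 4 = u ^ 4 := by
      rw [← abs_pow, abs_of_nonneg]
      positivity
    rw [this]
    nlinarith [sq_nonneg (u ^ 2)]
  · have h2 : 1 ≤ u ^ 2 := by
      rw [← sq_abs]
      nlinarith
    rw [abs_le]
    constructor
    · nlinarith [Real.neg_one_le_cos u]
    · nlinarith [Real.cos_le_one u]

theorem sin_bd (u : ℝ) : |Real.sin u - u| ≤ 2 * |u| ^ 3 := by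
  rcases le_or_gt |u| 1 with h | h
  · have h1 := Real.sin_bound h
    have h2 : |u ^ 3 / 6| = |u| ^ 3 / 6 := by
      rw [abs_div, abs_pow]
      norm_num
    have h3 : |u| ^ 5 ≤ |u| ^ 3 := pow_le_pow_of_le_one (abs_nonneg _) h (by norm_num)
    have h4 : Real.sin u - u = (Real.sin u - (u - u ^ 3 / 6)) + (-(u ^ 3 / 6)) := by ring
    rw [h4]
    refine (abs_add_le _ _).trans ?_
    rw [abs_neg, h2]
    have h5 : 0 ≤ |u| ^ 3 := by positivity
    linarith
  · have h1 : |Real.sin u - u| ≤ 1 + |u| := by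
      refine (abs_sub _ _).trans ?_
      linarith [Real.abs_sin_le_one u]
    have h2 : |u| ≤ |u| ^ 3 := by
      calc |u| = |u| ^ 1 := (pow_one _).symm
        _ ≤ |u| ^ 3 := pow_le_pow_right₀ h.le (by norm_num)
    linarith

end CH

open CH in
/-- CH -/
theorem t_CH (hBAS : S_BAS.{u}) : S_CH.{u} := by
  intro B hB
  refine ⟨min 1 (1 / (18 * B)), by positivity, ?_⟩
  intro M _ τ hτ x hx h0 h1 h2 h3 t ht
  have hx' : IsSelfAdjoint x := hx
  have ht1 : |t| ≤ 1 := ht.trans (min_le_left _ _)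
  have ht2 : |t| * (18 * B) ≤ 1 := by
    have := ht.trans (min_le_right _ _)
    rwa [le_div_iff₀ (by positivity)] at this
  have hx4 : 0 ≤ (τ (x * x * x * x)).re := by
    have := mono hτ x hx' (fun _ => 0) (fun y => 0 + 0 * y + 0 * y ^ 2 + 1 * y ^ 4)
      continuous_const (by fun_prop) (fun y => by
        have : 0 ≤ y ^ 4 := by positivity
        change (0 : ℝ) ≤ 0 + 0 * y + 0 * y ^ 2 + 1 * y ^ 4
        linarith)
    rw [poly hτ x hx' h0] at this
    simpa using this
  rw [exp_eq x hx' t, map_add, map_smul, smul_eq_mul]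
  set c := cfc (fun y : ℝ => Real.cos (t * y)) x with hc
  set s := cfc (fun y : ℝ => Real.sin (t * y)) x with hs
  have hcr : τ c = ((τ c).re : ℂ) := real_of_sa hBAS hτ c (cfc_predicate _ _)
  have hsr : τ s = ((τ s).re : ℂ) := real_of_sa hBAS hτ s (cfc_predicate _ _)
  have hcu : (τ c).re ≤ 1 - t ^ 2 / 2 * (τ (x * x)).re +
      5 / 2 * t ^ 4 * (τ (x * x * x * x)).re := by
    have := mono hτ x hx' (fun y => Real.cos (t * y))
      (fun y => 1 + 0 * y + (-(t ^ 2 / 2)) * y ^ 2 + (5 / 2 * t ^ 4) * y ^ 4) (by fun_prop)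
      (by fun_prop) (fun y => by
        have := (abs_le.1 (cos_bd (t * y))).2
        nlinarith)
    rw [poly hτ x hx' h0] at this
    linarith
  have hcl : 1 - t ^ 2 / 2 * (τ (x * x)).re -
      5 / 2 * t ^ 4 * (τ (x * x * x * x)).re ≤ (τ c).re := by
    have := mono hτ x hx'
      (fun y => 1 + 0 * y + (-(t ^ 2 / 2)) * y ^ 2 + (-(5 / 2 * t ^ 4)) * y ^ 4)
      (fun y => Real.cos (t * y)) (by fun_prop) (by fun_prop) (fun y => by
        have := (abs_le.1 (cos_bd (t * y))).1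
        nlinarith)
    rw [poly hτ x hx' h0] at this
    linarith
  have hy3 : ∀ y : ℝ, 2 * |t * y| ^ 3 ≤ |t| ^ 3 * y ^ 2 + |t| ^ 3 * y ^ 4 := by
    intro y
    have h5 : 2 * |y| ^ 3 ≤ y ^ 2 + y ^ 4 := by
      have h6 : y ^ 2 = |y| ^ 2 := (sq_abs y).symm
      have h7 : y ^ 4 = |y| ^ 4 := by
        rw [← abs_pow, abs_of_nonneg]
        positivity
      rw [h6, h7]
      nlinarith [mul_nonneg (sq_nonneg |y|) (sq_nonneg (|y| - 1))]
    rw [abs_mul, mul_pow]
    have h8 : 0 ≤ |t| ^ 3 := by positivity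
    nlinarith
  have hsu : (τ s).re ≤ |t| ^ 3 * (τ (x * x)).re + |t| ^ 3 * (τ (x * x * x * x)).re := by
    have := mono hτ x hx' (fun y => Real.sin (t * y))
      (fun y => 0 + t * y + |t| ^ 3 * y ^ 2 + |t| ^ 3 * y ^ 4) (by fun_prop)
      (by fun_prop) (fun y => by
        have h9 := (abs_le.1 (sin_bd (t * y))).2
        have := hy3 y
        linarith)
    rw [poly hτ x hx' h0] at this
    linarith
  have hsl : -(|t| ^ 3 * (τ (x * x)).re + |t| ^ 3 * (τ (x * x * x * x)).re) ≤ (τ s).re := by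
    have := mono hτ x hx'
      (fun y => 0 + t * y + (-(|t| ^ 3)) * y ^ 2 + (-(|t| ^ 3)) * y ^ 4)
      (fun y => Real.sin (t * y)) (by fun_prop)
      (by fun_prop) (fun y => by
        have h9 := (abs_le.1 (sin_bd (t * y))).1
        have := hy3 y
        linarith)
    rw [poly hτ x hx' h0] at this
    linarith
  have ht3 : |t| ^ 3 = |t| * t ^ 2 := by
    rw [← sq_abs t]
    ring
  have htsq : t ^ 2 ≤ |t| := by
    rw [← sq_abs t]
    nlinarith [abs_nonneg t]
  have ht4 : t ^ 4 ≤ |t| * t ^ 2 := by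
    have : t ^ 4 = t ^ 2 * t ^ 2 := by ring
    rw [this]
    exact mul_le_mul_of_nonneg_right htsq (sq_nonneg t)
  set p := (τ (x * x)).re with hp
  set q := (τ (x * x * x * x)).re with hq
  set w := |t| * t ^ 2 with hw
  have hw0 : 0 ≤ w := by positivity
  have hwB : w * (18 * B) ≤ t ^ 2 := by
    have := mul_le_mul_of_nonneg_right ht2 (sq_nonneg t)
    calc w * (18 * B) = |t| * (18 * B) * t ^ 2 := by rw [hw]; ring
      _ ≤ 1 * t ^ 2 := this
      _ = t ^ 2 := one_mul _
  have e1 : 5 / 2 * t ^ 4 * q ≤ 5 / 2 * (w * B) := by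
    have := mul_le_mul ht4 h3 hx4 hw0
    linarith
  have e2 : |t| ^ 3 * p + |t| ^ 3 * q ≤ 2 * (w * B) := by
    rw [ht3]
    have e3 := mul_le_mul_of_nonneg_left h2 hw0
    have e4 := mul_le_mul_of_nonneg_left h3 hw0
    linarith
  have e5 : t ^ 2 / 2 * 1 ≤ t ^ 2 / 2 * p := mul_le_mul_of_nonneg_left h1 (by positivity)
  have e6 : t ^ 2 / 2 * p ≤ t ^ 2 / 2 * B := mul_le_mul_of_nonneg_left h2 (by positivity)
  have e7 : t ^ 2 * (18 * B) ≤ 1 := by
    have := mul_le_mul_of_nonneg_right htsq (show 0 ≤ 18 * B by positivity)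
    linarith
  have e8 : t ^ 2 ≤ 1 := htsq.trans ht1
  have hcabs : |(τ c).re| ≤ 1 - t ^ 2 / 2 + 5 / 2 * (w * B) := by
    rw [abs_le]
    constructor <;> nlinarith
  have hsabs : |(τ s).re| ≤ 2 * (w * B) := by
    rw [abs_le]
    constructor <;> linarith
  calc ‖τ c + Complex.I * τ s‖ ≤ ‖τ c‖ + ‖Complex.I * τ s‖ := norm_add_le _ _
    _ = |(τ c).re| + |(τ s).re| := by
        rw [norm_mul, Complex.norm_I, one_mul, hcr, hsr, Complex.norm_real, Complex.norm_real,
          Complex.ofReal_re, Complex.ofReal_re, Real.norm_eq_abs, Real.norm_eq_abs]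
    _ ≤ 1 - t ^ 2 / 4 := by linarith

end H215EZ
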