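import Pool.Agent.H215R2.EZ.Stubs

/-!
Project EZ, task CHO: inductive choice of the copies.
-/

open scoped ComplexOrder Topology BoundedContinuousFunction
open Filter

namespace H215EZ

universe u v

namespace CHO

variable {A : Type u} [CStarAlgebra A]

/-- composition of a functional with an automorphism -/
noncomputable def pull (τ : A →ₗ[ℂ] ℂ) (φ : A ≃⋆ₐ[ℂ] A) : A →ₗ[ℂ] ℂ where
  toFun x := τ (φ x)
  map_add' x y := by simp
  map_smul' c x := by simp

theorem pull_apply (τ : A →ₗ[ℂ] ℂ) (φ : A ≃⋆ₐ[ℂ] A) (x : A) : pull τ φ x = τ (φ x) := rfl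

theorem pull_tr {τ : A →ₗ[ℂ] ℂ} (h : IsTrSt τ) (φ : A ≃⋆ₐ[ℂ] A) : IsTrSt (pull τ φ) := by
  refine ⟨?_, ?_, ?_⟩
  · rw [pull_apply, map_one, h.one]
  · intro a
    rw [pull_apply, map_mul, map_star]
    exact h.nonneg _
  · intro a b
    rw [pull_apply, pull_apply, map_mul φ a b, map_mul φ b a]
    exact h.tr _ _

theorem n2_pull (τ : A →ₗ[ℂ] ℂ) (φ : A ≃⋆ₐ[ℂ] A) (x : A) : n2 (pull τ φ) x = n2 τ (φ x) := by
  unfold n2
  rw [pull_apply, map_mul, map_star]

variable {G : Type v} [Group G]

theorem act_mul (α : G →* (A ≃⋆ₐ[ℂ] A)) (g h : G) (y : A) :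
    α g (α (g⁻¹ * h) y) = α h y := by
  have h1 : (α g * α (g⁻¹ * h)) y = α h y := by
    rw [← map_mul, mul_inv_cancel_left]
  exact h1

theorem act_inv (α : G →* (A ≃⋆ₐ[ℂ] A)) (g : G) (y : A) :
    α g (α g⁻¹ y) = y := by
  have h1 : (α g * α g⁻¹) y = y := by
    rw [← map_mul, mul_inv_cancel, map_one]
    rfl
  exact h1

theorem step (α : G →* (A ≃⋆ₐ[ℂ] A)) (τ : A →ₗ[ℂ] ℂ) (g h : G) (x y : A) :
    n2 τ (α g x * α h y - α h y * α g x) =
      n2 (pull τ (α g)) (x * α (g⁻¹ * h) y - α (g⁻¹ * h) y * x) := by
  rw [n2_pull, map_sub, map_mul (α g) x, map_mul (α g) _ x, act_mul]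

theorem step' (α : G →* (A ≃⋆ₐ[ℂ] A)) (τ : A →ₗ[ℂ] ℂ) (g : G) (x a : A) :
    n2 τ (α g x * a - a * α g x) =
      n2 (pull τ (α g)) (x * α g⁻¹ a - α g⁻¹ a * x) := by
  rw [n2_pull, map_sub, map_mul (α g) x, map_mul (α g) _ x, act_inv]

end CHO

open CHO in
theorem t_CHO (hBAS : S_BAS.{u}) : S_CHO.{u, v} := by
  classical
  intro A _ hA G _ α I _ E F ε hε
  have key : ∀ J : Finset I, ∃ v : I → A, (∀ i, ‖v i‖ ≤ 1) ∧ ∀ τ : A →ₗ[ℂ] ℂ, IsTrSt τ →
      (∀ g ∈ E, ∀ i ∈ J, n2 τ (α g (v i) * α g (v i)) ≤ ε ∧
        n2 τ (star (α g (v i)) * α g (v i) + α g (v i) * star (α g (v i)) - 1) ≤ ε ∧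
        ∀ a ∈ F, n2 τ (α g (v i) * a - a * α g (v i)) ≤ ε) ∧
      (∀ g ∈ E, ∀ h ∈ E, ∀ i ∈ J, ∀ j ∈ J, i ≠ j →
        n2 τ (α g (v i) * α h (v j) - α h (v j) * α g (v i)) ≤ ε ∧
        n2 τ (α g (v i) * star (α h (v j)) - star (α h (v j)) * α g (v i)) ≤ ε) := by
    intro J
    induction J using Finset.induction_on with
    | empty =>
      refine ⟨fun _ => 0, fun i => by simp, fun τ _ => ⟨?_, ?_⟩⟩
      · intro g _ i hi
        simp at hi
      · intro g _ h _ i hi
        simp at hi
    | insert i₀ J hi₀ ih =>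
      obtain ⟨v, hv1, hv⟩ := ih
      set F' : Finset A := (E ×ˢ F).image (fun p => α p.1⁻¹ p.2) ∪
        ((E ×ˢ E) ×ˢ J).image (fun p => α (p.1.1⁻¹ * p.1.2) (v p.2)) ∪
        ((E ×ˢ E) ×ˢ J).image (fun p => α (p.1.1⁻¹ * p.1.2) (star (v p.2))) with hF'
      obtain ⟨v₀, h0, h1⟩ := hA F' ε hε
      have hne : ∀ j ∈ J, j ≠ i₀ := fun j hj h => hi₀ (h ▸ hj)
      refine ⟨Function.update v i₀ v₀, ?_, ?_⟩
      · intro i
        by_cases hi : i = i₀
        · subst hi
          rw [Function.update_self]
          exact h0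
        · rw [Function.update_of_ne hi]
          exact hv1 i
      · intro τ hτ
        obtain ⟨hb1, hb2, hb3, hb4, hb5, hb6, hb7⟩ := hBAS A τ hτ
        obtain ⟨hp, hq⟩ := hv τ hτ
        have hA1 : ∀ g ∈ E, ∀ h ∈ E, ∀ j ∈ J,
            n2 τ (α g v₀ * α h (v j) - α h (v j) * α g v₀) ≤ ε ∧
            n2 τ (α g v₀ * star (α h (v j)) - star (α h (v j)) * α g v₀) ≤ ε := by
          intro g hg h hh j hj
          obtain ⟨-, -, h4⟩ := h1 (pull τ (α g)) (pull_tr hτ _)
          constructor
          · rw [step]
            apply h4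
            rw [hF']
            apply Finset.mem_union_left
            apply Finset.mem_union_right
            exact Finset.mem_image.2 ⟨((g, h), j), by simp [hg, hh, hj], rfl⟩
          · rw [← map_star, step]
            apply h4
            rw [hF']
            apply Finset.mem_union_right
            exact Finset.mem_image.2 ⟨((g, h), j), by simp [hg, hh, hj], rfl⟩
        constructor
        · intro g hg i hi
          rcases Finset.mem_insert.1 hi with rfl | hi
          · rw [Function.update_self]
            obtain ⟨h2, h3, h4⟩ := h1 (pull τ (α g)) (pull_tr hτ _)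
            refine ⟨?_, ?_, ?_⟩
            · rw [n2_pull, map_mul] at h2
              exact h2
            · rw [n2_pull] at h3
              simpa only [map_sub, map_add, map_mul, map_star, map_one] using h3
            · intro a ha
              rw [step']
              apply h4
              rw [hF']
              apply Finset.mem_union_left
              apply Finset.mem_union_left
              exact Finset.mem_image.2 ⟨(g, a), by simp [hg, ha], rfl⟩
          · rw [Function.update_of_ne (hne i hi)]
            exact hp g hg i hi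
        · intro g hg h hh i hi j hj hij
          rcases Finset.mem_insert.1 hi with rfl | hi2
          · rcases Finset.mem_insert.1 hj with rfl | hj2
            · exact absurd rfl hij
            · rw [Function.update_self, Function.update_of_ne (hne j hj2)]
              exact hA1 g hg h hh j hj2
          · rcases Finset.mem_insert.1 hj with hj0 | hj2
            · subst hj0
              rw [Function.update_self, Function.update_of_ne (hne i hi2)]
              obtain ⟨h5, h6⟩ := hA1 h hh g hg i hi2
              constructor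
              · have : α g (v i) * α h v₀ - α h v₀ * α g (v i) =
                    (-1 : ℂ) • (α h v₀ * α g (v i) - α g (v i) * α h v₀) := by
                  rw [neg_one_smul, neg_sub]
                rw [this, hb5]
                simpa using h5
              · rw [← hb6]
                have : star (α g (v i) * star (α h v₀) - star (α h v₀) * α g (v i)) =
                    α h v₀ * star (α g (v i)) - star (α g (v i)) * α h v₀ := by
                  rw [star_sub, star_mul, star_mul, star_star]
                rw [this]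
                exact h6
            · rw [Function.update_of_ne (hne i hi2), Function.update_of_ne (hne j hj2)]
              exact hq g hg h hh i hi2 j hj2 hij
  obtain ⟨v, hv1, hv⟩ := key Finset.univ
  refine ⟨v, hv1, fun τ hτ => ⟨?_, ?_⟩⟩
  · intro g hg i
    exact (hv τ hτ).1 g hg i (Finset.mem_univ _)
  · intro g hg h hh i j hij
    exact (hv τ hτ).2 g hg h hh i (Finset.mem_univ _) j (Finset.mem_univ _) hij

end H215EZ
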