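import Pool.Agent.H215R2.EZ.Stubs

/-!
Project EZ, task CHR: the characteristic function of `Zs`.
-/

open scoped ComplexOrder Topology BoundedContinuousFunction
open Filter

namespace H215EZ

universe u v

namespace CHR

/-- the moments of one block -/
theorem block (hEBLK : S_BLK.{u, v}) (hKB : S_KB.{u, v}) (hM2 : S_M2.{u, v})
    (hM4 : S_M4.{u, v}) (hXSA : S_XSA.{u, v}) (hPS : S_PS.{v}) (hCFB : S_CFB.{v})
    (n R : ℕ) (p : ℕ → ℝ) (η : ℝ) (hη : 0 ≤ η) (hp : IsSqrtPoly R p η)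
    (hn : η * Real.sqrt n ≤ 1 / 8) (N k : ℕ)
    (hk : 4 * (∑ r ∈ Finset.range R, |p r|) ^ 2 ≤ k)
    (M : Type u) [CStarAlgebra M] (σ : M →ₗ[ℂ] ℂ) (G : Type v)
    (C : Set (Fin N × Fin k) → StarSubalgebra ℂ M) (w : G → Fin N × Fin k → M)
    (hI : Ind σ C w) (hk0 : 0 < k) (f : G →₀ ℝ) (hf : IsProb f) (hfn : f.support.card ≤ n)
    (m : Fin N) (x : M) (hx : x = Xs σ R p f k fun g i => w g (m, i)) :
    star x = x ∧ σ x = 0 ∧ x ∈ C {q | q.1 = m ∧ q.2 ∈ Set.univ} ∧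
      1 ≤ (σ (x * x)).re ∧ (σ (x * x)).re ≤ 3 ∧
      (σ (x * x * x * x)).re ≤ 4 ^ 8 * (∑ r ∈ Finset.range R, |p r|) ^ 4 := by
  classical
  obtain ⟨P, hP⟩ : ∃ P : ℝ, P = ∑ r ∈ Finset.range R, |p r| := ⟨_, rfl⟩
  have hP0 : 0 ≤ P := by
    rw [hP]
    exact Finset.sum_nonneg fun _ _ => abs_nonneg _
  rw [← hP] at hk ⊢
  have hB := hEBLK M σ G N k C w hI m
  obtain ⟨hK1, hK2, -, -, -⟩ := hKB M σ G k _ _ hB hk0
  obtain ⟨c, hc⟩ : ∃ c, c = cf R p f (kbar σ k fun g i => w g (m, i)) := ⟨_, rfl⟩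
  have hxc : x = Xc k (fun g i => w g (m, i)) f.support c := by
    rw [hx, hc]
    rfl
  obtain ⟨hcs, hcP, hcq⟩ := hCFB G f.support _ hK2 R p f hf subset_rfl
  rw [← hc] at hcs hcP
  rw [← hP] at hcP
  have hcP0 : 0 ≤ ∑ g ∈ f.support, ∑ h ∈ f.support, |c g h| :=
    Finset.sum_nonneg fun _ _ => Finset.sum_nonneg fun _ _ => abs_nonneg _
  obtain ⟨x1, x2, x3, -⟩ := hXSA M σ G k _ _ hB f.support c hcs
  rw [← hxc] at x1 x2 x3
  have hm2 := hM2 M σ G k _ _ hB hk0 f.support c hcs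
  have hm4 := hM4 M σ G k _ _ hB hk0 f.support c
  rw [← hxc] at hm2 hm4
  obtain ⟨q1, q2, -⟩ := hPS G f.support _ hK2 R p η hη hp f f hf hf subset_rfl subset_rfl
  rw [← hc] at q1 q2
  obtain ⟨Q, hQ⟩ : ∃ Q : ℝ, Q = qf f.support c (kbar σ k fun g i => w g (m, i)) := ⟨_, rfl⟩
  have hQ0 : 0 ≤ Q := by
    rw [hQ]
    exact (hcq c).1
  rw [← hQ] at q1 q2 hm2
  have hsq : η * Real.sqrt (f.support.card : ℝ) ≤ 1 / 8 := by
    refine le_trans (mul_le_mul_of_nonneg_left (Real.sqrt_le_sqrt ?_) hη) hn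
    exact_mod_cast hfn
  have hQl : 49 / 64 ≤ Q := by
    have h1 : (7 / 8 : ℝ) ≤ Real.sqrt Q := by linarith
    have h2 := Real.sq_sqrt hQ0
    nlinarith
  have hQu : Q ≤ 81 / 64 := by
    have h1 : Real.sqrt Q ≤ 9 / 8 := by linarith
    have h2 := Real.sq_sqrt hQ0
    have h3 := Real.sqrt_nonneg Q
    nlinarith
  obtain ⟨S, hS⟩ : ∃ S : ℝ, S = ∑ i, qf f.support c (kap σ (fun g i => w g (m, i)) i) :=
    ⟨_, rfl⟩
  have hS0 : 0 ≤ S := by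
    rw [hS]
    refine Finset.sum_nonneg fun i _ => ?_
    exact ((hCFB G f.support _ (hK1 i) R p f hf subset_rfl).2.2 c).1
  have hS1 : S ≤ k * P ^ 2 := by
    rw [hS]
    calc ∑ i, qf f.support c (kap σ (fun g i => w g (m, i)) i)
        ≤ ∑ _i : Fin k, P ^ 2 := by
          refine Finset.sum_le_sum fun i _ => ?_
          refine ((hCFB G f.support _ (hK1 i) R p f hf subset_rfl).2.2 c).2.trans ?_
          exact pow_le_pow_left₀ hcP0 hcP 2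
      _ = k * P ^ 2 := by simp
  rw [← hS] at hm2
  have hk' : (0 : ℝ) < k := by exact_mod_cast hk0
  have hSk : 2 * (k : ℝ)⁻¹ ^ 2 * S ≤ 1 / 2 := by
    have h1 : 2 * (k : ℝ)⁻¹ ^ 2 * S ≤ 2 * (k : ℝ)⁻¹ ^ 2 * (k * P ^ 2) :=
      mul_le_mul_of_nonneg_left hS1 (by positivity)
    have h2 : 2 * (k : ℝ)⁻¹ ^ 2 * (k * P ^ 2) = 2 * P ^ 2 / k := by
      field_simp
    rw [h2] at h1
    refine h1.trans ?_
    rw [div_le_iff₀ hk']
    linarith
  have hSk0 : 0 ≤ 2 * (k : ℝ)⁻¹ ^ 2 * S := by positivity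
  have hre : (σ (x * x)).re = 2 * Q - 2 * (k : ℝ)⁻¹ ^ 2 * S := by
    rw [hm2, Complex.ofReal_re]
  refine ⟨x1, x2, x3, ?_, ?_, ?_⟩
  · rw [hre]
    linarith
  · rw [hre]
    linarith
  · refine (Complex.re_le_norm _).trans (hm4.trans ?_)
    exact mul_le_mul_of_nonneg_left (pow_le_pow_left₀ hcP0 hcP 4) (by norm_num)

end CHR

theorem t_CHR (_hBAS : S_BAS.{u}) (hCH : S_CH.{u}) (hEXC : S_EXC.{u, v}) (hBLK : S_BLK.{u, v})
    (hKB : S_KB.{u, v}) (hM2 : S_M2.{u, v}) (hM4 : S_M4.{u, v}) (hXSA : S_XSA.{u, v})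
    (hPS : S_PS.{v}) (hCFB : S_CFB.{v}) : S_CHR.{u, v} := by
  intro A hA T n R p η hη hp hn
  obtain ⟨P, hP⟩ : ∃ P : ℝ, P = ∑ r ∈ Finset.range R, |p r| := ⟨_, rfl⟩
  have hP0 : 0 ≤ P := by
    rw [hP]
    exact Finset.sum_nonneg fun _ _ => abs_nonneg _
  obtain ⟨t₀, ht0, hch⟩ := hCH (3 + 4 ^ 8 * P ^ 4) (by positivity)
  refine ⟨⌈(T * A / t₀) ^ 2⌉₊, fun N hN hN0 => ⟨⌈4 * P ^ 2⌉₊, ?_⟩⟩
  intro k hk M _ σ G C w hI hk0 f hf hfn r hr1 hrT
  have hk1 : 4 * P ^ 2 ≤ k := (Nat.le_ceil _).trans (by exact_mod_cast hk)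
  have hN' : (0 : ℝ) < N := by exact_mod_cast hN0
  have hsN : 0 < Real.sqrt N := Real.sqrt_pos.2 hN'
  have hN1 : (T * A / t₀) ^ 2 ≤ N := (Nat.le_ceil _).trans (by exact_mod_cast hN)
  have hN2 : T * A / t₀ ≤ Real.sqrt N := Real.le_sqrt_of_sq_le hN1
  obtain ⟨t, ht⟩ : ∃ t : ℝ, t = r * (A / Real.sqrt N) := ⟨_, rfl⟩
  have hr1' : (1 : ℝ) ≤ r := by exact_mod_cast hr1
  have htpos : 0 < t := by
    rw [ht]
    positivity
  have htt : |t| ≤ t₀ := by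
    rw [abs_of_pos htpos, ht, ← mul_div_assoc, div_le_iff₀ hsN]
    rw [div_le_iff₀ ht0] at hN2
    have h1 : (r : ℝ) * A ≤ T * A :=
      mul_le_mul_of_nonneg_right (by exact_mod_cast hrT) hA.le
    linarith
  obtain ⟨X, hX⟩ : ∃ X : Fin N → M, X = fun m => Xs σ R p f k fun g i => w g (m, i) := ⟨_, rfl⟩
  have hblock := fun m => CHR.block hBLK hKB hM2 hM4 hXSA hPS hCFB n R p η hη hp hn N k
    (by rw [← hP]; exact hk1) M σ G C w hI hk0 f hf hfn m (X m) (by rw [hX])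
  have hZ : (Complex.I * (r : ℂ)) • Zs σ R p (A / Real.sqrt N) N k f w =
      ∑ m, (Complex.I * (t : ℂ)) • X m := by
    unfold Zs
    rw [hX, ← Finset.smul_sum, smul_smul, ht]
    congr 1
    push_cast
    ring
  rw [hZ]
  obtain ⟨e1, -⟩ := hEXC M σ G (Fin N × Fin k) C w hI N (fun m => (Complex.I * (t : ℂ)) • X m)
    (fun m => {q | q.1 = m ∧ q.2 ∈ Set.univ})
    (by
      intro m m' hmm
      rw [Set.disjoint_left]
      rintro q ⟨h1, -⟩ ⟨h2, -⟩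
      exact hmm (h1.symm.trans h2))
    (fun m => (C _).smul_mem (hblock m).2.2.1 _)
  rw [e1, norm_prod]
  have hexp : ∀ m, ‖σ (NormedSpace.exp ((Complex.I * (t : ℂ)) • X m))‖ ≤
      Real.exp (-(t ^ 2 / 4)) := by
    intro m
    obtain ⟨b1, b2, -, b4, b5, b6⟩ := hblock m
    rw [← hP] at b6
    have h4 : (0 : ℝ) ≤ 4 ^ 8 * P ^ 4 := by positivity
    have h := hch M σ hI.ts (X m) b1 b2 b4 (by linarith) (by linarith) t htt
    refine h.trans ?_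
    have := Real.add_one_le_exp (-(t ^ 2 / 4))
    linarith
  calc ∏ m, ‖σ (NormedSpace.exp ((Complex.I * (t : ℂ)) • X m))‖
      ≤ ∏ _m : Fin N, Real.exp (-(t ^ 2 / 4)) :=
        Finset.prod_le_prod (fun _ _ => norm_nonneg _) fun m _ => hexp m
    _ = Real.exp (-(N * (t ^ 2 / 4))) := by
        rw [Finset.prod_const, Finset.card_univ, Fintype.card_fin, ← Real.exp_nat_mul]
        congr 1
        ring
    _ ≤ Real.exp (-(A ^ 2 / 4)) := by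
        refine Real.exp_le_exp.2 ?_
        have h1 : (N : ℝ) * t ^ 2 = r ^ 2 * A ^ 2 := by
          rw [ht, mul_pow, div_pow, Real.sq_sqrt hN'.le]
          field_simp
        have h2 : A ^ 2 ≤ r ^ 2 * A ^ 2 := by
          have h3 : (1 : ℝ) ≤ (r : ℝ) ^ 2 := one_le_pow₀ hr1'
          have h4 := sq_nonneg A
          nlinarith
        linarith

end H215EZ
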