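import Pool.Agent.H215R2.EZ.Stubs

/-!
# The number of maps from eight points all of whose values are taken at least twice
-/

namespace H215EZ

theorem CNT.card_image {k : ℕ} (a : Fin 8 → Fin k) (ha : ∀ i, ∃ j, j ≠ i ∧ a j = a i) :
    (Finset.univ.image a).card ≤ 4 := by
  have h1 : (Finset.univ : Finset (Fin 8)).card =
      ∑ b ∈ Finset.univ.image a, (Finset.univ.filter fun i => a i = b).card :=
    Finset.card_eq_sum_card_image a Finset.univ
  have h2 : ∀ b ∈ Finset.univ.image a, 2 ≤ (Finset.univ.filter fun i => a i = b).card := by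
    intro b hb
    obtain ⟨i, -, rfl⟩ := Finset.mem_image.1 hb
    obtain ⟨j, hj, hja⟩ := ha i
    apply Finset.one_lt_card.2
    exact ⟨j, by simp [hja], i, by simp, hj⟩
  have h3 := Finset.sum_le_sum h2
  rw [← h1, Finset.card_fin, Finset.sum_const, smul_eq_mul] at h3
  omega

theorem t_CNT : S_CNT := by
  intro k
  have hsub : (Finset.univ.filter fun a : Fin 8 → Fin k => ∀ i, ∃ j, j ≠ i ∧ a j = a i) ⊆
      Finset.univ.image (fun p : (Fin 4 → Fin k) × (Fin 8 → Fin 4) => p.1 ∘ p.2) := by
    intro a ha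
    rw [Finset.mem_filter] at ha
    have hc := CNT.card_image a ha.2
    rw [Finset.mem_image]
    let e := (Finset.univ.image a).equivFin
    refine ⟨(fun x => if hx : (x : ℕ) < (Finset.univ.image a).card then (e.symm ⟨x, hx⟩).1 else a 0,
      fun i => Fin.castLE hc (e ⟨a i, Finset.mem_image_of_mem a (Finset.mem_univ i)⟩)),
      Finset.mem_univ _, ?_⟩
    funext i
    show (if hx : ((Fin.castLE hc (e ⟨a i, _⟩) : Fin 4) : ℕ) < (Finset.univ.image a).card then
      (e.symm ⟨_, hx⟩).1 else a 0) = a i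
    have hlt : ((Fin.castLE hc (e ⟨a i, Finset.mem_image_of_mem a (Finset.mem_univ i)⟩) :
        Fin 4) : ℕ) < (Finset.univ.image a).card := by
      rw [Fin.val_castLE]
      exact Fin.isLt _
    rw [dif_pos hlt]
    have h5 : (⟨((Fin.castLE hc (e ⟨a i, Finset.mem_image_of_mem a (Finset.mem_univ i)⟩) :
        Fin 4) : ℕ), hlt⟩ : Fin (Finset.univ.image a).card) =
        e ⟨a i, Finset.mem_image_of_mem a (Finset.mem_univ i)⟩ := by
      apply Fin.ext
      rfl
    rw [h5, Equiv.symm_apply_apply]
  refine (Finset.card_le_card hsub).trans ((Finset.card_image_le).trans ?_)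
  rw [Finset.card_univ, Fintype.card_prod, Fintype.card_fun, Fintype.card_fun]
  simp only [Fintype.card_fin]
  rw [mul_comm]

end H215EZ
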