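import Pool.Agent.H215R2.EZ.Defs

/-!
Project EZ: statements of the tasks (Props).  `t_X : S_X` goes to `Pool/Agent/H215R2/EZ/X.lean`.
-/

open scoped ComplexOrder Topology BoundedContinuousFunction
open Filter

namespace H215EZ

universe u v

/-- closed star algebra generated by the copies with index in `J` -/
noncomputable def CJ {M : Type*} [CStarAlgebra M] {G I : Type*} (V : G → I → M) (J : Set I) :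
    StarSubalgebra ℂ M :=
  (StarAlgebra.adjoin ℂ {x | ∃ g, ∃ i ∈ J, x = V g i}).topologicalClosure

/-- `Z` with scalar coefficients computed from the trace -/
noncomputable def Zs {M : Type*} [CStarAlgebra M] {G : Type*} (σ : M →ₗ[ℂ] ℂ)
    (R : ℕ) (p : ℕ → ℝ) (ξ : ℝ) (N k : ℕ) (f : G →₀ ℝ) (w : G → Fin N × Fin k → M) : M :=
  (ξ : ℂ) • ∑ m, Xs σ R p f k fun g i => w g (m, i)

/-- Rørdam-Winter / Toms-Winter criterion for Jiang-Su stability (unital case): approximately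
central generators of the prime dimension drop algebra `Z_{n+1,n+2}` -/
def ZSt (A : Type*) [CStarAlgebra A] : Prop :=
  ∀ (n : ℕ) (F : Finset A) (ε : ℝ), 0 < ε → ∃ (c : Fin (n + 1) → A) (s : A),
    (∀ i, ‖c i‖ ≤ 1) ∧ ‖s‖ ≤ 1 ∧
    (∃ d : A, c 0 = star d * d) ∧
    (∀ i, ‖c i * star (c i) - c 0 * c 0‖ ≤ ε) ∧
    (∀ i j, i ≠ j → ‖c i * star (c j)‖ ≤ ε) ∧
    ‖star s * s + ∑ i, star (c i) * c i - 1‖ ≤ ε ∧ ‖c 0 * s - s‖ ≤ ε ∧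
    (∀ i, ∀ a ∈ F, ‖c i * a - a * c i‖ ≤ ε) ∧ (∀ a ∈ F, ‖s * a - a * s‖ ≤ ε)

/-! ### basics -/

def S_BAS : Prop := ∀ (M : Type u) [CStarAlgebra M] (τ : M →ₗ[ℂ] ℂ), IsTrSt τ →
  (∀ x, ‖τ x‖ ≤ ‖x‖) ∧ (∀ x, τ (star x) = (starRingEnd ℂ) (τ x)) ∧
  (∀ x, ((n2 τ x ^ 2 : ℝ) : ℂ) = τ (star x * x)) ∧
  (∀ x y, n2 τ (x + y) ≤ n2 τ x + n2 τ y) ∧
  (∀ (c : ℂ) x, n2 τ (c • x) = ‖c‖ * n2 τ x) ∧
  (∀ x, n2 τ (star x) = n2 τ x) ∧ (∀ x, n2 τ x ≤ ‖x‖) ∧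
  (∀ a x, n2 τ (a * x) ≤ ‖a‖ * n2 τ x) ∧ (∀ a x, n2 τ (x * a) ≤ ‖a‖ * n2 τ x) ∧
  (∀ x y, ‖τ (star x * y)‖ ≤ n2 τ x * n2 τ y) ∧ (∀ x, ‖τ x‖ ≤ n2 τ x)

def S_HLD : Prop := ∀ (M : Type u) [CStarAlgebra M] (τ : M →ₗ[ℂ] ℂ), IsTrSt τ → ∀ x y : M,
  n2 τ (x * y) ^ 2 ≤ ‖x‖ * n2 τ x * Real.sqrt (τ ((y * star y) * (y * star y))).re

def S_EXL : Prop := ∀ (M : Type u) [CStarAlgebra M] (τ : M →ₗ[ℂ] ℂ), IsTrSt τ → ∀ x y : M,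
  star x = x → star y = y →
  n2 τ (NormedSpace.exp (Complex.I • x) - NormedSpace.exp (Complex.I • y)) ≤ n2 τ (x - y)

def S_CH : Prop := ∀ B : ℝ, 0 < B → ∃ t₀ : ℝ, 0 < t₀ ∧
  ∀ (M : Type u) [CStarAlgebra M] (τ : M →ₗ[ℂ] ℂ), IsTrSt τ → ∀ x : M, star x = x → τ x = 0 →
    1 ≤ (τ (x * x)).re → (τ (x * x)).re ≤ B → (τ (x * x * x * x)).re ≤ B →
    ∀ t : ℝ, |t| ≤ t₀ → ‖τ (NormedSpace.exp ((Complex.I * t) • x))‖ ≤ 1 - t ^ 2 / 4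

/-! ### limit objects -/

def S_ULT : Prop := ∀ (A : Type u) [CStarAlgebra A] (τ : ℕ → A →ₗ[ℂ] ℂ), (∀ n, IsTrSt (τ n)) →
  ∀ U : Ultrafilter ℕ, ∃ Φ : (ℕ →ᵇ A) →ₗ[ℂ] ℂ, IsTrSt Φ ∧
    ∀ x : ℕ →ᵇ A, Tendsto (fun n => τ n (x n)) U (𝓝 (Φ x))

def S_GNST : Prop := ∀ (L : Type u) [CStarAlgebra L] (Φ : L →ₗ[ℂ] ℂ), IsTrSt Φ →
  ∃ (M : Type u) (_ : CStarAlgebra M) (π : L →⋆ₐ[ℂ] M) (τ : M →ₗ[ℂ] ℂ), IsTrSt τ ∧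
    (∀ x, τ (π x) = Φ x) ∧ DenseRange π ∧ ∀ x, Φ (star x * x) = 0 → π x = 0

def S_GEN : Prop := ∀ (M : Type u) [CStarAlgebra M] (τ : M →ₗ[ℂ] ℂ), IsTrSt τ → ∀ s : Set M,
  ∃ (M₁ : Type u) (_ : CStarAlgebra M₁) (j : M₁ →⋆ₐ[ℂ] M), Function.Injective j ∧
    IsTrSt (τ ∘ₗ j.toAlgHom.toLinearMap) ∧ (∀ x ∈ s, ∃ y, j y = x) ∧
    Dense (StarAlgebra.adjoin ℂ (j ⁻¹' s) : Set M₁)

def S_KMT : Prop := ∀ (M : Type u) [CStarAlgebra M] (τ : M →ₗ[ℂ] ℂ), IsTrSt τ → ∀ z : M,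
  ∃ σ : M →ₗ[ℂ] ℂ, ExtTr σ ∧ (τ z).re ≤ (σ z).re

def S_IND : Prop := ∀ (M : Type u) [CStarAlgebra M] (σ : M →ₗ[ℂ] ℂ), ExtTr σ → ∀ s t : Set M,
  (∀ a ∈ s, ∀ b ∈ t, a * b = b * a ∧ star a * b = b * star a) →
  Dense (StarAlgebra.adjoin ℂ (s ∪ t) : Set M) →
  ∀ x ∈ (StarAlgebra.adjoin ℂ s).topologicalClosure, ∀ y : M,
    (∀ a ∈ s, a * y = y * a ∧ star a * y = y * star a) → σ (x * y) = σ x * σ y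

/-- independence structure at an extreme trace of the algebra generated by the copies and `F` -/
def S_IDX : Prop := ∀ (M : Type u) [CStarAlgebra M] (σ : M →ₗ[ℂ] ℂ) (G : Type v) (I : Type)
  (V : G → I → M) (F : Set M), ExtTr σ →
  (∀ g i, V g i * V g i = 0) → (∀ g i, star (V g i) * V g i + V g i * star (V g i) = 1) →
  (∀ g h i j, i ≠ j → V g i * V h j = V h j * V g i ∧ V g i * star (V h j) = star (V h j) * V g i) →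
  (∀ g i, ∀ a ∈ F, V g i * a = a * V g i) → (∀ a ∈ F, star a ∈ F) →
  Dense (StarAlgebra.adjoin ℂ ({x | ∃ g i, x = V g i} ∪ F) : Set M) →
  Ind σ (CJ V) (fun g i => bb (V g i)) ∧
    ∀ x ∈ CJ V Set.univ, ∀ a ∈ F, a * x = x * a ∧ σ (a * x) = σ a * σ x

/-- the limit construction -/
def S_LIM : Prop := ∀ (A : Type u) [CStarAlgebra A] (G : Type v) (I : Type) (V : ℕ → G → I → A)
  (F : Finset A) (τ : ℕ → A →ₗ[ℂ] ℂ),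
  (∀ n g i, ‖V n g i‖ ≤ 1) → (∀ a ∈ F, star a ∈ F) → (∀ n, IsTrSt (τ n)) →
  (∀ g i, Tendsto (fun n => n2 (τ n) (V n g i * V n g i)) atTop (𝓝 0)) →
  (∀ g i, Tendsto (fun n => n2 (τ n) (star (V n g i) * V n g i + V n g i * star (V n g i) - 1))
    atTop (𝓝 0)) →
  (∀ g h i j, i ≠ j →
    Tendsto (fun n => n2 (τ n) (V n g i * V n h j - V n h j * V n g i)) atTop (𝓝 0) ∧
    Tendsto (fun n => n2 (τ n) (V n g i * star (V n h j) - star (V n h j) * V n g i))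
      atTop (𝓝 0)) →
  (∀ g i, ∀ a ∈ F, Tendsto (fun n => n2 (τ n) (V n g i * a - a * V n g i)) atTop (𝓝 0)) →
  ∃ (L M : Type u) (_ : CStarAlgebra L) (_ : CStarAlgebra M) (e : ℕ → L →⋆ₐ[ℂ] A)
    (π : L →⋆ₐ[ℂ] M) (V' : G → I → L) (a' : A → L),
    (∀ n g i, e n (V' g i) = V n g i) ∧ (∀ n, ∀ a ∈ F, e n (a' a) = a) ∧
    (∀ a ∈ F, star (a' a) = a' (star a)) ∧ (∀ a ∈ F, ‖a' a‖ ≤ ‖a‖) ∧
    (∀ g i, π (V' g i) * π (V' g i) = 0) ∧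
    (∀ g i, star (π (V' g i)) * π (V' g i) + π (V' g i) * star (π (V' g i)) = 1) ∧
    (∀ g h i j, i ≠ j → π (V' g i) * π (V' h j) = π (V' h j) * π (V' g i) ∧
      π (V' g i) * star (π (V' h j)) = star (π (V' h j)) * π (V' g i)) ∧
    (∀ g i, ∀ a ∈ F, π (V' g i) * π (a' a) = π (a' a) * π (V' g i)) ∧
    Dense (StarAlgebra.adjoin ℂ ({x | ∃ g i, x = π (V' g i)} ∪
      {x | ∃ a ∈ F, x = π (a' a)}) : Set M) ∧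
    ∀ Z : Set (L × ℝ), Z.Finite → (∀ n, ∃ q ∈ Z, q.2 ≤ (τ n (e n q.1)).re) →
      ∃ q ∈ Z, ∃ σ : M →ₗ[ℂ] ℂ, ExtTr σ ∧ q.2 ≤ (σ (π q.1)).re

/-! ### the formula -/

def S_NAT : Prop := ∀ (M M' : Type u) [CStarAlgebra M] [CStarAlgebra M'] (π : M →⋆ₐ[ℂ] M')
  (G : Type v) (R : ℕ) (p : ℕ → ℝ) (ξ : ℝ) (N k : ℕ) (f : G →₀ ℝ) (V : G → Fin N × Fin k → M),
  π (uel R p ξ N k f V) = uel R p ξ N k f fun g i => π (V g i)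

def S_SHF : Prop := ∀ (M : Type u) [CStarAlgebra M] (G : Type v) [Group G] (R : ℕ) (p : ℕ → ℝ)
  (ξ : ℝ) (N k : ℕ) (f : G →₀ ℝ) (V : G → Fin N × Fin k → M) (s : G),
  uel R p ξ N k f (fun g i => V (s * g) i) = uel R p ξ N k (f.mapDomain (s * ·)) V

def S_CGR : Prop := ∀ (M : Type u) [CStarAlgebra M] (G : Type v) (R : ℕ) (p : ℕ → ℝ)
  (ξ : ℝ) (N k : ℕ) (f : G →₀ ℝ) (V V' : G → Fin N × Fin k → M),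
  (∀ g ∈ f.support, V g = V' g) → uel R p ξ N k f V = uel R p ξ N k f V'

def S_UNI : Prop := ∀ (M : Type u) [CStarAlgebra M] (G : Type v) (R : ℕ) (p : ℕ → ℝ)
  (ξ : ℝ) (N k : ℕ) (f : G →₀ ℝ) (w V : G → Fin N × Fin k → M) (S : StarSubalgebra ℂ M),
  star (Zel R p ξ N k f w) = Zel R p ξ N k f w ∧ uel R p ξ N k f V ∈ unitary M ∧
    (IsClosed (S : Set M) → (∀ g i, V g i ∈ S) → uel R p ξ N k f V ∈ S)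

/-! ### moments at an extreme trace -/

def S_BLK : Prop := ∀ (M : Type u) [CStarAlgebra M] (σ : M →ₗ[ℂ] ℂ) (G : Type v) (N k : ℕ)
  (C : Set (Fin N × Fin k) → StarSubalgebra ℂ M) (w : G → Fin N × Fin k → M), Ind σ C w →
  ∀ m : Fin N, Ind σ (fun J : Set (Fin k) => C {q | q.1 = m ∧ q.2 ∈ J}) fun g i => w g (m, i)

def S_KB : Prop := ∀ (M : Type u) [CStarAlgebra M] (σ : M →ₗ[ℂ] ℂ) (G : Type v) (k : ℕ)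
  (C : Set (Fin k) → StarSubalgebra ℂ M) (w : G → Fin k → M), Ind σ C w → 0 < k →
  (∀ i, IsCorr (kap σ w i)) ∧ IsCorr (kbar σ k w) ∧
  (∀ i g h, σ (w g i * w h i) = (kap σ w i g h : ℂ)) ∧
  (∀ g h, |kbar σ k w g h| ≤ 1) ∧ (∀ g h, ‖Khat k w g h‖ ≤ 1)

def S_ISO : Prop := ∀ (M : Type u) [CStarAlgebra M] (σ : M →ₗ[ℂ] ℂ) (G : Type v) (I : Type)
  (C : Set I → StarSubalgebra ℂ M) (w : G → I → M), Ind σ C w →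
  ∀ (l₁ l₂ : List (G × I)) (g : G) (i : I), (∀ q ∈ l₁, q.2 ≠ i) → (∀ q ∈ l₂, q.2 ≠ i) →
  σ ((l₁.map fun q => w q.1 q.2).prod * w g i * (l₂.map fun q => w q.1 q.2).prod) = 0

def S_PAIR : Prop := ∀ (M : Type u) [CStarAlgebra M] (σ : M →ₗ[ℂ] ℂ) (G : Type v) (k : ℕ)
  (C : Set (Fin k) → StarSubalgebra ℂ M) (w : G → Fin k → M), Ind σ C w →
  ∀ (g h g' h' : G) (i j : Fin k), i ≠ j →
  σ (w g i * w h j * (w g' i * w h' j)) = ((kap σ w i g g' * kap σ w j h h' : ℝ) : ℂ) ∧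
  σ (w g i * w h j * (w g' j * w h' i)) = ((kap σ w i g h' * kap σ w j h g' : ℝ) : ℂ)

def S_CNT : Prop := ∀ k : ℕ, (Finset.univ.filter fun a : Fin 8 → Fin k =>
  ∀ i, ∃ j, j ≠ i ∧ a j = a i).card ≤ 4 ^ 8 * k ^ 4

def S_Y4 : Prop := ∀ (M : Type u) [CStarAlgebra M] (σ : M →ₗ[ℂ] ℂ) (G : Type v) (k : ℕ)
  (C : Set (Fin k) → StarSubalgebra ℂ M) (w : G → Fin k → M), Ind σ C w → 0 < k →
  ∀ g h : Fin 4 → G, ‖σ (Ych k w (g 0) (h 0) * Ych k w (g 1) (h 1) * Ych k w (g 2) (h 2) *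
    Ych k w (g 3) (h 3))‖ ≤ 4 ^ 8

def S_M4 : Prop := ∀ (M : Type u) [CStarAlgebra M] (σ : M →ₗ[ℂ] ℂ) (G : Type v) (k : ℕ)
  (C : Set (Fin k) → StarSubalgebra ℂ M) (w : G → Fin k → M), Ind σ C w → 0 < k →
  ∀ (E : Finset G) (c : G → G → ℝ),
  ‖σ (Xc k w E c * Xc k w E c * Xc k w E c * Xc k w E c)‖ ≤
    4 ^ 8 * (∑ g ∈ E, ∑ h ∈ E, |c g h|) ^ 4

def S_M2 : Prop := ∀ (M : Type u) [CStarAlgebra M] (σ : M →ₗ[ℂ] ℂ) (G : Type v) (k : ℕ)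
  (C : Set (Fin k) → StarSubalgebra ℂ M) (w : G → Fin k → M), Ind σ C w → 0 < k →
  ∀ (E : Finset G) (c : G → G → ℝ), (∀ g h, c g h = c h g) →
  σ (Xc k w E c * Xc k w E c) = ((2 * qf E c (kbar σ k w) -
    2 * (k : ℝ)⁻¹ ^ 2 * ∑ i, qf E c (kap σ w i) : ℝ) : ℂ)

def S_XSA : Prop := ∀ (M : Type u) [CStarAlgebra M] (σ : M →ₗ[ℂ] ℂ) (G : Type v) (k : ℕ)
  (C : Set (Fin k) → StarSubalgebra ℂ M) (w : G → Fin k → M), Ind σ C w →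
  ∀ (E : Finset G) (c : G → G → ℝ), (∀ g h, c g h = c h g) →
  star (Xc k w E c) = Xc k w E c ∧ σ (Xc k w E c) = 0 ∧ Xc k w E c ∈ C Set.univ ∧
  (∀ g h, star (Ych k w g h) = Ych k w g h ∧ Ych k w g h = Ych k w h g)

def S_KC : Prop := ∀ (M : Type u) [CStarAlgebra M] (σ : M →ₗ[ℂ] ℂ) (G : Type v) (k : ℕ)
  (C : Set (Fin k) → StarSubalgebra ℂ M) (w : G → Fin k → M), Ind σ C w → 0 < k →
  ∀ g h, n2 σ (Khat k w g h - (kbar σ k w g h : ℂ) • (1 : M)) ^ 2 ≤ 1 / k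

def S_KPS : Prop := ∀ (M : Type u) [CStarAlgebra M] (σ : M →ₗ[ℂ] ℂ), IsTrSt σ →
  ∀ (G : Type v) (f : G →₀ ℝ), IsProb f → ∀ (K : G → G → M) (κ : G → G → ℝ) (δ : ℝ),
  (∀ g h, ‖K g h‖ ≤ 1) → (∀ g h, |κ g h| ≤ 1) →
  (∀ g h, n2 σ (K g h - (κ g h : ℂ) • (1 : M)) ≤ δ) → ∀ (r : ℕ) (g h : G),
  ‖kpow f K r g h‖ ≤ 1 ∧ |kpr f κ r g h| ≤ 1 ∧
    n2 σ (kpow f K r g h - (kpr f κ r g h : ℂ) • (1 : M)) ≤ (r + 1) * δ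

def S_XC : Prop := ∀ (R : ℕ) (p : ℕ → ℝ) (η : ℝ), 0 < η → ∃ k₀ : ℕ, ∀ k ≥ k₀,
  ∀ (M : Type u) [CStarAlgebra M] (σ : M →ₗ[ℂ] ℂ) (G : Type v)
  (C : Set (Fin k) → StarSubalgebra ℂ M) (w : G → Fin k → M), Ind σ C w → 0 < k →
  ∀ f : G →₀ ℝ, IsProb f → n2 σ (rp (Xel R p f k w) - Xs σ R p f k w) ≤ η

def S_EXC : Prop := ∀ (M : Type u) [CStarAlgebra M] (σ : M →ₗ[ℂ] ℂ) (G : Type v) (I : Type)
  (C : Set I → StarSubalgebra ℂ M) (w : G → I → M), Ind σ C w →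
  ∀ (N : ℕ) (X : Fin N → M) (J : Fin N → Set I), (∀ m m', m ≠ m' → Disjoint (J m) (J m')) →
  (∀ m, X m ∈ C (J m)) →
  σ (NormedSpace.exp (∑ m, X m)) = ∏ m, σ (NormedSpace.exp (X m)) ∧
  ((∀ m, σ (X m) = 0) → n2 σ (∑ m, X m) ^ 2 = ∑ m, n2 σ (X m) ^ 2)

/-! ### scalar lemmas -/

def S_WEI : Prop := ∀ η : ℝ, 0 < η → ∃ (R : ℕ) (p : ℕ → ℝ), IsSqrtPoly R p η

def S_PSM : Prop := ∀ (n : Type v) [Fintype n] [DecidableEq n] (G : Type v) (E : Finset G)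
  (P Q : Matrix n n ℝ) (W : G → n → ℝ) (d : G → ℝ), P.PosSemidef → Q.PosSemidef →
  (∀ g ∈ E, ∑ i, W g i ^ 2 ≤ 1) →
  P * P - Q * Q = ∑ g ∈ E, d g • Matrix.vecMulVec (W g) (W g) →
  ∑ i, ∑ j, (P - Q) i j ^ 2 ≤ ∑ g ∈ E, |d g|

def S_PMX : Prop := ∀ (n : Type v) [Fintype n] [DecidableEq n] (P : Matrix n n ℝ)
  (R : ℕ) (p : ℕ → ℝ) (η : ℝ), P.PosSemidef → (P * P).trace ≤ 1 → IsSqrtPoly R p η →
  ∑ i, ∑ j, (∑ r ∈ Finset.range R, p r • (P * P) ^ (r + 2) - P) i j ^ 2 ≤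
    η ^ 2 * Fintype.card n

def S_KMX : Prop := ∀ (G : Type v) [DecidableEq G] (E : Finset G) (K : G → G → ℝ), IsCorr K →
  ∃ W : G → E → ℝ, (∀ g ∈ E, ∀ h ∈ E, ∑ e, W g e * W h e = K g h) ∧
  (∀ c : G → G → ℝ, qf E c K = ∑ i, ∑ j,
    (∑ g ∈ E, ∑ h ∈ E, c g h • Matrix.vecMulVec (W g) (W h)) i j ^ 2) ∧
  ∀ (f : G →₀ ℝ) (R : ℕ) (p : ℕ → ℝ), f.support ⊆ E →
    ∑ g ∈ E, ∑ h ∈ E, cf R p f K g h • Matrix.vecMulVec (W g) (W h) =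
      ∑ r ∈ Finset.range R, p r • (∑ g ∈ E, f g • Matrix.vecMulVec (W g) (W g)) ^ (r + 2)

def S_PS : Prop := ∀ (G : Type v) [DecidableEq G] (E : Finset G) (K : G → G → ℝ), IsCorr K →
  ∀ (R : ℕ) (p : ℕ → ℝ) (η : ℝ), 0 ≤ η → IsSqrtPoly R p η → ∀ (f f' : G →₀ ℝ),
  IsProb f → IsProb f' → f.support ⊆ E → f'.support ⊆ E →
  1 - η * Real.sqrt E.card ≤ Real.sqrt (qf E (cf R p f K) K) ∧
  Real.sqrt (qf E (cf R p f K) K) ≤ 1 + η * Real.sqrt E.card ∧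
  Real.sqrt (qf E (fun g h => cf R p f K g h - cf R p f' K g h) K) ≤
    Real.sqrt (∑ g ∈ E, |f g - f' g|) + 2 * (η * Real.sqrt E.card)

def S_CFB : Prop := ∀ (G : Type v) (E : Finset G) (K : G → G → ℝ), IsCorr K →
  ∀ (R : ℕ) (p : ℕ → ℝ) (f : G →₀ ℝ), IsProb f → f.support ⊆ E →
  (∀ g h, cf R p f K g h = cf R p f K h g) ∧
  ∑ g ∈ E, ∑ h ∈ E, |cf R p f K g h| ≤ ∑ r ∈ Finset.range R, |p r| ∧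
  (∀ c : G → G → ℝ, 0 ≤ qf E c K ∧ qf E c K ≤ (∑ g ∈ E, ∑ h ∈ E, |c g h|) ^ 2)

/-! ### core -/

def S_CHR : Prop := ∀ (A : ℝ), 0 < A → ∀ (T n R : ℕ) (p : ℕ → ℝ) (η : ℝ), 0 ≤ η →
  IsSqrtPoly R p η → η * Real.sqrt n ≤ 1 / 8 → ∃ N₀ : ℕ, ∀ N ≥ N₀, 0 < N → ∃ k₀ : ℕ, ∀ k ≥ k₀,
  ∀ (M : Type u) [CStarAlgebra M] (σ : M →ₗ[ℂ] ℂ) (G : Type v)
  (C : Set (Fin N × Fin k) → StarSubalgebra ℂ M) (w : G → Fin N × Fin k → M), Ind σ C w →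
  0 < k → ∀ f : G →₀ ℝ, IsProb f → f.support.card ≤ n → ∀ r : ℕ, 1 ≤ r → r ≤ T →
  ‖σ (NormedSpace.exp ((Complex.I * r) • Zs σ R p (A / Real.sqrt N) N k f w))‖ ≤
    Real.exp (-(A ^ 2 / 4))

def S_INV : Prop := ∀ (R : ℕ) (p : ℕ → ℝ) (η ξ : ℝ), 0 ≤ η →
  IsSqrtPoly R p η → ∀ (N k : ℕ) (M : Type u) [CStarAlgebra M] (σ : M →ₗ[ℂ] ℂ) (G : Type v)
  (C : Set (Fin N × Fin k) → StarSubalgebra ℂ M) (w : G → Fin N × Fin k → M), Ind σ C w →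
  0 < k → ∀ (E : Finset G) (f f' : G →₀ ℝ), IsProb f → IsProb f' → f.support ⊆ E →
  f'.support ⊆ E →
  star (Zs σ R p ξ N k f w) = Zs σ R p ξ N k f w ∧
  n2 σ (Zs σ R p ξ N k f w - Zs σ R p ξ N k f' w) ^ 2 ≤ 2 * (ξ ^ 2 * N) *
    (Real.sqrt (∑ g ∈ E, |f g - f' g|) + 2 * (η * Real.sqrt E.card)) ^ 2

def S_ZC : Prop := ∀ (R : ℕ) (p : ℕ → ℝ) (ξ : ℝ) (N : ℕ) (η : ℝ), 0 < η → ∃ k₀ : ℕ, ∀ k ≥ k₀,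
  ∀ (M : Type u) [CStarAlgebra M] (σ : M →ₗ[ℂ] ℂ) (G : Type v)
  (C : Set (Fin N × Fin k) → StarSubalgebra ℂ M) (w : G → Fin N × Fin k → M), Ind σ C w →
  0 < k → ∀ f : G →₀ ℝ, IsProb f → n2 σ (Zel R p ξ N k f w - Zs σ R p ξ N k f w) ≤ η

def S_CORE : Prop := ∀ (ε : ℝ), 0 < ε → ∀ T : ℕ, ∃ δ : ℝ, 0 < δ ∧ ∀ n : ℕ,
  ∃ (R : ℕ) (p : ℕ → ℝ) (ξ : ℝ) (N k : ℕ),
  ∀ (M : Type u) [CStarAlgebra M] (σ : M →ₗ[ℂ] ℂ) (G : Type v)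
  (C : Set (Fin N × Fin k) → StarSubalgebra ℂ M) (w : G → Fin N × Fin k → M), Ind σ C w →
  ∀ (E : Finset G) (f f' : G →₀ ℝ), E.card ≤ n → IsProb f → IsProb f' → f.support ⊆ E →
  f'.support ⊆ E → ∑ g ∈ E, |f g - f' g| ≤ δ →
  (∀ r : ℕ, 1 ≤ r → r ≤ T →
    ‖σ (NormedSpace.exp (Complex.I • Zel R p ξ N k f w) ^ r)‖ ≤ ε) ∧
  n2 σ (NormedSpace.exp (Complex.I • Zel R p ξ N k f w) -
    NormedSpace.exp (Complex.I • Zel R p ξ N k f' w)) ≤ ε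

/-! ### the choice of the copies in `A` -/

def S_CHO : Prop := ∀ (A : Type u) [CStarAlgebra A], UMD A → ∀ (G : Type v) [Group G]
  (α : G →* (A ≃⋆ₐ[ℂ] A)) (I : Type) [Fintype I] (E : Finset G) (F : Finset A) (ε : ℝ), 0 < ε →
  ∃ v : I → A, (∀ i, ‖v i‖ ≤ 1) ∧ ∀ τ : A →ₗ[ℂ] ℂ, IsTrSt τ →
    (∀ g ∈ E, ∀ i, n2 τ (α g (v i) * α g (v i)) ≤ ε ∧
      n2 τ (star (α g (v i)) * α g (v i) + α g (v i) * star (α g (v i)) - 1) ≤ ε ∧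
      ∀ a ∈ F, n2 τ (α g (v i) * a - a * α g (v i)) ≤ ε) ∧
    (∀ g ∈ E, ∀ h ∈ E, ∀ i j, i ≠ j →
      n2 τ (α g (v i) * α h (v j) - α h (v j) * α g (v i)) ≤ ε ∧
      n2 τ (α g (v i) * star (α h (v j)) - star (α h (v j)) * α g (v i)) ≤ ε)

/-! ### final -/

/-- main theorem, unitary form -/
def S_MAIN : Prop := ∀ (A : Type u) [CStarAlgebra A], UMD A → ∀ (G : Type v) [Group G],
  Reiter G → ∀ (α : G →* (A ≃⋆ₐ[ℂ] A)) (F : Finset A) (S : Finset G) (T : ℕ) (ε : ℝ), 0 < ε →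
  ∃ u ∈ unitary A, ∀ τ : A →ₗ[ℂ] ℂ, IsTrSt τ →
    (∀ a ∈ F, ∀ r : ℕ, 1 ≤ r → r ≤ T → ‖τ (a * u ^ r)‖ ≤ ε) ∧
    (∀ a ∈ F, n2 τ (u * a - a * u) ≤ ε) ∧ (∀ s ∈ S, n2 τ (α s u - u) ≤ ε)

/-- partitions from the unitary -/
def S_PART : Prop := ∀ (n : ℕ) (B ε : ℝ), 0 < n → 0 < ε → ∃ (T : ℕ) (δ : ℝ), 0 < δ ∧
  ∀ (A : Type u) [CStarAlgebra A] (u : A), u ∈ unitary A → ∃ e : Fin n → A,
    (∀ j, ∃ d : A, e j = star d * d) ∧ ∑ j, e j = 1 ∧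
    (∀ j j', e j * e j' = e j' * e j) ∧
    (∀ τ : A →ₗ[ℂ] ℂ, IsTrSt τ → (∀ r : ℕ, 1 ≤ r → r ≤ T → ‖τ (u ^ r)‖ ≤ δ) →
      ∀ j j', j ≠ j' → ‖τ (e j * e j')‖ ≤ ε) ∧
    (∀ (τ : A →ₗ[ℂ] ℂ) (a : A), ‖a‖ ≤ B → IsTrSt τ →
      (∀ r : ℕ, 1 ≤ r → r ≤ T → ‖τ (a * u ^ r)‖ ≤ δ ∧ ‖τ (star a * u ^ r)‖ ≤ δ) →
      ∀ j, ‖τ (a * e j) - τ a / n‖ ≤ ε) ∧
    (∀ (τ : A →ₗ[ℂ] ℂ) (a : A), ‖a‖ ≤ B → IsTrSt τ → n2 τ (u * a - a * u) ≤ δ →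
      ∀ j, n2 τ (e j * a - a * e j) ≤ ε) ∧
    (∀ (τ : A →ₗ[ℂ] ℂ) (β : A ≃⋆ₐ[ℂ] A), IsTrSt τ → n2 τ (β u - u) ≤ δ →
      ∀ j, n2 τ (β (e j) - e j) ≤ ε)

def S_ZST : Prop := ∀ (A : Type u) [CStarAlgebra A], ZSt A → UMD A

end H215EZ
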