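import Mathlib
import Pool.Agent.H215R2.EZ.Stubs

/-! EZ, task CORE: the core theorem (helper722). -/

set_option autoImplicit false

open scoped ComplexOrder

namespace H215EZ

universe u v

namespace CORE

theorem star_rp {M : Type*} [CStarAlgebra M] (x : M) : star (rp x) = rp x := by
  unfold rp
  rw [star_smul, star_add, star_star, add_comm (star x) x]
  congr 1
  simp

theorem star_zel {M : Type*} [CStarAlgebra M] {G : Type*} (R : ℕ) (p : ℕ → ℝ) (ξ : ℝ) (N k : ℕ)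
    (f : G →₀ ℝ) (w : G → Fin N × Fin k → M) : star (Zel R p ξ N k f w) = Zel R p ξ N k f w := by
  unfold Zel
  rw [star_smul, star_sum]
  congr 1
  · simp
  · exact Finset.sum_congr rfl fun m _ => star_rp _

end CORE

theorem t_CORE (hBAS : S_BAS.{u}) (hEXL : S_EXL.{u}) (hWEI : S_WEI) (hCHR : S_CHR.{u, v})
    (hINV : S_INV.{u, v}) (hZC : S_ZC.{u, v}) : S_CORE.{u, v} := by
  intro ε hε T
  -- the constant `A`
  obtain ⟨A, hA0, hA⟩ : ∃ A : ℝ, 0 < A ∧ Real.exp (-(A ^ 2 / 4)) ≤ ε / 2 := by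
    have h1 : Filter.Tendsto (fun A : ℝ => Real.exp (-(A ^ 2 / 4))) Filter.atTop (nhds 0) := by
      refine Real.tendsto_exp_atBot.comp (Filter.tendsto_neg_atTop_atBot.comp ?_)
      exact (Filter.tendsto_pow_atTop two_ne_zero).atTop_div_const (by norm_num)
    have h2 := (h1.eventually (ge_mem_nhds (show (0 : ℝ) < ε / 2 by positivity))).and
      (Filter.eventually_gt_atTop 0)
    obtain ⟨A, hA1, hA2⟩ := h2.exists
    exact ⟨A, hA2, hA1⟩
  refine ⟨ε ^ 2 / (32 * A ^ 2), by positivity, fun n => ?_⟩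
  set δ : ℝ := ε ^ 2 / (32 * A ^ 2) with hδ
  have hδ0 : 0 < δ := by positivity
  have hδA : 8 * A ^ 2 * δ = (ε / 2) ^ 2 := by
    rw [hδ]
    field_simp
    ring
  have hsδ : 0 < Real.sqrt δ := Real.sqrt_pos.2 hδ0
  set n' : ℕ := max n 1 with hn'
  have hn1 : (1 : ℝ) ≤ n' := by
    have : 1 ≤ n' := le_max_right _ _
    exact_mod_cast this
  have hsn : 0 < Real.sqrt (n' : ℝ) := Real.sqrt_pos.2 (by linarith)
  set η : ℝ := min (1 / 8) (Real.sqrt δ / 2) / Real.sqrt n' with hη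
  have hη0 : 0 < η := by positivity
  have hηn : η * Real.sqrt n' = min (1 / 8) (Real.sqrt δ / 2) := by
    rw [hη]; field_simp
  have hη1 : η * Real.sqrt n' ≤ 1 / 8 := by rw [hηn]; exact min_le_left _ _
  have hη2 : 2 * (η * Real.sqrt n') ≤ Real.sqrt δ := by
    rw [hηn]
    have := min_le_right (1 / 8 : ℝ) (Real.sqrt δ / 2)
    linarith
  obtain ⟨R, p, hRp⟩ := hWEI η hη0
  obtain ⟨N₀, hN₀⟩ := hCHR A hA0 T n' R p η hη0.le hRp hη1
  set N : ℕ := max N₀ 1 with hN
  have hN0 : 0 < N := lt_of_lt_of_le one_pos (le_max_right _ _)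
  obtain ⟨k₀, hk₀⟩ := hN₀ N (le_max_left _ _) hN0
  set ξ : ℝ := A / Real.sqrt N with hξ
  have hξN : ξ ^ 2 * N = A ^ 2 := by
    rw [hξ, div_pow, Real.sq_sqrt (by positivity)]
    have : (N : ℝ) ≠ 0 := by exact_mod_cast hN0.ne'
    field_simp
  have hη' : 0 < ε / (4 * ((T : ℝ) + 1)) := by positivity
  set η' : ℝ := ε / (4 * ((T : ℝ) + 1)) with hη'def
  obtain ⟨k₁, hk₁⟩ := hZC R p ξ N η' hη'
  set k : ℕ := max (max k₀ k₁) 1 with hk
  have hk0 : 0 < k := lt_of_lt_of_le one_pos (le_max_right _ _)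
  have hkk0 : k₀ ≤ k := (le_max_left _ _).trans (le_max_left _ _)
  have hkk1 : k₁ ≤ k := (le_max_right _ _).trans (le_max_left _ _)
  refine ⟨R, p, ξ, N, k, ?_⟩
  intro M _ σ G C w hInd E f f' hE hf hf' hfE hfE' hff
  obtain ⟨b1, b2, b3, b4, b5, b6, b7, b8, b9, b10, b11⟩ := hBAS M σ hInd.ts
  have hT0 : (0 : ℝ) ≤ T := Nat.cast_nonneg _
  have hη'T : ∀ r : ℕ, r ≤ T → (r : ℝ) * η' ≤ ε / 4 := by
    intro r hr
    have h1 : (r : ℝ) ≤ (T : ℝ) + 1 := by
      have : (r : ℝ) ≤ T := by exact_mod_cast hr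
      linarith
    calc (r : ℝ) * η' ≤ ((T : ℝ) + 1) * η' := by gcongr
      _ = ε / 4 := by rw [hη'def]; field_simp
  have hη'4 : η' ≤ ε / 4 := by
    rw [hη'def]
    apply div_le_div_of_nonneg_left hε.le (by norm_num)
    linarith
  have hEn : (E.card : ℝ) ≤ n' := by
    have : E.card ≤ n' := hE.trans (le_max_left _ _)
    exact_mod_cast this
  have hfc : f.support.card ≤ n' := (Finset.card_le_card hfE).trans (hE.trans (le_max_left _ _))
  have hz := hk₁ k hkk1 M σ G C w hInd hk0 f hf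
  have hz' := hk₁ k hkk1 M σ G C w hInd hk0 f' hf'
  obtain ⟨hZsa, hZinv⟩ := hINV R p η ξ hη0.le hRp N k M σ G C w hInd hk0 E f f' hf hf' hfE hfE'
  refine ⟨fun r hr1 hrT => ?_, ?_⟩
  · have hchr := hk₀ k hkk0 M σ G C w hInd hk0 f hf hfc r hr1 hrT
    set Z : M := Zel R p ξ N k f w with hZ
    set Z' : M := Zs σ R p ξ N k f w with hZ'
    have e1 : NormedSpace.exp (Complex.I • Z) ^ r = NormedSpace.exp (Complex.I • ((r : ℂ) • Z)) := by
      letI : NormedAlgebra ℚ M := NormedAlgebra.restrictScalars ℚ ℂ M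
      rw [← NormedSpace.exp_nsmul]
      congr 1
      rw [Nat.cast_smul_eq_nsmul, smul_comm]
    have e2 : NormedSpace.exp ((Complex.I * r) • Z') =
        NormedSpace.exp (Complex.I • ((r : ℂ) • Z')) := by
      rw [smul_smul]
    rw [e2] at hchr
    have hrc : star (r : ℂ) = (r : ℂ) := Complex.conj_natCast r
    have s1 : star ((r : ℂ) • Z) = (r : ℂ) • Z := by
      rw [star_smul, hrc, hZ, CORE.star_zel]
    have s2 : star ((r : ℂ) • Z') = (r : ℂ) • Z' := by
      rw [star_smul, hrc, hZ', hZsa]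
    have h3 := hEXL M σ hInd.ts _ _ s1 s2
    rw [← smul_sub, b5] at h3
    have h4 : ‖(r : ℂ)‖ * n2 σ (Z - Z') ≤ ε / 4 := by
      rw [Complex.norm_natCast]
      exact (mul_le_mul_of_nonneg_left hz (Nat.cast_nonneg _)).trans (hη'T r hrT)
    rw [e1]
    have e3 : σ (NormedSpace.exp (Complex.I • ((r : ℂ) • Z))) =
        σ (NormedSpace.exp (Complex.I • ((r : ℂ) • Z'))) +
        σ (NormedSpace.exp (Complex.I • ((r : ℂ) • Z)) -
          NormedSpace.exp (Complex.I • ((r : ℂ) • Z'))) := by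
      rw [map_sub]; ring
    rw [e3]
    calc _ ≤ ‖σ (NormedSpace.exp (Complex.I • ((r : ℂ) • Z')))‖ +
          ‖σ (NormedSpace.exp (Complex.I • ((r : ℂ) • Z)) -
          NormedSpace.exp (Complex.I • ((r : ℂ) • Z')))‖ := norm_add_le _ _
      _ ≤ ε / 2 + ε / 4 := add_le_add (hchr.trans hA) ((b11 _).trans (h3.trans h4))
      _ ≤ ε := by linarith
  · have h3 := hEXL M σ hInd.ts _ _ (CORE.star_zel R p ξ N k f w) (CORE.star_zel R p ξ N k f' w)
    refine h3.trans ?_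
    have e3 : Zel R p ξ N k f w - Zel R p ξ N k f' w =
        (Zel R p ξ N k f w - Zs σ R p ξ N k f w) + ((Zs σ R p ξ N k f w - Zs σ R p ξ N k f' w) +
          (-1 : ℂ) • (Zel R p ξ N k f' w - Zs σ R p ξ N k f' w)) := by
      rw [neg_smul, one_smul]; abel
    rw [e3]
    have h5 : n2 σ (Zs σ R p ξ N k f w - Zs σ R p ξ N k f' w) ≤ ε / 2 := by
      have h6 : Real.sqrt (∑ g ∈ E, |f g - f' g|) + 2 * (η * Real.sqrt E.card) ≤
          2 * Real.sqrt δ := by
        have a1 : Real.sqrt (∑ g ∈ E, |f g - f' g|) ≤ Real.sqrt δ := Real.sqrt_le_sqrt hff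
        have a2 : 2 * (η * Real.sqrt E.card) ≤ 2 * (η * Real.sqrt n') := by
          have := Real.sqrt_le_sqrt hEn
          gcongr
        linarith
      have h7 : n2 σ (Zs σ R p ξ N k f w - Zs σ R p ξ N k f' w) ^ 2 ≤ (ε / 2) ^ 2 := by
        refine hZinv.trans ?_
        rw [hξN]
        have h8 : (Real.sqrt (∑ g ∈ E, |f g - f' g|) + 2 * (η * Real.sqrt E.card)) ^ 2 ≤
            (2 * Real.sqrt δ) ^ 2 := by
          apply pow_le_pow_left₀ _ h6
          positivity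
        calc 2 * A ^ 2 * (Real.sqrt (∑ g ∈ E, |f g - f' g|) + 2 * (η * Real.sqrt E.card)) ^ 2
            ≤ 2 * A ^ 2 * (2 * Real.sqrt δ) ^ 2 := by gcongr
          _ = 8 * A ^ 2 * δ := by
              rw [mul_pow, Real.sq_sqrt hδ0.le]; ring
          _ = (ε / 2) ^ 2 := hδA
      exact abs_le_of_sq_le_sq' h7 (by positivity) |>.2
    calc _ ≤ n2 σ (Zel R p ξ N k f w - Zs σ R p ξ N k f w) +
          n2 σ ((Zs σ R p ξ N k f w - Zs σ R p ξ N k f' w) +
          (-1 : ℂ) • (Zel R p ξ N k f' w - Zs σ R p ξ N k f' w)) := b4 _ _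
      _ ≤ n2 σ (Zel R p ξ N k f w - Zs σ R p ξ N k f w) +
          (n2 σ (Zs σ R p ξ N k f w - Zs σ R p ξ N k f' w) +
          n2 σ ((-1 : ℂ) • (Zel R p ξ N k f' w - Zs σ R p ξ N k f' w))) := by
            gcongr
            exact b4 _ _
      _ ≤ ε / 4 + (ε / 2 + ε / 4) := by
            gcongr
            · exact hz.trans hη'4
            · rw [b5, norm_neg, norm_one, one_mul]
              exact hz'.trans hη'4
      _ = ε := by ring

end H215EZ
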