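import Pool.Agent.H215R2.EZ.Stubs

/-!
EXL: `exp` is 1-Lipschitz in the 2-norm on self-adjoint elements.
-/

set_option autoImplicit false

open scoped ComplexOrder Topology
open Filter

namespace H215EZ

universe u

namespace EXL

variable {M : Type u} [CStarAlgebra M]

/-- `exp (i x / (n+1))` is unitary -/
theorem exp_unitary {x : M} (hx : star x = x) (n : ℕ) :
    NormedSpace.exp ((1 / ((n : ℂ) + 1)) • (Complex.I • x)) ∈ unitary M := by
  let +nondep : NormedAlgebra ℚ M := .restrictScalars ℚ ℂ M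
  apply NormedSpace.exp_mem_unitary_of_mem_skewAdjoint
  rw [skewAdjoint.mem_iff, star_smul, star_smul, hx]
  have h1 : star (1 / ((n : ℂ) + 1)) = 1 / ((n : ℂ) + 1) := by
    simp
  have h2 : star Complex.I = -Complex.I := Complex.conj_I
  rw [h1, h2, neg_smul, smul_neg]

theorem exp_pow (z : M) (n : ℕ) :
    NormedSpace.exp ((1 / ((n : ℂ) + 1)) • z) ^ (n + 1) = NormedSpace.exp z := by
  let +nondep : NormedAlgebra ℚ M := .restrictScalars ℚ ℂ M
  rw [← NormedSpace.exp_nsmul]
  congr 1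
  rw [← Nat.cast_smul_eq_nsmul ℂ, smul_smul]
  have h : ((n + 1 : ℕ) : ℂ) * (1 / ((n : ℂ) + 1)) = 1 := by
    push_cast
    exact mul_one_div_cancel (Nat.cast_add_one_ne_zero n)
  rw [h, one_smul]

theorem slope (z w : M) :
    Tendsto (fun n : ℕ => ((n : ℂ) + 1) • (NormedSpace.exp ((1 / ((n : ℂ) + 1)) • z) -
      NormedSpace.exp ((1 / ((n : ℂ) + 1)) • w))) atTop (𝓝 (z - w)) := by
  have h1 : HasDerivAt (fun u : ℂ => NormedSpace.exp (u • z) - NormedSpace.exp (u • w))
      (z - w) 0 := by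
    have e1 := hasDerivAt_exp_smul_const (𝕂 := ℂ) z 0
    have e2 := hasDerivAt_exp_smul_const (𝕂 := ℂ) w 0
    rw [zero_smul, NormedSpace.exp_zero, one_mul] at e1 e2
    exact e1.sub e2
  have h2 := h1.tendsto_slope_zero
  have h3 : Tendsto (fun n : ℕ => 1 / ((n : ℂ) + 1)) atTop (𝓝[≠] 0) := by
    rw [tendsto_nhdsWithin_iff]
    refine ⟨tendsto_one_div_add_atTop_nhds_zero_nat, Eventually.of_forall fun n => ?_⟩
    exact one_div_ne_zero (Nat.cast_add_one_ne_zero n)
  have h4 := h2.comp h3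
  refine h4.congr fun n => ?_
  simp only [Function.comp_apply, zero_add, zero_smul, sub_self, sub_zero]
  rw [one_div, inv_inv]

end EXL

open EXL in
theorem t_EXL (hBAS : S_BAS.{u}) : S_EXL.{u} := by
  intro M _ τ hτ x y hx hy
  obtain ⟨-, -, -, hadd, hsmul, -, hnorm, hl, hr, -, -⟩ := hBAS M τ hτ
  have hnt : Nontrivial M := by
    refine ⟨⟨0, 1, fun h => ?_⟩⟩
    have h1 := hτ.one
    rw [← h, map_zero] at h1
    exact zero_ne_one h1
  have hn0 : ∀ z : M, 0 ≤ n2 τ z := fun z => Real.sqrt_nonneg _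
  have hpow : ∀ (U : M), ‖U‖ ≤ 1 → ∀ n : ℕ, ‖U ^ n‖ ≤ 1 := by
    intro U hU n
    induction n with
    | zero =>
      rw [pow_zero]
      exact CStarRing.norm_one.le
    | succ n ih =>
      rw [pow_succ]
      calc ‖U ^ n * U‖ ≤ ‖U ^ n‖ * ‖U‖ := norm_mul_le _ _
        _ ≤ 1 * 1 := by gcongr
        _ = 1 := one_mul 1
  have tel : ∀ (U W : M), ‖U‖ ≤ 1 → ‖W‖ ≤ 1 → ∀ n : ℕ,
      n2 τ (U ^ n - W ^ n) ≤ n * n2 τ (U - W) := by
    intro U W hU hW n
    induction n with
    | zero => simp [n2]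
    | succ n ih =>
      have e : U ^ (n + 1) - W ^ (n + 1) = U ^ n * (U - W) + (U ^ n - W ^ n) * W := by
        rw [pow_succ, pow_succ]
        noncomm_ring
      rw [e]
      refine (hadd _ _).trans ?_
      have h1 : n2 τ (U ^ n * (U - W)) ≤ 1 * n2 τ (U - W) :=
        (hl _ _).trans (mul_le_mul_of_nonneg_right (hpow U hU n) (hn0 _))
      have h2 : n2 τ ((U ^ n - W ^ n) * W) ≤ 1 * n2 τ (U ^ n - W ^ n) :=
        (hr _ _).trans (mul_le_mul_of_nonneg_right hW (hn0 _))
      push_cast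
      linarith
  have hlim := slope (Complex.I • x) (Complex.I • y)
  have hbound : ∀ n : ℕ, n2 τ (NormedSpace.exp (Complex.I • x) - NormedSpace.exp (Complex.I • y)) ≤
      n2 τ (x - y) + ‖((n : ℂ) + 1) • (NormedSpace.exp ((1 / ((n : ℂ) + 1)) • (Complex.I • x)) -
      NormedSpace.exp ((1 / ((n : ℂ) + 1)) • (Complex.I • y))) -
        (Complex.I • x - Complex.I • y)‖ := by
    intro n
    have hU := (CStarRing.norm_of_mem_unitary (exp_unitary hx n)).le
    have hW := (CStarRing.norm_of_mem_unitary (exp_unitary hy n)).le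
    have h1 := tel _ _ hU hW (n + 1)
    rw [exp_pow, exp_pow] at h1
    refine h1.trans ?_
    have hc : ‖((n : ℂ) + 1)‖ = ((n + 1 : ℕ) : ℝ) := by
      have : ((n : ℂ) + 1) = ((n + 1 : ℕ) : ℂ) := by push_cast; rfl
      rw [this, Complex.norm_natCast]
    rw [← hc, ← hsmul]
    set S := ((n : ℂ) + 1) • (NormedSpace.exp ((1 / ((n : ℂ) + 1)) • (Complex.I • x)) -
      NormedSpace.exp ((1 / ((n : ℂ) + 1)) • (Complex.I • y))) with hS
    have e1 : S = (Complex.I • x - Complex.I • y) + (S - (Complex.I • x - Complex.I • y)) := by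
      abel
    have e2 : n2 τ (Complex.I • x - Complex.I • y) = n2 τ (x - y) := by
      rw [← smul_sub, hsmul, Complex.norm_I, one_mul]
    calc n2 τ S ≤ n2 τ (Complex.I • x - Complex.I • y) +
          n2 τ (S - (Complex.I • x - Complex.I • y)) := by
          conv_lhs => rw [e1]
          exact hadd _ _
      _ ≤ _ := by
          rw [e2]
          exact add_le_add le_rfl (hnorm _)
  have hlim2 := ((hlim.sub_const (Complex.I • x - Complex.I • y)).norm).const_add (n2 τ (x - y))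
  rw [sub_self, norm_zero, add_zero] at hlim2
  exact ge_of_tendsto' hlim2 hbound

end H215EZ
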