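import Pool.Agent.H215R2.EZ.Stubs

open scoped ComplexOrder Topology

namespace H215EZ

universe u v

/-- equivariant uniform property Gamma (finite form) for the action `α` -/
def EqGamma (A : Type*) [CStarAlgebra A] (G : Type*) [Group G] (α : G →* (A ≃⋆ₐ[ℂ] A)) : Prop :=
  ∀ (n : ℕ) (F : Finset A) (S : Finset G) (ε : ℝ), 0 < n → 0 < ε →
  ∃ e : Fin n → A, (∀ i, ∃ d : A, e i = star d * d) ∧ ∑ i, e i = 1 ∧
    ∀ τ : A →ₗ[ℂ] ℂ, IsTrSt τ →
      (∀ i j, i ≠ j → n2 τ (e i * e j) ≤ ε) ∧ (∀ i, n2 τ (e i * e i - e i) ≤ ε) ∧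
      (∀ a ∈ F, ∀ i, ‖τ (a * e i) - τ a / n‖ ≤ ε) ∧
      (∀ a ∈ F, ∀ i, n2 τ (e i * a - a * e i) ≤ ε) ∧
      (∀ s ∈ S, ∀ i, n2 τ (α s (e i) - e i) ≤ ε)

/-- approximately central, approximately invariant, approximately Haar unitaries -/
def EqHaar (A : Type*) [CStarAlgebra A] (G : Type*) [Group G] (α : G →* (A ≃⋆ₐ[ℂ] A)) : Prop :=
  ∀ (F : Finset A) (S : Finset G) (T : ℕ) (ε : ℝ), 0 < ε →
  ∃ u ∈ unitary A, ∀ τ : A →ₗ[ℂ] ℂ, IsTrSt τ →
    (∀ a ∈ F, ∀ r : ℕ, 1 ≤ r → r ≤ T → ‖τ (a * u ^ r)‖ ≤ ε) ∧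
    (∀ a ∈ F, n2 τ (u * a - a * u) ≤ ε) ∧ (∀ s ∈ S, n2 τ (α s u - u) ≤ ε)

namespace FIN

variable {A : Type u} [CStarAlgebra A]

/-- for a positive contraction `y`, `τ (y*y) ≤ τ y` -/
lemma sq_le (τ : A →ₗ[ℂ] ℂ) (hτ : IsTrSt τ) (y d c : A) (hy : y = star d * d)
    (hc : 1 - d * star d = star c * c) : (τ (y * y)).re ≤ (τ y).re := by
  have h1 : 0 ≤ τ (star (c * d) * (c * d)) := hτ.nonneg _
  have h2 : star (c * d) * (c * d) = y - y * y := by
    have : star (c * d) * (c * d) = star d * (star c * c) * d := by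
      rw [star_mul]; simp only [mul_assoc]
    rw [this, ← hc, hy]
    noncomm_ring
  rw [h2, map_sub] at h1
  have h3 := (Complex.le_def.mp h1).1
  simp at h3
  exact h3

lemma compl_contr (D : A) (hD : ‖D‖ ≤ 1) : ∃ c : A, 1 - D * star D = star c * c := by
  letI := CStarAlgebra.spectralOrder A
  haveI := CStarAlgebra.spectralOrderedRing A
  have h1 : D * star D ≤ algebraMap ℝ A (‖D‖ ^ 2) := CStarAlgebra.mul_star_le_algebraMap_norm_sq
  have h2 : algebraMap ℝ A (‖D‖ ^ 2) ≤ algebraMap ℝ A 1 := by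
    apply algebraMap_mono
    nlinarith [norm_nonneg D]
  have h3 : 0 ≤ 1 - D * star D := by
    rw [sub_nonneg]
    simpa using h1.trans h2
  exact CStarAlgebra.nonneg_iff_eq_star_mul_self.mp h3

lemma d_norm {n : ℕ} (e d : Fin n → A) (he : ∀ i, e i = star (d i) * d i) (hs : ∑ i, e i = 1)
    (i : Fin n) : ‖d i‖ ≤ 1 := by
  letI := CStarAlgebra.spectralOrder A
  haveI := CStarAlgebra.spectralOrderedRing A
  have hpos : ∀ j, 0 ≤ e j := fun j => by rw [he j]; exact star_mul_self_nonneg _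
  have h1 : e i ≤ 1 := by
    rw [← hs]
    exact Finset.single_le_sum (f := e) (fun j _ => hpos j) (Finset.mem_univ i)
  have h2 : ‖e i‖ ≤ 1 := (CStarAlgebra.norm_le_one_iff_of_nonneg _ (hpos i)).mpr h1
  rw [he i, CStarRing.norm_star_mul_self] at h2
  nlinarith [norm_nonneg (d i)]

/-- 2-norm of the product of two commuting parts of a partition -/
lemma prod_bound (hBAS : S_BAS.{u}) (τ : A →ₗ[ℂ] ℂ) (hτ : IsTrSt τ) {n : ℕ} (e d : Fin n → A)
    (he : ∀ i, e i = star (d i) * d i) (hs : ∑ i, e i = 1)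
    (hc : ∀ i j, e i * e j = e j * e i) (i j : Fin n) (ε : ℝ) (h : ‖τ (e i * e j)‖ ≤ ε) :
    n2 τ (e i * e j) ^ 2 ≤ ε := by
  obtain ⟨-, -, b3, -⟩ := hBAS A τ hτ
  have hsa : ∀ i, star (e i) = e i := fun i => by rw [he i, star_mul, star_star]
  set D : A := d i * star (d j) with hD
  have hDn : ‖D‖ ≤ 1 := by
    refine (norm_mul_le _ _).trans ?_
    rw [norm_star]
    have h1 := d_norm e d he hs i
    have h2 := d_norm e d he hs j
    nlinarith [norm_nonneg (d i), norm_nonneg (d j)]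
  obtain ⟨c, hcc⟩ := compl_contr D hDn
  set y : A := star D * D with hy
  have hy1 : y = d j * e i * star (d j) := by
    rw [hy, hD, star_mul, star_star, he i]; simp only [mul_assoc]
  have key := sq_le τ hτ y D c rfl hcc
  have t1 : τ y = τ (e i * e j) := by
    rw [hy1, mul_assoc, hτ.tr (d j), he j]; simp only [mul_assoc]
  have t2 : τ (y * y) = τ (star (e i * e j) * (e i * e j)) := by
    have h1 : y * y = d j * (e i * e j * e i * star (d j)) := by
      rw [hy1, he j]; simp only [mul_assoc]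
    have h2 : e i * e j * e i * star (d j) * d j = star (e i * e j) * (e i * e j) := by
      rw [star_mul, hsa, hsa]
      have : e i * e j * e i * star (d j) * d j = e i * e j * (e i * (star (d j) * d j)) := by
        simp only [mul_assoc]
      rw [this, ← he j, hc i j]
    rw [h1, hτ.tr (d j), h2]
  have h4 : (τ (star (e i * e j) * (e i * e j))).re = n2 τ (e i * e j) ^ 2 := by
    rw [← b3, Complex.ofReal_re]
  rw [← h4, ← t2]
  refine key.trans ?_
  rw [t1]
  exact (Complex.re_le_norm _).trans h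

end FIN

open FIN

theorem t_FIN (hBAS : S_BAS.{u}) (hMAIN : S_MAIN.{u, v}) (hPART : S_PART.{u}) :
    ∀ (A : Type u) [CStarAlgebra A], UMD A → ∀ (G : Type v) [Group G], Reiter G →
    ∀ α : G →* (A ≃⋆ₐ[ℂ] A), EqHaar A G α ∧ EqGamma A G α := by
  classical
  intro A _ hA G _ hG α
  refine ⟨fun F S T ε hε => hMAIN A hA G hG α F S T ε hε, ?_⟩
  intro n F S ε hn hε
  set ε₂ : ℝ := min ε ((ε / n) ^ 2) with hε₂
  have hn' : (0 : ℝ) < n := by exact_mod_cast hn
  have hn1 : (1 : ℝ) ≤ n := by exact_mod_cast hn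
  have hε₂0 : 0 < ε₂ := lt_min hε (by positivity)
  have hε₂ε : ε₂ ≤ ε := min_le_left _ _
  have hε₂n : ε₂ ≤ (ε / n) ^ 2 := min_le_right _ _
  obtain ⟨B, hB⟩ : ∃ B : ℝ, ∀ a ∈ F, ‖a‖ ≤ B := by
    refine ⟨∑ a ∈ F, ‖a‖, fun a ha => ?_⟩
    exact Finset.single_le_sum (f := fun a => ‖a‖) (fun _ _ => norm_nonneg _) ha
  obtain ⟨T, δ, hδ, hP⟩ := hPART n B ε₂ hn hε₂0
  set F' : Finset A := insert 1 (F ∪ F.image star) with hF'
  obtain ⟨u, hu, hτ⟩ := hMAIN A hA G hG α F' S T δ hδ
  obtain ⟨e, he, hs, hc, p1, p2, p3, p4⟩ := hP A u hu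
  refine ⟨e, he, hs, fun τ ht => ?_⟩
  obtain ⟨q1, q2, q3⟩ := hτ τ ht
  choose d hd using he
  obtain ⟨b1, b2, b3, b4, b5, b6, b7, b8, b9, b10, b11⟩ := hBAS A τ ht
  have hprod : ∀ i j, i ≠ j → n2 τ (e i * e j) ≤ ε / n := by
    intro i j hij
    have h1 := p1 τ ht (fun r hr hrT => by
      have := q1 1 (by simp [hF']) r hr hrT
      simpa using this) i j hij
    have h2 := prod_bound hBAS τ ht e d hd hs hc i j ε₂ h1
    have h3 : 0 ≤ n2 τ (e i * e j) := Real.sqrt_nonneg _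
    exact (pow_le_pow_iff_left₀ h3 (by positivity) (by norm_num)).mp (h2.trans hε₂n)
  refine ⟨?_, ?_, ?_, ?_, ?_⟩
  · intro i j hij
    exact (hprod i j hij).trans (div_le_self hε.le hn1)
  · intro i
    have h1 : e i * e i - e i = (-1 : ℂ) • ∑ j ∈ Finset.univ.erase i, e i * e j := by
      have h2 : e i = ∑ j, e i * e j := by rw [← Finset.mul_sum, hs, mul_one]
      rw [← Finset.add_sum_erase _ _ (Finset.mem_univ i)] at h2
      nth_rewrite 3 [h2]
      simp
    rw [h1, b5, norm_neg, norm_one, one_mul]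
    have hsum : ∀ s : Finset (Fin n), (∀ j ∈ s, j ≠ i) →
        n2 τ (∑ j ∈ s, e i * e j) ≤ s.card * (ε / n) := by
      intro s
      induction s using Finset.induction_on with
      | empty =>
        intro _
        have := b5 0 (0 : A)
        simp at this
        simp [this]
      | insert j s hj ih =>
        intro hs'
        rw [Finset.sum_insert hj, Finset.card_insert_of_notMem hj]
        have h3 := ih fun j' hj' => hs' j' (Finset.mem_insert_of_mem hj')
        have h4 := hprod i j (hs' j (Finset.mem_insert_self _ _)).symm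
        have h5 := b4 (e i * e j) (∑ j ∈ s, e i * e j)
        push_cast
        linarith
    have h3 := hsum (Finset.univ.erase i) (fun j hj => Finset.ne_of_mem_erase hj)
    refine h3.trans ?_
    have h4 : ((Finset.univ.erase i : Finset (Fin n)).card : ℝ) ≤ n := by
      have := Finset.card_erase_le (s := (Finset.univ : Finset (Fin n))) (a := i)
      simp at this
      exact_mod_cast (by simpa using this)
    calc _ ≤ (n : ℝ) * (ε / n) := by
          apply mul_le_mul_of_nonneg_right h4 (by positivity)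
      _ = ε := by field_simp
  · intro a ha i
    refine (p2 τ a (hB a ha) ht (fun r hr hrT => ⟨?_, ?_⟩) i).trans hε₂ε
    · exact q1 a (by simp [hF', ha]) r hr hrT
    · exact q1 (star a) (by
        simp only [hF', Finset.mem_insert, Finset.mem_union, Finset.mem_image]
        exact Or.inr (Or.inr ⟨a, ha, rfl⟩)) r hr hrT
  · intro a ha i
    exact (p3 τ a (hB a ha) ht (q2 a (by simp [hF', ha])) i).trans hε₂ε
  · intro s hs' i
    exact (p4 τ (α s) ht (q3 s hs') i).trans hε₂ε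

end H215EZ
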