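import Pool.Agent.H215R2.EZ.Stubs

open scoped ComplexOrder

universe u

namespace H215EZ

theorem t_GEN : S_GEN.{u} := by
  intro M _ τ hτ s
  have hcl : IsClosed (((StarAlgebra.adjoin ℂ s).topologicalClosure : StarSubalgebra ℂ M) : Set M) :=
    StarSubalgebra.isClosed_topologicalClosure _
  refine ⟨((StarAlgebra.adjoin ℂ s).topologicalClosure : StarSubalgebra ℂ M), inferInstance,
    StarSubalgebra.subtype _, Subtype.val_injective, ⟨?_, ?_, ?_⟩, ?_, ?_⟩
  · exact hτ.one
  · intro a
    exact hτ.nonneg (a : M)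
  · intro a b
    exact hτ.tr (a : M) (b : M)
  · intro x hx
    exact ⟨⟨x, StarSubalgebra.le_topologicalClosure _ (StarAlgebra.subset_adjoin ℂ s hx)⟩, rfl⟩
  · set S := ((StarAlgebra.adjoin ℂ s).topologicalClosure : StarSubalgebra ℂ M) with hS
    intro y
    rw [closure_subtype]
    have h1 : ((↑) : S → M) '' (StarAlgebra.adjoin ℂ (S.subtype ⁻¹' s) : Set S) =
        (StarAlgebra.adjoin ℂ s : Set M) := by
      have h2 := StarAlgHom.map_adjoin S.subtype (S.subtype ⁻¹' s)
      have h3 : S.subtype '' (S.subtype ⁻¹' s) = s := by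
        rw [Set.image_preimage_eq_iff]
        intro x hx
        exact ⟨⟨x, StarSubalgebra.le_topologicalClosure _ (StarAlgebra.subset_adjoin ℂ s hx)⟩, rfl⟩
      rw [h3] at h2
      rw [← h2]
      rfl
    rw [h1]
    exact y.2

end H215EZ
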