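import Pool.Agent.H215R2.EZ.Stubs

/-!
# Task GNST: the GNS construction of a tracial state
-/

set_option autoImplicit false

open scoped ComplexOrder InnerProductSpace

universe u

namespace H215EZ.GNST

variable {L : Type u} [CStarAlgebra L] [PartialOrder L] [StarOrderedRing L]

/-- the cyclic vector -/
noncomputable def Om (f : L →ₚ[ℂ] ℂ) : f.GNS := ((f.toPreGNS 1 : f.PreGNS) : f.GNS)

/-- the closure of the image of the GNS representation -/
noncomputable def MM (f : L →ₚ[ℂ] ℂ) : StarSubalgebra ℂ (f.GNS →L[ℂ] f.GNS) :=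
  (f.gnsStarAlgHom.range).topologicalClosure

lemma MM_closed (f : L →ₚ[ℂ] ℂ) : IsClosed (MM f : Set (f.GNS →L[ℂ] f.GNS)) :=
  StarSubalgebra.isClosed_topologicalClosure _

lemma rho_mem (f : L →ₚ[ℂ] ℂ) (x : L) : f.gnsStarAlgHom x ∈ MM f :=
  StarSubalgebra.le_topologicalClosure _ ⟨x, rfl⟩

/-- the map to the closure of the image -/
noncomputable def pi0 (f : L →ₚ[ℂ] ℂ) : L →⋆ₐ[ℂ] MM f :=
  StarAlgHom.codRestrict f.gnsStarAlgHom (MM f) (rho_mem f)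

lemma pi0_coe (f : L →ₚ[ℂ] ℂ) (x : L) :
    ((pi0 f x : MM f) : f.GNS →L[ℂ] f.GNS) = f.gnsStarAlgHom x := rfl

lemma pi0_dense (f : L →ₚ[ℂ] ℂ) : DenseRange (pi0 f) := by
  intro m
  have hm : (m : f.GNS →L[ℂ] f.GNS) ∈
      closure ((f.gnsStarAlgHom.range : StarSubalgebra ℂ (f.GNS →L[ℂ] f.GNS)) :
        Set (f.GNS →L[ℂ] f.GNS)) := m.2
  rw [closure_subtype]
  convert hm using 2
  ext T
  constructor
  · rintro ⟨_, ⟨x, rfl⟩, rfl⟩
    exact ⟨x, rfl⟩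
  · rintro ⟨x, rfl⟩
    exact ⟨pi0 f x, ⟨x, rfl⟩, rfl⟩

/-- the vector state -/
noncomputable def tau0 (f : L →ₚ[ℂ] ℂ) : MM f →ₗ[ℂ] ℂ where
  toFun m := ⟪Om f, (m : f.GNS →L[ℂ] f.GNS) (Om f)⟫_ℂ
  map_add' a b := by
    show ⟪Om f, ((a : f.GNS →L[ℂ] f.GNS) + (b : f.GNS →L[ℂ] f.GNS)) (Om f)⟫_ℂ = _
    rw [add_apply, inner_add_right]
  map_smul' c a := by
    show ⟪Om f, (c • (a : f.GNS →L[ℂ] f.GNS)) (Om f)⟫_ℂ = _
    rw [smul_apply, inner_smul_right]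
    rfl

lemma tau0_apply (f : L →ₚ[ℂ] ℂ) (m : MM f) :
    tau0 f m = ⟪Om f, (m : f.GNS →L[ℂ] f.GNS) (Om f)⟫_ℂ := rfl

lemma tau0_cont (f : L →ₚ[ℂ] ℂ) : Continuous (tau0 f) := by
  have h : Continuous fun m : MM f => ⟪Om f, (m : f.GNS →L[ℂ] f.GNS) (Om f)⟫_ℂ := by
    have h1 : Continuous fun m : MM f => (m : f.GNS →L[ℂ] f.GNS) (Om f) :=
      (ContinuousLinearMap.apply ℂ f.GNS (Om f)).continuous.comp continuous_subtype_val
    exact continuous_const.inner h1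
  exact h

lemma tau0_pi0 (f : L →ₚ[ℂ] ℂ) (x : L) : tau0 f (pi0 f x) = f x := by
  rw [tau0_apply, pi0_coe]
  unfold Om
  rw [show f.gnsStarAlgHom x ((f.toPreGNS 1 : f.PreGNS) : f.GNS) =
    ((f.leftMulMapPreGNS x (f.toPreGNS 1) : f.PreGNS) : f.GNS) from
    f.gnsNonUnitalStarAlgHom_apply_coe]
  rw [UniformSpace.Completion.inner_coe, f.preGNS_inner_def]
  simp

lemma tau0_trst (f : L →ₚ[ℂ] ℂ) (h1 : f 1 = 1) (htr : ∀ a b, f (a * b) = f (b * a)) :
    tau0 f 1 = 1 ∧ (∀ a : MM f, 0 ≤ tau0 f (star a * a)) ∧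
      ∀ a b : MM f, tau0 f (a * b) = tau0 f (b * a) := by
  refine ⟨?_, ?_, ?_⟩
  · rw [← map_one (pi0 f), tau0_pi0, h1]
  · intro a
    rw [tau0_apply]
    have e : ((star a * a : MM f) : f.GNS →L[ℂ] f.GNS) (Om f) =
        ContinuousLinearMap.adjoint (a : f.GNS →L[ℂ] f.GNS) ((a : f.GNS →L[ℂ] f.GNS) (Om f)) := rfl
    rw [e, ContinuousLinearMap.adjoint_inner_right]
    rw [inner_self_eq_norm_sq_to_K]
    have h := sq_nonneg ‖(a : f.GNS →L[ℂ] f.GNS) (Om f)‖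
    have h2 : (0 : ℂ) ≤ ((‖(a : f.GNS →L[ℂ] f.GNS) (Om f)‖ ^ 2 : ℝ) : ℂ) :=
      Complex.zero_le_real.mpr h
    simpa using h2
  · intro a b
    refine (pi0_dense f).induction_on₂ (p := fun a b : MM f => tau0 f (a * b) = tau0 f (b * a))
      ?_ ?_ a b
    · exact isClosed_eq ((tau0_cont f).comp (continuous_fst.mul continuous_snd))
        ((tau0_cont f).comp (continuous_snd.mul continuous_fst))
    · intro x y
      rw [← map_mul, ← map_mul, tau0_pi0, tau0_pi0, htr]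

lemma pi0_ker (f : L →ₚ[ℂ] ℂ) (x : L)
    (h : ∀ y : L, f (star (x * y) * (x * y)) = 0) : pi0 f x = 0 := by
  apply Subtype.ext
  rw [pi0_coe]
  show f.gnsStarAlgHom x = 0
  ext v
  induction v using UniformSpace.Completion.induction_on with
  | hp => apply isClosed_eq <;> fun_prop
  | ih y =>
    rw [show f.gnsStarAlgHom x ((y : f.PreGNS) : f.GNS) =
      ((f.leftMulMapPreGNS x y : f.PreGNS) : f.GNS) from f.gnsNonUnitalStarAlgHom_apply_coe]
    rw [zero_apply]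
    have hn : ‖((f.leftMulMapPreGNS x y : f.PreGNS) : f.GNS)‖ = 0 := by
      rw [UniformSpace.Completion.norm_coe, f.preGNS_norm_def]
      have := h (f.ofPreGNS y)
      have e : f.ofPreGNS (f.leftMulMapPreGNS x y) = x * f.ofPreGNS y := rfl
      rw [e, this]; simp
    exact norm_eq_zero.mp hn

end H215EZ.GNST

namespace H215EZ

open GNST

theorem t_GNST (hBAS : S_BAS.{u}) : S_GNST.{u} := by
  intro L _ Φ hΦ
  letI : PartialOrder L := CStarAlgebra.spectralOrder L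
  haveI : StarOrderedRing L := CStarAlgebra.spectralOrderedRing L
  let f : L →ₚ[ℂ] ℂ := PositiveLinearMap.mk₀ Φ (fun a ha => by
    obtain ⟨b, rfl⟩ := CStarAlgebra.nonneg_iff_eq_star_mul_self.mp ha
    exact hΦ.nonneg b)
  have hf : ∀ x, f x = Φ x := fun x => rfl
  letI : CStarAlgebra (MM f) := StarSubalgebra.cstarAlgebra (MM f) (h_closed := MM_closed f)
  obtain ⟨t1, t2, t3⟩ := tau0_trst f (by rw [hf]; exact hΦ.one)
    (fun a b => by rw [hf, hf]; exact hΦ.tr a b)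
  refine ⟨MM f, inferInstance, pi0 f, tau0 f, ⟨t1, t2, t3⟩, fun x => tau0_pi0 f x,
    pi0_dense f, ?_⟩
  intro x hx
  apply pi0_ker f x
  intro y
  obtain ⟨_, _, b3, _, _, _, _, _, b9, _⟩ := hBAS L Φ hΦ
  have h0 : n2 Φ x = 0 := by
    unfold n2; rw [hx]; simp
  have h1 : n2 Φ (x * y) ≤ 0 := by
    have := b9 y x
    rwa [h0, mul_zero] at this
  have h2 : n2 Φ (x * y) = 0 := le_antisymm h1 (Real.sqrt_nonneg _)
  have h3 := b3 (x * y)
  rw [h2] at h3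
  rw [hf, ← h3]; simp

end H215EZ
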