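import Pool.Agent.H215R2.EZ.Stubs

/-! HLD: a Hoelder type inequality (helper959). -/

open scoped ComplexOrder

namespace H215EZ

universe u

theorem t_HLD (hBAS : S_BAS.{u}) : S_HLD.{u} := by
  intro M _ τ hτ x y
  obtain ⟨_, _, h3, _, _, _, _, h8, _, h10, _⟩ := hBAS M τ hτ
  have e1 : τ (star (x * y) * (x * y)) = τ (star (star x * x) * (y * star y)) := by
    have a1 : star (x * y) * (x * y) = star y * (star x * x * y) := by
      rw [star_mul]
      simp only [mul_assoc]
    have a2 : star (star x * x) * (y * star y) = (star x * x * y) * star y := by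
      rw [star_mul, star_star]
      simp only [mul_assoc]
    rw [a1, a2, hτ.tr]
  have e2 : n2 τ (x * y) ^ 2 ≤ n2 τ (star x * x) * n2 τ (y * star y) := by
    have b1 := h10 (star x * x) (y * star y)
    rw [← e1, ← h3 (x * y), Complex.norm_real, Real.norm_eq_abs,
      abs_of_nonneg (sq_nonneg _)] at b1
    exact b1
  have e3 : n2 τ (star x * x) ≤ ‖x‖ * n2 τ x := by
    have := h8 (star x) x
    rwa [norm_star] at this
  have e4 : n2 τ (y * star y) = Real.sqrt (τ ((y * star y) * (y * star y))).re := by
    unfold n2
    rw [star_mul, star_star]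
  rw [← e4]
  refine e2.trans ?_
  exact mul_le_mul_of_nonneg_right e3 (Real.sqrt_nonneg _)

end H215EZ
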