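import Pool.Agent.H215R2.EZ.Stubs

open scoped ComplexOrder

namespace H215EZ

universe u v

namespace IDX

variable {M : Type u} [CStarAlgebra M]

theorem isClosed_centralizer (s : Set M) :
    IsClosed ((StarSubalgebra.centralizer ℂ s : StarSubalgebra ℂ M) : Set M) := by
  have : ((StarSubalgebra.centralizer ℂ s : StarSubalgebra ℂ M) : Set M) =
      ⋂ g ∈ s, {z | g * z = z * g ∧ star g * z = z * star g} := by
    ext z
    rw [SetLike.mem_coe, StarSubalgebra.mem_centralizer_iff]
    simp
  rw [this]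
  refine isClosed_biInter fun g _ => ?_
  have h1 : {z : M | g * z = z * g ∧ star g * z = z * star g} =
      {z : M | g * z = z * g} ∩ {z : M | star g * z = z * star g} := rfl
  rw [h1]
  refine IsClosed.inter (isClosed_eq ?_ ?_) (isClosed_eq ?_ ?_) <;> fun_prop

theorem comm_cl (S : Set M) (y : M) (h : ∀ a ∈ S, a * y = y * a ∧ star a * y = y * star a)
    (x : M) (hx : x ∈ (StarAlgebra.adjoin ℂ S).topologicalClosure) :
    y * x = x * y ∧ star y * x = x * star y := by
  have h1 : (StarAlgebra.adjoin ℂ S).topologicalClosure ≤ StarSubalgebra.centralizer ℂ {y} := by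
    apply StarSubalgebra.topologicalClosure_minimal
    · rw [StarAlgebra.adjoin_le_iff]
      intro a ha
      rw [SetLike.mem_coe, StarSubalgebra.mem_centralizer_iff]
      intro g hg
      rw [Set.mem_singleton_iff] at hg
      subst hg
      obtain ⟨h2, h3⟩ := h a ha
      refine ⟨h2.symm, ?_⟩
      have := congrArg star h3
      rw [star_mul, star_mul, star_star] at this
      exact this
    · exact isClosed_centralizer _
  have h2 := h1 hx
  rw [StarSubalgebra.mem_centralizer_iff] at h2
  exact h2 y rfl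

theorem bb_sa (v : M) : star (bb v) = bb v := by
  unfold bb
  rw [star_sub, star_mul, star_mul, star_star]

theorem bb_sq (v : M) (h1 : v * v = 0) (h2 : star v * v + v * star v = 1) :
    bb v * bb v = 1 := by
  have h3 : star v * star v = 0 := by rw [← star_mul, h1, star_zero]
  have hpq : star v * v * (v * star v) = 0 := by
    rw [mul_assoc, ← mul_assoc v v, h1, zero_mul, mul_zero]
  have hqp : v * star v * (star v * v) = 0 := by
    rw [mul_assoc, ← mul_assoc (star v), h3, zero_mul, mul_zero]
  unfold bb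
  calc (star v * v - v * star v) * (star v * v - v * star v)
      = (star v * v + v * star v) * (star v * v + v * star v)
        - 2 • (star v * v * (v * star v)) - 2 • (v * star v * (star v * v)) := by noncomm_ring
    _ = 1 := by rw [h2, hpq, hqp]; simp

end IDX

open IDX

theorem t_IDX (_hBAS : S_BAS.{u}) (hIND : S_IND.{u}) : S_IDX.{u, v} := by
  intro M _ σ G I V F hσ hV0 hV1 hcomm hF hFs hdense
  have hts := hσ.ts
  -- generators
  have hstarF : ∀ g i, ∀ a ∈ F, star (V g i) * a = a * star (V g i) := by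
    intro g i a ha
    have := congrArg star (hF g i (star a) (hFs a ha))
    rw [star_mul, star_mul, star_star] at this
    exact this.symm
  have hgen : ∀ g h i j, i ≠ j → V g i * V h j = V h j * V g i ∧
      star (V g i) * V h j = V h j * star (V g i) := by
    intro g h i j hij
    exact ⟨(hcomm g h i j hij).1, ((hcomm h g j i hij.symm).2).symm⟩
  -- an element of `C J'` commutes with the generators of index outside `J'`
  have hout : ∀ J' : Set I, ∀ y ∈ CJ V J', ∀ g, ∀ i, i ∉ J' →
      V g i * y = y * V g i ∧ star (V g i) * y = y * star (V g i) := by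
    intro J' y hy g i hi
    refine comm_cl _ (V g i) ?_ y hy
    rintro a ⟨h, j, hj, rfl⟩
    exact hgen h g j i (fun e => hi (e ▸ hj))
  refine ⟨⟨hts, ?_, ?_, ?_, ?_, ?_, ?_, ?_, ?_⟩, ?_⟩
  · intro J J' hJ
    apply StarSubalgebra.topologicalClosure_mono
    apply StarAlgebra.adjoin_mono
    rintro x ⟨g, i, hi, rfl⟩
    exact ⟨g, i, hJ hi, rfl⟩
  · intro J
    exact StarSubalgebra.isClosed_topologicalClosure _
  · intro J g i hi
    have h1 : V g i ∈ CJ V J :=
      StarSubalgebra.le_topologicalClosure _ (StarAlgebra.subset_adjoin ℂ _ ⟨g, i, hi, rfl⟩)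
    exact sub_mem (mul_mem (star_mem h1) h1) (mul_mem h1 (star_mem h1))
  · intro J J' x y hJ hx hy
    refine ((comm_cl _ x ?_ y hy).1)
    rintro a ⟨g, i, hi, rfl⟩
    exact hout J x hx g i (fun h => (Set.disjoint_left.1 hJ h) hi)
  · intro J J' x y hJ hx hy
    refine hIND M σ hσ {x | ∃ g, ∃ i ∈ J, x = V g i} ({x | ∃ g, ∃ i ∉ J, x = V g i} ∪ F) ?_ ?_ x hx
      y ?_
    · rintro a ⟨g, i, hi, rfl⟩ b (⟨h, j, hj, rfl⟩ | hb)
      · exact hgen g h i j (fun e => hj (e ▸ hi))
      · exact ⟨hF g i b hb, hstarF g i b hb⟩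
    · have hset : ({x | ∃ g, ∃ i ∈ J, x = V g i} ∪ ({x | ∃ g, ∃ i ∉ J, x = V g i} ∪ F) : Set M) =
          {x | ∃ g i, x = V g i} ∪ F := by
        ext x
        constructor
        · rintro (⟨g, i, hi, rfl⟩ | ⟨g, i, hi, rfl⟩ | h)
          · exact Or.inl ⟨g, i, rfl⟩
          · exact Or.inl ⟨g, i, rfl⟩
          · exact Or.inr h
        · rintro (⟨g, i, rfl⟩ | h)
          · by_cases hi : i ∈ J
            · exact Or.inl ⟨g, i, hi, rfl⟩
            · exact Or.inr (Or.inl ⟨g, i, hi, rfl⟩)
          · exact Or.inr (Or.inr h)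
      rw [hset]
      exact hdense
    · rintro a ⟨g, i, hi, rfl⟩
      exact hout J' y hy g i (fun h => (Set.disjoint_left.1 hJ hi) h)
  · intro g i
    exact bb_sa _
  · intro g i
    exact bb_sq _ (hV0 g i) (hV1 g i)
  · intro g i
    unfold bb
    rw [map_sub, hts.tr, sub_self]
  · intro x hx a ha
    have h1 : a * x = x * a := by
      refine ((comm_cl _ a ?_ x hx).1)
      rintro b ⟨g, i, -, rfl⟩
      exact ⟨hF g i a ha, hstarF g i a ha⟩
    refine ⟨h1, ?_⟩
    rw [h1, mul_comm (σ a)]
    refine hIND M σ hσ {x | ∃ g, ∃ i ∈ Set.univ, x = V g i} F ?_ ?_ x hx a ?_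
    · rintro b ⟨g, i, -, rfl⟩ c hc
      exact ⟨hF g i c hc, hstarF g i c hc⟩
    · convert hdense using 5
      ext x
      simp
    · rintro b ⟨g, i, -, rfl⟩
      exact ⟨hF g i a ha, hstarF g i a ha⟩

end H215EZ
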