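import Pool.Agent.H215R2.EZ.Stubs

/-! Task IND (helper796): independence at an extreme trace. -/

set_option autoImplicit false

open scoped ComplexOrder Topology
open Filter

namespace H215EZ

universe u

namespace IND

variable {M : Type u} [CStarAlgebra M]

/-- the squared 2-norm as a complex number -/
theorem sq_eq (hBAS : S_BAS.{u}) {σ : M →ₗ[ℂ] ℂ} (hσ : IsTrSt σ) (x : M) :
    ((n2 σ x ^ 2 : ℝ) : ℂ) = σ (star x * x) := (hBAS M σ hσ).2.2.1 x

theorem par (hBAS : S_BAS.{u}) {σ : M →ₗ[ℂ] ℂ} (hσ : IsTrSt σ) (a b : M) :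
    n2 σ (a + b) ^ 2 + n2 σ (a - b) ^ 2 = 2 * n2 σ a ^ 2 + 2 * n2 σ b ^ 2 := by
  apply Complex.ofReal_injective
  have h1 := sq_eq hBAS hσ (a + b)
  have h2 := sq_eq hBAS hσ (a - b)
  have h3 := sq_eq hBAS hσ a
  have h4 := sq_eq hBAS hσ b
  rw [Complex.ofReal_add, Complex.ofReal_add, Complex.ofReal_mul, Complex.ofReal_mul, h1, h2, h3,
    h4]
  simp only [star_add, star_sub, add_mul, mul_add, sub_mul, mul_sub, map_add, map_sub,
    Complex.ofReal_ofNat]
  ring

theorem n2_nonneg (σ : M →ₗ[ℂ] ℂ) (x : M) : 0 ≤ n2 σ x := Real.sqrt_nonneg _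

theorem norm_unitary_le {u : M} (hu : star u * u = 1) (hM : (1 : M) ≠ 0) : ‖u‖ ≤ 1 := by
  have : Nontrivial M := ⟨⟨1, 0, hM⟩⟩
  have h1 : ‖star u * u‖ = ‖u‖ * ‖u‖ := CStarRing.norm_star_mul_self
  rw [hu, CStarRing.norm_one] at h1
  nlinarith [norm_nonneg u]

/-- an element commuting with `s` and its adjoints commutes with the closed star algebra -/
theorem comm_C {s : Set M} {y : M} (h : ∀ a ∈ s, a * y = y * a ∧ star a * y = y * star a) :
    ∀ c ∈ (StarAlgebra.adjoin ℂ s).topologicalClosure, c * y = y * c := by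
  have h1 : ∀ c ∈ StarAlgebra.adjoin ℂ s, c * y = y * c ∧ star c * y = y * star c := by
    intro c hc
    induction hc using StarAlgebra.adjoin_induction with
    | mem a ha => exact h a ha
    | algebraMap r =>
      rw [← algebraMap_star_comm]
      exact ⟨Algebra.commutes r y, Algebra.commutes (star r) y⟩
    | add a b _ _ ha hb =>
      rw [star_add, add_mul, add_mul, mul_add, mul_add, ha.1, ha.2, hb.1, hb.2]
      exact ⟨rfl, rfl⟩
    | mul a b _ _ ha hb =>
      rw [star_mul]
      constructor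
      · rw [mul_assoc, hb.1, ← mul_assoc, ha.1, mul_assoc]
      · rw [mul_assoc, ha.2, ← mul_assoc, hb.2, mul_assoc]
    | star a _ ha =>
      rw [star_star]
      exact ⟨ha.2, ha.1⟩
  intro c hc
  have hcl : IsClosed {c : M | c * y = y * c} :=
    isClosed_eq (continuous_id.mul continuous_const) (continuous_const.mul continuous_id)
  exact (closure_minimal (fun c hc => (h1 c hc).1) hcl) hc

/-- square roots of `1 + b` -/
theorem exists_sqrt (b : M) (hb : star b = b) (hn : ‖b‖ ≤ 1) : ∃ d : M, 1 + b = star d * d := by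
  let _ := CStarAlgebra.spectralOrder M
  have _ := CStarAlgebra.spectralOrderedRing M
  rw [← CStarAlgebra.nonneg_iff_eq_star_mul_self]
  have h1 : -algebraMap ℝ M ‖b‖ ≤ b := IsSelfAdjoint.neg_algebraMap_norm_le_self hb
  have h2 : algebraMap ℝ M ‖b‖ ≤ 1 := by
    rw [← map_one (algebraMap ℝ M)]
    exact algebraMap_mono M hn
  have h3 : (0 : M) ≤ b + algebraMap ℝ M ‖b‖ := by
    have := sub_nonneg.2 h1
    rwa [sub_neg_eq_add] at this
  calc (0 : M) ≤ b + algebraMap ℝ M ‖b‖ := h3
    _ ≤ b + 1 := add_le_add_right h2 b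
    _ = 1 + b := add_comm _ _

/-- The admissible elements: they replace the convex hull of the conjugates of `x`. -/
structure Adm (σ : M →ₗ[ℂ] ℂ) (C : Set M) (x k : M) : Prop where
  mem : k ∈ C
  sa : star k = k
  lo : ∀ y, 0 ≤ σ (k * (star y * y))
  hi : ∀ y, σ (k * (star y * y)) ≤ σ (star y * y)
  cm : ∀ y, (∀ c ∈ C, c * y = y * c) → σ (k * y) = σ (x * y)

theorem Adm.mid {σ : M →ₗ[ℂ] ℂ} {C : StarSubalgebra ℂ M} {x k k' : M} (h : Adm σ (C : Set M) x k)
    (h' : Adm σ (C : Set M) x k') : Adm σ (C : Set M) x ((1 / 2 : ℂ) • (k + k')) := by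
  have e : ∀ z, σ ((1 / 2 : ℂ) • (k + k') * z) = (1 / 2 : ℂ) * (σ (k * z) + σ (k' * z)) := by
    intro z
    rw [smul_mul_assoc, map_smul, add_mul, map_add, smul_eq_mul]
  have hp : (0 : ℂ) ≤ 1 / 2 := by
    rw [Complex.le_def]
    norm_num
  refine ⟨C.smul_mem (C.add_mem h.mem h'.mem) _, ?_, ?_, ?_, ?_⟩
  · rw [star_smul, star_add, h.sa, h'.sa]
    congr 1
    simp
  · intro y
    rw [e]
    exact mul_nonneg hp (add_nonneg (h.lo y) (h'.lo y))
  · intro y
    rw [e]
    have h1 := mul_le_mul_of_nonneg_left (add_le_add (h.hi y) (h'.hi y)) hp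
    refine h1.trans (le_of_eq ?_)
    ring
  · intro y hy
    rw [e, h.cm y hy, h'.cm y hy]
    ring

theorem Adm.conj {σ : M →ₗ[ℂ] ℂ} (hσ : IsTrSt σ) {C : StarSubalgebra ℂ M} {x k u : M}
    (h : Adm σ (C : Set M) x k) (hu : u ∈ C) (hu1 : star u * u = 1) (hu2 : u * star u = 1) :
    Adm σ (C : Set M) x (u * k * star u) := by
  have e : ∀ z, σ (u * k * star u * z) = σ (k * (star u * z * u)) := by
    intro z
    rw [show u * k * star u * z = u * (k * (star u * z)) by simp only [mul_assoc], hσ.tr]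
    simp only [mul_assoc]
  have e2 : ∀ y, star u * (star y * y) * u = star (y * u) * (y * u) := by
    intro y
    rw [star_mul]
    simp only [mul_assoc]
  refine ⟨(mul_mem (mul_mem hu h.mem) (star_mem hu) : u * k * star u ∈ C), ?_, ?_, ?_, ?_⟩
  · rw [star_mul, star_mul, star_star, h.sa, mul_assoc]
  · intro y
    rw [e, e2]
    exact h.lo _
  · intro y
    rw [e, e2]
    refine (h.hi _).trans (le_of_eq ?_)
    rw [← e2, hσ.tr, ← mul_assoc, hu2, one_mul]
  · intro y hy
    rw [e, ← h.cm y hy]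
    congr 2
    rw [mul_assoc (star u), ← hy u hu, ← mul_assoc (star u), hu1, one_mul]


theorem main (hBAS : S_BAS.{u}) {σ : M →ₗ[ℂ] ℂ} (hE : ExtTr σ) {s t : Set M}
    (hst : ∀ a ∈ s, ∀ b ∈ t, a * b = b * a ∧ star a * b = b * star a)
    (hD : Dense (StarAlgebra.adjoin ℂ (s ∪ t) : Set M)) {x d d' : M}
    (hx : x ∈ (StarAlgebra.adjoin ℂ s).topologicalClosure) (hd : x = star d * d)
    (hd' : 1 - x = star d' * d') {y : M}
    (hy : ∀ a ∈ s, a * y = y * a ∧ star a * y = y * star a) : σ (x * y) = σ x * σ y := by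
  have hσ := hE.ts
  obtain ⟨b1, b2, b3, b4, b5, b6, b7, b8, b9, b10, b11⟩ := hBAS M σ hσ
  set C := (StarAlgebra.adjoin ℂ s).topologicalClosure with hC
  have hM : (1 : M) ≠ 0 := by
    intro h
    have h1 := hσ.one
    rw [h, map_zero] at h1
    exact zero_ne_one h1
  have hxA : Adm σ (C : Set M) x x := by
    refine ⟨hx, ?_, ?_, ?_, fun _ _ => rfl⟩
    · rw [hd, star_mul, star_star]
    · intro z
      have e1 : σ (x * (star z * z)) = σ (star (z * star d) * (z * star d)) := by
        rw [hd, mul_assoc, hσ.tr, star_mul, star_star]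
        simp only [mul_assoc]
      rw [e1]
      exact hσ.nonneg _
    · intro z
      have e1 : σ ((1 - x) * (star z * z)) = σ (star (z * star d') * (z * star d')) := by
        rw [hd', mul_assoc, hσ.tr, star_mul, star_star]
        simp only [mul_assoc]
      have e2 : 0 ≤ σ ((1 - x) * (star z * z)) := by
        rw [e1]
        exact hσ.nonneg _
      rw [sub_mul, one_mul, map_sub] at e2
      exact sub_nonneg.1 e2
  -- the infimum of the 2-norm
  set S : Set ℝ := {r | ∃ k, Adm σ (C : Set M) x k ∧ r = n2 σ k ^ 2} with hS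
  have hSne : S.Nonempty := ⟨_, x, hxA, rfl⟩
  have hSbd : BddBelow S := ⟨0, by rintro r ⟨k, -, rfl⟩; positivity⟩
  set I := sInf S with hI
  have hIle : ∀ k, Adm σ (C : Set M) x k → I ≤ n2 σ k ^ 2 := fun k hk => csInf_le hSbd ⟨k, hk, rfl⟩
  have hI0 : 0 ≤ I := le_csInf hSne (by rintro r ⟨k, -, rfl⟩; positivity)
  -- closeness of almost minimal elements
  have hclose : ∀ k k' : M, Adm σ (C : Set M) x k → Adm σ (C : Set M) x k' → ∀ δ δ' : ℝ,
      n2 σ k ^ 2 ≤ I + δ → n2 σ k' ^ 2 ≤ I + δ' → n2 σ (k - k') ^ 2 ≤ 2 * (δ + δ') := by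
    intro k k' hk hk' δ δ' h1 h2
    have h3 := par hBAS hσ k k'
    have h4 := hIle _ (hk.mid hk')
    rw [b5] at h4
    have h5 : ‖(1 / 2 : ℂ)‖ = 1 / 2 := by
      rw [norm_div, norm_one, Complex.norm_ofNat]
    rw [h5] at h4
    nlinarith
  -- the sequence
  have hex : ∀ n : ℕ, ∃ k, Adm σ (C : Set M) x k ∧ n2 σ k ^ 2 ≤ I + 1 / ((n : ℝ) + 1) := by
    intro n
    have hpos : I < I + 1 / ((n : ℝ) + 1) := lt_add_of_pos_right _ (by positivity)
    obtain ⟨r, ⟨k, hk, rfl⟩, hr⟩ := exists_lt_of_csInf_lt hSne hpos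
    exact ⟨k, hk, hr.le⟩
  choose k hk hkI using hex
  have hδ0 : Tendsto (fun n : ℕ => 1 / ((n : ℝ) + 1)) atTop (𝓝 0) :=
    tendsto_one_div_add_atTop_nhds_zero_nat
  have hδmono : ∀ m n : ℕ, m ≤ n → 1 / ((n : ℝ) + 1) ≤ 1 / ((m : ℝ) + 1) := by
    intro m n hmn
    apply one_div_le_one_div_of_le (by positivity)
    have : (m : ℝ) ≤ n := by exact_mod_cast hmn
    linarith
  have hsq0 : Tendsto (fun n : ℕ => Real.sqrt (4 * (1 / ((n : ℝ) + 1)))) atTop (𝓝 0) := by
    have h1 : Tendsto (fun n : ℕ => 4 * (1 / ((n : ℝ) + 1))) atTop (𝓝 0) := by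
      have := hδ0.const_mul 4
      rwa [mul_zero] at this
    have h2 := (Real.continuous_sqrt.tendsto 0).comp h1
    rw [Real.sqrt_zero] at h2
    exact h2
  set B : ℝ := Real.sqrt (I + 1) with hB
  have hkB : ∀ n, n2 σ (k n) ≤ B := by
    intro n
    apply Real.le_sqrt_of_sq_le
    refine (hkI n).trans ?_
    have : 1 / ((n : ℝ) + 1) ≤ 1 := by
      rw [div_le_one (by positivity)]
      have : (0 : ℝ) ≤ n := Nat.cast_nonneg n
      linarith
    linarith
  have hB0 : 0 ≤ B := Real.sqrt_nonneg _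
  -- the elements which asymptotically commute with the sequence
  set D : Set M := {m | Tendsto (fun n => n2 σ (m * k n - k n * m)) atTop (𝓝 0)} with hDdef
  have hDsq : ∀ (m : M) (f : ℕ → ℝ), Tendsto f atTop (𝓝 0) →
      (∀ n, n2 σ (m * k n - k n * m) ≤ f n) → m ∈ D := by
    intro m f hf h
    exact squeeze_zero (fun n => n2_nonneg _ _) h hf
  have hDadd : ∀ a b, a ∈ D → b ∈ D → a + b ∈ D := by
    intro a b ha hb
    have hab := ha.add hb
    rw [add_zero] at hab
    apply hDsq _ _ hab
    intro n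
    have : (a + b) * k n - k n * (a + b) = (a * k n - k n * a) + (b * k n - k n * b) := by
      rw [add_mul, mul_add]; abel
    rw [this]
    exact b4 _ _
  have hDsmul : ∀ (c : ℂ) a, a ∈ D → c • a ∈ D := by
    intro c a ha
    have hca := ha.const_mul ‖c‖
    rw [mul_zero] at hca
    apply hDsq _ _ hca
    intro n
    have : (c • a) * k n - k n * (c • a) = c • (a * k n - k n * a) := by
      rw [smul_mul_assoc, mul_smul_comm, smul_sub]
    rw [this, b5]
  have hDmul : ∀ a b, a ∈ D → b ∈ D → a * b ∈ D := by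
    intro a b ha hb
    have hab := (hb.const_mul ‖a‖).add (ha.const_mul ‖b‖)
    rw [mul_zero, mul_zero, add_zero] at hab
    apply hDsq _ _ hab
    intro n
    have : (a * b) * k n - k n * (a * b) = a * (b * k n - k n * b) + (a * k n - k n * a) * b := by
      rw [mul_sub, sub_mul]
      simp only [mul_assoc]
      abel
    rw [this]
    exact (b4 _ _).trans (add_le_add (b8 _ _) (b9 _ _))
  have hDstar : ∀ a, a ∈ D → star a ∈ D := by
    intro a ha
    apply hDsq _ _ ha
    intro n
    have h1 : star a * k n - k n * star a = (-1 : ℂ) • star (a * k n - k n * a) := by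
      rw [star_sub, star_mul, star_mul, (hk n).sa, neg_one_smul]
      abel
    rw [h1, b5, b6, norm_neg, norm_one, one_mul]
  have hDclosed : ∀ m, (∀ ε > 0, ∃ m' ∈ D, ‖m - m'‖ < ε) → m ∈ D := by
    intro m hm
    have h1 : ∀ ε > 0, ∀ᶠ n in atTop, n2 σ (m * k n - k n * m) < ε := by
      intro ε hε
      obtain ⟨m', hm', hmm⟩ := hm (ε / (4 * (B + 1))) (by positivity)
      have h2 : ∀ᶠ n in atTop, n2 σ (m' * k n - k n * m') < ε / 4 :=
        (tendsto_order.1 hm').2 _ (by positivity)
      filter_upwards [h2] with n hn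
      have e1 : m * k n - k n * m = (m' * k n - k n * m') + ((m - m') * k n +
          (-1 : ℂ) • (k n * (m - m'))) := by
        rw [neg_one_smul, sub_mul, mul_sub]
        abel
      have e2 : n2 σ ((m - m') * k n) ≤ ‖m - m'‖ * B :=
        (b8 _ _).trans (mul_le_mul_of_nonneg_left (hkB n) (norm_nonneg _))
      have e3 : n2 σ ((-1 : ℂ) • (k n * (m - m'))) ≤ ‖m - m'‖ * B := by
        rw [b5, norm_neg, norm_one, one_mul]
        exact (b9 _ _).trans (mul_le_mul_of_nonneg_left (hkB n) (norm_nonneg _))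
      have e4 : ‖m - m'‖ * B ≤ ε / 4 := by
        have h5 : ‖m - m'‖ * B ≤ ε / (4 * (B + 1)) * (B + 1) :=
          mul_le_mul hmm.le (by linarith) hB0 (by positivity)
        have h6 : ε / (4 * (B + 1)) * (B + 1) = ε / 4 := by field_simp
        linarith
      have e5 := b4 (m' * k n - k n * m') ((m - m') * k n + (-1 : ℂ) • (k n * (m - m')))
      have e6 := b4 ((m - m') * k n) ((-1 : ℂ) • (k n * (m - m')))
      rw [← e1] at e5
      linarith
    rw [hDdef, Set.mem_ofPred_eq]
    rw [tendsto_order]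
    refine ⟨fun a ha => Eventually.of_forall fun n => ha.trans_le (n2_nonneg _ _), fun a ha => h1 a ha⟩
  -- unitaries of `C`
  have hDu : ∀ u ∈ C, star u * u = 1 → u * star u = 1 → u ∈ D := by
    intro u hu hu1 hu2
    apply hDsq _ _ hsq0
    intro n
    have hc := (hk n).conj hσ hu hu1 hu2
    have hun := norm_unitary_le hu1 hM
    have hun' : ‖star u‖ ≤ 1 := by rw [norm_star]; exact hun
    have e1 : n2 σ (u * k n * star u) ≤ n2 σ (k n) := by
      refine (b9 _ _).trans ?_
      refine (mul_le_of_le_one_left (n2_nonneg _ _) hun').trans ?_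
      refine (b8 _ _).trans ?_
      exact mul_le_of_le_one_left (n2_nonneg _ _) hun
    have e2 : n2 σ (u * k n * star u) ^ 2 ≤ I + 1 / ((n : ℝ) + 1) :=
      (pow_le_pow_left₀ (n2_nonneg _ _) e1 2).trans (hkI n)
    have e3 := hclose _ _ hc (hk n) _ _ e2 (hkI n)
    have e4 : n2 σ (u * k n * star u - k n) ≤ Real.sqrt (4 * (1 / ((n : ℝ) + 1))) := by
      apply Real.le_sqrt_of_sq_le
      linarith
    have e5 : u * k n - k n * u = (u * k n * star u - k n) * u := by
      rw [sub_mul, mul_assoc (u * k n), hu1, mul_one]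
    rw [e5]
    refine (b9 _ _).trans ?_
    exact (mul_le_of_le_one_left (n2_nonneg _ _) hun).trans e4
  have hDC : ∀ c ∈ C, c ∈ D := by
    intro c hc
    have : IsClosed (C : Set M) := isClosed_closure
    obtain ⟨u, co, h1, -⟩ := CStarAlgebra.exists_sum_four_unitary (⟨c, hc⟩ : C)
    have h2 : c = ∑ i, co i • ((u i : C) : M) := by
      have := congrArg (Subtype.val : C → M) h1
      simpa using this
    rw [h2]
    have h0 : (0 : M) ∈ D := by
      apply hDsq _ _ tendsto_const_nhds
      intro n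
      rw [zero_mul, mul_zero, sub_zero]
      have := b7 0
      rwa [norm_zero] at this
    apply Finset.sum_induction _ (· ∈ D) (fun a b => hDadd a b) h0
    intro i _
    apply hDsmul
    apply hDu _ (u i : C).2
    · exact congrArg (Subtype.val : C → M) (Unitary.star_mul_self_of_mem (u i).2)
    · exact congrArg (Subtype.val : C → M) (Unitary.mul_star_self_of_mem (u i).2)
  have hDt : ∀ b ∈ t, b ∈ D := by
    intro b hb
    apply hDsq _ _ tendsto_const_nhds
    intro n
    have h1 : k n * b = b * k n := comm_C (fun a ha => hst a ha b hb) _ (hk n).mem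
    rw [h1, sub_self]
    have := b7 0
    rwa [norm_zero] at this
  have hDadj : ∀ m ∈ StarAlgebra.adjoin ℂ (s ∪ t), m ∈ D := by
    intro m hm
    induction hm using StarAlgebra.adjoin_induction with
    | mem a ha =>
      rcases ha with ha | ha
      · exact hDC a (subset_closure (StarAlgebra.subset_adjoin ℂ s ha))
      · exact hDt a ha
    | algebraMap r =>
      apply hDsq _ _ tendsto_const_nhds
      intro n
      rw [Algebra.commutes, sub_self]
      have := b7 0
      rwa [norm_zero] at this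
    | add a b _ _ ha hb => exact hDadd _ _ ha hb
    | mul a b _ _ ha hb => exact hDmul _ _ ha hb
    | star a _ ha => exact hDstar _ ha
  have hDall : ∀ m, m ∈ D := by
    intro m
    apply hDclosed
    intro ε hε
    obtain ⟨m', hm', h1⟩ := Metric.dense_iff.1 hD m ε hε
    refine ⟨m', hDadj m' h1, ?_⟩
    rw [← dist_eq_norm, dist_comm]
    exact hm'
  -- the limit functional
  have hcau : ∀ z, CauchySeq (fun n => σ (k n * z)) := by
    intro z
    refine cauchySeq_of_le_tendsto_0 (fun N : ℕ => Real.sqrt (4 * (1 / ((N : ℝ) + 1))) * n2 σ z)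
      ?_ ?_
    · intro n m N hn hm
      rw [dist_eq_norm, ← map_sub, ← sub_mul]
      have h1 : star (k n - k m) = k n - k m := by rw [star_sub, (hk n).sa, (hk m).sa]
      have h2 := b10 (k n - k m) z
      rw [h1] at h2
      refine h2.trans (mul_le_mul_of_nonneg_right ?_ (n2_nonneg _ _))
      apply Real.le_sqrt_of_sq_le
      have h3 := hclose _ _ (hk n) (hk m) _ _ (hkI n) (hkI m)
      have h4 := hδmono N n hn
      have h5 := hδmono N m hm
      linarith
    · have := hsq0.mul_const (n2 σ z)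
      rwa [zero_mul] at this
  choose f hf using fun z => cauchySeq_tendsto_of_complete (hcau z)
  let ψ : M →ₗ[ℂ] ℂ := linearMapOfTendsto f (fun n => σ ∘ₗ LinearMap.mulLeft ℂ (k n))
    (l := atTop) (tendsto_pi_nhds.2 hf)
  have hψ : ∀ z, Tendsto (fun n => σ (k n * z)) atTop (𝓝 (ψ z)) := hf
  have hψE := hE.ext ψ ?_ ?_ ?_
  · have h1 : ψ 1 = σ x := by
      refine tendsto_nhds_unique (hψ 1) ?_
      have : ∀ n, σ (k n * 1) = σ x := by
        intro n
        rw [(hk n).cm 1 (fun c _ => by rw [mul_one, one_mul]), mul_one]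
      simp only [this]
      exact tendsto_const_nhds
    have h2 : ψ y = σ (x * y) := by
      refine tendsto_nhds_unique (hψ y) ?_
      have : ∀ n, σ (k n * y) = σ (x * y) := fun n => (hk n).cm y (comm_C hy)
      simp only [this]
      exact tendsto_const_nhds
    rw [← h2, hψE, LinearMap.smul_apply, smul_eq_mul, h1]
  · intro a
    exact ge_of_tendsto' (hψ _) (fun n => (hk n).lo a)
  · intro a
    exact le_of_tendsto' (hψ _) (fun n => (hk n).hi a)
  · intro a b
    refine tendsto_nhds_unique (hψ (a * b)) ?_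
    have h1 : Tendsto (fun n => σ (k n * (b * a)) + σ ((k n * a - a * k n) * b)) atTop
        (𝓝 (ψ (b * a) + 0)) := by
      refine (hψ (b * a)).add ?_
      rw [tendsto_zero_iff_norm_tendsto_zero]
      have h2 : Tendsto (fun n => n2 σ (a * k n - k n * a) * n2 σ b) atTop (𝓝 0) := by
        have := (show Tendsto (fun n => n2 σ (a * k n - k n * a)) atTop (𝓝 0) from
          hDall a).mul_const (n2 σ b)
        rwa [zero_mul] at this
      refine squeeze_zero (fun n => norm_nonneg _) (fun n => ?_) h2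
      have h3 := b10 (star (k n * a - a * k n)) b
      rw [star_star, b6] at h3
      refine h3.trans (le_of_eq ?_)
      congr 1
      have : k n * a - a * k n = (-1 : ℂ) • (a * k n - k n * a) := by
        rw [neg_one_smul]; abel
      rw [this, b5, norm_neg, norm_one, one_mul]
    rw [add_zero] at h1
    refine h1.congr (fun n => ?_)
    rw [sub_mul, map_sub, hσ.tr (k n) (b * a), hσ.tr (a * k n) b]
    have e1 : b * a * k n = b * (a * k n) := mul_assoc _ _ _
    rw [e1, mul_assoc (k n) a b]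
    ring

end IND

theorem t_IND (hBAS : S_BAS.{u}) : S_IND.{u} := by
  intro M _ σ hE s t hst hD x hx y hy
  set C := (StarAlgebra.adjoin ℂ s).topologicalClosure with hC
  -- self-adjoint contractions
  have h1 : ∀ b ∈ C, star b = b → ‖b‖ ≤ 1 → σ (b * y) = σ b * σ y := by
    intro b hb hs hn
    obtain ⟨d, hd⟩ := IND.exists_sqrt b hs hn
    obtain ⟨d', hd'⟩ := IND.exists_sqrt (-b) (by rw [star_neg, hs]) (by rw [norm_neg]; exact hn)
    have hr : ((((Real.sqrt 2)⁻¹ : ℝ) : ℂ)) * (((Real.sqrt 2)⁻¹ : ℝ) : ℂ) = 1 / 2 := by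
      rw [← Complex.ofReal_mul, ← mul_inv, Real.mul_self_sqrt (by norm_num)]
      norm_num
    have hsq : ∀ z : M, (1 / 2 : ℂ) • (star z * z) =
        star (((((Real.sqrt 2)⁻¹ : ℝ) : ℂ)) • z) * (((((Real.sqrt 2)⁻¹ : ℝ) : ℂ)) • z) := by
      intro z
      rw [star_smul, smul_mul_smul_comm, Complex.star_def, Complex.conj_ofReal, hr]
    have hmem : (1 / 2 : ℂ) • (1 + b) ∈ C := C.smul_mem (C.add_mem C.one_mem hb) _
    have key := IND.main hBAS hE hst hD hmem (by rw [hd]; exact hsq d)
      (by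
        have e1 : (1 : M) - (1 / 2 : ℂ) • (1 + b) = (1 / 2 : ℂ) • (1 + -b) := by
          rw [smul_add, smul_add, smul_neg]
          have : (1 : M) = (1 / 2 : ℂ) • (1 : M) + (1 / 2 : ℂ) • (1 : M) := by
            rw [← add_smul]; norm_num
          nth_rewrite 1 [this]
          abel
        rw [e1, hd']
        exact hsq d') hy
    rw [smul_mul_assoc, map_smul, map_smul, add_mul, one_mul, map_add, map_add, hE.ts.one,
      smul_eq_mul, smul_eq_mul] at key
    linear_combination 2 * key
  -- self-adjoint elements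
  have h2 : ∀ b ∈ C, star b = b → σ (b * y) = σ b * σ y := by
    intro b hb hs
    by_cases h0 : b = 0
    · rw [h0, zero_mul, map_zero, zero_mul]
    · have hn : 0 < ‖b‖ := norm_pos_iff.2 h0
      have h3 := h1 (((‖b‖⁻¹ : ℝ) : ℂ) • b) (C.smul_mem hb _) (by
        rw [star_smul, hs, Complex.star_def, Complex.conj_ofReal]) (by
        rw [norm_smul, Complex.norm_real, norm_inv, norm_norm, inv_mul_cancel₀ hn.ne'])
      rw [smul_mul_assoc, map_smul, map_smul, smul_eq_mul, smul_eq_mul] at h3
      have h4 : ((‖b‖⁻¹ : ℝ) : ℂ) ≠ 0 := by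
        exact_mod_cast (inv_pos.2 hn).ne'
      apply mul_left_cancel₀ h4
      rw [h3]
      ring
  -- all elements
  have e1 : x = (1 / 2 : ℂ) • (x + star x) + (-(Complex.I / 2)) • (Complex.I • (x - star x)) := by
    rw [smul_smul]
    have : -(Complex.I / 2) * Complex.I = 1 / 2 := by
      have := Complex.I_mul_I
      linear_combination (-1 / 2 : ℂ) * this
    rw [this, ← smul_add]
    have e2 : x + star x + (x - star x) = (2 : ℂ) • x := by
      rw [two_smul]; abel
    rw [e2, smul_smul]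
    norm_num
  have hxs : star x ∈ C := star_mem hx
  have h3 := h2 (x + star x) (C.add_mem hx hxs) (by rw [star_add, star_star, add_comm])
  have h4 := h2 (Complex.I • (x - star x)) (C.smul_mem (sub_mem hx hxs) _) (by
    rw [star_smul, star_sub, star_star, Complex.star_def, Complex.conj_I, neg_smul, ← smul_neg,
      neg_sub])
  rw [e1, add_mul, map_add, map_add, smul_mul_assoc, smul_mul_assoc, map_smul, map_smul, map_smul,
    map_smul, h3, h4]
  simp only [smul_eq_mul]
  ring

end H215EZ
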