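import Pool.Agent.H215R2.EZ.Stubs

open scoped ComplexOrder

namespace H215EZ

universe u v

namespace INV

theorem cf_zero_left {G : Type*} (R : ℕ) (p : ℕ → ℝ) (f : G →₀ ℝ) (K : G → G → ℝ) (g h : G)
    (hg : g ∉ f.support) : cf R p f K g h = 0 := by
  have : f g = 0 := by simpa using hg
  simp [cf, this]

theorem cf_zero_right {G : Type*} (R : ℕ) (p : ℕ → ℝ) (f : G →₀ ℝ) (K : G → G → ℝ) (g h : G)
    (hh : h ∉ f.support) : cf R p f K g h = 0 := by
  have : f h = 0 := by simpa using hh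
  simp [cf, this]

theorem Xc_support {M : Type*} [CStarAlgebra M] {G : Type*} (k : ℕ) (w : G → Fin k → M)
    (R : ℕ) (p : ℕ → ℝ) (f : G →₀ ℝ) (K : G → G → ℝ) (E : Finset G) (hE : f.support ⊆ E) :
    Xc k w f.support (cf R p f K) = Xc k w E (cf R p f K) := by
  unfold Xc
  have h1 : ∀ g, ∑ h ∈ f.support, (cf R p f K g h : ℂ) • Ych k w g h =
      ∑ h ∈ E, (cf R p f K g h : ℂ) • Ych k w g h := by
    intro g
    refine Finset.sum_subset hE fun h _ hh => ?_
    rw [cf_zero_right R p f K g h hh]; simp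
  rw [Finset.sum_congr rfl fun g _ => h1 g]
  refine Finset.sum_subset hE fun g _ hg => ?_
  refine Finset.sum_eq_zero fun h _ => ?_
  rw [cf_zero_left R p f K g h hg]; simp

theorem Xc_sub {M : Type*} [CStarAlgebra M] {G : Type*} (k : ℕ) (w : G → Fin k → M)
    (E : Finset G) (c c' : G → G → ℝ) :
    Xc k w E c - Xc k w E c' = Xc k w E fun g h => c g h - c' g h := by
  unfold Xc
  rw [← Finset.sum_sub_distrib]
  refine Finset.sum_congr rfl fun g _ => ?_
  rw [← Finset.sum_sub_distrib]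
  refine Finset.sum_congr rfl fun h _ => ?_
  rw [← sub_smul]
  push_cast
  rfl

end INV

theorem t_INV (hBAS : S_BAS.{u}) (hEXC : S_EXC.{u, v}) (hBLK : S_BLK.{u, v})
    (hKB : S_KB.{u, v}) (hM2 : S_M2.{u, v}) (hXSA : S_XSA.{u, v}) (hPS : S_PS.{v})
    (hCFB : S_CFB.{v}) : S_INV.{u, v} := by
  classical
  intro R p η ξ hη hp N k M _ σ G C w hI hk E f f' hf hf' hE hE'
  obtain ⟨b1, b2, b3, b4, b5, b6, b7, b8, b9, b10, b11⟩ := hBAS M σ hI.ts
  -- blocks
  have hB : ∀ m : Fin N, Ind σ (fun J : Set (Fin k) => C {q | q.1 = m ∧ q.2 ∈ J})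
      fun g i => w g (m, i) := fun m => hBLK M σ G N k C w hI m
  have hcor : ∀ m : Fin N, IsCorr (kbar σ k fun g i => w g (m, i)) := fun m =>
    (hKB M σ G k _ _ (hB m) hk).2.1
  constructor
  · unfold Zs
    rw [star_smul, star_sum]
    have h1 : ∀ m : Fin N, star (Xs σ R p f k fun g i => w g (m, i)) =
        Xs σ R p f k fun g i => w g (m, i) := by
      intro m
      unfold Xs
      exact (hXSA M σ G k _ _ (hB m) f.support _
        (hCFB G f.support _ (hcor m) R p f hf subset_rfl).1).1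
    rw [Finset.sum_congr rfl fun m _ => h1 m]
    simp
  · set cc : Fin N → G → G → ℝ := fun m g h =>
      cf R p f (kbar σ k fun g i => w g (m, i)) g h -
        cf R p f' (kbar σ k fun g i => w g (m, i)) g h with hcc
    set X : Fin N → M := fun m => Xc k (fun g i => w g (m, i)) E (cc m) with hX
    have hZ : Zs σ R p ξ N k f w - Zs σ R p ξ N k f' w = (ξ : ℂ) • ∑ m, X m := by
      unfold Zs
      rw [← smul_sub, ← Finset.sum_sub_distrib]
      congr 1
      refine Finset.sum_congr rfl fun m _ => ?_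
      unfold Xs
      rw [INV.Xc_support k _ R p f _ E hE, INV.Xc_support k _ R p f' _ E hE', INV.Xc_sub]
    have hsym : ∀ m g h, cc m g h = cc m h g := by
      intro m g h
      simp only [hcc]
      rw [(hCFB G E _ (hcor m) R p f hf hE).1 g h, (hCFB G E _ (hcor m) R p f' hf' hE').1 g h]
    have hXm : ∀ m, star (X m) = X m ∧ σ (X m) = 0 ∧ X m ∈ C {q | q.1 = m} := by
      intro m
      obtain ⟨h1, h2, h3, -⟩ := hXSA M σ G k _ _ (hB m) E (cc m) (hsym m)
      refine ⟨h1, h2, ?_⟩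
      have h4 : {q : Fin N × Fin k | q.1 = m ∧ q.2 ∈ (Set.univ : Set (Fin k))} =
          {q | q.1 = m} := by
        ext q; simp
      have h3' : X m ∈ C {q : Fin N × Fin k | q.1 = m ∧ q.2 ∈ (Set.univ : Set (Fin k))} := h3
      rwa [h4] at h3'
    have horth := (hEXC M σ G (Fin N × Fin k) C w hI N X (fun m => {q | q.1 = m}) (by
      intro m m' hmm
      rw [Set.disjoint_left]
      intro q hq hq'
      exact hmm (hq.symm.trans hq')) (fun m => (hXm m).2.2)).2 (fun m => (hXm m).2.1)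
    set t : ℝ := Real.sqrt (∑ g ∈ E, |f g - f' g|) + 2 * (η * Real.sqrt E.card) with ht
    have ht0 : 0 ≤ t := by positivity
    have hbound : ∀ m, n2 σ (X m) ^ 2 ≤ 2 * t ^ 2 := by
      intro m
      have h1 := b3 (X m)
      rw [(hXm m).1] at h1
      have h2 := hM2 M σ G k _ _ (hB m) hk E (cc m) (hsym m)
      have h3 : (((n2 σ (X m)) ^ 2 : ℝ) : ℂ) = ((2 * qf E (cc m) (kbar σ k fun g i => w g (m, i)) -
          2 * (k : ℝ)⁻¹ ^ 2 * ∑ i, qf E (cc m) (kap σ (fun g i => w g (m, i)) i) : ℝ) : ℂ) :=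
        h1.trans h2
      have h4 := Complex.ofReal_injective h3
      have h5 : ∀ i, 0 ≤ qf E (cc m) (kap σ (fun g i => w g (m, i)) i) := fun i =>
        ((hCFB G E _ ((hKB M σ G k _ _ (hB m) hk).1 i) R p f hf hE).2.2 (cc m)).1
      have h6 : 0 ≤ qf E (cc m) (kbar σ k fun g i => w g (m, i)) :=
        ((hCFB G E _ (hcor m) R p f hf hE).2.2 (cc m)).1
      have h7 := (hPS G E _ (hcor m) R p η hη hp f f' hf hf' hE hE').2.2
      have h8 : qf E (cc m) (kbar σ k fun g i => w g (m, i)) ≤ t ^ 2 := by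
        have h9 : Real.sqrt (qf E (cc m) (kbar σ k fun g i => w g (m, i))) ≤ t := h7
        calc qf E (cc m) (kbar σ k fun g i => w g (m, i))
            = Real.sqrt (qf E (cc m) (kbar σ k fun g i => w g (m, i))) ^ 2 :=
              (Real.sq_sqrt h6).symm
          _ ≤ t ^ 2 := pow_le_pow_left₀ (Real.sqrt_nonneg _) h9 2
      have h10 : 0 ≤ 2 * (k : ℝ)⁻¹ ^ 2 *
          ∑ i, qf E (cc m) (kap σ (fun g i => w g (m, i)) i) :=
        mul_nonneg (mul_nonneg zero_le_two (sq_nonneg _))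
          (Finset.sum_nonneg fun i (_ : i ∈ Finset.univ) => h5 i)
      rw [h4]
      exact (sub_le_self _ h10).trans (mul_le_mul_of_nonneg_left h8 zero_le_two)
    rw [hZ, b5, mul_pow, horth]
    have h11 : ‖(ξ : ℂ)‖ ^ 2 = ξ ^ 2 := by
      rw [Complex.norm_real, Real.norm_eq_abs, sq_abs]
    rw [h11]
    have h12 : ∑ m : Fin N, n2 σ (X m) ^ 2 ≤ N * (2 * t ^ 2) := by
      calc ∑ m : Fin N, n2 σ (X m) ^ 2 ≤ ∑ _m : Fin N, 2 * t ^ 2 :=
            Finset.sum_le_sum fun m _ => hbound m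
        _ = N * (2 * t ^ 2) := by simp
    calc ξ ^ 2 * ∑ m : Fin N, n2 σ (X m) ^ 2 ≤ ξ ^ 2 * (N * (2 * t ^ 2)) :=
          mul_le_mul_of_nonneg_left h12 (sq_nonneg _)
      _ = 2 * (ξ ^ 2 * N) * t ^ 2 := by ring

end H215EZ
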