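import Pool.Agent.H215R2.EZ.Stubs

/-!
Project EZ (MP_ba6511_an), task ISO: an isolated index gives trace zero.
-/

open scoped ComplexOrder

namespace H215EZ

universe u v

theorem t_ISO : S_ISO.{u, v} := by
  intro M _ σ G I C w hI l₁ l₂ g i h₁ h₂
  have key : ∀ l : List (G × I), (∀ q ∈ l, q.2 ≠ i) →
      (l.map fun q => w q.1 q.2).prod ∈ C ({i}ᶜ : Set I) := by
    intro l hl
    apply list_prod_mem
    intro x hx
    obtain ⟨q, hq, rfl⟩ := List.mem_map.1 hx
    exact hI.mem _ q.1 q.2 (by simpa using hl q hq)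
  have hw : w g i ∈ C ({i} : Set I) := hI.mem _ g i rfl
  have hyx := mul_mem (key l₂ h₂) (key l₁ h₁)
  have hd : Disjoint ({i} : Set I) ({i}ᶜ : Set I) := disjoint_compl_right
  rw [mul_assoc, hI.ts.tr, mul_assoc, hI.ind _ _ _ _ hd hw hyx, hI.mean, zero_mul]

end H215EZ
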