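import Pool.Agent.H215R2.EZ.Stubs

/-!
# KB: covariances are correlation kernels
-/

open scoped ComplexOrder

namespace H215EZ

universe u v

namespace KB

variable {M : Type u} [CStarAlgebra M] {σ : M →ₗ[ℂ] ℂ} {G : Type v} {k : ℕ}
  {C : Set (Fin k) → StarSubalgebra ℂ M} {w : G → Fin k → M}

theorem norm_w_le (h : Ind σ C w) (g : G) (i : Fin k) : ‖w g i‖ ≤ 1 := by
  have hnt : Nontrivial M := by
    by_contra hn
    rw [not_nontrivial_iff_subsingleton] at hn
    have h1 : (1 : M) = 0 := Subsingleton.elim _ _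
    have h2 := h.ts.one
    rw [h1, map_zero] at h2
    exact zero_ne_one h2
  have h1 : ‖w g i‖ * ‖w g i‖ = 1 := by
    rw [← CStarRing.norm_star_mul_self, h.sa, h.sq, CStarRing.norm_one]
  nlinarith [norm_nonneg (w g i)]

theorem norm_ww_le (h : Ind σ C w) (g g' : G) (i : Fin k) : ‖w g i * w g' i‖ ≤ 1 := by
  refine le_trans (norm_mul_le _ _) ?_
  exact mul_le_one₀ (norm_w_le h g i) (norm_nonneg _) (norm_w_le h g' i)

theorem real_ww (hBAS : S_BAS.{u}) (h : Ind σ C w) (g g' : G) (i : Fin k) :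
    σ (w g i * w g' i) = (kap σ w i g g' : ℂ) := by
  have h1 := (hBAS M σ h.ts).2.1 (w g i * w g' i)
  rw [star_mul, h.sa, h.sa, h.ts.tr] at h1
  have h2 := Complex.conj_eq_iff_re.1 h1.symm
  exact h2.symm

theorem psd (hBAS : S_BAS.{u}) (h : Ind σ C w) (i : Fin k) (E : Finset G) (x : G → ℝ) :
    0 ≤ ∑ g ∈ E, ∑ g' ∈ E, x g * x g' * kap σ w i g g' := by
  set a : M := ∑ g ∈ E, (x g : ℂ) • w g i with ha
  have hsa : star a = a := by
    rw [ha, star_sum]
    refine Finset.sum_congr rfl fun g _ => ?_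
    rw [star_smul, h.sa, Complex.star_def, Complex.conj_ofReal]
  have h1 := h.ts.nonneg a
  rw [hsa] at h1
  have h2 : σ (a * a) = ((∑ g ∈ E, ∑ g' ∈ E, x g * x g' * kap σ w i g g' : ℝ) : ℂ) := by
    rw [ha, Finset.sum_mul, map_sum]
    push_cast
    refine Finset.sum_congr rfl fun g _ => ?_
    rw [Finset.mul_sum, map_sum]
    refine Finset.sum_congr rfl fun g' _ => ?_
    rw [smul_mul_smul_comm, map_smul, real_ww hBAS h, smul_eq_mul]
  rw [h2] at h1
  exact_mod_cast h1

theorem corr (hBAS : S_BAS.{u}) (h : Ind σ C w) (i : Fin k) : IsCorr (kap σ w i) := by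
  refine ⟨?_, ?_, psd hBAS h i⟩
  · intro g g'
    unfold kap
    rw [h.ts.tr]
  · intro g
    unfold kap
    rw [h.sq, h.ts.one, Complex.one_re]

end KB

theorem t_KB (hBAS : S_BAS.{u}) : S_KB.{u, v} := by
  intro M _ σ G k C w h hk
  have hk0 : (0 : ℝ) < k := by exact_mod_cast hk
  refine ⟨KB.corr hBAS h, ⟨?_, ?_, ?_⟩, fun i g g' => KB.real_ww hBAS h g g' i, ?_, ?_⟩
  · intro g g'
    unfold kbar
    congr 1
    exact Finset.sum_congr rfl fun i _ => (KB.corr hBAS h i).symm g g'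
  · intro g
    unfold kbar
    have h1 : ∑ i, kap σ w i g g = k := by
      rw [Finset.sum_congr rfl fun i _ => (KB.corr hBAS h i).diag g]
      simp
    rw [h1, inv_mul_cancel₀ hk0.ne']
  · intro E x
    have h1 : ∑ g ∈ E, ∑ g' ∈ E, x g * x g' * kbar σ k w g g' =
        (k : ℝ)⁻¹ * ∑ i, ∑ g ∈ E, ∑ g' ∈ E, x g * x g' * kap σ w i g g' := by
      unfold kbar
      have e1 : ∑ i, ∑ g ∈ E, ∑ g' ∈ E, x g * x g' * kap σ w i g g' =
          ∑ g ∈ E, ∑ g' ∈ E, ∑ i, x g * x g' * kap σ w i g g' := by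
        rw [Finset.sum_comm]
        exact Finset.sum_congr rfl fun g _ => Finset.sum_comm
      rw [e1, Finset.mul_sum]
      refine Finset.sum_congr rfl fun g _ => ?_
      rw [Finset.mul_sum]
      refine Finset.sum_congr rfl fun g' _ => ?_
      rw [← Finset.mul_sum]
      ring
    rw [h1]
    exact mul_nonneg (by positivity) (Finset.sum_nonneg fun i _ => KB.psd hBAS h i E x)
  · intro g g'
    unfold kbar
    rw [abs_mul, abs_of_pos (inv_pos.2 hk0)]
    have h1 : |∑ i, kap σ w i g g'| ≤ k := by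
      refine le_trans (Finset.abs_sum_le_sum_abs _ _) ?_
      calc ∑ i, |kap σ w i g g'| ≤ ∑ _i : Fin k, (1 : ℝ) := by
            apply Finset.sum_le_sum
            intro i _
            refine le_trans (Complex.abs_re_le_norm _) ?_
            exact le_trans ((hBAS M σ h.ts).1 _) (KB.norm_ww_le h g g' i)
        _ = k := by simp
    calc (k : ℝ)⁻¹ * |∑ i, kap σ w i g g'| ≤ (k : ℝ)⁻¹ * k :=
          mul_le_mul_of_nonneg_left h1 (by positivity)
      _ = 1 := inv_mul_cancel₀ hk0.ne'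
  · intro g g'
    unfold Khat
    rw [norm_smul, norm_inv, Complex.norm_natCast]
    have h1 : ‖∑ i, w g i * w g' i‖ ≤ k := by
      refine le_trans (norm_sum_le _ _) ?_
      calc ∑ i, ‖w g i * w g' i‖ ≤ ∑ _i : Fin k, (1 : ℝ) :=
            Finset.sum_le_sum fun i _ => KB.norm_ww_le h g g' i
        _ = k := by simp
    calc (k : ℝ)⁻¹ * ‖∑ i, w g i * w g' i‖ ≤ (k : ℝ)⁻¹ * k :=
          mul_le_mul_of_nonneg_left h1 (by positivity)
      _ = 1 := inv_mul_cancel₀ hk0.ne'

end H215EZ
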