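import Pool.Agent.H215R2.EZ.Stubs

/-!
Project EZ (MP_ba6511_an), task KC: concentration of the empirical covariance.
-/

open scoped ComplexOrder

namespace H215EZ

universe u v

namespace KC

variable {M : Type u} [CStarAlgebra M] {σ : M →ₗ[ℂ] ℂ} {G : Type v} {k : ℕ}
  {C : Set (Fin k) → StarSubalgebra ℂ M} {w : G → Fin k → M}

theorem kap_eq (hB : ∀ x, σ (star x) = (starRingEnd ℂ) (σ x)) (hI : Ind σ C w)
    (i : Fin k) (g h : G) : σ (w g i * w h i) = (kap σ w i g h : ℂ) := by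
  have h1 : (starRingEnd ℂ) (σ (w g i * w h i)) = σ (w g i * w h i) := by
    rw [← hB, star_mul, hI.sa, hI.sa, hI.ts.tr]
  unfold kap
  exact (Complex.conj_eq_iff_re.1 h1).symm

end KC

theorem t_KC (hBAS : S_BAS.{u}) : S_KC.{u, v} := by
  intro M _ σ G k C w hI hk g h
  obtain ⟨-, hstar, hn2, -⟩ := hBAS M σ hI.ts
  have hk0 : (k : ℂ) ≠ 0 := by exact_mod_cast hk.ne'
  have hkR : (0 : ℝ) < k := by exact_mod_cast hk
  -- centred elements
  let y : Fin k → M := fun i => w g i * w h i - (kap σ w i g h : ℂ) • (1 : M)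
  have hkap : ∀ i, σ (w g i * w h i) = (kap σ w i g h : ℂ) :=
    fun i => KC.kap_eq hstar hI i g h
  have hKy : Khat k w g h - (kbar σ k w g h : ℂ) • (1 : M) = ((k : ℂ)⁻¹) • ∑ i, y i := by
    unfold Khat kbar
    simp only [y, Finset.sum_sub_distrib, smul_sub]
    congr 1
    push_cast
    rw [← Finset.sum_smul, smul_smul]
  have hyC : ∀ i, y i ∈ C ({i} : Set (Fin k)) := by
    intro i
    have h1 : w g i ∈ C ({i} : Set (Fin k)) := hI.mem _ g i rfl
    have h2 : w h i ∈ C ({i} : Set (Fin k)) := hI.mem _ h i rfl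
    exact sub_mem (mul_mem h1 h2) (SMulMemClass.smul_mem _ (one_mem _))
  have hy0 : ∀ i, σ (y i) = 0 := by
    intro i
    simp only [y, map_sub, map_smul, hkap, hI.ts.one, smul_eq_mul, mul_one, sub_self]
  have hoff : ∀ i j, i ≠ j → σ (star (y i) * y j) = 0 := by
    intro i j hij
    have hd : Disjoint ({i} : Set (Fin k)) ({j} : Set (Fin k)) := by
      simpa using hij
    rw [hI.ind _ _ _ _ hd (star_mem (hyC i)) (hyC j), hy0, mul_zero]
  have hdiag : ∀ i, σ (star (y i) * y i) = ((1 - kap σ w i g h ^ 2 : ℝ) : ℂ) := by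
    intro i
    have e1 : star (y i) = w h i * w g i - (kap σ w i g h : ℂ) • (1 : M) := by
      simp only [y, star_sub, star_mul, star_smul, star_one, hI.sa]
      simp
    have e2 : star (y i) * y i = 1 - (kap σ w i g h : ℂ) • (w h i * w g i)
        - (kap σ w i g h : ℂ) • (w g i * w h i)
        + ((kap σ w i g h : ℂ) * (kap σ w i g h : ℂ)) • (1 : M) := by
      rw [e1]
      have e3 : w h i * w g i * (w g i * w h i) = 1 := by
        rw [mul_assoc, ← mul_assoc (w g i), hI.sq, one_mul, hI.sq]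
      simp only [y, sub_mul, mul_sub, e3, smul_mul_assoc, mul_smul_comm, one_mul, mul_one,
        smul_sub, smul_smul]
      abel
    rw [e2]
    simp only [map_add, map_sub, map_smul, hI.ts.one, smul_eq_mul, mul_one]
    rw [hI.ts.tr (w h i) (w g i), hkap]
    push_cast
    ring
  have hsum : σ (star (∑ i, y i) * ∑ i, y i) = ((∑ i, (1 - kap σ w i g h ^ 2) : ℝ) : ℂ) := by
    rw [star_sum, Finset.sum_mul_sum, map_sum]
    push_cast
    apply Finset.sum_congr rfl
    intro i _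
    rw [map_sum, Finset.sum_eq_single i]
    · rw [hdiag]; push_cast; ring
    · intro j _ hji
      exact hoff i j (Ne.symm hji)
    · intro hh; exact absurd (Finset.mem_univ i) hh
  have hfin : ((n2 σ (Khat k w g h - (kbar σ k w g h : ℂ) • (1 : M)) ^ 2 : ℝ) : ℂ)
      = (((k : ℝ)⁻¹ * (k : ℝ)⁻¹ * ∑ i, (1 - kap σ w i g h ^ 2) : ℝ) : ℂ) := by
    rw [hn2, hKy, star_smul, smul_mul_smul_comm, map_smul, hsum]
    simp only [smul_eq_mul]
    push_cast
    simp
  have hfin' : n2 σ (Khat k w g h - (kbar σ k w g h : ℂ) • (1 : M)) ^ 2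
      = (k : ℝ)⁻¹ * (k : ℝ)⁻¹ * ∑ i, (1 - kap σ w i g h ^ 2) := by
    exact_mod_cast hfin
  rw [hfin']
  have hs : ∑ i, (1 - kap σ w i g h ^ 2) ≤ (k : ℝ) := by
    calc ∑ i, (1 - kap σ w i g h ^ 2) ≤ ∑ _i : Fin k, (1 : ℝ) :=
          Finset.sum_le_sum fun i _ => by nlinarith [sq_nonneg (kap σ w i g h)]
      _ = k := by simp
  calc (k : ℝ)⁻¹ * (k : ℝ)⁻¹ * ∑ i, (1 - kap σ w i g h ^ 2)
      ≤ (k : ℝ)⁻¹ * (k : ℝ)⁻¹ * k := by
        apply mul_le_mul_of_nonneg_left hs; positivity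
    _ = 1 / k := by field_simp

end H215EZ
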