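import Pool.Agent.H215R2.EZ.Stubs

open scoped ComplexOrder

namespace H215EZ

universe u

namespace KMT

/-- tracial states as functions -/
def K (M : Type u) [CStarAlgebra M] : Set (M → ℂ) :=
  {f | ∃ φ : M →ₗ[ℂ] ℂ, IsTrSt φ ∧ f = φ}

theorem mem_K_iff {M : Type u} [CStarAlgebra M] (f : M → ℂ) : f ∈ K M ↔
    (∀ x y, f (x + y) = f x + f y) ∧ (∀ (c : ℂ) x, f (c • x) = c * f x) ∧ f 1 = 1 ∧
      (∀ a, 0 ≤ f (star a * a)) ∧ (∀ a b, f (a * b) = f (b * a)) := by
  constructor
  · rintro ⟨φ, h, rfl⟩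
    exact ⟨fun x y => map_add φ x y, fun c x => by rw [map_smul, smul_eq_mul], h.one, h.nonneg,
      h.tr⟩
  · rintro ⟨h1, h2, h3, h4, h5⟩
    exact ⟨{ toFun := f, map_add' := h1, map_smul' := fun c x => by simpa using h2 c x },
      ⟨h3, h4, h5⟩, rfl⟩

theorem isClosed_K (M : Type u) [CStarAlgebra M] : IsClosed (K M) := by
  have : K M = (⋂ x, ⋂ y, {f | f (x + y) = f x + f y}) ∩ ((⋂ c : ℂ, ⋂ x, {f | f (c • x) = c * f x}) ∩
      ({f | f 1 = 1} ∩ ((⋂ a, {f | 0 ≤ f (star a * a)}) ∩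
        (⋂ a, ⋂ b, {f | f (a * b) = f (b * a)})))) := by
    ext f
    rw [mem_K_iff]
    simp only [Set.mem_inter_iff, Set.mem_iInter, Set.mem_setOf_eq]
  rw [this]
  refine IsClosed.inter ?_ (IsClosed.inter ?_ (IsClosed.inter ?_ (IsClosed.inter ?_ ?_)))
  · refine isClosed_iInter fun x => isClosed_iInter fun y => isClosed_eq ?_ ?_ <;> fun_prop
  · refine isClosed_iInter fun x => isClosed_iInter fun y => isClosed_eq ?_ ?_ <;> fun_prop
  · refine isClosed_eq ?_ ?_ <;> fun_prop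
  · refine isClosed_iInter fun a => isClosed_le ?_ ?_ <;> fun_prop
  · refine isClosed_iInter fun x => isClosed_iInter fun y => isClosed_eq ?_ ?_ <;> fun_prop

theorem isCompact_K (hBAS : S_BAS.{u}) (M : Type u) [CStarAlgebra M] : IsCompact (K M) := by
  have h1 : IsCompact (Set.pi Set.univ fun x : M => Metric.closedBall (0 : ℂ) ‖x‖) :=
    isCompact_univ_pi fun x => isCompact_closedBall _ _
  refine h1.of_isClosed_subset (isClosed_K M) ?_
  rintro f ⟨φ, h, rfl⟩ x -
  rw [mem_closedBall_zero_iff]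
  exact (hBAS M φ h).1 x

end KMT

open KMT

theorem t_KMT (hBAS : S_BAS.{u}) : S_KMT.{u} := by
  intro M _ τ hτ z
  have hK := isCompact_K hBAS M
  have hne : (K M).Nonempty := ⟨τ, τ, hτ, rfl⟩
  have hcont : Continuous fun f : M → ℂ => (f z).re := by fun_prop
  obtain ⟨f₀, hf₀, hmax⟩ := hK.exists_isMaxOn hne hcont.continuousOn
  set K1 : Set (M → ℂ) := {f | f ∈ K M ∧ (f₀ z).re ≤ (f z).re} with hK1
  have hK1c : IsCompact K1 := by
    refine hK.inter_right (t := {f | (f₀ z).re ≤ (f z).re}) ?_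
    exact isClosed_le continuous_const hcont
  have hK1n : K1.Nonempty := ⟨f₀, hf₀, le_rfl⟩
  obtain ⟨s, hs⟩ := hK1c.extremePoints_nonempty hK1n
  rw [mem_extremePoints] at hs
  obtain ⟨⟨⟨σ, hσ, rfl⟩, hσmax⟩, hext⟩ := hs
  refine ⟨σ, ⟨hσ, ?_⟩, ?_⟩
  · intro ψ hpos hle htr
    have h0 : 0 ≤ ψ 1 := by simpa using hpos 1
    have h1 : ψ 1 ≤ 1 := by simpa [hσ.one] using hle 1
    have hre : ((ψ 1).re : ℂ) = ψ 1 := by
      rw [Complex.le_def] at h0
      apply Complex.ext
      · simp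
      · simpa using h0.2
    set t : ℝ := (ψ 1).re with ht
    have ht0 : 0 ≤ t := (Complex.le_def.1 h0).1
    have ht1 : t ≤ 1 := by simpa using (Complex.le_def.1 h1).1
    have hA : IsTrSt (((1 - t : ℝ) : ℂ) • σ + ψ) := by
      refine ⟨?_, ?_, ?_⟩
      · rw [LinearMap.add_apply, LinearMap.smul_apply, hσ.one, ← hre]
        push_cast
        simp
      · intro a
        rw [LinearMap.add_apply, LinearMap.smul_apply]
        have h3 : (0 : ℂ) ≤ ((1 - t : ℝ) : ℂ) := by
          rw [Complex.zero_le_real]; linarith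
        exact add_nonneg (mul_nonneg h3 (hσ.nonneg a)) (hpos a)
      · intro a b
        rw [LinearMap.add_apply, LinearMap.smul_apply, LinearMap.add_apply, LinearMap.smul_apply,
          hσ.tr, htr]
    have hB : IsTrSt (((1 + t : ℝ) : ℂ) • σ - ψ) := by
      refine ⟨?_, ?_, ?_⟩
      · rw [LinearMap.sub_apply, LinearMap.smul_apply, hσ.one, ← hre]
        push_cast
        simp
      · intro a
        rw [LinearMap.sub_apply, LinearMap.smul_apply]
        have h3 : (0 : ℂ) ≤ (t : ℂ) := by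
          rw [Complex.zero_le_real]; exact ht0
        have h4 : ((1 + t : ℝ) : ℂ) • σ (star a * a) - ψ (star a * a) =
            (σ (star a * a) - ψ (star a * a)) + (t : ℂ) * σ (star a * a) := by
          push_cast
          rw [smul_eq_mul]
          ring
        rw [h4]
        exact add_nonneg (sub_nonneg.2 (hle a)) (mul_nonneg h3 (hσ.nonneg a))
      · intro a b
        rw [LinearMap.sub_apply, LinearMap.smul_apply, LinearMap.sub_apply, LinearMap.smul_apply,
          hσ.tr, htr]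
    set A : M →ₗ[ℂ] ℂ := ((1 - t : ℝ) : ℂ) • σ + ψ with hAdef
    set B : M →ₗ[ℂ] ℂ := ((1 + t : ℝ) : ℂ) • σ - ψ with hBdef
    have hsum : ∀ x, σ x = (1 / 2 : ℝ) • A x + (1 / 2 : ℝ) • B x := by
      intro x
      rw [hAdef, hBdef, LinearMap.sub_apply, LinearMap.smul_apply, LinearMap.add_apply,
        LinearMap.smul_apply, Complex.real_smul, Complex.real_smul]
      push_cast
      simp only [smul_eq_mul]
      ring
    have hAm : (A z).re ≤ (f₀ z).re := hmax ⟨A, hA, rfl⟩
    have hBm : (B z).re ≤ (f₀ z).re := hmax ⟨B, hB, rfl⟩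
    have hz : (σ z).re = 1 / 2 * (A z).re + 1 / 2 * (B z).re := by
      have := congrArg Complex.re (hsum z)
      simpa using this
    have hAK : (A : M → ℂ) ∈ K1 := ⟨⟨A, hA, rfl⟩, by linarith⟩
    have hBK : (B : M → ℂ) ∈ K1 := ⟨⟨B, hB, rfl⟩, by linarith⟩
    have hseg : (σ : M → ℂ) ∈ openSegment ℝ (A : M → ℂ) (B : M → ℂ) := by
      refine ⟨1 / 2, 1 / 2, by norm_num, by norm_num, by norm_num, ?_⟩
      ext x
      exact (hsum x).symm
    have h5 := hext _ hAK _ hBK hseg
    have h6 : (A : M → ℂ) = σ := by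
      first
        | exact h5
        | exact h5.1
    ext x
    have h7 : A x = σ x := congrFun h6 x
    rw [hAdef, LinearMap.add_apply, LinearMap.smul_apply] at h7
    rw [LinearMap.smul_apply, ← hre]
    push_cast at h7
    simp only [smul_eq_mul] at h7 ⊢
    linear_combination h7
  · have h8 : (τ z).re ≤ (f₀ z).re := hmax ⟨τ, hτ, rfl⟩
    exact h8.trans hσmax

end H215EZ
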