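import Pool.Agent.H215R2.EZ.Stubs

/-! KMX: kernel to matrix dictionary. -/

set_option autoImplicit false

open scoped MatrixOrder
open Matrix

namespace H215EZ

universe v

namespace KMX

theorem psd {G : Type v} [DecidableEq G] (E : Finset G) (K : G → G → ℝ) (hK : IsCorr K) :
    (Matrix.of fun g h : E => K g h).PosSemidef := by
  refine .of_dotProduct_mulVec_nonneg ?_ (fun x => ?_)
  · ext g h
    simp [hK.symm g h]
  · have h := hK.psd E (fun g => if hg : g ∈ E then x ⟨g, hg⟩ else 0)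
    have e : star x ⬝ᵥ (Matrix.of fun g h : E => K g h) *ᵥ x
        = ∑ g ∈ E, ∑ h ∈ E, (if hg : g ∈ E then x ⟨g, hg⟩ else 0)
          * (if hh : h ∈ E then x ⟨h, hh⟩ else 0) * K g h := by
      rw [← Finset.sum_coe_sort E]
      simp only [dotProduct, mulVec, Matrix.of_apply, star_trivial]
      refine Finset.sum_congr rfl (fun g _ => ?_)
      rw [← Finset.sum_coe_sort E, Finset.mul_sum]
      refine Finset.sum_congr rfl (fun h _ => ?_)
      simp
      ring
    rw [e]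
    exact h

theorem exW {G : Type v} [DecidableEq G] (E : Finset G) (K : G → G → ℝ) (hK : IsCorr K) :
    ∃ W : G → E → ℝ, ∀ g ∈ E, ∀ h ∈ E, ∑ e, W g e * W h e = K g h := by
  have hp := psd E K hK
  obtain ⟨B, hB⟩ := CStarAlgebra.nonneg_iff_eq_star_mul_self.mp hp.nonneg
  refine ⟨fun g e => if hg : g ∈ E then B e ⟨g, hg⟩ else 0, fun g hg h hh => ?_⟩
  have h1 := congrFun (congrFun hB ⟨g, hg⟩) ⟨h, hh⟩
  simp only [Matrix.of_apply, star_eq_conjTranspose, Matrix.mul_apply, conjTranspose_apply,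
    star_trivial] at h1
  rw [h1]
  simp [hg, hh]

theorem quad {G : Type v} [DecidableEq G] (E : Finset G) (K : G → G → ℝ) (W : G → E → ℝ)
    (hW : ∀ g ∈ E, ∀ h ∈ E, ∑ e, W g e * W h e = K g h) (c : G → G → ℝ) :
    qf E c K = ∑ i, ∑ j, (∑ g ∈ E, ∑ h ∈ E, c g h • vecMulVec (W g) (W h)) i j ^ 2 := by
  have e1 : ∀ i j : E, (∑ g ∈ E, ∑ h ∈ E, c g h • vecMulVec (W g) (W h)) i j
      = ∑ p ∈ E ×ˢ E, c p.1 p.2 * (W p.1 i * W p.2 j) := by
    intro i j
    rw [Finset.sum_product]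
    simp [Matrix.sum_apply, vecMulVec_apply]
  simp_rw [e1, sq, Finset.sum_mul_sum]
  rw [← Fintype.sum_prod_type' (f := fun i j : E => ∑ p ∈ E ×ˢ E, ∑ q ∈ E ×ˢ E,
    c p.1 p.2 * (W p.1 i * W p.2 j) * (c q.1 q.2 * (W q.1 i * W q.2 j)))]
  rw [Finset.sum_comm]
  have e2 : qf E c K = ∑ p ∈ E ×ˢ E, ∑ q ∈ E ×ˢ E, c p.1 p.2 * c q.1 q.2 * K p.1 q.1 * K p.2 q.2 := by
    rw [qf, Finset.sum_product]
    refine Finset.sum_congr rfl (fun g _ => Finset.sum_congr rfl (fun h _ => ?_))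
    rw [Finset.sum_product]
  rw [e2]
  refine Finset.sum_congr rfl (fun p hp => ?_)
  rw [Finset.sum_comm]
  refine Finset.sum_congr rfl (fun q hq => ?_)
  rw [Finset.mem_product] at hp hq
  rw [← hW _ hp.1 _ hq.1, ← hW _ hp.2 _ hq.2, Fintype.sum_prod_type, mul_assoc, Finset.sum_mul_sum,
    Finset.mul_sum]
  refine Finset.sum_congr rfl (fun i _ => ?_)
  rw [Finset.mul_sum]
  refine Finset.sum_congr rfl (fun j _ => ?_)
  ring

theorem pw {G : Type v} [DecidableEq G] (E : Finset G) (K : G → G → ℝ) (W : G → E → ℝ)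
    (hW : ∀ g ∈ E, ∀ h ∈ E, ∑ e, W g e * W h e = K g h) (f : G →₀ ℝ) (hf : f.support ⊆ E) (r : ℕ) :
    ∑ g ∈ E, ∑ h ∈ E, (f g * kpr f K r g h * f h) • vecMulVec (W g) (W h) =
      (∑ g ∈ E, f g • vecMulVec (W g) (W g)) ^ (r + 2) := by
  have hdot : ∀ g ∈ E, ∀ h ∈ E, W g ⬝ᵥ W h = K g h := fun g hg h hh => hW g hg h hh
  induction r with
  | zero =>
    rw [zero_add, sq, Finset.sum_mul_sum]
    refine Finset.sum_congr rfl (fun g hg => Finset.sum_congr rfl (fun h hh => ?_))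
    rw [smul_mul_smul_comm, vecMulVec_mul_vecMulVec, hdot g hg h hh, vecMulVec_smul, smul_smul]
    simp only [kpr]
    congr 1
    ring
  | succ r ih =>
    rw [show r + 1 + 2 = (r + 2) + 1 by ring, pow_succ', ← ih, Finset.sum_mul]
    refine Finset.sum_congr rfl (fun g hg => ?_)
    rw [Finset.mul_sum]
    have e : ∀ x ∈ E, (f g • vecMulVec (W g) (W g)) *
        (∑ h ∈ E, (f x * kpr f K r x h * f h) • vecMulVec (W x) (W h))
        = ∑ h ∈ E, (f g * (f x * (K g x * kpr f K r x h)) * f h) • vecMulVec (W g) (W h) := by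
      intro x hx
      rw [Finset.mul_sum]
      refine Finset.sum_congr rfl (fun h _ => ?_)
      rw [smul_mul_smul_comm, vecMulVec_mul_vecMulVec, hdot g hg x hx, vecMulVec_smul, smul_smul]
      congr 1
      ring
    rw [Finset.sum_congr rfl e, Finset.sum_comm]
    refine Finset.sum_congr rfl (fun h _ => ?_)
    rw [← Finset.sum_smul]
    congr 1
    have e2 : kpr f K (r + 1) g h = ∑ x ∈ E, f x * (K g x * kpr f K r x h) := by
      simp only [kpr]
      exact Finsupp.sum_of_support_subset f hf _ (fun x _ => by simp)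
    rw [e2, Finset.mul_sum, Finset.sum_mul]

end KMX

theorem t_KMX : S_KMX.{v} := by
  intro G _ E K hK
  obtain ⟨W, hW⟩ := KMX.exW E K hK
  refine ⟨W, hW, KMX.quad E K W hW, fun f R p hf => ?_⟩
  have e : ∀ g h : G, cf R p f K g h • vecMulVec (W g) (W h)
      = ∑ r ∈ Finset.range R, p r • ((f g * kpr f K r g h * f h) • vecMulVec (W g) (W h)) := by
    intro g h
    rw [cf, Qr, Finset.mul_sum, Finset.sum_mul, Finset.sum_smul]
    refine Finset.sum_congr rfl (fun r _ => ?_)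
    rw [smul_smul]
    congr 1
    ring
  simp_rw [e]
  have e1 : ∀ g ∈ E, ∑ h ∈ E, ∑ r ∈ Finset.range R, p r • ((f g * kpr f K r g h * f h) •
      vecMulVec (W g) (W h)) = ∑ r ∈ Finset.range R, p r • ∑ h ∈ E, (f g * kpr f K r g h * f h) •
      vecMulVec (W g) (W h) := by
    intro g _
    rw [Finset.sum_comm]
    simp_rw [Finset.smul_sum]
  rw [Finset.sum_congr rfl e1, Finset.sum_comm]
  refine Finset.sum_congr rfl (fun r _ => ?_)
  rw [← Finset.smul_sum, KMX.pw E K W hW f hf r]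

end H215EZ
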