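import Pool.Agent.H215R2.EZ.Stubs

open scoped ComplexOrder

namespace H215EZ

universe u v

namespace KPSb

variable {M : Type u} [CStarAlgebra M]

lemma n2_sum_le (hBAS : S_BAS.{u}) {τ : M →ₗ[ℂ] ℂ} (hτ : IsTrSt τ) {ι : Type*} (s : Finset ι)
    (x : ι → M) : n2 τ (∑ i ∈ s, x i) ≤ ∑ i ∈ s, n2 τ (x i) := by
  classical
  obtain ⟨-, -, -, h4, h5, -⟩ := hBAS M τ hτ
  induction s using Finset.induction_on with
  | empty =>
    have := h5 0 (0 : M)
    simp at this
    simp [this]
  | insert j s hj ih =>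
    rw [Finset.sum_insert hj, Finset.sum_insert hj]
    exact (h4 _ _).trans (by linarith)

lemma avg_norm {G : Type v} {f : G →₀ ℝ} (hf : IsProb f) (F : G → M) (h : ∀ x, ‖F x‖ ≤ 1) :
    ‖avg f F‖ ≤ 1 := by
  unfold avg Finsupp.sum
  refine (norm_sum_le _ _).trans ?_
  calc ∑ x ∈ f.support, ‖(f x : ℂ) • F x‖ ≤ ∑ x ∈ f.support, f x := by
        apply Finset.sum_le_sum
        intro x _
        rw [norm_smul, Complex.norm_real, Real.norm_of_nonneg (hf.nonneg x)]
        exact mul_le_of_le_one_right (hf.nonneg x) (h x)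
    _ = 1 := hf.sum

lemma avg_sub {G : Type v} (hBAS : S_BAS.{u}) {τ : M →ₗ[ℂ] ℂ} (hτ : IsTrSt τ) {f : G →₀ ℝ}
    (hf : IsProb f) (F : G → M) (q : G → ℝ) (D : ℝ)
    (h : ∀ x, n2 τ (F x - (q x : ℂ) • (1 : M)) ≤ D) :
    n2 τ (avg f F - ((f.sum fun x c => c * q x : ℝ) : ℂ) • (1 : M)) ≤ D := by
  obtain ⟨-, -, -, h4, h5, -⟩ := hBAS M τ hτ
  have e : avg f F - ((f.sum fun x c => c * q x : ℝ) : ℂ) • (1 : M) =
      ∑ x ∈ f.support, (f x : ℂ) • (F x - (q x : ℂ) • (1 : M)) := by
    unfold avg Finsupp.sum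
    simp only [smul_sub, Finset.sum_sub_distrib, smul_smul]
    congr 1
    rw [← Finset.sum_smul]
    push_cast
    rfl
  rw [e]
  refine (n2_sum_le hBAS hτ _ _).trans ?_
  calc ∑ x ∈ f.support, n2 τ ((f x : ℂ) • (F x - (q x : ℂ) • (1 : M)))
      ≤ ∑ x ∈ f.support, f x * D := by
        apply Finset.sum_le_sum
        intro x _
        rw [h5, Complex.norm_real, Real.norm_of_nonneg (hf.nonneg x)]
        exact mul_le_mul_of_nonneg_left (h x) (hf.nonneg x)
    _ = (∑ x ∈ f.support, f x) * D := by rw [Finset.sum_mul]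
    _ = D := by
        have := hf.sum
        unfold Finsupp.sum at this
        rw [this, one_mul]

end KPSb

open KPSb

theorem t_KPSb (hBAS : S_BAS.{u}) : S_KPS.{u, v} := by
  intro M _ σ hσ G f hf K κ δ hK hκ hδ r
  obtain ⟨-, -, -, h4, h5, -, -, h8, h9, -, -⟩ := hBAS M σ hσ
  induction r with
  | zero =>
    intro g h
    refine ⟨hK g h, hκ g h, ?_⟩
    simpa [kpow, kpr] using hδ g h
  | succ r ih =>
    intro g h
    have hs := hf.sum
    unfold Finsupp.sum at hs
    refine ⟨?_, ?_, ?_⟩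
    · show ‖avg f fun x => K g x * kpow f K r x h‖ ≤ 1
      refine avg_norm hf _ fun x => ?_
      refine (norm_mul_le _ _).trans ?_
      have h1 := hK g x
      have h2 := (ih x h).1
      nlinarith [norm_nonneg (K g x), norm_nonneg (kpow f K r x h)]
    · show |f.sum fun x c => c * (κ g x * kpr f κ r x h)| ≤ 1
      unfold Finsupp.sum
      refine (Finset.abs_sum_le_sum_abs _ _).trans ?_
      calc ∑ x ∈ f.support, |f x * (κ g x * kpr f κ r x h)| ≤ ∑ x ∈ f.support, f x := by
            apply Finset.sum_le_sum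
            intro x _
            rw [abs_mul, abs_mul, abs_of_nonneg (hf.nonneg x)]
            have h1 := hκ g x
            have h2 := (ih x h).2.1
            have h3 : |κ g x| * |kpr f κ r x h| ≤ 1 := by
              nlinarith [abs_nonneg (κ g x), abs_nonneg (kpr f κ r x h)]
            exact mul_le_of_le_one_right (hf.nonneg x) h3
        _ = 1 := hs
    · show n2 σ ((avg f fun x => K g x * kpow f K r x h) -
        ((f.sum fun x c => c * (κ g x * kpr f κ r x h) : ℝ) : ℂ) • (1 : M)) ≤ _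
      refine avg_sub hBAS hσ hf _ _ _ fun x => ?_
      have e : K g x * kpow f K r x h - ((κ g x * kpr f κ r x h : ℝ) : ℂ) • (1 : M) =
          (K g x - (κ g x : ℂ) • (1 : M)) * kpow f K r x h +
            (κ g x : ℂ) • (kpow f K r x h - (kpr f κ r x h : ℂ) • (1 : M)) := by
        push_cast
        rw [sub_mul, smul_sub, smul_smul, smul_mul_assoc, one_mul]
        abel
      rw [e]
      refine (h4 _ _).trans ?_
      rw [h5, Complex.norm_real]
      have i1 := h9 (kpow f K r x h) (K g x - (κ g x : ℂ) • (1 : M))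
      have i2 := hδ g x
      have i3 := (ih x h).1
      have i4 := (ih x h).2.2
      have i5 := hκ g x
      have p1 : 0 ≤ n2 σ (K g x - (κ g x : ℂ) • (1 : M)) := Real.sqrt_nonneg _
      have p2 : 0 ≤ n2 σ (kpow f K r x h - (kpr f κ r x h : ℂ) • (1 : M)) := Real.sqrt_nonneg _
      have j1 : ‖kpow f K r x h‖ * n2 σ (K g x - (κ g x : ℂ) • (1 : M)) ≤ δ :=
        (mul_le_of_le_one_left p1 i3).trans i2
      have j2 : ‖κ g x‖ * n2 σ (kpow f K r x h - (kpr f κ r x h : ℂ) • (1 : M)) ≤ (r + 1) * δ :=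
        (mul_le_of_le_one_left p2 (by simpa using i5)).trans i4
      push_cast
      linarith

end H215EZ
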