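import Pool.Agent.H215R2.EZ.Stubs

open scoped ComplexOrder Topology BoundedContinuousFunction
open Filter

namespace H215EZ

universe u v

namespace LIM

/-- evaluation of bounded sequences -/
noncomputable def ev (A : Type u) [CStarAlgebra A] (n : ℕ) : (ℕ →ᵇ A) →⋆ₐ[ℂ] A where
  toFun x := x n
  map_one' := rfl
  map_mul' _ _ := rfl
  map_zero' := rfl
  map_add' _ _ := rfl
  commutes' _ := rfl
  map_star' _ := rfl

theorem ev_apply (A : Type u) [CStarAlgebra A] (n : ℕ) (x : ℕ →ᵇ A) : ev A n x = x n := rfl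

end LIM

open LIM

theorem t_LIM (hBAS : S_BAS.{u}) (hULT : S_ULT.{u}) (hGEN : S_GEN.{u}) (hGNST : S_GNST.{u})
    (hKMT : S_KMT.{u}) : S_LIM.{u, v} := by
  classical
  intro A _ G I V F τ hV hF hτ h1 h2 h3 h4
  obtain ⟨Φ, hΦ, hlim⟩ := hULT A τ hτ (hyperfilter ℕ)
  set Vb : G → I → (ℕ →ᵇ A) := fun g i =>
    BoundedContinuousFunction.ofNormedAddCommGroup (fun n => V n g i)
      continuous_of_discreteTopology 1 (fun n => hV n g i) with hVb
  have hVbn : ∀ g i n, (Vb g i) n = V n g i := fun g i n => rfl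
  set ab : A → (ℕ →ᵇ A) := fun a => BoundedContinuousFunction.const ℕ a with hab
  have habn : ∀ a n, (ab a) n = a := fun a n => rfl
  set s : Set (ℕ →ᵇ A) := {x | ∃ g i, x = Vb g i} ∪ {x | ∃ a ∈ F, x = ab a} with hs
  obtain ⟨L, instL, j, hj, hΨ, hsur, hdense⟩ := hGEN (ℕ →ᵇ A) Φ hΦ s
  obtain ⟨M, instM, π, τ', hτ', hπτ, hπd, hker⟩ := hGNST L _ hΨ
  have hV'ex : ∀ g i, ∃ y : L, j y = Vb g i := fun g i => hsur _ (Or.inl ⟨g, i, rfl⟩)
  choose V' hV' using hV'ex
  have ha'ex : ∀ a : A, ∃ y : L, a ∈ F → j y = ab a := by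
    intro a
    by_cases ha : a ∈ F
    · obtain ⟨y, hy⟩ := hsur _ (Or.inr ⟨a, ha, rfl⟩)
      exact ⟨y, fun _ => hy⟩
    · exact ⟨0, fun h => absurd h ha⟩
  choose a' ha' using ha'ex
  set e : ℕ → L →⋆ₐ[ℂ] A := fun n => (ev A n).comp j with he
  have hee : ∀ n x, e n x = (j x) n := fun n x => rfl
  have heV : ∀ n g i, e n (V' g i) = V n g i := by
    intro n g i
    rw [hee, hV']
    exact hVbn g i n
  have hea : ∀ n, ∀ a ∈ F, e n (a' a) = a := by
    intro n a ha
    rw [hee, ha' a ha]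
    exact habn a n
  have hstar : ∀ a ∈ F, star (a' a) = a' (star a) := by
    intro a ha
    apply hj
    rw [map_star, ha' a ha, ha' (star a) (hF a ha)]
    rfl
  have hnorm : ∀ a ∈ F, ‖a' a‖ ≤ ‖a‖ := by
    intro a ha
    have h5 : ‖j (a' a)‖ = ‖a' a‖ := NonUnitalStarAlgHom.norm_map j hj (a' a)
    rw [← h5, ha' a ha]
    exact BoundedContinuousFunction.norm_const_le a
  -- kernel criterion
  have key : ∀ r : L, Tendsto (fun n => n2 (τ n) (e n r)) atTop (𝓝 0) → π r = 0 := by
    intro r hr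
    apply hker
    have e1 : Tendsto (fun n => τ n ((star (j r) * j r) n)) (hyperfilter ℕ)
        (𝓝 (Φ (star (j r) * j r))) := hlim _
    have e2 : (fun n => τ n ((star (j r) * j r) n)) =
        fun n => ((n2 (τ n) (e n r) ^ 2 : ℝ) : ℂ) := by
      funext n
      rw [(hBAS A (τ n) (hτ n)).2.2.1]
      rfl
    rw [e2] at e1
    have e3 : Tendsto (fun n => ((n2 (τ n) (e n r) ^ 2 : ℝ) : ℂ)) atTop (𝓝 0) := by
      have h5 : Tendsto (fun n => n2 (τ n) (e n r) ^ 2) atTop (𝓝 0) := by
        have := hr.pow 2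
        simpa using this
      have h6 := (Complex.continuous_ofReal.tendsto 0).comp h5
      simpa [Function.comp_def] using h6
    have e4 := tendsto_nhds_unique e1 (e3.mono_left Nat.hyperfilter_le_atTop)
    show Φ (j (star r * r)) = 0
    rw [map_mul, map_star]
    exact e4
  have key2 : ∀ r r' : L, Tendsto (fun n => n2 (τ n) (e n r - e n r')) atTop (𝓝 0) →
      π r = π r' := by
    intro r r' h
    rw [← sub_eq_zero, ← map_sub]
    apply key
    simpa only [map_sub] using h
  refine ⟨L, M, instL, instM, e, π, V', a', heV, hea, hstar, hnorm, ?_, ?_, ?_, ?_, ?_, ?_⟩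
  · intro g i
    rw [← map_mul]
    apply key
    simpa only [map_mul, heV] using h1 g i
  · intro g i
    rw [← map_star, ← map_mul, ← map_mul, ← map_add, ← map_one π]
    apply key2
    simpa only [map_mul, map_add, map_star, map_one, heV] using h2 g i
  · intro g h i k hik
    obtain ⟨ha, hb⟩ := h3 g h i k hik
    constructor
    · rw [← map_mul, ← map_mul]
      apply key2
      simpa only [map_mul, heV] using ha
    · rw [← map_star, ← map_mul, ← map_mul]
      apply key2
      simpa only [map_mul, map_star, heV] using hb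
  · intro g i a ha
    rw [← map_mul, ← map_mul]
    apply key2
    have : ∀ n, e n (a' a) = a := fun n => hea n a ha
    simpa only [map_mul, heV, this] using h4 g i a ha
  · have hcont : Continuous π := by
      have hl : LipschitzWith 1 π := LipschitzWith.of_dist_le_mul fun x y => by
        rw [dist_eq_norm, dist_eq_norm, ← map_sub, NNReal.coe_one, one_mul]
        exact NonUnitalStarAlgHom.norm_apply_le π (x - y)
      exact hl.continuous
    have hd := hπd.dense_image hcont hdense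
    refine hd.mono ?_
    have h5 : π '' (StarAlgebra.adjoin ℂ (j ⁻¹' s) : Set L) =
        ((StarAlgebra.adjoin ℂ (j ⁻¹' s)).map π : Set M) := rfl
    rw [h5, StarAlgHom.map_adjoin]
    refine StarAlgebra.adjoin_mono ?_
    rintro _ ⟨y, hy, rfl⟩
    rcases hy with ⟨g, i, hy⟩ | ⟨a, ha, hy⟩
    · left
      refine ⟨g, i, ?_⟩
      rw [hj (hy.trans (hV' g i).symm)]
    · right
      refine ⟨a, ha, ?_⟩
      rw [hj (hy.trans (ha' a ha).symm)]
  · intro Z hZ hZn
    have h5 : (⋃ q ∈ Z, {n | q.2 ≤ (τ n (e n q.1)).re}) ∈ hyperfilter ℕ := by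
      have : (⋃ q ∈ Z, {n | q.2 ≤ (τ n (e n q.1)).re}) = Set.univ := by
        ext n
        simp only [Set.mem_iUnion, Set.mem_ofPred_eq, Set.mem_univ, iff_true]
        obtain ⟨q, hq, h⟩ := hZn n
        exact ⟨q, hq, h⟩
      rw [this]
      exact univ_mem
    obtain ⟨q, hq, hqU⟩ := (Ultrafilter.finite_biUnion_mem_iff hZ).mp h5
    refine ⟨q, hq, ?_⟩
    have h6 : q.2 ≤ (τ' (π q.1)).re := by
      rw [hπτ]
      show q.2 ≤ (Φ (j q.1)).re
      have h7 : Tendsto (fun n => (τ n ((j q.1) n)).re) (hyperfilter ℕ) (𝓝 (Φ (j q.1)).re) :=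
        (Complex.continuous_re.tendsto _).comp (hlim _)
      exact ge_of_tendsto h7 hqU
    obtain ⟨σ, hσ, hσ2⟩ := hKMT M τ' hτ' (π q.1)
    exact ⟨σ, hσ, h6.trans hσ2⟩

end H215EZ
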