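import Pool.Agent.H215R2.EZ.Stubs

open scoped ComplexOrder Topology
open Filter

namespace H215EZ

universe u v

namespace M2

/-- four-fold weighted sum as a linear functional -/
def L {G : Type*} (E : Finset G) (c : G → G → ℝ) : (G → G → G → G → ℝ) →ₗ[ℝ] ℝ where
  toFun F := ∑ g ∈ E, ∑ h ∈ E, ∑ g' ∈ E, ∑ h' ∈ E, c g h * c g' h' * F g h g' h'
  map_add' F F' := by
    simp only [Pi.add_apply, mul_add, Finset.sum_add_distrib]
  map_smul' a F := by
    simp only [Pi.smul_apply, smul_eq_mul, RingHom.id_apply, Finset.mul_sum]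
    refine Finset.sum_congr rfl fun g _ => Finset.sum_congr rfl fun h _ =>
      Finset.sum_congr rfl fun g' _ => Finset.sum_congr rfl fun h' _ => ?_
    ring

theorem L_apply {G : Type*} (E : Finset G) (c : G → G → ℝ) (F : G → G → G → G → ℝ) :
    L E c F = ∑ g ∈ E, ∑ h ∈ E, ∑ g' ∈ E, ∑ h' ∈ E, c g h * c g' h' * F g h g' h' := rfl

theorem L_qf {G : Type*} (E : Finset G) (c K : G → G → ℝ) :
    L E c (fun g h g' h' => K g g' * K h h') = qf E c K := by
  rw [L_apply, qf]
  refine Finset.sum_congr rfl fun g _ => Finset.sum_congr rfl fun h _ =>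
      Finset.sum_congr rfl fun g' _ => Finset.sum_congr rfl fun h' _ => ?_
  ring

theorem L_swap {G : Type*} (E : Finset G) (c : G → G → ℝ) (hc : ∀ g h, c g h = c h g)
    (K K' : G → G → ℝ) :
    L E c (fun g h g' h' => K g h' * K' h g') = L E c (fun g h g' h' => K g g' * K' h h') := by
  rw [L_apply, L_apply]
  refine Finset.sum_congr rfl fun g _ => Finset.sum_congr rfl fun h _ => ?_
  rw [Finset.sum_comm]
  refine Finset.sum_congr rfl fun g' _ => Finset.sum_congr rfl fun h' _ => ?_
  rw [hc h' g']

end M2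

theorem t_M2 (_hBAS : S_BAS.{u}) (hISO : S_ISO.{u, v}) (hPAIR : S_PAIR.{u, v})
    (_hKB : S_KB.{u, v}) : S_M2.{u, v} := by
  intro M _ σ G k C w hI hk E c hc
  have h4 : ∀ (g h g' h' : G) (i j i' j' : Fin k), i ≠ j →
      σ ((w g i * w h j) * (if i' = j' then 0 else w g' i' * w h' j')) =
        (if i' = i ∧ j' = j then ((kap σ w i g g' * kap σ w j h h' : ℝ) : ℂ) else 0) +
        (if i' = j ∧ j' = i then ((kap σ w i g h' * kap σ w j h g' : ℝ) : ℂ) else 0) := by
    intro g h g' h' i j i' j' hij
    by_cases e1 : i' = j'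
    · subst e1
      rw [if_pos rfl, mul_zero, map_zero, if_neg (fun hh => hij (hh.1.symm.trans hh.2)),
        if_neg (fun hh => hij (hh.2.symm.trans hh.1)), add_zero]
    · rw [if_neg e1]
      by_cases e2 : i' = i ∧ j' = j
      · obtain ⟨rfl, rfl⟩ := e2
        rw [if_pos ⟨rfl, rfl⟩, if_neg (fun hh => hij hh.1), add_zero]
        exact (hPAIR M σ G k C w hI g h g' h' i' j' hij).1
      · rw [if_neg e2]
        by_cases e3 : i' = j ∧ j' = i
        · obtain ⟨rfl, rfl⟩ := e3
          rw [if_pos ⟨rfl, rfl⟩, zero_add]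
          exact (hPAIR M σ G k C w hI g h g' h' j' i' hij).2
        · rw [if_neg e3, add_zero]
          by_cases e4 : i' = i ∨ j' = i
          · have f1 : i' ≠ j ∧ j' ≠ j := by
              rcases e4 with e4 | e4
              · subst e4
                exact ⟨hij, fun hh => e2 ⟨rfl, hh⟩⟩
              · subst e4
                exact ⟨fun hh => e3 ⟨hh, rfl⟩, hij⟩
            have h := hISO M σ G (Fin k) C w hI [(g, i)] [(g', i'), (h', j')] h j
              (by simp [hij]) (by simp [f1.1, f1.2])
            simpa [mul_assoc] using h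
          · push Not at e4
            have h := hISO M σ G (Fin k) C w hI [] [(h, j), (g', i'), (h', j')] g i
              (by simp) (by simp [hij.symm, e4.1, e4.2])
            simpa [mul_assoc] using h
  -- products of two chaoses
  have hY : ∀ g h g' h' : G, σ (Ych k w g h * Ych k w g' h') =
      (((k : ℝ)⁻¹ ^ 2 * ∑ i, ∑ j, (if i = j then 0 else
        (kap σ w i g g' * kap σ w j h h' + kap σ w i g h' * kap σ w j h g')) : ℝ) : ℂ) := by
    intro g h g' h'
    have hmul : ∀ (a b : Fin k → Fin k → M),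
        (∑ i, ∑ j, a i j) * (∑ i', ∑ j', b i' j') = ∑ i, ∑ j, ∑ i', ∑ j', a i j * b i' j' := by
      intro a b
      rw [Finset.sum_mul]
      refine Finset.sum_congr rfl fun i _ => ?_
      rw [Finset.sum_mul]
      refine Finset.sum_congr rfl fun j _ => ?_
      rw [Finset.mul_sum]
      refine Finset.sum_congr rfl fun i' _ => ?_
      rw [Finset.mul_sum]
    rw [Ych, Ych, smul_mul_smul_comm, hmul, map_smul, smul_eq_mul]
    simp only [map_sum]
    have hin : ∀ i j : Fin k, (∑ i', ∑ j', σ ((if i = j then 0 else w g i * w h j) *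
        (if i' = j' then 0 else w g' i' * w h' j'))) =
        (((if i = j then 0 else
        (kap σ w i g g' * kap σ w j h h' + kap σ w i g h' * kap σ w j h g')) : ℝ) : ℂ) := by
      intro i j
      by_cases hij : i = j
      · simp [hij]
      · simp only [if_neg hij, h4 g h g' h' i j _ _ hij]
        simp only [Finset.sum_add_distrib, ite_and]
        simp
    simp only [hin]
    push_cast
    ring
  -- expansion of the square
  have hX : σ (Xc k w E c * Xc k w E c) = ((M2.L E c (fun g h g' h' =>
      ((k : ℝ)⁻¹ ^ 2 * ∑ i, ∑ j, (if i = j then 0 else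
        (kap σ w i g g' * kap σ w j h h' + kap σ w i g h' * kap σ w j h g')))) : ℝ) : ℂ) := by
    rw [M2.L_apply]
    have hmul : ∀ (a b : G → G → M),
        (∑ i ∈ E, ∑ j ∈ E, a i j) * (∑ i' ∈ E, ∑ j' ∈ E, b i' j') =
          ∑ i ∈ E, ∑ j ∈ E, ∑ i' ∈ E, ∑ j' ∈ E, a i j * b i' j' := by
      intro a b
      rw [Finset.sum_mul]
      refine Finset.sum_congr rfl fun i _ => ?_
      rw [Finset.sum_mul]
      refine Finset.sum_congr rfl fun j _ => ?_
      rw [Finset.mul_sum]
      refine Finset.sum_congr rfl fun i' _ => ?_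
      rw [Finset.mul_sum]
    rw [Xc, hmul]
    simp only [map_sum, smul_mul_smul_comm, map_smul, smul_eq_mul, hY]
    push_cast
    rfl
  rw [hX]
  congr 1
  -- real algebra
  have hS : ∀ i j : Fin k, M2.L E c (fun g h g' h' => (if i = j then 0 else
        (kap σ w i g g' * kap σ w j h h' + kap σ w i g h' * kap σ w j h g'))) =
      2 * M2.L E c (fun g h g' h' => kap σ w i g g' * kap σ w j h h') -
        (if i = j then 2 * qf E c (kap σ w i) else 0) := by
    intro i j
    by_cases hij : i = j
    · subst hij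
      simp only [if_true]
      rw [M2.L_qf]
      have : (fun _ _ _ _ => 0 : G → G → G → G → ℝ) = 0 := rfl
      rw [this, map_zero]
      ring
    · simp only [if_neg hij]
      have : (fun g h g' h' => (kap σ w i g g' * kap σ w j h h' + kap σ w i g h' * kap σ w j h g')
          : G → G → G → G → ℝ) = (fun g h g' h' => kap σ w i g g' * kap σ w j h h') +
          (fun g h g' h' => kap σ w i g h' * kap σ w j h g') := rfl
      rw [this, map_add, M2.L_swap E c hc]
      ring
  have h1 : (fun g h g' h' => ((k : ℝ)⁻¹ ^ 2 * ∑ i, ∑ j, (if i = j then 0 else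
        (kap σ w i g g' * kap σ w j h h' + kap σ w i g h' * kap σ w j h g')))
        : G → G → G → G → ℝ) = ((k : ℝ)⁻¹ ^ 2) • ∑ i, ∑ j, (fun g h g' h' => (if i = j then 0 else
        (kap σ w i g g' * kap σ w j h h' + kap σ w i g h' * kap σ w j h g'))) := by
    funext g h g' h'
    simp only [Pi.smul_apply, Finset.sum_apply, smul_eq_mul]
  have h2 : (fun g h g' h' => kbar σ k w g g' * kbar σ k w h h' : G → G → G → G → ℝ) =
      ((k : ℝ)⁻¹ ^ 2) • ∑ i, ∑ j, (fun g h g' h' => kap σ w i g g' * kap σ w j h h') := by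
    funext g h g' h'
    simp only [Pi.smul_apply, Finset.sum_apply, smul_eq_mul, kbar]
    rw [← Finset.sum_mul_sum]
    ring
  rw [h1, ← M2.L_qf E c (kbar σ k w), h2]
  simp only [map_smul, map_sum, smul_eq_mul, hS, Finset.sum_sub_distrib, ← Finset.mul_sum]
  simp only [Finset.sum_ite_eq, Finset.mem_univ, if_true, ← Finset.mul_sum]
  ring

end H215EZ
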