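import Pool.Agent.H215R2.EZ.Stubs

open scoped ComplexOrder Topology BoundedContinuousFunction
open Filter

namespace H215EZ

universe u v

namespace M4

theorem key {M : Type*} [CStarAlgebra M] {G : Type*} (σ : M →ₗ[ℂ] ℂ) (k : ℕ)
    (w : G → Fin k → M) (E : Finset G) (c : G → G → ℝ) (a b : M) (B : ℝ)
    (h : ∀ g h, ‖σ (a * Ych k w g h * b)‖ ≤ B) :
    ‖σ (a * Xc k w E c * b)‖ ≤ (∑ g ∈ E, ∑ h ∈ E, |c g h|) * B := by
  have e : a * Xc k w E c * b =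
      ∑ g ∈ E, ∑ h ∈ E, (c g h : ℂ) • (a * Ych k w g h * b) := by
    unfold Xc
    rw [Finset.mul_sum, Finset.sum_mul]
    refine Finset.sum_congr rfl fun g _ => ?_
    rw [Finset.mul_sum, Finset.sum_mul]
    refine Finset.sum_congr rfl fun h _ => ?_
    rw [mul_smul_comm, smul_mul_assoc]
  rw [e, map_sum, Finset.sum_mul]
  refine (norm_sum_le _ _).trans (Finset.sum_le_sum fun g _ => ?_)
  rw [map_sum, Finset.sum_mul]
  refine (norm_sum_le _ _).trans (Finset.sum_le_sum fun h' _ => ?_)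
  rw [map_smul, smul_eq_mul, norm_mul, Complex.norm_real, Real.norm_eq_abs]
  exact mul_le_mul_of_nonneg_left (h g h') (abs_nonneg _)

end M4

theorem t_M4 (hY : S_Y4.{u, v}) : S_M4.{u, v} := by
  intro M _ σ G k C w hI hk E c
  obtain ⟨S, hS⟩ : ∃ S : ℝ, S = ∑ g ∈ E, ∑ h ∈ E, |c g h| := ⟨_, rfl⟩
  obtain ⟨X, hX⟩ : ∃ X, X = Xc k w E c := ⟨_, rfl⟩
  have hkey : ∀ (a b : M) (B : ℝ), (∀ g h, ‖σ (a * Ych k w g h * b)‖ ≤ B) →
      ‖σ (a * X * b)‖ ≤ S * B := by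
    intro a b B h
    rw [hX, hS]
    exact M4.key σ k w E c a b B h
  rw [← hS, ← hX]
  have h4 : ∀ g0 h0 g1 h1 g2 h2 : G, ‖σ (Ych k w g0 h0 * Ych k w g1 h1 * Ych k w g2 h2 * X)‖ ≤
      S * 4 ^ 8 := by
    intro g0 h0 g1 h1 g2 h2
    have := hkey (Ych k w g0 h0 * Ych k w g1 h1 * Ych k w g2 h2) 1 (4 ^ 8) (fun g3 h3 => by
      rw [mul_one]
      exact hY M σ G k C w hI hk ![g0, g1, g2, g3] ![h0, h1, h2, h3])
    rwa [mul_one] at this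
  have h3 : ∀ g0 h0 g1 h1 : G, ‖σ (Ych k w g0 h0 * Ych k w g1 h1 * X * X)‖ ≤
      S * (S * 4 ^ 8) := fun g0 h0 g1 h1 =>
    hkey (Ych k w g0 h0 * Ych k w g1 h1) X _ (fun g2 h2 => h4 g0 h0 g1 h1 g2 h2)
  have h2 : ∀ g0 h0 : G, ‖σ (Ych k w g0 h0 * X * (X * X))‖ ≤ S * (S * (S * 4 ^ 8)) :=
    fun g0 h0 => hkey (Ych k w g0 h0) (X * X) _ (fun g1 h1 => by
      rw [← mul_assoc]
      exact h3 g0 h0 g1 h1)
  have h1 : ‖σ (1 * X * (X * (X * X)))‖ ≤ S * (S * (S * (S * 4 ^ 8))) :=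
    hkey 1 (X * (X * X)) _ (fun g0 h0 => by
      rw [one_mul, ← mul_assoc]
      exact h2 g0 h0)
  rw [one_mul] at h1
  have e1 : X * X * X * X = X * (X * (X * X)) := by simp only [mul_assoc]
  rw [e1]
  refine h1.trans (le_of_eq ?_)
  ring

end H215EZ
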