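import Pool.Agent.H215R2.EZ.Stubs

/-! Task NAT (naturality of the formula under *-homomorphisms), proved by helper924. -/

open scoped ComplexOrder

namespace H215EZ

universe u v

namespace NAT

variable {M M' : Type u} [CStarAlgebra M] [CStarAlgebra M'] {G : Type v}

theorem map_avg (π : M →⋆ₐ[ℂ] M') (f : G →₀ ℝ) (F : G → M) :
    π (avg f F) = avg f fun g => π (F g) := by
  unfold avg
  rw [map_finsuppSum]
  simp only [map_smul]

theorem map_bb (π : M →⋆ₐ[ℂ] M') (v : M) : π (bb v) = bb (π v) := by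
  unfold bb
  simp only [map_sub, map_mul, map_star]

theorem map_Khat (π : M →⋆ₐ[ℂ] M') (k : ℕ) (w : G → Fin k → M) (g h : G) :
    π (Khat k w g h) = Khat k (fun g i => π (w g i)) g h := by
  unfold Khat
  simp only [map_smul, map_sum, map_mul]

theorem map_Ych (π : M →⋆ₐ[ℂ] M') (k : ℕ) (w : G → Fin k → M) (g h : G) :
    π (Ych k w g h) = Ych k (fun g i => π (w g i)) g h := by
  unfold Ych
  rw [map_smul, map_sum]
  congr 1
  refine Finset.sum_congr rfl fun i _ => ?_
  rw [map_sum]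
  refine Finset.sum_congr rfl fun j _ => ?_
  by_cases hij : i = j
  · rw [if_pos hij, if_pos hij, map_zero]
  · rw [if_neg hij, if_neg hij, map_mul]

theorem map_kpow (π : M →⋆ₐ[ℂ] M') (f : G →₀ ℝ) (K : G → G → M) (r : ℕ) :
    ∀ g h : G, π (kpow f K r g h) = kpow f (fun g h => π (K g h)) r g h := by
  induction r with
  | zero => intro g h; rfl
  | succ r ih =>
    intro g h
    show π (avg f fun x => K g x * kpow f K r x h) =
      avg f fun x => π (K g x) * kpow f (fun g h => π (K g h)) r x h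
    rw [map_avg]
    congr 1
    funext x
    rw [map_mul, ih x h]

theorem map_Qk (π : M →⋆ₐ[ℂ] M') (R : ℕ) (p : ℕ → ℝ) (f : G →₀ ℝ) (K : G → G → M) (g h : G) :
    π (Qk R p f K g h) = Qk R p f (fun g h => π (K g h)) g h := by
  unfold Qk
  rw [map_sum]
  refine Finset.sum_congr rfl fun r _ => ?_
  rw [map_smul, map_kpow]

theorem map_Xel (π : M →⋆ₐ[ℂ] M') (R : ℕ) (p : ℕ → ℝ) (f : G →₀ ℝ) (k : ℕ)
    (w : G → Fin k → M) :
    π (Xel R p f k w) = Xel R p f k fun g i => π (w g i) := by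
  unfold Xel
  rw [map_avg]
  congr 1
  funext g
  rw [map_avg]
  congr 1
  funext h
  rw [map_mul, map_Qk, map_Ych]
  congr 2
  funext g' h'
  exact map_Khat π k w g' h'

theorem map_rp (π : M →⋆ₐ[ℂ] M') (x : M) : π (rp x) = rp (π x) := by
  unfold rp
  rw [map_smul, map_add, map_star]

theorem map_Zel (π : M →⋆ₐ[ℂ] M') (R : ℕ) (p : ℕ → ℝ) (ξ : ℝ) (N k : ℕ) (f : G →₀ ℝ)
    (w : G → Fin N × Fin k → M) :
    π (Zel R p ξ N k f w) = Zel R p ξ N k f fun g i => π (w g i) := by
  unfold Zel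
  rw [map_smul, map_sum]
  congr 1
  refine Finset.sum_congr rfl fun m _ => ?_
  rw [map_rp, map_Xel]

end NAT

theorem t_NAT : S_NAT.{u, v} := by
  intro M M' _ _ π G R p ξ N k f V
  unfold uel
  have hcont : Continuous π := by
    have h := NonUnitalStarAlgHom.norm_apply_le π
    exact AddMonoidHomClass.continuous_of_bound π 1 (fun x => by rw [one_mul]; exact h x)
  have hexp : ∀ x : M, π (NormedSpace.exp x) = NormedSpace.exp (π x) := fun x =>
    NormedSpace.map_exp_of_mem_ball (𝕂 := ℂ) π hcont x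
      ((NormedSpace.expSeries_radius_eq_top ℂ M).symm ▸ edist_lt_top _ _)
  rw [hexp, map_smul, NAT.map_Zel]
  simp only [NAT.map_bb]

end H215EZ
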