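import Pool.Agent.H215R2.EZ.Stubs

/-!
# Moments of pairs
-/

namespace H215EZ

universe u v

theorem t_PAIR (hKB : S_KB.{u, v}) : S_PAIR.{u, v} := by
  intro M _ σ G k C w H g h g' h' i j hij
  have hk : 0 < k := lt_of_le_of_lt (Nat.zero_le _) i.isLt
  have hk3 := (hKB M σ G k C w H hk).2.2.1
  have hd : Disjoint ({i} : Set (Fin k)) {j} := by
    rw [Set.disjoint_singleton]
    exact hij
  have mi : ∀ x, w x i ∈ C {i} := fun x => H.mem _ _ _ rfl
  have mj : ∀ x, w x j ∈ C {j} := fun x => H.mem _ _ _ rfl
  have hc : ∀ x y, w x i * w y j = w y j * w x i := fun x y => H.comm _ _ _ _ hd (mi x) (mj y)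
  have hprod : ∀ x x' y y', σ ((w x i * w x' i) * (w y j * w y' j)) =
      ((kap σ w i x x' * kap σ w j y y' : ℝ) : ℂ) := by
    intro x x' y y'
    rw [H.ind _ _ _ _ hd (mul_mem (mi x) (mi x')) (mul_mem (mj y) (mj y')), hk3, hk3]
    push_cast
    rfl
  constructor
  · rw [← hprod]
    congr 1
    calc w g i * w h j * (w g' i * w h' j) = w g i * (w h j * w g' i) * w h' j := by
          simp only [mul_assoc]
      _ = w g i * (w g' i * w h j) * w h' j := by rw [hc g' h]
      _ = w g i * w g' i * (w h j * w h' j) := by simp only [mul_assoc]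
  · rw [← hprod]
    congr 1
    calc w g i * w h j * (w g' j * w h' i) = w g i * (w h j * (w g' j * w h' i)) := by
          simp only [mul_assoc]
      _ = w g i * (w h j * (w h' i * w g' j)) := by rw [hc h' g']
      _ = w g i * ((w h j * w h' i) * w g' j) := by simp only [mul_assoc]
      _ = w g i * ((w h' i * w h j) * w g' j) := by rw [hc h' h]
      _ = w g i * w h' i * (w h j * w g' j) := by simp only [mul_assoc]

end H215EZ
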