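import Mathlib
import Pool.Agent.H215R2.EZ.Stubs

set_option autoImplicit false

open scoped ComplexOrder ComplexConjugate
open MeasureTheory Filter Topology AddCircle

namespace H215EZ

universe u

namespace PART

abbrev XX := AddCircle (1 : ℝ)

noncomputable def ww (x : XX) : ℝ := 2 + (fourier (T := (1 : ℝ)) 1 x : ℂ).re

lemma ww_cont : Continuous ww := by
  unfold ww
  have h1 : Continuous (fun x : XX => (fourier (T := (1 : ℝ)) 1 x : ℂ)) := (fourier 1).continuous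
  exact continuous_const.add (Complex.continuous_re.comp h1)

lemma ww_one_le (x : XX) : 1 ≤ ww x := by
  unfold ww
  have h1 : |(fourier (T := (1 : ℝ)) 1 x : ℂ).re| ≤ ‖(fourier (T := (1 : ℝ)) 1 x : ℂ)‖ :=
    Complex.abs_re_le_norm _
  have h2 : ‖(fourier (T := (1 : ℝ)) 1 x : ℂ)‖ ≤ 1 := by
    rw [fourier_one, Circle.norm_coe]
  have h3 := (abs_le.1 (h1.trans h2)).1
  linarith

variable (n : ℕ) [NeZero n]

noncomputable def wj (j : ZMod n) (x : XX) : ℝ := ww (x - ZMod.toAddCircle j)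

noncomputable def SS (p : ℕ) (x : XX) : ℝ := ∑ i : ZMod n, wj n i x ^ p

noncomputable def hr (p : ℕ) (j : ZMod n) (x : XX) : ℝ := wj n j x ^ p / SS n p x

lemma wj_pos (j : ZMod n) (x : XX) : 0 < wj n j x := lt_of_lt_of_le one_pos (ww_one_le _)

lemma wj_cont (j : ZMod n) : Continuous (wj n j) := ww_cont.comp (continuous_id.sub continuous_const)

lemma le_SS (p : ℕ) (j : ZMod n) (x : XX) : wj n j x ^ p ≤ SS n p x :=
  Finset.single_le_sum (f := fun i => wj n i x ^ p) (fun i _ => (pow_pos (wj_pos n i x) p).le)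
    (Finset.mem_univ j)

lemma SS_pos (p : ℕ) (x : XX) : 0 < SS n p x :=
  lt_of_lt_of_le (pow_pos (wj_pos n 0 x) p) (le_SS n p 0 x)

lemma SS_cont (p : ℕ) : Continuous (SS n p) := by
  unfold SS
  exact continuous_finsetSum _ fun i _ => (wj_cont n i).pow p

lemma hr_cont (p : ℕ) (j : ZMod n) : Continuous (hr n p j) := by
  unfold hr
  exact ((wj_cont n j).pow p).div (SS_cont n p) (fun x => (SS_pos n p x).ne')

lemma hr_nonneg (p : ℕ) (j : ZMod n) (x : XX) : 0 ≤ hr n p j x :=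
  div_nonneg (pow_pos (wj_pos n j x) p).le (SS_pos n p x).le

lemma hr_le_one (p : ℕ) (j : ZMod n) (x : XX) : hr n p j x ≤ 1 := by
  unfold hr
  rw [div_le_one (SS_pos n p x)]
  exact le_SS n p j x

lemma hr_sum (p : ℕ) (x : XX) : ∑ j : ZMod n, hr n p j x = 1 := by
  unfold hr
  rw [← Finset.sum_div]
  exact div_self (SS_pos n p x).ne'

lemma hr_shift (p : ℕ) (j : ZMod n) (x : XX) : hr n p 0 (x - ZMod.toAddCircle j) = hr n p j x := by
  have h1 : ∀ i : ZMod n, wj n i (x - ZMod.toAddCircle j) = wj n (j + i) x := by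
    intro i
    unfold wj
    rw [map_add, sub_sub]
  unfold hr
  congr 1
  · rw [h1, add_zero]
  · unfold SS
    simp only [h1]
    exact Equiv.sum_comp (Equiv.addLeft j) (fun i => wj n i x ^ p)

lemma hr_integrable (p : ℕ) (j : ZMod n) : Integrable (hr n p j) (haarAddCircle (T := (1 : ℝ))) := by
  refine Integrable.of_bound (hr_cont n p j).aestronglyMeasurable 1 ?_
  refine Filter.Eventually.of_forall fun x => ?_
  rw [Real.norm_eq_abs, abs_of_nonneg (hr_nonneg n p j x)]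
  exact hr_le_one n p j x

lemma hr_integral (p : ℕ) (j : ZMod n) :
    ∫ x, hr n p j x ∂(haarAddCircle (T := (1 : ℝ))) = 1 / n := by
  have h1 : ∀ i : ZMod n, ∫ x, hr n p i x ∂(haarAddCircle (T := (1 : ℝ))) =
      ∫ x, hr n p 0 x ∂(haarAddCircle (T := (1 : ℝ))) := by
    intro i
    have := integral_sub_right_eq_self (μ := haarAddCircle (T := (1 : ℝ))) (hr n p 0)
      (ZMod.toAddCircle i)
    rw [← this]
    refine integral_congr_ae (Filter.Eventually.of_forall fun x => ?_)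
    exact (hr_shift n p i x).symm
  have h2 : ∑ i : ZMod n, ∫ x, hr n p i x ∂(haarAddCircle (T := (1 : ℝ))) = 1 := by
    rw [← integral_finsetSum _ (fun i _ => hr_integrable n p i)]
    simp only [hr_sum]
    simp
  rw [Finset.sum_congr rfl (fun i _ => h1 i)] at h2
  rw [Finset.sum_const, Finset.card_univ, ZMod.card, nsmul_eq_mul] at h2
  rw [h1 j]
  have hn : (n : ℝ) ≠ 0 := Nat.cast_ne_zero.2 (NeZero.ne n)
  field_simp
  linarith

lemma hr_le_pow (p : ℕ) (i j : ZMod n) (x : XX) : hr n p i x ≤ (wj n i x / wj n j x) ^ p := by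
  unfold hr
  rw [div_pow]
  exact div_le_div_of_nonneg_left (pow_pos (wj_pos n i x) p).le (pow_pos (wj_pos n j x) p)
    (le_SS n p j x)

lemma prod_tendsto (i j : ZMod n) (x : XX) (h : wj n i x ≠ wj n j x) :
    Tendsto (fun p : ℕ => hr n p i x * hr n p j x) atTop (𝓝 0) := by
  rcases lt_or_gt_of_ne h with h | h
  · have h1 : wj n i x / wj n j x < 1 := (div_lt_one (wj_pos n j x)).2 h
    have h2 := tendsto_pow_atTop_nhds_zero_of_lt_one
      (div_pos (wj_pos n i x) (wj_pos n j x)).le h1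
    refine squeeze_zero (fun p => mul_nonneg (hr_nonneg n p i x) (hr_nonneg n p j x))
      (fun p => ?_) h2
    calc hr n p i x * hr n p j x ≤ hr n p i x * 1 :=
          mul_le_mul_of_nonneg_left (hr_le_one n p j x) (hr_nonneg n p i x)
      _ ≤ _ := by rw [mul_one]; exact hr_le_pow n p i j x
  · have h1 : wj n j x / wj n i x < 1 := (div_lt_one (wj_pos n i x)).2 h
    have h2 := tendsto_pow_atTop_nhds_zero_of_lt_one
      (div_pos (wj_pos n j x) (wj_pos n i x)).le h1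
    refine squeeze_zero (fun p => mul_nonneg (hr_nonneg n p i x) (hr_nonneg n p j x))
      (fun p => ?_) h2
    calc hr n p i x * hr n p j x ≤ 1 * hr n p j x :=
          mul_le_mul_of_nonneg_right (hr_le_one n p i x) (hr_nonneg n p j x)
      _ ≤ _ := by rw [one_mul]; exact hr_le_pow n p j i x

lemma finite_sq (b : ℂ) : {x : XX | ((toCircle x : Circle) : ℂ) ^ 2 = b}.Finite := by
  have h1 : {z : ℂ | z ^ 2 = b}.Finite := by
    have : {z : ℂ | z ^ 2 = b} ⊆ ((Polynomial.nthRoots 2 b).toFinset : Set ℂ) := by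
      intro z hz
      rw [Finset.mem_coe, Multiset.mem_toFinset, Polynomial.mem_nthRoots two_pos]
      exact hz
    exact (Finset.finite_toSet _).subset this
  have h2 : Function.Injective (fun x : XX => ((toCircle x : Circle) : ℂ)) := by
    intro x y hxy
    exact injective_toCircle one_ne_zero (Subtype.ext hxy)
  exact h1.preimage h2.injOn

lemma eq_finite (i j : ZMod n) (hij : i ≠ j) : {x : XX | wj n i x = wj n j x}.Finite := by
  set α : ℂ := ((toCircle (ZMod.toAddCircle i : XX) : Circle) : ℂ) with hα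
  set β : ℂ := ((toCircle (ZMod.toAddCircle j : XX) : Circle) : ℂ) with hβ
  have hne : α ≠ β := by
    intro h
    apply hij
    apply ZMod.toAddCircle_injective n
    exact injective_toCircle one_ne_zero (Subtype.ext h)
  set c : ℂ := conj α - conj β with hc
  have hc0 : c ≠ 0 := by
    rw [hc, ← map_sub]
    intro h
    apply hne
    have := (map_eq_zero (starRingEnd ℂ)).1 h
    exact sub_eq_zero.1 this
  refine (finite_sq (-(conj c) / c)).subset ?_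
  intro x hx
  have hx' : wj n i x = wj n j x := hx
  set z : ℂ := ((toCircle x : Circle) : ℂ) with hz
  have e : ∀ k : ZMod n, wj n k x =
      2 + (z * conj (((toCircle (ZMod.toAddCircle k : XX) : Circle) : ℂ))).re := by
    intro k
    unfold wj ww
    rw [fourier_one, sub_eq_add_neg, toCircle_add, toCircle_neg]
    rw [Circle.coe_mul, Circle.coe_inv_eq_conj]
  rw [e i, e j] at hx'
  have h1 : (z * c).re = 0 := by
    rw [hc, mul_sub, Complex.sub_re]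
    linarith
  have h2 : z * c + conj (z * c) = 0 := by
    rw [Complex.add_conj, h1]; simp
  have hzz : z * conj z = 1 := by
    rw [Complex.mul_conj, Complex.normSq_eq_norm_sq, hz, Circle.norm_coe]; simp
  show z ^ 2 = -(conj c) / c
  rw [eq_div_iff hc0]
  rw [map_mul] at h2
  linear_combination z * h2 - (conj c) * hzz

lemma integral_tendsto (i j : ZMod n) (hij : i ≠ j) :
    Tendsto (fun p : ℕ => ∫ x, hr n p i x * hr n p j x ∂(haarAddCircle (T := (1 : ℝ)))) atTop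
      (𝓝 0) := by
  have h0 : (0 : ℝ) = ∫ _x : XX, (0 : ℝ) ∂(haarAddCircle (T := (1 : ℝ))) := by simp
  rw [h0]
  refine tendsto_integral_of_dominated_convergence (fun _ => 1) ?_ (integrable_const _) ?_ ?_
  · intro p
    exact ((hr_cont n p i).mul (hr_cont n p j)).aestronglyMeasurable
  · intro p
    refine Filter.Eventually.of_forall fun x => ?_
    rw [Real.norm_eq_abs, abs_of_nonneg (mul_nonneg (hr_nonneg n p i x) (hr_nonneg n p j x))]
    exact mul_le_one₀ (hr_le_one n p i x) (hr_nonneg n p j x) (hr_le_one n p j x)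
  · have hnt : Nontrivial XX := (ZMod.toAddCircle_injective 2).nontrivial
    have hnb : (𝓝[≠] (0 : XX)).NeBot := inferInstance
    have h1 : (haarAddCircle (T := (1 : ℝ))) {x : XX | wj n i x = wj n j x} = 0 :=
      (eq_finite n i j hij).measure_zero _
    have h2 : ∀ᵐ x ∂(haarAddCircle (T := (1 : ℝ))), wj n i x ≠ wj n j x := by
      rw [ae_iff]
      simpa using h1
    filter_upwards [h2] with x hx
    exact prod_tendsto n i j x hx

/-- the mean -/
noncomputable def mm (f : C(XX, ℂ)) : ℂ := ∫ x, f x ∂(haarAddCircle (T := (1 : ℝ)))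

lemma mm_int (f : C(XX, ℂ)) : Integrable (fun x => f x) (haarAddCircle (T := (1 : ℝ))) := by
  refine Integrable.of_bound f.continuous.aestronglyMeasurable ‖f‖ ?_
  exact Filter.Eventually.of_forall fun x => f.norm_coe_le_norm x

lemma mm_norm (f : C(XX, ℂ)) : ‖mm f‖ ≤ ‖f‖ := by
  unfold mm
  have := norm_integral_le_of_norm_le_const (μ := haarAddCircle (T := (1 : ℝ))) (f := fun x => f x)
    (C := ‖f‖) (Filter.Eventually.of_forall fun x => f.norm_coe_le_norm x)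
  simpa using this

lemma mm_sub (f g : C(XX, ℂ)) : mm (f - g) = mm f - mm g := by
  unfold mm
  rw [← integral_sub (mm_int f) (mm_int g)]
  rfl

/-- trigonometric polynomial -/
noncomputable def tp (c : ℤ →₀ ℂ) : C(XX, ℂ) := c.sum fun r a => a • fourier (T := (1 : ℝ)) r

lemma mm_tp (c : ℤ →₀ ℂ) : mm (tp c) = c 0 := by
  have h1 : ∀ r : ℤ, ∫ x, (fourier (T := (1 : ℝ)) r x : ℂ) ∂(haarAddCircle (T := (1 : ℝ))) =
      if r = 0 then 1 else 0 := by
    intro r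
    have h2 := congrFun (fourierCoeff_fourier (T := (1 : ℝ)) r) 0
    unfold fourierCoeff at h2
    simp only [neg_zero, fourier_zero, one_smul] at h2
    rw [h2, Pi.single_apply]
    simp [eq_comm]
  unfold mm tp Finsupp.sum
  have h3 : ∀ x : XX, (∑ r ∈ c.support, c r • fourier (T := (1 : ℝ)) r : C(XX, ℂ)) x =
      ∑ r ∈ c.support, c r * (fourier (T := (1 : ℝ)) r x : ℂ) := by
    intro x
    rw [ContinuousMap.sum_apply]
    rfl
  simp only [h3]
  rw [integral_finsetSum _ (fun r _ => (mm_int (fourier r)).const_mul _)]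
  simp only [integral_const_mul, h1]
  simp only [mul_ite, mul_one, mul_zero, Finset.sum_ite_eq', Finsupp.mem_support_iff, ne_eq,
    ite_not, ite_eq_right_iff]
  exact fun h => h.symm

lemma trig_approx (f : C(XX, ℂ)) (ε : ℝ) (hε : 0 < ε) : ∃ c : ℤ →₀ ℂ, ‖f - tp c‖ ≤ ε ∧
    ‖c 0 - mm f‖ ≤ ε := by
  have h1 : f ∈ (Submodule.span ℂ (Set.range (fourier (T := (1 : ℝ))))).topologicalClosure := by
    rw [span_fourier_closure_eq_top]; trivial
  have h2 : f ∈ closure ((Submodule.span ℂ (Set.range (fourier (T := (1 : ℝ)))) :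
    Submodule ℂ C(XX, ℂ)) : Set C(XX, ℂ)) := h1
  obtain ⟨g, hg, hfg⟩ := Metric.mem_closure_iff.1 h2 ε hε
  rw [SetLike.mem_coe, Finsupp.mem_span_range_iff_exists_finsupp] at hg
  obtain ⟨c, hc⟩ := hg
  have hc' : tp c = g := hc
  rw [dist_eq_norm] at hfg
  refine ⟨c, by rw [hc']; exact hfg.le, ?_⟩
  rw [← mm_tp c, hc', ← mm_sub, ]
  refine (mm_norm _).trans ?_
  rw [norm_sub_rev]
  exact hfg.le

section alg

variable {A : Type u} [CStarAlgebra A]

/-- the map from the spectrum to the circle -/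
noncomputable def cc (u : A) (hu : u ∈ unitary A) (z : spectrum ℂ u) : Circle :=
  ⟨z, spectrum.subset_circle_of_unitary hu z.2⟩

lemma cc_cont (u : A) (hu : u ∈ unitary A) : Continuous (cc u hu) :=
  Continuous.subtype_mk continuous_subtype_val _

/-- the map from the spectrum to the additive circle -/
noncomputable def gg (u : A) (hu : u ∈ unitary A) : C(spectrum ℂ u, XX) where
  toFun z := (homeomorphCircle (T := (1 : ℝ)) one_ne_zero).symm (cc u hu z)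
  continuous_toFun := (Homeomorph.continuous _).comp (cc_cont u hu)

lemma exists_psi (u : A) (hu : u ∈ unitary A) : ∃ Ψ : C(XX, ℂ) →⋆ₐ[ℂ] A,
    Ψ (fourier (T := (1 : ℝ)) 1) = u := by
  have hn : IsStarNormal u := by
    constructor
    rw [commute_iff_eq, Unitary.star_mul_self_of_mem hu, Unitary.mul_star_self_of_mem hu]
  refine ⟨(cfcHom (R := ℂ) (a := u) hn).comp (ContinuousMap.compStarAlgHom' ℂ ℂ (gg u hu)), ?_⟩
  have h1 : (ContinuousMap.compStarAlgHom' ℂ ℂ (gg u hu)) (fourier (T := (1 : ℝ)) 1) =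
      (ContinuousMap.id ℂ).restrict (spectrum ℂ u) := by
    ext z
    show (fourier (T := (1 : ℝ)) 1 (gg u hu z) : ℂ) = z
    rw [fourier_one]
    have h2 := homeomorphCircle_apply (T := (1 : ℝ)) one_ne_zero (gg u hu z)
    rw [← h2]
    show (((homeomorphCircle (T := (1 : ℝ)) one_ne_zero)
      ((homeomorphCircle (T := (1 : ℝ)) one_ne_zero).symm (cc u hu z)) : Circle) : ℂ) = z
    rw [Homeomorph.apply_symm_apply]
    rfl
  rw [StarAlgHom.comp_apply, h1]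
  exact cfcHom_id hn

variable (Ψ : C(XX, ℂ) →⋆ₐ[ℂ] A)

lemma psi_norm (f : C(XX, ℂ)) : ‖Ψ f‖ ≤ ‖f‖ := NonUnitalStarAlgHom.norm_apply_le Ψ f

lemma psi_nat {u : A} (h : Ψ (fourier (T := (1 : ℝ)) 1) = u) (k : ℕ) :
    Ψ (fourier (T := (1 : ℝ)) k) = u ^ k := by
  induction k with
  | zero =>
    have : fourier (T := (1 : ℝ)) ((0 : ℕ) : ℤ) = 1 := by
      ext x
      rw [Nat.cast_zero, fourier_zero]; rfl
    rw [this, map_one, pow_zero]
  | succ k ih =>
    have : fourier (T := (1 : ℝ)) ((k + 1 : ℕ) : ℤ) =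
        fourier (T := (1 : ℝ)) (k : ℤ) * fourier (T := (1 : ℝ)) 1 := by
      ext x
      rw [Nat.cast_succ, fourier_add]; rfl
    rw [this, map_mul, ih, h, pow_succ]

lemma psi_neg {u : A} (h : Ψ (fourier (T := (1 : ℝ)) 1) = u) (k : ℕ) :
    Ψ (fourier (T := (1 : ℝ)) (-(k : ℤ))) = star (u ^ k) := by
  have : fourier (T := (1 : ℝ)) (-(k : ℤ)) = star (fourier (T := (1 : ℝ)) (k : ℤ)) := by
    ext x
    rw [fourier_neg]; rfl
  rw [this, map_star, psi_nat Ψ h]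

lemma psi_tp (c : ℤ →₀ ℂ) : Ψ (tp c) = ∑ r ∈ c.support, c r • Ψ (fourier (T := (1 : ℝ)) r) := by
  unfold tp Finsupp.sum
  rw [map_sum]
  refine Finset.sum_congr rfl fun r _ => ?_
  rw [map_smul]

lemma pow_norm {u : A} (h : Ψ (fourier (T := (1 : ℝ)) 1) = u) (k : ℕ) : ‖u ^ k‖ ≤ 1 := by
  rw [← psi_nat Ψ h k]
  refine (psi_norm Ψ _).trans ?_
  rw [fourier_norm]

/-- weight of the coefficients -/
noncomputable def Wt (c : ℤ →₀ ℂ) : ℝ := ∑ r ∈ c.support, ‖c r‖ * (r.natAbs + 1)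

lemma Wt_nonneg (c : ℤ →₀ ℂ) : 0 ≤ Wt c := Finset.sum_nonneg fun r _ => by positivity

variable (hBAS : S_BAS.{u})

include hBAS in
lemma tr_one (τ : A →ₗ[ℂ] ℂ) (hτ : IsTrSt τ) (u a : A) (h : Ψ (fourier (T := (1 : ℝ)) 1) = u)
    (T : ℕ) (δ : ℝ) (hδ : ∀ r : ℕ, 1 ≤ r → r ≤ T → ‖τ (a * u ^ r)‖ ≤ δ ∧ ‖τ (star a * u ^ r)‖ ≤ δ)
    (r : ℤ) (hr0 : r ≠ 0) (hrT : r.natAbs ≤ T) : ‖τ (a * Ψ (fourier (T := (1 : ℝ)) r))‖ ≤ δ := by
  have hr1 : 1 ≤ r.natAbs := Int.natAbs_pos.2 hr0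
  rcases Int.natAbs_eq r with h1 | h1
  · rw [h1, psi_nat Ψ h]
    exact (hδ _ hr1 hrT).1
  · rw [h1, psi_neg Ψ h]
    have h2 : τ (a * star (u ^ r.natAbs)) = conj (τ (star a * u ^ r.natAbs)) := by
      rw [hτ.tr (star a)]
      rw [← ((hBAS A τ hτ).2.1 (u ^ r.natAbs * star a))]
      rw [star_mul, star_star]
    rw [h2, RCLike.norm_conj]
    exact (hδ _ hr1 hrT).2

include hBAS in
lemma tr_tp (τ : A →ₗ[ℂ] ℂ) (hτ : IsTrSt τ) (u a : A) (h : Ψ (fourier (T := (1 : ℝ)) 1) = u)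
    (T : ℕ) (δ : ℝ) (hδ0 : 0 ≤ δ)
    (hδ : ∀ r : ℕ, 1 ≤ r → r ≤ T → ‖τ (a * u ^ r)‖ ≤ δ ∧ ‖τ (star a * u ^ r)‖ ≤ δ)
    (c : ℤ →₀ ℂ) (hc : ∀ r ∈ c.support, r.natAbs ≤ T) :
    ‖τ (a * Ψ (tp c)) - c 0 * τ a‖ ≤ Wt c * δ := by
  have h1 : τ (a * Ψ (tp c)) = ∑ r ∈ c.support, c r * τ (a * Ψ (fourier (T := (1 : ℝ)) r)) := by
    rw [psi_tp, Finset.mul_sum, map_sum]
    refine Finset.sum_congr rfl fun r _ => ?_
    rw [mul_smul_comm, map_smul, smul_eq_mul]
  have h2 : c 0 * τ a = ∑ r ∈ c.support, if r = 0 then c 0 * τ a else 0 := by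
    rw [Finset.sum_ite_eq' c.support (0 : ℤ) (fun _ => c 0 * τ a)]
    by_cases h0 : (0 : ℤ) ∈ c.support
    · rw [if_pos h0]
    · rw [if_neg h0, Finsupp.notMem_support_iff.1 h0, zero_mul]
  have h0 : Ψ (fourier (T := (1 : ℝ)) 0) = 1 := by
    have := psi_nat Ψ h 0
    rw [pow_zero] at this
    exact_mod_cast this
  rw [h1, h2, ← Finset.sum_sub_distrib, Wt, Finset.sum_mul]
  refine (norm_sum_le _ _).trans (Finset.sum_le_sum fun r hr => ?_)
  by_cases hr0 : r = 0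
  · subst hr0
    rw [if_pos rfl, h0, mul_one, sub_self, norm_zero]
    positivity
  · rw [if_neg hr0, sub_zero, norm_mul]
    have h3 := tr_one Ψ hBAS τ hτ u a h T δ hδ r hr0 (hc r hr)
    have h4 : ‖c r‖ * ‖τ (a * Ψ (fourier (T := (1 : ℝ)) r))‖ ≤ ‖c r‖ * δ :=
      mul_le_mul_of_nonneg_left h3 (norm_nonneg _)
    have h5 : 0 ≤ ‖c r‖ * δ * (r.natAbs : ℝ) := by positivity
    linarith

include hBAS in
lemma tr_fin (τ : A →ₗ[ℂ] ℂ) (hτ : IsTrSt τ) (u a : A) (h : Ψ (fourier (T := (1 : ℝ)) 1) = u)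
    (T : ℕ) (δ : ℝ) (hδ0 : 0 ≤ δ)
    (hδ : ∀ r : ℕ, 1 ≤ r → r ≤ T → ‖τ (a * u ^ r)‖ ≤ δ ∧ ‖τ (star a * u ^ r)‖ ≤ δ)
    (c : ℤ →₀ ℂ) (hc : ∀ r ∈ c.support, r.natAbs ≤ T) (f : C(XX, ℂ)) (ε' : ℝ)
    (h1 : ‖f - tp c‖ ≤ ε') (h2 : ‖c 0 - mm f‖ ≤ ε') :
    ‖τ (a * Ψ f) - mm f * τ a‖ ≤ 2 * ‖a‖ * ε' + Wt c * δ := by
  have e : τ (a * Ψ f) - mm f * τ a = τ (a * Ψ (f - tp c)) + (τ (a * Ψ (tp c)) - c 0 * τ a) +
      (c 0 - mm f) * τ a := by
    rw [map_sub, mul_sub, map_sub]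
    ring
  have hε' : 0 ≤ ε' := (norm_nonneg _).trans h1
  have h3 : ‖τ (a * Ψ (f - tp c))‖ ≤ ‖a‖ * ε' := by
    refine ((hBAS A τ hτ).1 _).trans ((norm_mul_le _ _).trans ?_)
    exact mul_le_mul_of_nonneg_left ((psi_norm Ψ _).trans h1) (norm_nonneg _)
  have h4 := tr_tp Ψ hBAS τ hτ u a h T δ hδ0 hδ c hc
  have h5 : ‖(c 0 - mm f) * τ a‖ ≤ ε' * ‖a‖ := by
    rw [norm_mul]
    exact mul_le_mul h2 ((hBAS A τ hτ).1 _) (norm_nonneg _) hε'
  rw [e]
  refine (norm_add_le _ _).trans ?_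
  have h6 := norm_add_le (τ (a * Ψ (f - tp c))) (τ (a * Ψ (tp c)) - c 0 * τ a)
  linarith

include hBAS in
lemma n2_sum_le (τ : A →ₗ[ℂ] ℂ) (hτ : IsTrSt τ) {ι : Type*} (s : Finset ι) (x : ι → A) :
    n2 τ (∑ i ∈ s, x i) ≤ ∑ i ∈ s, n2 τ (x i) := by
  classical
  obtain ⟨-, -, -, hadd, -, -, hle, -⟩ := hBAS A τ hτ
  induction s using Finset.induction_on with
  | empty =>
    rw [Finset.sum_empty, Finset.sum_empty]
    have := hle 0
    rwa [norm_zero] at this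
  | insert a s ha ih =>
    rw [Finset.sum_insert ha, Finset.sum_insert ha]
    exact (hadd _ _).trans (add_le_add_right ih _)

include hBAS in
lemma comm_pow (τ : A →ₗ[ℂ] ℂ) (hτ : IsTrSt τ) (u a : A) (h : Ψ (fourier (T := (1 : ℝ)) 1) = u)
    (δ : ℝ) (hδ : n2 τ (u * a - a * u) ≤ δ) (k : ℕ) :
    n2 τ (u ^ k * a - a * u ^ k) ≤ k * δ := by
  obtain ⟨-, -, -, hadd, -, -, hle, hl, hr, -⟩ := hBAS A τ hτ
  have hu1 : ‖u‖ ≤ 1 := by have := pow_norm Ψ h 1; rwa [pow_one] at this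
  have hδ0 : 0 ≤ δ := (Real.sqrt_nonneg _).trans hδ
  induction k with
  | zero =>
    simp only [pow_zero, one_mul, mul_one, sub_self, Nat.cast_zero, zero_mul]
    have := hle 0
    rwa [norm_zero] at this
  | succ k ih =>
    have e : u ^ (k + 1) * a - a * u ^ (k + 1) = u ^ k * (u * a - a * u) +
        (u ^ k * a - a * u ^ k) * u := by
      rw [pow_succ]; noncomm_ring
    rw [e]
    refine (hadd _ _).trans ?_
    have h1 : n2 τ (u ^ k * (u * a - a * u)) ≤ 1 * δ :=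
      (hl _ _).trans (mul_le_mul (pow_norm Ψ h k) hδ (Real.sqrt_nonneg _) zero_le_one)
    have h2 : n2 τ ((u ^ k * a - a * u ^ k) * u) ≤ 1 * (k * δ) :=
      (hr _ _).trans (mul_le_mul hu1 ih (Real.sqrt_nonneg _) zero_le_one)
    push_cast
    linarith

include hBAS in
lemma comm_psi (τ : A →ₗ[ℂ] ℂ) (hτ : IsTrSt τ) (u a : A) (h : Ψ (fourier (T := (1 : ℝ)) 1) = u)
    (hu : u ∈ unitary A) (δ : ℝ) (hδ : n2 τ (u * a - a * u) ≤ δ) (r : ℤ) :
    n2 τ (Ψ (fourier (T := (1 : ℝ)) r) * a - a * Ψ (fourier (T := (1 : ℝ)) r)) ≤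
      r.natAbs * δ := by
  obtain ⟨-, -, -, hadd, hsm, -, hle, hl, hr, -⟩ := hBAS A τ hτ
  have h0 := comm_pow Ψ hBAS τ hτ u a h δ hδ r.natAbs
  rcases Int.natAbs_eq r with h1 | h1
  · conv_lhs => rw [h1, psi_nat Ψ h]
    exact h0
  · conv_lhs => rw [h1, psi_neg Ψ h]
    set v := u ^ r.natAbs with hv
    have hvu : v ∈ unitary A := pow_mem hu _
    have e : star v * a - a * star v = (-1 : ℂ) • (star v * (v * a - a * v) * star v) := by
      have e1 : star v * (v * a - a * v) * star v = (star v * v) * a * star v -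
          star v * a * (v * star v) := by noncomm_ring
      rw [e1, Unitary.star_mul_self_of_mem hvu, Unitary.mul_star_self_of_mem hvu, one_mul, mul_one,
        neg_one_smul, neg_sub]
    rw [e, hsm, norm_neg, norm_one, one_mul]
    have hvn : ‖star v‖ ≤ 1 := by rw [norm_star]; exact pow_norm Ψ h _
    have h3 : n2 τ (star v * (v * a - a * v)) ≤ 1 * (r.natAbs * δ) :=
      (hl _ _).trans (mul_le_mul hvn h0 (Real.sqrt_nonneg _) zero_le_one)
    have h4 : n2 τ (star v * (v * a - a * v) * star v) ≤ 1 * (1 * (r.natAbs * δ)) :=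
      (hr _ _).trans (mul_le_mul hvn h3 (Real.sqrt_nonneg _) zero_le_one)
    linarith

include hBAS in
lemma comm_fin (τ : A →ₗ[ℂ] ℂ) (hτ : IsTrSt τ) (u a : A) (h : Ψ (fourier (T := (1 : ℝ)) 1) = u)
    (hu : u ∈ unitary A) (δ : ℝ) (hδ : n2 τ (u * a - a * u) ≤ δ) (c : ℤ →₀ ℂ)
    (f : C(XX, ℂ)) (ε' : ℝ) (h1 : ‖f - tp c‖ ≤ ε') :
    n2 τ (Ψ f * a - a * Ψ f) ≤ 2 * ‖a‖ * ε' + Wt c * δ := by
  obtain ⟨-, -, -, hadd, hsm, -, hle, hl, hr, -⟩ := hBAS A τ hτ
  have hδ0 : 0 ≤ δ := (Real.sqrt_nonneg _).trans hδ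
  have e : Ψ f * a - a * Ψ f = (Ψ (f - tp c) * a - a * Ψ (f - tp c)) +
      ∑ r ∈ c.support, c r • (Ψ (fourier (T := (1 : ℝ)) r) * a - a * Ψ (fourier (T := (1 : ℝ)) r)) := by
    have e1 : ∑ r ∈ c.support, c r • (Ψ (fourier (T := (1 : ℝ)) r) * a -
        a * Ψ (fourier (T := (1 : ℝ)) r)) = Ψ (tp c) * a - a * Ψ (tp c) := by
      rw [psi_tp, Finset.sum_mul, Finset.mul_sum, ← Finset.sum_sub_distrib]
      refine Finset.sum_congr rfl fun r _ => ?_
      rw [smul_sub, smul_mul_assoc, mul_smul_comm]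
    rw [e1, map_sub]
    noncomm_ring
  rw [e]
  refine (hadd _ _).trans ?_
  have h2 : n2 τ (Ψ (f - tp c) * a - a * Ψ (f - tp c)) ≤ 2 * ‖a‖ * ε' := by
    refine (hle _).trans ((norm_sub_le _ _).trans ?_)
    have h3 : ‖Ψ (f - tp c)‖ ≤ ε' := (psi_norm Ψ _).trans h1
    have h4 := norm_mul_le (Ψ (f - tp c)) a
    have h5 := norm_mul_le a (Ψ (f - tp c))
    have h6 := mul_le_mul_of_nonneg_right h3 (norm_nonneg a)
    have h7 := mul_le_mul_of_nonneg_left h3 (norm_nonneg a)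
    linarith
  have h3 : n2 τ (∑ r ∈ c.support, c r • (Ψ (fourier (T := (1 : ℝ)) r) * a -
      a * Ψ (fourier (T := (1 : ℝ)) r))) ≤ Wt c * δ := by
    refine (n2_sum_le hBAS τ hτ _ _).trans ?_
    rw [Wt, Finset.sum_mul]
    refine Finset.sum_le_sum fun r _ => ?_
    rw [hsm]
    have h4 := comm_psi Ψ hBAS τ hτ u a h hu δ hδ r
    have h5 := mul_le_mul_of_nonneg_left h4 (norm_nonneg (c r))
    have h6 : 0 ≤ ‖c r‖ * δ := by positivity
    linarith
  linarith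

include hBAS in
lemma beta_pow (τ : A →ₗ[ℂ] ℂ) (hτ : IsTrSt τ) (u : A) (h : Ψ (fourier (T := (1 : ℝ)) 1) = u)
    (β : A ≃⋆ₐ[ℂ] A) (δ : ℝ) (hδ : n2 τ (β u - u) ≤ δ) (k : ℕ) :
    n2 τ (β (u ^ k) - u ^ k) ≤ k * δ := by
  obtain ⟨-, -, -, hadd, -, -, hle, hl, hr, -⟩ := hBAS A τ hτ
  have hu1 : ‖u‖ ≤ 1 := by have := pow_norm Ψ h 1; rwa [pow_one] at this
  have hδ0 : 0 ≤ δ := (Real.sqrt_nonneg _).trans hδ
  induction k with
  | zero =>
    simp only [pow_zero, map_one, sub_self, Nat.cast_zero, zero_mul]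
    have := hle 0
    rwa [norm_zero] at this
  | succ k ih =>
    have e : β (u ^ (k + 1)) - u ^ (k + 1) = β (u ^ k) * (β u - u) +
        (β (u ^ k) - u ^ k) * u := by
      rw [pow_succ, map_mul]; noncomm_ring
    rw [e]
    refine (hadd _ _).trans ?_
    have hb : ‖β (u ^ k)‖ ≤ 1 := (NonUnitalStarAlgHom.norm_apply_le β _).trans (pow_norm Ψ h k)
    have h1 : n2 τ (β (u ^ k) * (β u - u)) ≤ 1 * δ :=
      (hl _ _).trans (mul_le_mul hb hδ (Real.sqrt_nonneg _) zero_le_one)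
    have h2 : n2 τ ((β (u ^ k) - u ^ k) * u) ≤ 1 * (k * δ) :=
      (hr _ _).trans (mul_le_mul hu1 ih (Real.sqrt_nonneg _) zero_le_one)
    push_cast
    linarith

include hBAS in
lemma beta_psi (τ : A →ₗ[ℂ] ℂ) (hτ : IsTrSt τ) (u : A) (h : Ψ (fourier (T := (1 : ℝ)) 1) = u)
    (β : A ≃⋆ₐ[ℂ] A) (δ : ℝ) (hδ : n2 τ (β u - u) ≤ δ) (r : ℤ) :
    n2 τ (β (Ψ (fourier (T := (1 : ℝ)) r)) - Ψ (fourier (T := (1 : ℝ)) r)) ≤ r.natAbs * δ := by
  obtain ⟨-, -, -, hadd, hsm, hst, hle, hl, hr, -⟩ := hBAS A τ hτ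
  have h0 := beta_pow Ψ hBAS τ hτ u h β δ hδ r.natAbs
  rcases Int.natAbs_eq r with h1 | h1
  · conv_lhs => rw [h1, psi_nat Ψ h]
    exact h0
  · conv_lhs => rw [h1, psi_neg Ψ h]
    rw [map_star, ← star_sub, hst]
    exact h0

include hBAS in
lemma beta_fin (τ : A →ₗ[ℂ] ℂ) (hτ : IsTrSt τ) (u : A) (h : Ψ (fourier (T := (1 : ℝ)) 1) = u)
    (β : A ≃⋆ₐ[ℂ] A) (δ : ℝ) (hδ : n2 τ (β u - u) ≤ δ) (c : ℤ →₀ ℂ)
    (f : C(XX, ℂ)) (ε' : ℝ) (h1 : ‖f - tp c‖ ≤ ε') :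
    n2 τ (β (Ψ f) - Ψ f) ≤ 2 * ε' + Wt c * δ := by
  obtain ⟨-, -, -, hadd, hsm, -, hle, hl, hr, -⟩ := hBAS A τ hτ
  have hδ0 : 0 ≤ δ := (Real.sqrt_nonneg _).trans hδ
  have e : β (Ψ f) - Ψ f = (β (Ψ (f - tp c)) - Ψ (f - tp c)) +
      ∑ r ∈ c.support, c r • (β (Ψ (fourier (T := (1 : ℝ)) r)) - Ψ (fourier (T := (1 : ℝ)) r)) := by
    have e1 : ∑ r ∈ c.support, c r • (β (Ψ (fourier (T := (1 : ℝ)) r)) -
        Ψ (fourier (T := (1 : ℝ)) r)) = β (Ψ (tp c)) - Ψ (tp c) := by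
      rw [psi_tp, map_sum, ← Finset.sum_sub_distrib]
      refine Finset.sum_congr rfl fun r _ => ?_
      rw [smul_sub, map_smul]
    rw [e1, map_sub, map_sub]
    abel
  rw [e]
  refine (hadd _ _).trans ?_
  have h2 : n2 τ (β (Ψ (f - tp c)) - Ψ (f - tp c)) ≤ 2 * ε' := by
    refine (hle _).trans ((norm_sub_le _ _).trans ?_)
    have h3 : ‖Ψ (f - tp c)‖ ≤ ε' := (psi_norm Ψ _).trans h1
    have h4 : ‖β (Ψ (f - tp c))‖ ≤ ‖Ψ (f - tp c)‖ := NonUnitalStarAlgHom.norm_apply_le β _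
    linarith
  have h3 : n2 τ (∑ r ∈ c.support, c r • (β (Ψ (fourier (T := (1 : ℝ)) r)) -
      Ψ (fourier (T := (1 : ℝ)) r))) ≤ Wt c * δ := by
    refine (n2_sum_le hBAS τ hτ _ _).trans ?_
    rw [Wt, Finset.sum_mul]
    refine Finset.sum_le_sum fun r _ => ?_
    rw [hsm]
    have h4 := beta_psi Ψ hBAS τ hτ u h β δ hδ r
    have h5 := mul_le_mul_of_nonneg_left h4 (norm_nonneg (c r))
    have h6 : 0 ≤ ‖c r‖ * δ := by positivity
    linarith
  linarith

end alg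

/-- the functions -/
noncomputable def hC (n : ℕ) [NeZero n] (p : ℕ) (j : ZMod n) : C(XX, ℂ) :=
  ⟨fun x => (hr n p j x : ℂ), Complex.continuous_ofReal.comp (hr_cont n p j)⟩

/-- their square roots -/
noncomputable def sC (n : ℕ) [NeZero n] (p : ℕ) (j : ZMod n) : C(XX, ℂ) :=
  ⟨fun x => (Real.sqrt (hr n p j x) : ℂ), Complex.continuous_ofReal.comp
    (Real.continuous_sqrt.comp (hr_cont n p j))⟩

lemma sC_sq (n : ℕ) [NeZero n] (p : ℕ) (j : ZMod n) : star (sC n p j) * sC n p j = hC n p j := by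
  ext x
  show conj (Real.sqrt (hr n p j x) : ℂ) * (Real.sqrt (hr n p j x) : ℂ) = (hr n p j x : ℂ)
  rw [Complex.conj_ofReal, ← Complex.ofReal_mul, Real.mul_self_sqrt (hr_nonneg n p j x)]

lemma hC_sum (n : ℕ) [NeZero n] (p : ℕ) : ∑ j : ZMod n, hC n p j = 1 := by
  ext x
  rw [ContinuousMap.sum_apply]
  show ∑ j : ZMod n, (hr n p j x : ℂ) = 1
  rw [← Complex.ofReal_sum, hr_sum, Complex.ofReal_one]

lemma mm_hC (n : ℕ) [NeZero n] (p : ℕ) (j : ZMod n) : mm (hC n p j) = 1 / n := by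
  have h1 : ∫ x, ((hr n p j x : ℝ) : ℂ) ∂(haarAddCircle (T := (1 : ℝ))) =
    ((∫ x, hr n p j x ∂(haarAddCircle (T := (1 : ℝ))) : ℝ) : ℂ) := integral_ofReal
  have h2 : mm (hC n p j) = ∫ x, ((hr n p j x : ℝ) : ℂ) ∂(haarAddCircle (T := (1 : ℝ))) := rfl
  rw [h2, h1, hr_integral]
  push_cast
  rfl

lemma mm_hC2 (n : ℕ) [NeZero n] (p : ℕ) (i j : ZMod n) : mm (hC n p i * hC n p j) =
    ((∫ x, hr n p i x * hr n p j x ∂(haarAddCircle (T := (1 : ℝ))) : ℝ) : ℂ) := by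
  have h1 : ∫ x, ((hr n p i x * hr n p j x : ℝ) : ℂ) ∂(haarAddCircle (T := (1 : ℝ))) =
    ((∫ x, hr n p i x * hr n p j x ∂(haarAddCircle (T := (1 : ℝ))) : ℝ) : ℂ) := integral_ofReal
  rw [← h1]
  refine integral_congr_ae (Filter.Eventually.of_forall fun x => ?_)
  show ((hr n p i x : ℝ) : ℂ) * ((hr n p j x : ℝ) : ℂ) = ((hr n p i x * hr n p j x : ℝ) : ℂ)
  push_cast
  rfl

lemma exists_p (n : ℕ) [NeZero n] (ε : ℝ) (hε : 0 < ε) : ∃ p : ℕ, ∀ i j : ZMod n, i ≠ j →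
    ‖mm (hC n p i * hC n p j)‖ ≤ ε := by
  have h2 : ∀ᶠ p : ℕ in atTop, ∀ i j : ZMod n, i ≠ j →
      ∫ x, hr n p i x * hr n p j x ∂(haarAddCircle (T := (1 : ℝ))) < ε := by
    rw [eventually_all]; intro i
    rw [eventually_all]; intro j
    by_cases hij : i = j
    · exact Eventually.of_forall fun p h => absurd hij h
    · exact ((integral_tendsto n i j hij).eventually (gt_mem_nhds hε)).mono fun p h _ => h
  obtain ⟨p, hp⟩ := h2.exists
  refine ⟨p, fun i j hij => ?_⟩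
  rw [mm_hC2, Complex.norm_real, Real.norm_eq_abs, abs_of_nonneg]
  · exact (hp i j hij).le
  · exact integral_nonneg fun x => mul_nonneg (hr_nonneg n p i x) (hr_nonneg n p j x)

end PART

open PART in
theorem t_PART (hBAS : S_BAS.{u}) : S_PART.{u} := by
  intro n B ε hn hε
  have : NeZero n := ⟨hn.ne'⟩
  obtain ⟨p, hp⟩ := exists_p n (ε / 4) (by positivity)
  set ε' : ℝ := ε / (8 * (|B| + 1)) with hε'
  have hε'0 : 0 < ε' := by positivity
  have hε'1 : 2 * ε' ≤ ε / 4 := by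
    rw [hε', mul_div_assoc', div_le_div_iff₀ (by positivity) (by positivity)]
    nlinarith [abs_nonneg B]
  have hε'B : ∀ t : ℝ, 0 ≤ t → t ≤ B → 2 * t * ε' ≤ ε / 4 := by
    intro t ht0 ht
    rw [hε', mul_div_assoc', div_le_div_iff₀ (by positivity) (by positivity)]
    nlinarith [abs_nonneg B, le_abs_self B, mul_nonneg ht0 hε.le,
      mul_le_mul_of_nonneg_right (ht.trans (le_abs_self B)) hε.le]
  choose c1 hc1 hc1' using fun j : ZMod n => trig_approx (hC n p j) ε' hε'0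
  choose c2 hc2 hc2' using fun (ij : ZMod n × ZMod n) =>
    trig_approx (hC n p ij.1 * hC n p ij.2) ε' hε'0
  set T : ℕ := ∑ j, (∑ r ∈ (c1 j).support, r.natAbs) + ∑ ij, ∑ r ∈ (c2 ij).support, r.natAbs with hT
  set W : ℝ := ∑ j, Wt (c1 j) + ∑ ij, Wt (c2 ij) with hW
  have hW1 : ∀ j, Wt (c1 j) ≤ W := by
    intro j
    have h1 := Finset.single_le_sum (f := fun j => Wt (c1 j)) (fun i _ => Wt_nonneg _)
      (Finset.mem_univ j)
    have h2 : 0 ≤ ∑ ij, Wt (c2 ij) := Finset.sum_nonneg fun _ _ => Wt_nonneg _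
    linarith
  have hW2 : ∀ ij, Wt (c2 ij) ≤ W := by
    intro ij
    have h1 := Finset.single_le_sum (f := fun ij => Wt (c2 ij)) (fun i _ => Wt_nonneg _)
      (Finset.mem_univ ij)
    have h2 : 0 ≤ ∑ j, Wt (c1 j) := Finset.sum_nonneg fun _ _ => Wt_nonneg _
    linarith
  have hT1 : ∀ j, ∀ r ∈ (c1 j).support, r.natAbs ≤ T := by
    intro j r hr
    have h1 := Finset.single_le_sum (f := fun r : ℤ => r.natAbs) (fun i _ => Nat.zero_le _) hr
    have h2 := Finset.single_le_sum (f := fun j => ∑ r ∈ (c1 j).support, r.natAbs)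
      (fun i _ => Nat.zero_le _) (Finset.mem_univ j)
    omega
  have hT2 : ∀ ij, ∀ r ∈ (c2 ij).support, r.natAbs ≤ T := by
    intro ij r hr
    have h1 := Finset.single_le_sum (f := fun r : ℤ => r.natAbs) (fun i _ => Nat.zero_le _) hr
    have h2 := Finset.single_le_sum (f := fun ij => ∑ r ∈ (c2 ij).support, r.natAbs)
      (fun i _ => Nat.zero_le _) (Finset.mem_univ ij)
    omega
  have hW0 : 0 ≤ W := (Wt_nonneg _).trans (hW1 0)
  set δ : ℝ := ε / (4 * (W + 1)) with hδ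
  have hδ0 : 0 < δ := by positivity
  have hWδ : ∀ w : ℝ, w ≤ W → w * δ ≤ ε / 4 := by
    intro w hw
    have h1 : w * δ ≤ W * δ := mul_le_mul_of_nonneg_right hw hδ0.le
    have h2 : W * δ ≤ ε / 4 := by
      rw [hδ, mul_div_assoc', div_le_div_iff₀ (by positivity) (by positivity)]
      nlinarith
    linarith
  refine ⟨T, δ, hδ0, ?_⟩
  intro A _ u hu
  obtain ⟨Ψ, hΨ⟩ := exists_psi u hu
  set φ := (ZMod.finEquiv n).toEquiv with hφ
  have hone : ‖(1 : A)‖ ≤ 1 := by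
    have h1 := psi_norm Ψ 1
    have h2 : ‖(1 : C(XX, ℂ))‖ = 1 := norm_one
    rw [map_one, h2] at h1
    exact h1
  refine ⟨fun j => Ψ (hC n p (φ j)), ?_, ?_, ?_, ?_, ?_, ?_, ?_⟩
  · intro j
    refine ⟨Ψ (sC n p (φ j)), ?_⟩
    rw [← map_star, ← map_mul, sC_sq]
  · rw [← map_sum, Equiv.sum_comp φ (fun j => hC n p j), hC_sum, map_one]
  · intro j j'
    rw [← map_mul, ← map_mul, mul_comm]
  · intro τ hτ hr j j' hjj
    have hne : φ j ≠ φ j' := fun h => hjj (φ.injective h)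
    have h1 := tr_fin Ψ hBAS τ hτ u 1 hΨ T δ hδ0.le (by
      intro r hr1 hr2
      rw [star_one, one_mul]
      exact ⟨hr r hr1 hr2, hr r hr1 hr2⟩) (c2 (φ j, φ j')) (hT2 _) _ ε' (hc2 (φ j, φ j'))
      (hc2' (φ j, φ j'))
    rw [one_mul, hτ.one, mul_one] at h1
    show ‖τ (Ψ (hC n p (φ j)) * Ψ (hC n p (φ j')))‖ ≤ ε
    rw [← map_mul]
    have h2 := hp _ _ hne
    have h3 := hWδ _ (hW2 (φ j, φ j'))
    have h4 : 2 * ‖(1 : A)‖ * ε' ≤ 2 * ε' := by nlinarith [norm_nonneg (1 : A)]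
    have h5 := norm_sub_norm_le (τ (Ψ (hC n p (φ j) * hC n p (φ j'))))
      (mm (hC n p (φ j) * hC n p (φ j')))
    linarith
  · intro τ a ha hτ hr j
    have h1 := tr_fin Ψ hBAS τ hτ u a hΨ T δ hδ0.le hr (c1 (φ j)) (hT1 _) _ ε' (hc1 (φ j))
      (hc1' (φ j))
    rw [mm_hC] at h1
    have h3 := hWδ _ (hW1 (φ j))
    have h4 := hε'B ‖a‖ (norm_nonneg _) ha
    have e : τ a / n = 1 / (n : ℂ) * τ a := by ring
    show ‖τ (a * Ψ (hC n p (φ j))) - τ a / n‖ ≤ ε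
    rw [e]
    linarith
  · intro τ a ha hτ hua j
    have h1 := comm_fin Ψ hBAS τ hτ u a hΨ hu δ hua (c1 (φ j)) _ ε' (hc1 (φ j))
    have h3 := hWδ _ (hW1 (φ j))
    have h4 := hε'B ‖a‖ (norm_nonneg _) ha
    show n2 τ (Ψ (hC n p (φ j)) * a - a * Ψ (hC n p (φ j))) ≤ ε
    linarith
  · intro τ β hτ hβ j
    have h1 := beta_fin Ψ hBAS τ hτ u hΨ β δ hβ (c1 (φ j)) _ ε' (hc1 (φ j))
    have h3 := hWδ _ (hW1 (φ j))
    show n2 τ (β (Ψ (hC n p (φ j))) - Ψ (hC n p (φ j))) ≤ ε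
    linarith

end H215EZ
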