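import Pool.Agent.H215R2.EZ.Stubs

/-!
# Polynomial versus square root in the Hilbert-Schmidt norm
-/

set_option autoImplicit false

open scoped ComplexOrder Topology BoundedContinuousFunction
open Filter

namespace H215EZ

universe v

namespace PMX

open Matrix

variable {n : Type v} [Fintype n] [DecidableEq n]

theorem exists_diag (P : Matrix n n ℝ) (hP : P.PosSemidef) :
    ∃ (U : Matrix n n ℝ) (s : n → ℝ), Uᵀ * U = 1 ∧ (∀ a, 0 ≤ s a) ∧
      P = U * diagonal s * Uᵀ := by
  refine ⟨hP.1.eigenvectorUnitary, hP.1.eigenvalues, ?_, hP.eigenvalues_nonneg, ?_⟩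
  · have h := Unitary.coe_star_mul_self hP.1.eigenvectorUnitary
    rwa [star_eq_conjTranspose, conjTranspose_eq_transpose_of_trivial] at h
  · have h := hP.1.spectral_theorem
    rw [Unitary.conjStarAlgAut_apply, star_eq_conjTranspose,
      conjTranspose_eq_transpose_of_trivial] at h
    exact h

theorem conj_mul (U : Matrix n n ℝ) (hU : Uᵀ * U = 1) (A B : Matrix n n ℝ) :
    (U * A * Uᵀ) * (U * B * Uᵀ) = U * (A * B) * Uᵀ := by
  calc (U * A * Uᵀ) * (U * B * Uᵀ) = U * A * (Uᵀ * U) * B * Uᵀ := by noncomm_ring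
    _ = U * (A * B) * Uᵀ := by rw [hU]; noncomm_ring

theorem conj_pow (U : Matrix n n ℝ) (hU : Uᵀ * U = 1) (A : Matrix n n ℝ) (k : ℕ) :
    (U * A * Uᵀ) ^ (k + 1) = U * A ^ (k + 1) * Uᵀ := by
  induction k with
  | zero => simp
  | succ k ih => rw [pow_succ, ih, conj_mul U hU, ← pow_succ]

theorem trace_conj (U : Matrix n n ℝ) (hU : Uᵀ * U = 1) (A : Matrix n n ℝ) :
    (U * A * Uᵀ).trace = A.trace := by
  rw [Matrix.trace_mul_comm, ← Matrix.mul_assoc, hU, Matrix.one_mul]

theorem frob (A : Matrix n n ℝ) : ∑ i, ∑ j, A i j ^ 2 = (A * Aᵀ).trace := by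
  simp only [Matrix.trace, Matrix.diag, Matrix.mul_apply, Matrix.transpose_apply]
  exact Finset.sum_congr rfl fun i _ => Finset.sum_congr rfl fun j _ => by ring

end PMX

open Matrix PMX in
theorem t_PMX : S_PMX.{v} := by
  intro n _ _ P R p η hP htr hp
  obtain ⟨U, s, hU, hs, rfl⟩ := exists_diag P hP
  have h1 : (U * diagonal s * Uᵀ) * (U * diagonal s * Uᵀ) =
      U * diagonal (fun a => s a ^ 2) * Uᵀ := by
    rw [conj_mul U hU, diagonal_mul_diagonal]
    simp only [sq]
  rw [h1, trace_conj U hU, trace_diagonal] at htr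
  have hs1 : ∀ a, s a ^ 2 ≤ 1 := fun a =>
    le_trans (Finset.single_le_sum (f := fun a => s a ^ 2) (fun b _ => sq_nonneg (s b))
      (Finset.mem_univ a)) htr
  rw [h1]
  have h2 : ∑ r ∈ Finset.range R, p r • (U * diagonal (fun a => s a ^ 2) * Uᵀ) ^ (r + 2) -
      U * diagonal s * Uᵀ =
      U * diagonal (fun a => ∑ r ∈ Finset.range R, p r * (s a ^ 2) ^ (r + 2) - s a) * Uᵀ := by
    have e1 : ∀ r, p r • (U * diagonal (fun a => s a ^ 2) * Uᵀ) ^ (r + 2) =
        U * diagonal (fun a => p r * (s a ^ 2) ^ (r + 2)) * Uᵀ := by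
      intro r
      rw [conj_pow U hU _ (r + 1), diagonal_pow, ← Matrix.smul_mul, ← Matrix.mul_smul]
      congr 2
      ext i j
      by_cases hij : i = j
      · subst hij; simp
      · simp [hij]
    simp_rw [e1]
    rw [← Finset.sum_mul, ← Finset.mul_sum, ← sub_mul, ← mul_sub]
    congr 2
    ext i j
    rw [Matrix.sub_apply, Matrix.sum_apply]
    by_cases hij : i = j
    · subst hij; simp
    · simp [hij]
  rw [h2, frob]
  set e : n → ℝ := fun a => ∑ r ∈ Finset.range R, p r * (s a ^ 2) ^ (r + 2) - s a with he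
  have h3 : (U * diagonal e * Uᵀ)ᵀ = U * diagonal e * Uᵀ := by
    rw [transpose_mul, transpose_mul, transpose_transpose, diagonal_transpose, Matrix.mul_assoc]
  rw [h3, conj_mul U hU, trace_conj U hU, diagonal_mul_diagonal, trace_diagonal]
  have h4 : ∀ a, e a * e a ≤ η ^ 2 := by
    intro a
    have h5 := hp (s a ^ 2) ⟨sq_nonneg _, hs1 a⟩
    rw [Real.sqrt_sq (hs a)] at h5
    rw [← sq]
    exact sq_le_sq' (abs_le.1 h5).1 (abs_le.1 h5).2
  calc ∑ a, e a * e a ≤ ∑ _a : n, η ^ 2 := Finset.sum_le_sum fun a _ => h4 a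
    _ = η ^ 2 * Fintype.card n := by
      rw [Finset.sum_const, Finset.card_univ, nsmul_eq_mul, mul_comm]

end H215EZ
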