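import Pool.Agent.H215R2.EZ.Stubs

/-!
Project EZ, task PS: normalisation and near invariance of the coefficient matrices.
-/

set_option autoImplicit false

open scoped ComplexOrder Topology MatrixOrder Matrix
open Filter

namespace H215EZ

universe u v

namespace PS

noncomputable section

variable {n : Type*} [Fintype n]

/-- Frobenius norm -/
def fn (A : Matrix n n ℝ) : ℝ := Real.sqrt (∑ i, ∑ j, A i j ^ 2)

theorem fn_nonneg (A : Matrix n n ℝ) : 0 ≤ fn A := Real.sqrt_nonneg _

/-- matrices as vectors -/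
def vc (A : Matrix n n ℝ) : EuclideanSpace ℝ (n × n) := WithLp.toLp 2 fun p => A p.1 p.2

theorem fn_eq (A : Matrix n n ℝ) : fn A = ‖vc A‖ := by
  rw [EuclideanSpace.norm_eq, fn, Fintype.sum_prod_type]
  congr 1
  refine Finset.sum_congr rfl fun i _ => Finset.sum_congr rfl fun j _ => ?_
  rw [Real.norm_eq_abs, sq_abs]
  rfl

theorem fn_add (A B : Matrix n n ℝ) : fn (A + B) ≤ fn A + fn B := by
  rw [fn_eq, fn_eq, fn_eq]
  exact norm_add_le (vc A) (vc B)

theorem fn_sub_comm (A B : Matrix n n ℝ) : fn (A - B) = fn (B - A) := by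
  unfold fn
  congr 1
  refine Finset.sum_congr rfl fun i _ => Finset.sum_congr rfl fun j _ => ?_
  simp only [Matrix.sub_apply]
  ring

theorem fn_le {A : Matrix n n ℝ} {c : ℝ} (hc : 0 ≤ c) (h : ∑ i, ∑ j, A i j ^ 2 ≤ c ^ 2) :
    fn A ≤ c := by
  unfold fn
  calc Real.sqrt _ ≤ Real.sqrt (c ^ 2) := Real.sqrt_le_sqrt h
    _ = c := Real.sqrt_sq hc

variable [DecidableEq n]

theorem fn_sq_of_symm {P : Matrix n n ℝ} (hP : P.PosSemidef) (h : (P * P).trace = 1) :
    fn P = 1 := by
  unfold fn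
  have hs : ∀ i j, P j i = P i j := by
    intro i j
    have := hP.isHermitian.apply i j
    simpa using this
  have : ∑ i, ∑ j, P i j ^ 2 = (P * P).trace := by
    unfold Matrix.trace
    refine Finset.sum_congr rfl fun i _ => ?_
    rw [Matrix.diag_apply, Matrix.mul_apply]
    refine Finset.sum_congr rfl fun j _ => ?_
    rw [hs i j]
    ring
  rw [this, h, Real.sqrt_one]

theorem rho_psd {G : Type v} (E : Finset G) (W : G → n → ℝ) (f : G → ℝ) (hf : ∀ g, 0 ≤ f g) :
    (∑ g ∈ E, f g • Matrix.vecMulVec (W g) (W g)).PosSemidef := by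
  refine Matrix.posSemidef_sum _ fun g _ => ?_
  have h := Matrix.posSemidef_vecMulVec_self_star (W g)
  rw [show star (W g) = W g from by funext i; simp] at h
  exact h.smul (hf g)

theorem rho_trace {G : Type v} (E : Finset G) (W : G → n → ℝ) (f : G → ℝ) (K : G → G → ℝ)
    (hW : ∀ g ∈ E, ∀ h ∈ E, ∑ e, W g e * W h e = K g h) (hK : ∀ g, K g g = 1)
    (hf : ∑ g ∈ E, f g = 1) :
    (∑ g ∈ E, f g • Matrix.vecMulVec (W g) (W g)).trace = 1 := by
  rw [Matrix.trace_sum, ← hf]
  refine Finset.sum_congr rfl fun g hg => ?_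
  rw [Matrix.trace_smul]
  have : (Matrix.vecMulVec (W g) (W g)).trace = 1 := by
    rw [← hK g, ← hW g hg g hg]
    rfl
  rw [this, smul_eq_mul, mul_one]

theorem exists_sqrt (A : Matrix n n ℝ) (hA : A.PosSemidef) :
    ∃ P : Matrix n n ℝ, P.PosSemidef ∧ P * P = A :=
  ⟨CFC.sqrt A, Matrix.nonneg_iff_posSemidef.1 (CFC.sqrt_nonneg A),
    CFC.sqrt_mul_sqrt_self A hA.nonneg⟩

end

end PS

open PS in
theorem t_PS (hPSM : S_PSM.{v}) (hPMX : S_PMX.{v}) (hKMX : S_KMX.{v}) : S_PS.{v} := by
  classical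
  intro G _ E K hK R p η hη hp f f' hf hf' hE hE'
  obtain ⟨W, hW, hqf, hcf⟩ := hKMX G E K hK
  set rho : (G →₀ ℝ) → Matrix E E ℝ := fun f => ∑ g ∈ E, f g • Matrix.vecMulVec (W g) (W g)
    with hrho
  set phi : (G →₀ ℝ) → Matrix E E ℝ := fun f => ∑ r ∈ Finset.range R, p r • (rho f) ^ (r + 2)
    with hphi
  have hsum : ∀ f : G →₀ ℝ, IsProb f → f.support ⊆ E → ∑ g ∈ E, f g = 1 := by
    intro f hf hE
    rw [← hf.sum, Finsupp.sum]
    symm
    exact Finset.sum_subset hE fun g _ hg => by simpa using hg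
  have hroot : ∀ f : G →₀ ℝ, IsProb f → f.support ⊆ E → ∃ P : Matrix E E ℝ, P.PosSemidef ∧
      P * P = rho f ∧ fn P = 1 ∧ fn (phi f - P) ≤ η * Real.sqrt E.card := by
    intro f hf hE
    obtain ⟨P, hP, hPP⟩ := exists_sqrt (rho f) (rho_psd E W f hf.nonneg)
    have htr : (P * P).trace = 1 := by
      rw [hPP]
      exact rho_trace E W f K hW hK.diag (hsum f hf hE)
    refine ⟨P, hP, hPP, fn_sq_of_symm hP htr, ?_⟩
    have h := hPMX E P R p η hP htr.le hp
    rw [hPP] at h
    refine fn_le (by positivity) ?_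
    rw [mul_pow, Real.sq_sqrt (by positivity)]
    rw [Fintype.card_coe] at h
    exact h
  have hq : ∀ f : G →₀ ℝ, f.support ⊆ E → Real.sqrt (qf E (cf R p f K) K) = fn (phi f) := by
    intro f hE
    rw [hqf, hcf f R p hE]
    rfl
  obtain ⟨P, hP, hPP, hP1, hP2⟩ := hroot f hf hE
  obtain ⟨P', hP', hPP', hP1', hP2'⟩ := hroot f' hf' hE'
  rw [hq f hE]
  refine ⟨?_, ?_, ?_⟩
  · have h := fn_add (phi f) (P - phi f)
    rw [add_sub_cancel, hP1, fn_sub_comm] at h
    linarith
  · have h := fn_add P (phi f - P)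
    rw [add_sub_cancel, hP1] at h
    linarith
  · have h1 : Real.sqrt (qf E (fun g h => cf R p f K g h - cf R p f' K g h) K) =
        fn (phi f - phi f') := by
      rw [hqf]
      have : ∑ g ∈ E, ∑ h ∈ E, (cf R p f K g h - cf R p f' K g h) •
          Matrix.vecMulVec (W g) (W h) = phi f - phi f' := by
        simp only [hphi, hrho]
        rw [← hcf f R p hE, ← hcf f' R p hE', ← Finset.sum_sub_distrib]
        refine Finset.sum_congr rfl fun g _ => ?_
        rw [← Finset.sum_sub_distrib]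
        refine Finset.sum_congr rfl fun h _ => ?_
        rw [sub_smul]
      rw [this]
      rfl
    rw [h1]
    have h2 : fn (P - P') ≤ Real.sqrt (∑ g ∈ E, |f g - f' g|) := by
      refine fn_le (Real.sqrt_nonneg _) ?_
      rw [Real.sq_sqrt (Finset.sum_nonneg fun _ _ => abs_nonneg _)]
      refine hPSM E G E P P' W (fun g => f g - f' g) hP hP' ?_ ?_
      · intro g hg
        have := hW g hg g hg
        rw [hK.diag] at this
        rw [← this]
        exact le_of_eq (Finset.sum_congr rfl fun e _ => by ring)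
      · rw [hPP, hPP']
        simp only [hrho]
        rw [← Finset.sum_sub_distrib]
        refine Finset.sum_congr rfl fun g _ => ?_
        rw [sub_smul]
    have h3 := fn_add (phi f - P) (P - P' + (P' - phi f'))
    have h4 := fn_add (P - P') (P' - phi f')
    have e : phi f - P + (P - P' + (P' - phi f')) = phi f - phi f' := by abel
    rw [e] at h3
    rw [fn_sub_comm P' (phi f')] at h4
    linarith

end H215EZ
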