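import Pool.Agent.H215R2.EZ.Stubs

set_option autoImplicit false

namespace H215EZ

universe v

namespace PSM

open Matrix

theorem t_PSM_aux {n : Type v} [Fintype n] [DecidableEq n] (D : Matrix n n ℝ)
    (hD : D.IsHermitian) : ∃ (e : n → n → ℝ) (l : n → ℝ),
    (∀ a, D *ᵥ e a = l a • e a) ∧ (∀ x : n → ℝ, ∑ a, (e a ⬝ᵥ x) ^ 2 = ∑ i, x i ^ 2) ∧
    (∀ a, e a ⬝ᵥ e a = 1) := by
  refine ⟨fun a => (hD.eigenvectorBasis a : EuclideanSpace ℝ n), hD.eigenvalues,
    fun a => hD.mulVec_eigenvectorBasis a, fun x => ?_, fun a => ?_⟩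
  · have h := hD.eigenvectorBasis.sum_sq_norm_inner_right (WithLp.toLp 2 x)
    rw [EuclideanSpace.real_norm_sq_eq] at h
    simp only [Real.norm_eq_abs, sq_abs] at h
    rw [← h]
    refine Finset.sum_congr rfl fun a _ => ?_
    congr 1
    rw [EuclideanSpace.inner_eq_star_dotProduct]
    simp [dotProduct_comm]
  · have h : ‖hD.eigenvectorBasis a‖ ^ 2 = 1 := by
      rw [hD.eigenvectorBasis.orthonormal.1 a, one_pow]
    rw [EuclideanSpace.real_norm_sq_eq] at h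
    rw [← h]
    simp [dotProduct, sq]

theorem t_PSM_sq {n : Type v} [Fintype n] (M : Matrix n n ℝ) (hM : Mᵀ = M) (x : n → ℝ) :
    x ⬝ᵥ ((M * M) *ᵥ x) = (M *ᵥ x) ⬝ᵥ (M *ᵥ x) := by
  rw [← Matrix.mulVec_mulVec, Matrix.dotProduct_mulVec]
  congr 1
  rw [← Matrix.mulVec_transpose, hM]

end PSM

open PSM Matrix in
theorem t_PSM : S_PSM.{v} := by
  intro n _ _ G E P Q W d hP hQ hW hPQ
  have hD : (P - Q).IsHermitian := hP.1.sub hQ.1
  have hPt : Pᵀ = P := by
    have := hP.1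
    rw [Matrix.IsHermitian, Matrix.conjTranspose_eq_transpose_of_trivial] at this
    exact this
  have hQt : Qᵀ = Q := by
    have := hQ.1
    rw [Matrix.IsHermitian, Matrix.conjTranspose_eq_transpose_of_trivial] at this
    exact this
  obtain ⟨e, l, hel, hpars, hone⟩ := t_PSM_aux (P - Q) hD
  have hPe : ∀ a, P *ᵥ e a = Q *ᵥ e a + l a • e a := by
    intro a
    rw [← hel a, Matrix.sub_mulVec]
    abel
  -- nonnegativity
  have hPn : ∀ a, 0 ≤ e a ⬝ᵥ (P *ᵥ e a) := by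
    intro a
    have := hP.dotProduct_mulVec_nonneg (e a)
    simpa using this
  have hQn : ∀ a, 0 ≤ e a ⬝ᵥ (Q *ᵥ e a) := by
    intro a
    have := hQ.dotProduct_mulVec_nonneg (e a)
    simpa using this
  have hPQe : ∀ a, e a ⬝ᵥ (P *ᵥ e a) = e a ⬝ᵥ (Q *ᵥ e a) + l a := by
    intro a
    rw [hPe a, dotProduct_add, dotProduct_smul, hone a, smul_eq_mul, mul_one]
  have hq : ∀ a, e a ⬝ᵥ ((P * P - Q * Q) *ᵥ e a) =
      l a * (e a ⬝ᵥ (P *ᵥ e a) + e a ⬝ᵥ (Q *ᵥ e a)) := by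
    intro a
    rw [Matrix.sub_mulVec, dotProduct_sub, t_PSM_sq P hPt, t_PSM_sq Q hQt, hPQe a, hPe a,
      add_dotProduct, dotProduct_add, dotProduct_add, smul_dotProduct, smul_dotProduct,
      dotProduct_smul, dotProduct_smul, hone a, dotProduct_comm (Q *ᵥ e a) (e a)]
    simp only [smul_eq_mul]
    ring
  have hq' : ∀ a, e a ⬝ᵥ ((P * P - Q * Q) *ᵥ e a) = ∑ g ∈ E, d g * (e a ⬝ᵥ W g) ^ 2 := by
    intro a
    rw [hPQ, Matrix.sum_mulVec, dotProduct_sum]
    refine Finset.sum_congr rfl fun g _ => ?_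
    rw [Matrix.smul_mulVec, dotProduct_smul, Matrix.vecMulVec_mulVec, smul_eq_mul]
    simp only [dotProduct_smul, op_smul_eq_mul, dotProduct_comm (W g) (e a)]
    ring
  -- the square sum of the entries
  have hsum : ∑ i, ∑ j, (P - Q) i j ^ 2 = ∑ a, l a ^ 2 := by
    calc ∑ i, ∑ j, (P - Q) i j ^ 2 = ∑ i, ∑ a, (e a ⬝ᵥ (P - Q) i) ^ 2 :=
          Finset.sum_congr rfl fun i _ => (hpars ((P - Q) i)).symm
      _ = ∑ a, ∑ i, (e a ⬝ᵥ (P - Q) i) ^ 2 := Finset.sum_comm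
      _ = ∑ a, l a ^ 2 := by
          refine Finset.sum_congr rfl fun a _ => ?_
          have h1 : ∀ i, e a ⬝ᵥ (P - Q) i = l a * e a i := by
            intro i
            have := congrFun (hel a) i
            rw [Pi.smul_apply, smul_eq_mul] at this
            rw [← this, dotProduct_comm]
            rfl
          simp_rw [h1, mul_pow]
          rw [← Finset.mul_sum]
          have h2 := hone a
          simp only [dotProduct, ← sq] at h2
          rw [h2, mul_one]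
  rw [hsum]
  obtain ⟨s, hs⟩ : ∃ s : n → ℝ, s = fun a => if 0 ≤ l a then 1 else -1 := ⟨_, rfl⟩
  have hsa : ∀ a, |s a| ≤ 1 := by
    intro a
    rw [hs]
    simp only
    split_ifs <;> simp
  have h3 : ∀ a, l a ^ 2 ≤ s a * (e a ⬝ᵥ ((P * P - Q * Q) *ᵥ e a)) := by
    intro a
    rw [hq a]
    have hp := hPn a
    have hqn := hQn a
    have hpq := hPQe a
    rw [hs]
    simp only
    split_ifs with h
    · nlinarith
    · push Not at h
      nlinarith
  calc ∑ a, l a ^ 2 ≤ ∑ a, s a * ∑ g ∈ E, d g * (e a ⬝ᵥ W g) ^ 2 :=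
        Finset.sum_le_sum fun a _ => by rw [← hq' a]; exact h3 a
    _ = ∑ g ∈ E, d g * ∑ a, s a * (e a ⬝ᵥ W g) ^ 2 := by
        simp_rw [Finset.mul_sum]
        rw [Finset.sum_comm]
        refine Finset.sum_congr rfl fun g _ => Finset.sum_congr rfl fun a _ => ?_
        ring
    _ ≤ ∑ g ∈ E, |d g| := by
        refine Finset.sum_le_sum fun g hg => ?_
        have h4 : |∑ a, s a * (e a ⬝ᵥ W g) ^ 2| ≤ 1 := by
          calc |∑ a, s a * (e a ⬝ᵥ W g) ^ 2| ≤ ∑ a, |s a * (e a ⬝ᵥ W g) ^ 2| :=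
                Finset.abs_sum_le_sum_abs _ _
            _ ≤ ∑ a, (e a ⬝ᵥ W g) ^ 2 := by
                refine Finset.sum_le_sum fun a _ => ?_
                rw [abs_mul, abs_of_nonneg (sq_nonneg (e a ⬝ᵥ W g))]
                nlinarith [hsa a, sq_nonneg (e a ⬝ᵥ W g)]
            _ = ∑ i, W g i ^ 2 := hpars _
            _ ≤ 1 := hW g hg
        calc d g * ∑ a, s a * (e a ⬝ᵥ W g) ^ 2 ≤ |d g * ∑ a, s a * (e a ⬝ᵥ W g) ^ 2| := le_abs_self _
          _ = |d g| * |∑ a, s a * (e a ⬝ᵥ W g) ^ 2| := abs_mul _ _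
          _ ≤ |d g| * 1 := mul_le_mul_of_nonneg_left h4 (abs_nonneg _)
          _ = |d g| := mul_one _

end H215EZ
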