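import Pool.Agent.H215R2.EZ.Stubs

open scoped ComplexOrder Topology BoundedContinuousFunction
open Filter

namespace H215EZ

universe u v

namespace SHF

theorem avg_mapDomain {M : Type u} [CStarAlgebra M] {G : Type v} (e : G → G) (f : G →₀ ℝ)
    (F : G → M) : avg (f.mapDomain e) F = avg f (fun g => F (e g)) := by
  unfold avg
  rw [Finsupp.sum_mapDomain_index]
  · intro b
    simp
  · intro b m₁ m₂
    push_cast
    rw [add_smul]

theorem kpow_mapDomain {M : Type u} [CStarAlgebra M] {G : Type v} (e : G → G) (f : G →₀ ℝ)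
    (K : G → G → M) (r : ℕ) : ∀ g h : G,
    kpow f (fun g h => K (e g) (e h)) r g h = kpow (f.mapDomain e) K r (e g) (e h) := by
  induction r with
  | zero => intro g h; rfl
  | succ r ih =>
    intro g h
    simp only [kpow]
    rw [avg_mapDomain]
    congr 1
    funext x
    rw [ih]

theorem Qk_mapDomain {M : Type u} [CStarAlgebra M] {G : Type v} (e : G → G) (R : ℕ) (p : ℕ → ℝ)
    (f : G →₀ ℝ) (K : G → G → M) (g h : G) :
    Qk R p f (fun g h => K (e g) (e h)) g h = Qk R p (f.mapDomain e) K (e g) (e h) := by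
  unfold Qk
  refine Finset.sum_congr rfl (fun r _ => ?_)
  rw [kpow_mapDomain]

theorem Xel_mapDomain {M : Type u} [CStarAlgebra M] {G : Type v} (e : G → G) (R : ℕ) (p : ℕ → ℝ)
    (f : G →₀ ℝ) (k : ℕ) (w : G → Fin k → M) :
    Xel R p f k (fun g i => w (e g) i) = Xel R p (f.mapDomain e) k w := by
  unfold Xel
  rw [avg_mapDomain]
  congr 1
  funext g
  rw [avg_mapDomain]
  congr 1
  funext h
  have h1 : Qk R p f (Khat k fun g i => w (e g) i) g h
      = Qk R p (f.mapDomain e) (Khat k w) (e g) (e h) := by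
    rw [← Qk_mapDomain]
    rfl
  rw [h1]
  rfl

end SHF

theorem t_SHF : S_SHF.{u, v} := by
  intro M _ G _ R p ξ N k f V s
  unfold uel Zel
  congr 3
  refine Finset.sum_congr rfl (fun m _ => ?_)
  congr 1
  exact SHF.Xel_mapDomain (fun g => s * g) R p f k (fun g i => bb (V g (m, i)))

end H215EZ
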