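import Pool.Agent.H215R2.EZ.Stubs

open scoped ComplexOrder Topology BoundedContinuousFunction
open Filter

namespace H215EZ

universe u

theorem t_ULT (hBAS : S_BAS.{u}) : S_ULT.{u} := by
  intro A _ τ hτ U
  have hlim : ∀ x : ℕ →ᵇ A, ∃ z : ℂ, Tendsto (fun n => τ n (x n)) (U : Filter ℕ) (𝓝 z) := by
    intro x
    have hmem : Metric.closedBall (0 : ℂ) ‖x‖ ∈ U.map (fun n => τ n (x n)) := by
      rw [Ultrafilter.mem_map]
      apply Filter.univ_mem'
      intro n
      simp only [Set.mem_preimage, Metric.mem_closedBall, dist_zero_right]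
      exact ((hBAS A (τ n) (hτ n)).1 (x n)).trans (x.norm_coe_le_norm n)
    obtain ⟨z, _, hz⟩ := (isCompact_closedBall (0 : ℂ) ‖x‖).ultrafilter_le_nhds' _ hmem
    exact ⟨z, hz⟩
  choose Φ hΦ using hlim
  have hu : ∀ (x : ℕ →ᵇ A) (z : ℂ), Tendsto (fun n => τ n (x n)) (U : Filter ℕ) (𝓝 z) → Φ x = z :=
    fun x z hz => tendsto_nhds_unique (hΦ x) hz
  let Ψ : (ℕ →ᵇ A) →ₗ[ℂ] ℂ :=
    { toFun := Φ
      map_add' := by
        intro x y
        apply hu
        have h := (hΦ x).add (hΦ y)
        refine h.congr (fun n => ?_)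
        simp only [BoundedContinuousFunction.coe_add, Pi.add_apply, map_add]
      map_smul' := by
        intro c x
        apply hu
        have h := (hΦ x).const_mul c
        refine h.congr (fun n => ?_)
        simp only [BoundedContinuousFunction.coe_smul, map_smul, smul_eq_mul] }
  refine ⟨Ψ, ⟨?_, ?_, ?_⟩, hΦ⟩
  · show Φ 1 = 1
    apply hu
    have : (fun n => τ n ((1 : ℕ →ᵇ A) n)) = fun _ => (1 : ℂ) := by
      funext n
      have : (1 : ℕ →ᵇ A) n = 1 := rfl
      rw [this, (hτ n).one]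
    rw [this]
    exact tendsto_const_nhds
  · intro a
    show 0 ≤ Φ (star a * a)
    have hcl : IsClosed {z : ℂ | 0 ≤ z} := isClosed_Ici
    refine hcl.mem_of_tendsto (hΦ (star a * a)) (Eventually.of_forall fun n => ?_)
    have : (star a * a) n = star (a n) * a n := rfl
    show 0 ≤ τ n ((star a * a) n)
    rw [this]
    exact (hτ n).nonneg (a n)
  · intro a b
    show Φ (a * b) = Φ (b * a)
    apply hu
    refine (hΦ (b * a)).congr (fun n => ?_)
    have h1 : (b * a) n = b n * a n := rfl
    have h2 : (a * b) n = a n * b n := rfl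
    rw [h1, h2, (hτ n).tr]

end H215EZ
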