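import Pool.Agent.H215R2.EZ.Stubs

/-!
Task UNI: `Zel` is self-adjoint, `uel` is unitary and lies in every closed star subalgebra
containing the elements `V g i`.
-/

open scoped ComplexOrder Topology
open Filter

namespace H215EZ

universe u v

namespace UNI

variable {M : Type u} [CStarAlgebra M] {G : Type v}

theorem star_rp (x : M) : star (rp x) = rp x := by
  unfold rp
  rw [star_smul, star_add, star_star, add_comm (star x) x]
  congr 1
  simp

theorem star_Zel (R : ℕ) (p : ℕ → ℝ) (ξ : ℝ) (N k : ℕ) (f : G →₀ ℝ)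
    (w : G → Fin N × Fin k → M) : star (Zel R p ξ N k f w) = Zel R p ξ N k f w := by
  unfold Zel
  rw [star_smul, star_sum]
  congr 1
  · simp
  · exact Finset.sum_congr rfl fun m _ => star_rp _

section mem

variable (S : StarSubalgebra ℂ M)

theorem avg_mem (f : G →₀ ℝ) (F : G → M) (h : ∀ g, F g ∈ S) : avg f F ∈ S := by
  unfold avg Finsupp.sum
  exact sum_mem fun g _ => SMulMemClass.smul_mem _ (h g)

theorem bb_mem {x : M} (h : x ∈ S) : bb x ∈ S :=
  sub_mem (mul_mem (star_mem h) h) (mul_mem h (star_mem h))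

theorem Khat_mem (k : ℕ) (w : G → Fin k → M) (h : ∀ g i, w g i ∈ S) (g g' : G) :
    Khat k w g g' ∈ S := by
  unfold Khat
  exact SMulMemClass.smul_mem _ (sum_mem fun i _ => mul_mem (h g i) (h g' i))

theorem Ych_mem (k : ℕ) (w : G → Fin k → M) (h : ∀ g i, w g i ∈ S) (g g' : G) :
    Ych k w g g' ∈ S := by
  unfold Ych
  refine SMulMemClass.smul_mem _ (sum_mem fun i _ => sum_mem fun j _ => ?_)
  split_ifs
  · exact zero_mem S
  · exact mul_mem (h g i) (h g' j)

theorem kpow_mem (f : G →₀ ℝ) (K : G → G → M) (h : ∀ g g', K g g' ∈ S) (r : ℕ) :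
    ∀ g g', kpow f K r g g' ∈ S := by
  induction r with
  | zero => exact h
  | succ r ih =>
    intro g g'
    show avg f (fun x => K g x * kpow f K r x g') ∈ S
    exact avg_mem S f _ fun x => mul_mem (h g x) (ih x g')

theorem Qk_mem (R : ℕ) (p : ℕ → ℝ) (f : G →₀ ℝ) (K : G → G → M) (h : ∀ g g', K g g' ∈ S)
    (g g' : G) : Qk R p f K g g' ∈ S := by
  unfold Qk
  exact sum_mem fun r _ => SMulMemClass.smul_mem _ (kpow_mem S f K h r g g')

theorem Xel_mem (R : ℕ) (p : ℕ → ℝ) (f : G →₀ ℝ) (k : ℕ) (w : G → Fin k → M)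
    (h : ∀ g i, w g i ∈ S) : Xel R p f k w ∈ S := by
  unfold Xel
  refine avg_mem S f _ fun g => avg_mem S f _ fun g' => ?_
  exact mul_mem (Qk_mem S R p f _ (Khat_mem S k w h) g g') (Ych_mem S k w h g g')

theorem rp_mem {x : M} (h : x ∈ S) : rp x ∈ S := by
  unfold rp
  exact SMulMemClass.smul_mem _ (add_mem h (star_mem h))

theorem Zel_mem (R : ℕ) (p : ℕ → ℝ) (ξ : ℝ) (N k : ℕ) (f : G →₀ ℝ)
    (w : G → Fin N × Fin k → M) (h : ∀ g i, w g i ∈ S) : Zel R p ξ N k f w ∈ S := by
  unfold Zel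
  exact SMulMemClass.smul_mem _ (sum_mem fun m _ => rp_mem S (Xel_mem S R p f k _
    fun g i => h g (m, i)))

theorem exp_mem (hS : IsClosed (S : Set M)) {y : M} (hy : y ∈ S) : NormedSpace.exp y ∈ S := by
  have h := NormedSpace.exp_series_hasSum_exp' (𝕂 := ℂ) y
  have h2 : NormedSpace.exp y ∈ (S : Set M) := by
    refine hS.mem_of_tendsto h (Filter.Eventually.of_forall fun s => ?_)
    exact sum_mem fun n _ => SMulMemClass.smul_mem _ (pow_mem hy n)
  exact h2

end mem

end UNI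

theorem t_UNI : S_UNI.{u, v} := by
  intro M _ G R p ξ N k f w V S
  refine ⟨UNI.star_Zel R p ξ N k f w, ?_, ?_⟩
  · have h := UNI.star_Zel R p ξ N k f (fun g i => bb (V g i))
    have h2 : Zel R p ξ N k f (fun g i => bb (V g i)) ∈ selfAdjoint M :=
      selfAdjoint.mem_iff.mpr h
    have h3 := (selfAdjoint.expUnitary ⟨_, h2⟩).2
    rwa [selfAdjoint.expUnitary_coe] at h3
  · intro hS hV
    exact UNI.exp_mem S hS (SMulMemClass.smul_mem _
      (UNI.Zel_mem S R p ξ N k f _ fun g i => UNI.bb_mem S (hV g i)))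

end H215EZ
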