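import Pool.Agent.H215R2.EZ.Stubs

/-!
# The square root is a uniform limit of polynomials divisible by the square of the variable
-/

namespace H215EZ

theorem WEI.bound (s t : ℝ) (hs : 0 < s) (ht : 0 ≤ t) :
    |t ^ 2 * (max t s * Real.sqrt (max t s))⁻¹ - Real.sqrt t| ≤ Real.sqrt s := by
  rcases le_total s t with h | h
  · rw [max_eq_left h]
    have ht0 : 0 < t := lt_of_lt_of_le hs h
    have h1 : t ^ 2 * (t * Real.sqrt t)⁻¹ = Real.sqrt t := by
      have h2 : Real.sqrt t * Real.sqrt t = t := Real.mul_self_sqrt ht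
      have h3 : 0 < Real.sqrt t := Real.sqrt_pos.2 ht0
      field_simp
      rw [pow_two]
      exact h2.symm
    rw [h1, sub_self, abs_zero]
    exact Real.sqrt_nonneg _
  · rw [max_eq_right h]
    have h3 : 0 < Real.sqrt s := Real.sqrt_pos.2 hs
    have h4 : Real.sqrt t ≤ Real.sqrt s := Real.sqrt_le_sqrt h
    have h5 : 0 ≤ Real.sqrt t := Real.sqrt_nonneg t
    have h6 : 0 ≤ t ^ 2 * (s * Real.sqrt s)⁻¹ := by positivity
    have h7 : t ^ 2 * (s * Real.sqrt s)⁻¹ ≤ Real.sqrt s := by
      rw [mul_inv_le_iff₀ (by positivity)]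
      have h8 : Real.sqrt s * Real.sqrt s = s := Real.mul_self_sqrt hs.le
      calc t ^ 2 ≤ s ^ 2 := pow_le_pow_left₀ ht h 2
        _ = Real.sqrt s * (s * Real.sqrt s) := by
            rw [mul_left_comm, h8]
            ring
    rw [abs_le]
    constructor <;> linarith

theorem t_WEI : S_WEI := by
  intro η hη
  obtain ⟨s, hs⟩ : ∃ s : ℝ, s = (η / 2) ^ 2 := ⟨_, rfl⟩
  have hs0 : 0 < s := by rw [hs]; positivity
  have hss : Real.sqrt s = η / 2 := by rw [hs]; exact Real.sqrt_sq (by positivity)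
  have hcont : ContinuousOn (fun t : ℝ => (max t s * Real.sqrt (max t s))⁻¹) (Set.Icc 0 1) := by
    apply ContinuousOn.inv₀
    · exact (Continuous.mul (continuous_id.max continuous_const)
        (Real.continuous_sqrt.comp (continuous_id.max continuous_const))).continuousOn
    · intro t _
      have h1 : 0 < max t s := lt_max_of_lt_right hs0
      have h2 : 0 < Real.sqrt (max t s) := Real.sqrt_pos.2 h1
      positivity
  obtain ⟨q, hq⟩ := exists_polynomial_near_of_continuousOn 0 1 _ hcont (η / 2) (by positivity)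
  refine ⟨q.natDegree + 1, q.coeff, fun t ht => ?_⟩
  have h1 : ∑ r ∈ Finset.range (q.natDegree + 1), q.coeff r * t ^ (r + 2) = t ^ 2 * q.eval t := by
    rw [Polynomial.eval_eq_sum_range, Finset.mul_sum]
    apply Finset.sum_congr rfl
    intro r _
    ring
  rw [h1]
  have h2 := hq t ht
  have h3 := WEI.bound s t hs0 ht.1
  rw [hss] at h3
  have h4 : |t ^ 2 * q.eval t - t ^ 2 * (max t s * Real.sqrt (max t s))⁻¹| ≤ η / 2 := by
    rw [← mul_sub, abs_mul, abs_of_nonneg (by positivity : (0 : ℝ) ≤ t ^ 2)]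
    calc t ^ 2 * |q.eval t - (max t s * Real.sqrt (max t s))⁻¹| ≤ 1 * (η / 2) := by
          apply mul_le_mul _ h2.le (abs_nonneg _) (by norm_num)
          exact pow_le_one₀ ht.1 ht.2
      _ = η / 2 := one_mul _
  calc |t ^ 2 * q.eval t - Real.sqrt t|
      = |(t ^ 2 * q.eval t - t ^ 2 * (max t s * Real.sqrt (max t s))⁻¹) +
          (t ^ 2 * (max t s * Real.sqrt (max t s))⁻¹ - Real.sqrt t)| := by
        congr 1
        ring
    _ ≤ _ := abs_add_le _ _
    _ ≤ η := by linarith

end H215EZ
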