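import Pool.Agent.H215R2.EZ.Stubs

/-! Task XC: replace the empirical covariance by scalars. -/

set_option autoImplicit false

open scoped ComplexOrder Topology BoundedContinuousFunction
open Filter

namespace H215EZ

universe u v

namespace XC

variable {M : Type u} [CStarAlgebra M] {G : Type v}

theorem norm_one_le : ‖(1 : M)‖ ≤ 1 := by
  rcases subsingleton_or_nontrivial M with h | h
  · have : (1 : M) = 0 := Subsingleton.elim _ _
    rw [this, norm_zero]
    exact zero_le_one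
  · exact le_of_eq CStarRing.norm_one

theorem n2_nonneg (σ : M →ₗ[ℂ] ℂ) (x : M) : 0 ≤ n2 σ x := Real.sqrt_nonneg _

theorem n2_zero (σ : M →ₗ[ℂ] ℂ) : n2 σ (0 : M) = 0 := by
  unfold n2
  simp

theorem n2_sum_le (σ : M →ₗ[ℂ] ℂ) (hadd : ∀ x y : M, n2 σ (x + y) ≤ n2 σ x + n2 σ y) {ι : Type*}
    (s : Finset ι) (g : ι → M) (b : ι → ℝ)
    (hb : ∀ i ∈ s, n2 σ (g i) ≤ b i) : n2 σ (∑ i ∈ s, g i) ≤ ∑ i ∈ s, b i := by
  classical
  induction s using Finset.induction_on with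
  | empty => simp [n2_zero]
  | insert a s ha ih =>
    rw [Finset.sum_insert ha, Finset.sum_insert ha]
    refine (hadd _ _).trans ?_
    exact add_le_add (hb a (Finset.mem_insert_self _ _))
      (ih fun i hi => hb i (Finset.mem_insert_of_mem hi))

theorem n2_rp (σ : M →ₗ[ℂ] ℂ) (hadd : ∀ x y : M, n2 σ (x + y) ≤ n2 σ x + n2 σ y)
    (hsm : ∀ (c : ℂ) (x : M), n2 σ (c • x) = ‖c‖ * n2 σ x)
    (hst : ∀ x : M, n2 σ (star x) = n2 σ x) (x : M) : n2 σ (rp x) ≤ n2 σ x := by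
  unfold rp
  rw [hsm]
  have h1 := hadd x (star x)
  rw [hst] at h1
  have h2 : ‖(1 / 2 : ℂ)‖ = 1 / 2 := by simp
  rw [h2]
  linarith

theorem Xel_eq (R : ℕ) (p : ℕ → ℝ) (f : G →₀ ℝ) (k : ℕ) (w : G → Fin k → M) :
    Xel R p f k w = ∑ g ∈ f.support, ∑ h ∈ f.support,
      ((f g * f h : ℝ) : ℂ) • (Qk R p f (Khat k w) g h * Ych k w g h) := by
  unfold Xel avg Finsupp.sum
  refine Finset.sum_congr rfl fun g _ => ?_
  show (f g : ℂ) • (∑ h ∈ f.support, (f h : ℂ) •
    (Qk R p f (Khat k w) g h * Ych k w g h)) = _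
  rw [Finset.smul_sum]
  refine Finset.sum_congr rfl fun h _ => ?_
  rw [smul_smul, Complex.ofReal_mul]

theorem Xs_eq (σ : M →ₗ[ℂ] ℂ) (R : ℕ) (p : ℕ → ℝ) (f : G →₀ ℝ) (k : ℕ) (w : G → Fin k → M) :
    Xs σ R p f k w = ∑ g ∈ f.support, ∑ h ∈ f.support,
      ((f g * f h : ℝ) : ℂ) • (((Qr R p f (kbar σ k w) g h : ℂ) • (1 : M)) * Ych k w g h) := by
  unfold Xs Xc
  refine Finset.sum_congr rfl fun g _ => Finset.sum_congr rfl fun h _ => ?_
  rw [smul_mul_assoc, one_mul, smul_smul]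
  congr 1
  unfold cf
  push_cast
  ring

end XC

open XC

theorem t_XC (hBAS : S_BAS.{u}) (hHLD : S_HLD.{u}) (hKB : S_KB.{u, v}) (hKC : S_KC.{u, v})
    (hKPS : S_KPS.{u, v}) (hY4 : S_Y4.{u, v}) (hXSA : S_XSA.{u, v}) (hCFB : S_CFB.{v}) :
    S_XC.{u, v} := by
  intro R p η hη
  set P : ℝ := ∑ r ∈ Finset.range R, |p r| with hP
  set P' : ℝ := ∑ r ∈ Finset.range R, |p r| * (r + 1) with hP'
  have hP0 : 0 ≤ P := Finset.sum_nonneg fun r _ => abs_nonneg _
  have hP'0 : 0 ≤ P' := Finset.sum_nonneg fun r _ => by positivity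
  set Q : ℝ := 512 * P * P' / η ^ 2 with hQ
  have hQ0 : 0 ≤ Q := by positivity
  refine ⟨⌈Q ^ 2⌉₊, fun k hk M _ σ G C w hI hk0 f hf => ?_⟩
  have hts := hI.ts
  obtain ⟨-, -, -, badd, bsm, bst, -, -, -, -, -⟩ := hBAS M σ hts
  obtain ⟨-, kcorr, -, kabs, kn⟩ := hKB M σ G k C w hI hk0
  have hk0' : (0 : ℝ) < k := by exact_mod_cast hk0
  have hsk : 0 < √(k : ℝ) := Real.sqrt_pos.mpr hk0'
  have hkQ : Q ≤ √(k : ℝ) := by
    apply Real.le_sqrt_of_sq_le
    exact (Nat.le_ceil _).trans (by exact_mod_cast hk)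
  set δ : ℝ := 1 / √(k : ℝ) with hδ
  have hδ0 : 0 ≤ δ := by positivity
  have hcov : ∀ g h, n2 σ (Khat k w g h - (kbar σ k w g h : ℂ) • (1 : M)) ≤ δ := by
    intro g h
    have h1 := hKC M σ G k C w hI hk0 g h
    have h2 : (1 : ℝ) / k = δ ^ 2 := by
      rw [hδ, div_pow, one_pow, Real.sq_sqrt hk0'.le]
    rw [h2] at h1
    exact (pow_le_pow_iff_left₀ (n2_nonneg _ _) hδ0 two_ne_zero).mp h1
  have hkps := hKPS M σ hts G f hf (Khat k w) (kbar σ k w) δ kn kabs hcov
  -- the difference of coefficients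
  set D : G → G → M := fun g h => Qk R p f (Khat k w) g h -
    (Qr R p f (kbar σ k w) g h : ℂ) • (1 : M) with hD
  have hDeq : ∀ g h, D g h = ∑ r ∈ Finset.range R, (p r : ℂ) •
      (kpow f (Khat k w) r g h - (kpr f (kbar σ k w) r g h : ℂ) • (1 : M)) := by
    intro g h
    simp only [hD, Qk, Qr]
    rw [Complex.ofReal_sum, Finset.sum_smul, ← Finset.sum_sub_distrib]
    refine Finset.sum_congr rfl fun r _ => ?_
    rw [smul_sub, smul_smul, Complex.ofReal_mul]
  have hDn : ∀ g h, ‖D g h‖ ≤ 2 * P := by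
    intro g h
    rw [hDeq, hP, Finset.mul_sum]
    refine (norm_sum_le _ _).trans (Finset.sum_le_sum fun r _ => ?_)
    rw [norm_smul, Complex.norm_real, Real.norm_eq_abs]
    obtain ⟨a1, a2, -⟩ := hkps r g h
    have h3 : ‖(kpr f (kbar σ k w) r g h : ℂ) • (1 : M)‖ ≤ 1 := by
      rw [norm_smul, Complex.norm_real, Real.norm_eq_abs]
      calc |kpr f (kbar σ k w) r g h| * ‖(1 : M)‖ ≤ 1 * 1 := by
            have := norm_one_le (M := M)
            gcongr
        _ = 1 := one_mul 1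
    have h4 := norm_sub_le (kpow f (Khat k w) r g h) ((kpr f (kbar σ k w) r g h : ℂ) • (1 : M))
    have h5 : 0 ≤ |p r| := abs_nonneg _
    nlinarith
  have hD2 : ∀ g h, n2 σ (D g h) ≤ P' * δ := by
    intro g h
    rw [hDeq, hP', Finset.sum_mul]
    refine n2_sum_le σ badd _ _ _ fun r _ => ?_
    rw [bsm, Complex.norm_real, Real.norm_eq_abs, mul_assoc]
    exact mul_le_mul_of_nonneg_left (hkps r g h).2.2 (abs_nonneg _)
  obtain ⟨cfsymm, -, -⟩ := hCFB G f.support (kbar σ k w) kcorr R p f hf (Finset.Subset.refl _)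
  obtain ⟨xs, -, -, ysa⟩ := hXSA M σ G k C w hI f.support (cf R p f (kbar σ k w)) cfsymm
  have hY : ∀ g h, Real.sqrt (σ ((Ych k w g h * star (Ych k w g h)) *
      (Ych k w g h * star (Ych k w g h)))).re ≤ 256 := by
    intro g h
    rw [(ysa g h).1]
    have h1 := hY4 M σ G k C w hI hk0 (fun _ => g) (fun _ => h)
    have h2 : (Ych k w g h * Ych k w g h) * (Ych k w g h * Ych k w g h) =
        Ych k w g h * Ych k w g h * Ych k w g h * Ych k w g h := by
      simp only [mul_assoc]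
    rw [h2]
    rw [Real.sqrt_le_left (by norm_num)]
    refine (Complex.re_le_norm _).trans (h1.trans ?_)
    norm_num
  have hDY : ∀ g h, n2 σ (D g h * Ych k w g h) ≤ η := by
    intro g h
    have h1 := hHLD M σ hts (D g h) (Ych k w g h)
    have h2 : n2 σ (D g h * Ych k w g h) ^ 2 ≤ η ^ 2 := by
      refine h1.trans ?_
      have a1 := hDn g h
      have a2 := hD2 g h
      have a3 := hY g h
      have a4 := n2_nonneg σ (D g h)
      calc ‖D g h‖ * n2 σ (D g h) * Real.sqrt (σ ((Ych k w g h * star (Ych k w g h)) *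
            (Ych k w g h * star (Ych k w g h)))).re
          ≤ (2 * P) * (P' * δ) * 256 := by gcongr
        _ = 512 * P * P' / √(k : ℝ) := by rw [hδ]; ring
        _ ≤ η ^ 2 := by
            rw [div_le_iff₀ hsk]
            have h5 : η ^ 2 * Q = 512 * P * P' := by rw [hQ]; field_simp
            rw [← h5]
            gcongr
    exact (pow_le_pow_iff_left₀ (n2_nonneg _ _) hη.le two_ne_zero).mp h2
  have hxs : star (Xs σ R p f k w) = Xs σ R p f k w := xs
  have hrp : rp (Xel R p f k w) - Xs σ R p f k w = rp (Xel R p f k w - Xs σ R p f k w) := by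
    unfold rp
    rw [star_sub, hxs]
    have h1 : Xs σ R p f k w = (1 / 2 : ℂ) • (Xs σ R p f k w + Xs σ R p f k w) := by
      rw [← two_smul ℂ, smul_smul]
      norm_num
    nth_rewrite 1 [h1]
    rw [← smul_sub]
    congr 1
    abel
  rw [hrp]
  refine (n2_rp σ badd bsm bst _).trans ?_
  rw [Xel_eq, Xs_eq, ← Finset.sum_sub_distrib]
  have hsum : ∑ g ∈ f.support, f g = 1 := hf.sum
  have h6 : ∀ g ∈ f.support, n2 σ ((∑ h ∈ f.support,
      ((f g * f h : ℝ) : ℂ) • (Qk R p f (Khat k w) g h * Ych k w g h)) -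
      ∑ h ∈ f.support,
      ((f g * f h : ℝ) : ℂ) • (((Qr R p f (kbar σ k w) g h : ℂ) • (1 : M)) * Ych k w g h)) ≤
      f g * η := by
    intro g _
    rw [← Finset.sum_sub_distrib]
    have h7 : ∑ h ∈ f.support, f g * f h * η = f g * η := by
      rw [← Finset.sum_mul, ← Finset.mul_sum, hsum, mul_one]
    rw [← h7]
    refine n2_sum_le σ badd _ _ _ fun h _ => ?_
    rw [← smul_sub, ← sub_mul, bsm, Complex.norm_real, Real.norm_eq_abs,
      abs_of_nonneg (mul_nonneg (hf.nonneg g) (hf.nonneg h))]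
    exact mul_le_mul_of_nonneg_left (hDY g h) (mul_nonneg (hf.nonneg g) (hf.nonneg h))
  refine (n2_sum_le σ badd _ _ _ h6).trans ?_
  rw [← Finset.sum_mul, hsum, one_mul]

end H215EZ
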