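import Pool.Agent.H215R2.EZ.Stubs

set_option autoImplicit false

/-! The second chaos is self-adjoint and has mean zero (by helper992). -/

open scoped ComplexOrder

namespace H215EZ

universe u v

namespace XSA

theorem comm' {M : Type u} [CStarAlgebra M] {σ : M →ₗ[ℂ] ℂ} {G : Type v} {k : ℕ}
    {C : Set (Fin k) → StarSubalgebra ℂ M} {w : G → Fin k → M} (h : Ind σ C w)
    (g g' : G) (i j : Fin k) (hij : i ≠ j) : w g i * w g' j = w g' j * w g i := by
  refine h.comm {i} {j} _ _ ?_ (h.mem _ _ _ (Set.mem_singleton i))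
    (h.mem _ _ _ (Set.mem_singleton j))
  rw [Set.disjoint_singleton]
  exact hij

theorem mean' {M : Type u} [CStarAlgebra M] {σ : M →ₗ[ℂ] ℂ} {G : Type v} {k : ℕ}
    {C : Set (Fin k) → StarSubalgebra ℂ M} {w : G → Fin k → M} (h : Ind σ C w)
    (g g' : G) (i j : Fin k) (hij : i ≠ j) : σ (w g i * w g' j) = 0 := by
  rw [h.ind {i} {j} _ _ (by rw [Set.disjoint_singleton]; exact hij)
    (h.mem _ _ _ (Set.mem_singleton i)) (h.mem _ _ _ (Set.mem_singleton j)), h.mean, zero_mul]

theorem Ych_star {M : Type u} [CStarAlgebra M] {σ : M →ₗ[ℂ] ℂ} {G : Type v} {k : ℕ}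
    {C : Set (Fin k) → StarSubalgebra ℂ M} {w : G → Fin k → M} (h : Ind σ C w) (g g' : G) :
    star (Ych k w g g') = Ych k w g g' := by
  unfold Ych
  rw [star_smul, star_sum]
  congr 1
  · simp
  · refine Finset.sum_congr rfl fun i _ => ?_
    rw [star_sum]
    refine Finset.sum_congr rfl fun j _ => ?_
    split_ifs with hij
    · exact star_zero _
    · rw [star_mul, h.sa, h.sa, comm' h g g' i j hij]

theorem Ych_symm {M : Type u} [CStarAlgebra M] {σ : M →ₗ[ℂ] ℂ} {G : Type v} {k : ℕ}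
    {C : Set (Fin k) → StarSubalgebra ℂ M} {w : G → Fin k → M} (h : Ind σ C w) (g g' : G) :
    Ych k w g g' = Ych k w g' g := by
  unfold Ych
  congr 1
  rw [Finset.sum_comm]
  refine Finset.sum_congr rfl fun i _ => ?_
  refine Finset.sum_congr rfl fun j _ => ?_
  by_cases hij : j = i
  · rw [if_pos hij, if_pos hij.symm]
  · rw [if_neg hij, if_neg (Ne.symm hij), comm' h g g' j i hij]

theorem Ych_mean {M : Type u} [CStarAlgebra M] {σ : M →ₗ[ℂ] ℂ} {G : Type v} {k : ℕ}
    {C : Set (Fin k) → StarSubalgebra ℂ M} {w : G → Fin k → M} (h : Ind σ C w) (g g' : G) :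
    σ (Ych k w g g') = 0 := by
  unfold Ych
  rw [map_smul, map_sum]
  have : ∀ i : Fin k, σ (∑ j, if i = j then 0 else w g i * w g' j) = 0 := by
    intro i
    rw [map_sum]
    refine Finset.sum_eq_zero fun j _ => ?_
    split_ifs with hij
    · exact map_zero _
    · exact mean' h g g' i j hij
  simp [this]

theorem Ych_mem {M : Type u} [CStarAlgebra M] {σ : M →ₗ[ℂ] ℂ} {G : Type v} {k : ℕ}
    {C : Set (Fin k) → StarSubalgebra ℂ M} {w : G → Fin k → M} (h : Ind σ C w) (g g' : G) :
    Ych k w g g' ∈ C Set.univ := by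
  unfold Ych
  refine SMulMemClass.smul_mem _ ?_
  refine sum_mem fun i _ => sum_mem fun j _ => ?_
  split_ifs with hij
  · exact zero_mem _
  · exact mul_mem (h.mem _ _ _ (Set.mem_univ _)) (h.mem _ _ _ (Set.mem_univ _))

end XSA

open XSA in
theorem t_XSA : S_XSA.{u, v} := by
  intro M _ σ G k C w h E c _hc
  refine ⟨?_, ?_, ?_, fun g g' => ⟨Ych_star h g g', Ych_symm h g g'⟩⟩
  · unfold Xc
    rw [star_sum]
    refine Finset.sum_congr rfl fun g _ => ?_
    rw [star_sum]
    refine Finset.sum_congr rfl fun g' _ => ?_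
    rw [star_smul, Ych_star h]
    congr 1
    simp
  · unfold Xc
    rw [map_sum]
    refine Finset.sum_eq_zero fun g _ => ?_
    rw [map_sum]
    refine Finset.sum_eq_zero fun g' _ => ?_
    rw [map_smul, Ych_mean h, smul_zero]
  · unfold Xc
    exact sum_mem fun g _ => sum_mem fun g' _ => SMulMemClass.smul_mem _ (Ych_mem h g g')

end H215EZ
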