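import Pool.Agent.H215R2.EZ.Stubs

open scoped ComplexOrder Topology BoundedContinuousFunction
open Filter

namespace H215EZ

universe u v

namespace Y4

variable {M : Type u} [CStarAlgebra M] {G : Type v}

lemma norm_one_le' (M : Type u) [CStarAlgebra M] : ‖(1 : M)‖ ≤ 1 := by
  rcases subsingleton_or_nontrivial M with h | h
  · rw [Subsingleton.elim (1 : M) 0, norm_zero]; exact zero_le_one
  · rw [CStarRing.norm_one]

lemma norm_w_le {σ : M →ₗ[ℂ] ℂ} {I : Type} {C : Set I → StarSubalgebra ℂ M} {w : G → I → M}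
    (hI : Ind σ C w) (g : G) (i : I) : ‖w g i‖ ≤ 1 := by
  have h1 : ‖w g i‖ * ‖w g i‖ = ‖(1 : M)‖ := by
    rw [← CStarRing.norm_star_mul_self, hI.sa, hI.sq]
  have h2 := norm_one_le' M
  have h3 := norm_nonneg (w g i)
  nlinarith

/-- one factor -/
noncomputable def fac {k : ℕ} (w : G → Fin k → M) (g h : G) (i j : Fin k) : M :=
  if i = j then 0 else w g i * w h j

lemma fac_norm {σ : M →ₗ[ℂ] ℂ} {k : ℕ} {C : Set (Fin k) → StarSubalgebra ℂ M}
    {w : G → Fin k → M} (hI : Ind σ C w) (g h : G) (i j : Fin k) : ‖fac w g h i j‖ ≤ 1 := by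
  unfold fac
  split_ifs
  · simp
  · calc ‖w g i * w h j‖ ≤ ‖w g i‖ * ‖w h j‖ := norm_mul_le _ _
      _ ≤ 1 * 1 := mul_le_mul (norm_w_le hI _ _) (norm_w_le hI _ _) (norm_nonneg _) zero_le_one
      _ = 1 := one_mul 1

/-- the term of the expansion -/
noncomputable def term {k : ℕ} (w : G → Fin k → M) (g h : Fin 4 → G) (a : Fin 8 → Fin k) : M :=
  fac w (g 0) (h 0) (a 0) (a 1) * fac w (g 1) (h 1) (a 2) (a 3) *
    fac w (g 2) (h 2) (a 4) (a 5) * fac w (g 3) (h 3) (a 6) (a 7)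

lemma term_norm {σ : M →ₗ[ℂ] ℂ} {k : ℕ} {C : Set (Fin k) → StarSubalgebra ℂ M}
    {w : G → Fin k → M} (hI : Ind σ C w) (g h : Fin 4 → G) (a : Fin 8 → Fin k) :
    ‖term w g h a‖ ≤ 1 := by
  unfold term
  have key : ∀ x y : M, ‖x‖ ≤ 1 → ‖y‖ ≤ 1 → ‖x * y‖ ≤ 1 := by
    intro x y hx hy
    calc ‖x * y‖ ≤ ‖x‖ * ‖y‖ := norm_mul_le _ _
      _ ≤ 1 * 1 := mul_le_mul hx hy (norm_nonneg _) zero_le_one
      _ = 1 := one_mul 1
  exact key _ _ (key _ _ (key _ _ (fac_norm hI _ _ _ _) (fac_norm hI _ _ _ _))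
    (fac_norm hI _ _ _ _)) (fac_norm hI _ _ _ _)

/-- interleaved letters -/
def inter (g h : Fin 4 → G) : Fin 8 → G := ![g 0, h 0, g 1, h 1, g 2, h 2, g 3, h 3]

lemma term_zero (hISO : S_ISO.{u, v}) {σ : M →ₗ[ℂ] ℂ} {k : ℕ}
    {C : Set (Fin k) → StarSubalgebra ℂ M}
    {w : G → Fin k → M} (hI : Ind σ C w) (g h : Fin 4 → G) (a : Fin 8 → Fin k)
    (i : Fin 8) (hi : ∀ j, j ≠ i → a j ≠ a i) : σ (term w g h a) = 0 := by
  by_cases h01 : a 0 = a 1
  · simp [term, fac, h01]
  by_cases h23 : a 2 = a 3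
  · simp [term, fac, h23]
  by_cases h45 : a 4 = a 5
  · simp [term, fac, h45]
  by_cases h67 : a 6 = a 7
  · simp [term, fac, h67]
  have hterm : term w g h a = w (g 0) (a 0) * w (h 0) (a 1) * (w (g 1) (a 2) * w (h 1) (a 3)) *
      (w (g 2) (a 4) * w (h 2) (a 5)) * (w (g 3) (a 6) * w (h 3) (a 7)) := by
    simp [term, fac, h01, h23, h45, h67]
  rw [hterm]
  have iso := fun (l₁ l₂ : List (G × Fin k)) (x : G) (y : Fin k) =>
    hISO M σ G (Fin k) C w hI l₁ l₂ x y
  fin_cases i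
  · have := iso [] [(h 0, a 1), (g 1, a 2), (h 1, a 3), (g 2, a 4), (h 2, a 5), (g 3, a 6),
      (h 3, a 7)] (g 0) (a 0) (by simp) (by
        simp only [List.mem_cons, List.not_mem_nil, or_false]
        rintro q (rfl | rfl | rfl | rfl | rfl | rfl | rfl) <;> exact hi _ (by decide))
    rw [← this]
    simp [mul_assoc]
  · have := iso [(g 0, a 0)] [(g 1, a 2), (h 1, a 3), (g 2, a 4), (h 2, a 5), (g 3, a 6),
      (h 3, a 7)] (h 0) (a 1) (by
        simp only [List.mem_cons, List.not_mem_nil, or_false]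
        rintro q rfl; exact hi _ (by decide)) (by
        simp only [List.mem_cons, List.not_mem_nil, or_false]
        rintro q (rfl | rfl | rfl | rfl | rfl | rfl) <;> exact hi _ (by decide))
    rw [← this]
    simp [mul_assoc]
  · have := iso [(g 0, a 0), (h 0, a 1)] [(h 1, a 3), (g 2, a 4), (h 2, a 5), (g 3, a 6),
      (h 3, a 7)] (g 1) (a 2) (by
        simp only [List.mem_cons, List.not_mem_nil, or_false]
        rintro q (rfl | rfl) <;> exact hi _ (by decide)) (by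
        simp only [List.mem_cons, List.not_mem_nil, or_false]
        rintro q (rfl | rfl | rfl | rfl | rfl) <;> exact hi _ (by decide))
    rw [← this]
    simp [mul_assoc]
  · have := iso [(g 0, a 0), (h 0, a 1), (g 1, a 2)] [(g 2, a 4), (h 2, a 5), (g 3, a 6),
      (h 3, a 7)] (h 1) (a 3) (by
        simp only [List.mem_cons, List.not_mem_nil, or_false]
        rintro q (rfl | rfl | rfl) <;> exact hi _ (by decide)) (by
        simp only [List.mem_cons, List.not_mem_nil, or_false]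
        rintro q (rfl | rfl | rfl | rfl) <;> exact hi _ (by decide))
    rw [← this]
    simp [mul_assoc]
  · have := iso [(g 0, a 0), (h 0, a 1), (g 1, a 2), (h 1, a 3)] [(h 2, a 5), (g 3, a 6),
      (h 3, a 7)] (g 2) (a 4) (by
        simp only [List.mem_cons, List.not_mem_nil, or_false]
        rintro q (rfl | rfl | rfl | rfl) <;> exact hi _ (by decide)) (by
        simp only [List.mem_cons, List.not_mem_nil, or_false]
        rintro q (rfl | rfl | rfl) <;> exact hi _ (by decide))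
    rw [← this]
    simp [mul_assoc]
  · have := iso [(g 0, a 0), (h 0, a 1), (g 1, a 2), (h 1, a 3), (g 2, a 4)] [(g 3, a 6),
      (h 3, a 7)] (h 2) (a 5) (by
        simp only [List.mem_cons, List.not_mem_nil, or_false]
        rintro q (rfl | rfl | rfl | rfl | rfl) <;> exact hi _ (by decide)) (by
        simp only [List.mem_cons, List.not_mem_nil, or_false]
        rintro q (rfl | rfl) <;> exact hi _ (by decide))
    rw [← this]
    simp [mul_assoc]
  · have := iso [(g 0, a 0), (h 0, a 1), (g 1, a 2), (h 1, a 3), (g 2, a 4), (h 2, a 5)]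
      [(h 3, a 7)] (g 3) (a 6) (by
        simp only [List.mem_cons, List.not_mem_nil, or_false]
        rintro q (rfl | rfl | rfl | rfl | rfl | rfl) <;> exact hi _ (by decide)) (by
        simp only [List.mem_cons, List.not_mem_nil, or_false]
        rintro q rfl; exact hi _ (by decide))
    rw [← this]
    simp [mul_assoc]
  · have := iso [(g 0, a 0), (h 0, a 1), (g 1, a 2), (h 1, a 3), (g 2, a 4), (h 2, a 5),
      (g 3, a 6)] [] (h 3) (a 7) (by
        simp only [List.mem_cons, List.not_mem_nil, or_false]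
        rintro q (rfl | rfl | rfl | rfl | rfl | rfl | rfl) <;> exact hi _ (by decide)) (by simp)
    rw [← this]
    simp [mul_assoc]

/-- `Fin 8 → α` as a product -/
def e8 (α : Type) : (Fin 8 → α) ≃ ((((α × α) × (α × α)) × (α × α)) × (α × α)) where
  toFun a := ((((a 0, a 1), (a 2, a 3)), (a 4, a 5)), (a 6, a 7))
  invFun q := ![q.1.1.1.1, q.1.1.1.2, q.1.1.2.1, q.1.1.2.2, q.1.2.1, q.1.2.2, q.2.1, q.2.2]
  left_inv a := by
    ext i
    fin_cases i <;> rfl
  right_inv q := rfl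

lemma expand (k : ℕ) (w : G → Fin k → M) (g h : Fin 4 → G) :
    Ych k w (g 0) (h 0) * Ych k w (g 1) (h 1) * Ych k w (g 2) (h 2) * Ych k w (g 3) (h 3) =
      (((k : ℂ)⁻¹) ^ 4) • ∑ a : Fin 8 → Fin k, term w g h a := by
  have hY : ∀ x y : G, Ych k w x y = ((k : ℂ)⁻¹) • ∑ q : Fin k × Fin k, fac w x y q.1 q.2 := by
    intro x y
    rw [Ych, Fintype.sum_prod_type]
    rfl
  have hsum : ∑ a : Fin 8 → Fin k, term w g h a =
      ∑ q : (((Fin k × Fin k) × (Fin k × Fin k)) × (Fin k × Fin k)) × (Fin k × Fin k),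
        fac w (g 0) (h 0) q.1.1.1.1 q.1.1.1.2 * fac w (g 1) (h 1) q.1.1.2.1 q.1.1.2.2 *
        fac w (g 2) (h 2) q.1.2.1 q.1.2.2 * fac w (g 3) (h 3) q.2.1 q.2.2 :=
    Fintype.sum_equiv (e8 (Fin k)) _ _ (fun a => rfl)
  rw [hsum, hY, hY, hY, hY]
  simp only [smul_mul_assoc, mul_smul_comm, smul_smul]
  congr 1
  · ring
  · rw [Finset.sum_mul_sum, ← Fintype.sum_prod_type', Finset.sum_mul_sum,
      ← Fintype.sum_prod_type', Finset.sum_mul_sum, ← Fintype.sum_prod_type']

end Y4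

open Y4 in
theorem t_Y4 (hBAS : S_BAS.{u}) (hISO : S_ISO.{u, v}) (hCNT : S_CNT) : S_Y4.{u, v} := by
  intro M _ σ G k C w hI hk g h
  obtain ⟨hb, -⟩ := hBAS M σ hI.ts
  rw [expand, map_smul, map_sum, norm_smul, norm_pow, norm_inv, Complex.norm_natCast]
  have h1 : ‖∑ a : Fin 8 → Fin k, σ (term w g h a)‖ ≤ (4 ^ 8 * k ^ 4 : ℕ) := by
    calc ‖∑ a : Fin 8 → Fin k, σ (term w g h a)‖ ≤ ∑ a : Fin 8 → Fin k, ‖σ (term w g h a)‖ :=
          norm_sum_le _ _
      _ ≤ ∑ a : Fin 8 → Fin k, (if ∀ i, ∃ j, j ≠ i ∧ a j = a i then (1 : ℝ) else 0) := by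
          apply Finset.sum_le_sum
          intro a _
          split_ifs with hc
          · exact (hb _).trans (term_norm hI g h a)
          · push Not at hc
            obtain ⟨i, hi⟩ := hc
            rw [term_zero hISO hI g h a i hi, norm_zero]
      _ = ((Finset.univ.filter fun a : Fin 8 → Fin k =>
            ∀ i, ∃ j, j ≠ i ∧ a j = a i).card : ℝ) := by
          rw [Finset.sum_ite, Finset.sum_const, Finset.sum_const_zero, add_zero, nsmul_eq_mul,
            mul_one]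
      _ ≤ (4 ^ 8 * k ^ 4 : ℕ) := by exact_mod_cast hCNT k
  have hk' : (0 : ℝ) < k := by exact_mod_cast hk
  calc ((k : ℝ)⁻¹) ^ 4 * ‖∑ a : Fin 8 → Fin k, σ (term w g h a)‖
      ≤ ((k : ℝ)⁻¹) ^ 4 * (4 ^ 8 * k ^ 4 : ℕ) := by gcongr
    _ = 4 ^ 8 := by
        push_cast
        field_simp
        norm_num

end H215EZ
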