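import Pool.Agent.H215R2.EZ.Stubs

set_option autoImplicit false

open scoped ComplexOrder Topology BoundedContinuousFunction
open Filter

namespace H215EZ

universe u v

namespace ZC

theorem n2_sum {M : Type u} [CStarAlgebra M] (σ : M →ₗ[ℂ] ℂ)
    (hadd : ∀ x y, n2 σ (x + y) ≤ n2 σ x + n2 σ y)
    (hsm : ∀ (c : ℂ) x, n2 σ (c • x) = ‖c‖ * n2 σ x) {ι : Type} (s : Finset ι) (F : ι → M) :
    n2 σ (∑ m ∈ s, F m) ≤ ∑ m ∈ s, n2 σ (F m) := by
  classical
  induction s using Finset.induction_on with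
  | empty =>
    rw [Finset.sum_empty, Finset.sum_empty]
    have := hsm 0 0
    rw [smul_zero, norm_zero, zero_mul] at this
    exact this.le
  | insert a s ha ih =>
    rw [Finset.sum_insert ha, Finset.sum_insert ha]
    exact (hadd _ _).trans (add_le_add le_rfl ih)

end ZC

theorem t_ZC (hBAS : S_BAS.{u}) (hBLK : S_BLK.{u, v}) (hXC : S_XC.{u, v}) : S_ZC.{u, v} := by
  intro R p ξ N η hη
  have hpos : 0 < |ξ| * N + 1 := by positivity
  obtain ⟨k₀, hk₀⟩ := hXC R p (η / (|ξ| * N + 1)) (by positivity)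
  refine ⟨k₀, fun k hk M _ σ G C w hI hk0 f hf => ?_⟩
  obtain ⟨-, -, -, hadd, hsm, -⟩ := hBAS M σ hI.ts
  have h1 : Zel R p ξ N k f w - Zs σ R p ξ N k f w =
      (ξ : ℂ) • ∑ m : Fin N, (rp (Xel R p f k fun g i => w g (m, i)) -
        Xs σ R p f k fun g i => w g (m, i)) := by
    rw [Zel, Zs, ← smul_sub, ← Finset.sum_sub_distrib]
  rw [h1, hsm]
  have h2 : n2 σ (∑ m : Fin N, (rp (Xel R p f k fun g i => w g (m, i)) -
        Xs σ R p f k fun g i => w g (m, i))) ≤ ∑ m : Fin N, η / (|ξ| * N + 1) := by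
    refine (ZC.n2_sum σ hadd hsm _ _).trans (Finset.sum_le_sum (fun m _ => ?_))
    exact hk₀ k hk M σ G _ _ (hBLK M σ G N k C w hI m) hk0 f hf
  rw [Finset.sum_const, Finset.card_univ, Fintype.card_fin, nsmul_eq_mul] at h2
  have h3 : ‖(ξ : ℂ)‖ = |ξ| := by rw [Complex.norm_real, Real.norm_eq_abs]
  rw [h3]
  calc _ ≤ |ξ| * (N * (η / (|ξ| * N + 1))) := mul_le_mul_of_nonneg_left h2 (abs_nonneg _)
    _ = (|ξ| * N) / (|ξ| * N + 1) * η := by ring
    _ ≤ 1 * η := by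
      refine mul_le_mul_of_nonneg_right ?_ hη.le
      rw [div_le_one hpos]; linarith
    _ = η := one_mul η

end H215EZ
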