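import Pool.Agent.H215R2.EZ.Stubs

/-!
Project EZ, task ZST: the Jiang-Su criterion implies the uniform McDuff property.
-/

set_option autoImplicit false

open scoped ComplexOrder

namespace H215EZ

universe u

namespace ZST

section alg

variable {A : Type u} [CStarAlgebra A]

theorem crit (h : ZSt A) (m : ℕ) (hm : 1 ≤ m) (F : Finset A) (δ : ℝ) (hδ : 0 < δ) :
    ∃ (c : Fin m × Bool → A) (z s : A), (∀ i, ‖c i‖ ≤ 1) ∧ ‖s‖ ≤ 1 ∧ star z = z ∧ ‖z‖ ≤ 1 ∧
      (∀ i, ‖c i * star (c i) - z * z‖ ≤ δ) ∧ (∀ i j, i ≠ j → ‖c i * star (c j)‖ ≤ δ) ∧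
      ‖star s * s + ∑ i, star (c i) * c i - 1‖ ≤ δ ∧ ‖z * s - s‖ ≤ δ ∧
      (∀ i, ∀ a ∈ F, ‖c i * a - a * c i‖ ≤ δ) := by
  obtain ⟨c, s, h1, h2, ⟨d, hd⟩, h4, h5, h6, h7, h8, -⟩ := h (2 * m - 1) F δ hδ
  have hcard : Fintype.card (Fin m × Bool) = 2 * m - 1 + 1 := by
    rw [Fintype.card_prod, Fintype.card_fin, Fintype.card_bool]
    omega
  let e : Fin m × Bool ≃ Fin (2 * m - 1 + 1) := Fintype.equivFinOfCardEq hcard
  refine ⟨fun i => c (e i), c 0, s, fun i => h1 _, h2, ?_, h1 0, fun i => h4 _, ?_, ?_, h7,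
    fun i => h8 _⟩
  · rw [hd, star_mul, star_star]
  · intro i j hij
    exact h5 _ _ (fun h => hij (e.injective h))
  · have : ∑ i, star (c (e i)) * c (e i) = ∑ i, star (c i) * c i :=
      Equiv.sum_comp e (fun i => star (c i) * c i)
    rw [this]
    exact h6

theorem norm_mul_le1 {x y : A} {r : ℝ} (hx : ‖x‖ ≤ 1) (hy : ‖y‖ ≤ r) : ‖x * y‖ ≤ r := by
  have hr : 0 ≤ r := (norm_nonneg _).trans hy
  calc ‖x * y‖ ≤ ‖x‖ * ‖y‖ := norm_mul_le _ _
    _ ≤ 1 * r := mul_le_mul hx hy (norm_nonneg _) zero_le_one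
    _ = r := one_mul r

theorem norm_mul_le2 {x y : A} {r : ℝ} (hx : ‖x‖ ≤ r) (hy : ‖y‖ ≤ 1) : ‖x * y‖ ≤ r := by
  have hr : 0 ≤ r := (norm_nonneg _).trans hx
  calc ‖x * y‖ ≤ ‖x‖ * ‖y‖ := norm_mul_le _ _
    _ ≤ r * 1 := mul_le_mul hx hy (norm_nonneg _) hr
    _ = r := mul_one r

theorem norm_star_le {x : A} {r : ℝ} (hx : ‖x‖ ≤ r) : ‖star x‖ ≤ r := by
  rwa [norm_star]

/-- `v v* ≈ ∑ (p_i* p_i)^2` for `v = ∑ p_i* q_i` -/
theorem vvs {m : ℕ} (p q : Fin m → A) (z : A) (δ : ℝ) (hp : ∀ i, ‖p i‖ ≤ 1)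
    (hpz : ∀ i, ‖p i * star (p i) - z * z‖ ≤ δ) (hqz : ∀ i, ‖q i * star (q i) - z * z‖ ≤ δ)
    (hq : ∀ i j, i ≠ j → ‖q i * star (q j)‖ ≤ δ) :
    ‖(∑ i, star (p i) * q i) * star (∑ i, star (p i) * q i) -
      ∑ i, (star (p i) * p i) * (star (p i) * p i)‖ ≤ 2 * (m : ℝ) ^ 2 * δ := by
  rcases Nat.eq_zero_or_pos m with hm | hm
  · subst hm
    simp
  have hδ : 0 ≤ δ := (norm_nonneg _).trans (hpz ⟨0, hm⟩)
  have e : (∑ i, star (p i) * q i) * star (∑ i, star (p i) * q i) -
      ∑ i, (star (p i) * p i) * (star (p i) * p i) =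
      ∑ i, ∑ j, (star (p i) * q i * (star (q j) * p j) -
        if i = j then (star (p i) * p i) * (star (p i) * p i) else 0) := by
    rw [star_sum, Finset.sum_mul_sum, ← Finset.sum_sub_distrib]
    refine Finset.sum_congr rfl fun i _ => ?_
    rw [Finset.sum_sub_distrib, Finset.sum_ite_eq]
    simp only [Finset.mem_univ, if_true, star_mul, star_star]
  rw [e]
  have hb : ∀ i j, ‖star (p i) * q i * (star (q j) * p j) -
        (if i = j then (star (p i) * p i) * (star (p i) * p i) else 0)‖ ≤ 2 * δ := by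
    intro i j
    by_cases hij : i = j
    · subst hij
      rw [if_pos rfl]
      have e1 : star (p i) * q i * (star (q i) * p i) - star (p i) * p i * (star (p i) * p i) =
          star (p i) * ((q i * star (q i) - z * z) - (p i * star (p i) - z * z)) * p i := by
        noncomm_ring
      rw [e1]
      refine norm_mul_le2 (norm_mul_le1 (norm_star_le (hp i)) ?_) (hp i)
      refine (norm_sub_le _ _).trans ?_
      linarith [hpz i, hqz i]
    · rw [if_neg hij, sub_zero]
      have e1 : star (p i) * q i * (star (q j) * p j) = star (p i) * (q i * star (q j)) * p j := by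
        noncomm_ring
      rw [e1]
      refine (norm_mul_le2 (norm_mul_le1 (norm_star_le (hp i)) (hq i j hij)) (hp j)).trans ?_
      linarith
  calc ‖∑ i, ∑ j, (star (p i) * q i * (star (q j) * p j) -
        if i = j then (star (p i) * p i) * (star (p i) * p i) else 0)‖
      ≤ ∑ i : Fin m, ∑ j : Fin m, (2 * δ) :=
        norm_sum_le_of_le _ fun i _ => norm_sum_le_of_le _ fun j _ => hb i j
    _ = 2 * (m : ℝ) ^ 2 * δ := by
        simp only [Finset.sum_const, Finset.card_univ, Fintype.card_fin, nsmul_eq_mul]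
        ring

/-- `v v` is small -/
theorem vv {m : ℕ} (p q : Fin m → A) (δ : ℝ) (hp : ∀ i, ‖p i‖ ≤ 1) (hq1 : ∀ i, ‖q i‖ ≤ 1)
    (hq : ∀ i j, ‖q i * star (p j)‖ ≤ δ) :
    ‖(∑ i, star (p i) * q i) * (∑ i, star (p i) * q i)‖ ≤ (m : ℝ) ^ 2 * δ := by
  rw [Finset.sum_mul_sum]
  calc ‖∑ i, ∑ j, (star (p i) * q i * (star (p j) * q j))‖
      ≤ ∑ i : Fin m, ∑ j : Fin m, δ := by
        refine norm_sum_le_of_le _ fun i _ => norm_sum_le_of_le _ fun j _ => ?_
        have e1 : star (p i) * q i * (star (p j) * q j) = star (p i) * (q i * star (p j)) * q j := by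
          noncomm_ring
        rw [e1]
        exact norm_mul_le2 (norm_mul_le1 (norm_star_le (hp i)) (hq i j)) (hq1 j)
    _ = (m : ℝ) ^ 2 * δ := by
        simp only [Finset.sum_const, Finset.card_univ, Fintype.card_fin, nsmul_eq_mul]
        ring

/-- `E^2 ≈ ∑ e_i^2` -/
theorem sumsq {ι : Type} [Fintype ι] [DecidableEq ι] (c : ι → A) (δ : ℝ) (hδ : 0 ≤ δ)
    (hc : ∀ i, ‖c i‖ ≤ 1) (h : ∀ i j, i ≠ j → ‖c i * star (c j)‖ ≤ δ) :
    ‖(∑ i, star (c i) * c i) * (∑ i, star (c i) * c i) -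
      ∑ i, (star (c i) * c i) * (star (c i) * c i)‖ ≤ (Fintype.card ι : ℝ) ^ 2 * δ := by
  have e : (∑ i, star (c i) * c i) * (∑ i, star (c i) * c i) -
      ∑ i, (star (c i) * c i) * (star (c i) * c i) =
      ∑ i, ∑ j, (star (c i) * c i * (star (c j) * c j) -
        if i = j then (star (c i) * c i) * (star (c i) * c i) else 0) := by
    rw [Finset.sum_mul_sum, ← Finset.sum_sub_distrib]
    refine Finset.sum_congr rfl fun i _ => ?_
    rw [Finset.sum_sub_distrib, Finset.sum_ite_eq]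
    simp only [Finset.mem_univ, if_true]
  rw [e]
  calc ‖∑ i, ∑ j, (star (c i) * c i * (star (c j) * c j) -
        if i = j then (star (c i) * c i) * (star (c i) * c i) else 0)‖
      ≤ ∑ i : ι, ∑ j : ι, δ := by
        refine norm_sum_le_of_le _ fun i _ => norm_sum_le_of_le _ fun j _ => ?_
        by_cases hij : i = j
        · subst hij
          rw [if_pos rfl, sub_self, norm_zero]
          exact hδ
        · rw [if_neg hij, sub_zero]
          have e1 : star (c i) * c i * (star (c j) * c j) =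
              star (c i) * (c i * star (c j)) * c j := by
            noncomm_ring
          rw [e1]
          exact norm_mul_le2 (norm_mul_le1 (norm_star_le (hc i)) (h i j hij)) (hc j)
    _ = (Fintype.card ι : ℝ) ^ 2 * δ := by
        simp only [Finset.sum_const, Finset.card_univ, nsmul_eq_mul]
        ring

/-- `‖1 - s* s‖ ≤ 1` -/
theorem norm_one_sub (s : A) (hs : ‖s‖ ≤ 1) : ‖1 - star s * s‖ ≤ 1 := by
  let _ := CStarAlgebra.spectralOrder A
  let _ := CStarAlgebra.spectralOrderedRing A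
  have h0 : 0 ≤ star s * s := star_mul_self_nonneg s
  have h1 : star s * s ≤ 1 := by
    rw [← CStarAlgebra.norm_le_one_iff_of_nonneg _ h0]
    exact norm_mul_le1 (norm_star_le hs) hs
  have h2 : 0 ≤ 1 - star s * s := sub_nonneg.2 h1
  rw [CStarAlgebra.norm_le_one_iff_of_nonneg _ h2]
  exact sub_le_self _ h0

/-- `‖v‖^2 ≤ ‖v v* + v* v‖` -/
theorem norm_sq_le (v : A) : ‖v‖ ^ 2 ≤ ‖v * star v + star v * v‖ := by
  let _ := CStarAlgebra.spectralOrder A
  let _ := CStarAlgebra.spectralOrderedRing A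
  have h1 : ‖v‖ ^ 2 = ‖v * star v‖ := by
    rw [sq, CStarRing.norm_self_mul_star]
  rw [h1]
  refine CStarAlgebra.norm_le_norm_of_nonneg_of_le (mul_star_self_nonneg v) ?_
  exact le_add_of_nonneg_right (star_mul_self_nonneg v)

/-- commutators -/
theorem comm {m : ℕ} (p q : Fin m → A) (δ : ℝ) (a : A) (hp : ∀ i, ‖p i‖ ≤ 1)
    (hq1 : ∀ i, ‖q i‖ ≤ 1) (hpa : ∀ i, ‖p i * star a - star a * p i‖ ≤ δ)
    (hqa : ∀ i, ‖q i * a - a * q i‖ ≤ δ) :
    ‖(∑ i, star (p i) * q i) * a - a * (∑ i, star (p i) * q i)‖ ≤ 2 * m * δ := by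
  rw [Finset.sum_mul, Finset.mul_sum, ← Finset.sum_sub_distrib]
  calc ‖∑ i, (star (p i) * q i * a - a * (star (p i) * q i))‖ ≤ ∑ i : Fin m, 2 * δ := by
        refine norm_sum_le_of_le _ fun i _ => ?_
        have e1 : star (p i) * q i * a - a * (star (p i) * q i) =
            star (p i) * (q i * a - a * q i) + -(star (p i * star a - star a * p i)) * q i := by
          rw [star_sub, star_mul, star_mul, star_star]
          noncomm_ring
        rw [e1]
        have h1 := norm_mul_le1 (norm_star_le (hp i)) (hqa i)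
        have h2 : ‖-(star (p i * star a - star a * p i)) * q i‖ ≤ δ := by
          refine norm_mul_le2 ?_ (hq1 i)
          rw [norm_neg]
          exact norm_star_le (hpa i)
        refine (norm_add_le _ _).trans ?_
        linarith
    _ = 2 * m * δ := by
        simp only [Finset.sum_const, Finset.card_univ, Fintype.card_fin, nsmul_eq_mul]
        ring

/-- everything in norm -/
theorem combine {m : ℕ} (c : Fin m × Bool → A) (z s : A) (δ : ℝ) (hδ0 : 0 ≤ δ) (hδ1 : δ ≤ 1)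
    (hc : ∀ i, ‖c i‖ ≤ 1) (hs : ‖s‖ ≤ 1) (hz : ∀ i, ‖c i * star (c i) - z * z‖ ≤ δ)
    (h : ∀ i j, i ≠ j → ‖c i * star (c j)‖ ≤ δ)
    (hE : ‖star s * s + ∑ i, star (c i) * c i - 1‖ ≤ δ) (v : A)
    (hv : v = ∑ i, star (c (i, false)) * c (i, true)) :
    ‖v * star v + star v * v - (1 - star s * s) * (1 - star s * s)‖ ≤ (8 * (m : ℝ) ^ 2 + 5) * δ := by
  classical
  have h1 := vvs (fun i => c (i, false)) (fun i => c (i, true)) z δ (fun i => hc _)
    (fun i => hz _) (fun i => hz _) (fun i j hij => h _ _ (by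
      intro h'
      exact hij (Prod.mk.inj h').1))
  have h2 := vvs (fun i => c (i, true)) (fun i => c (i, false)) z δ (fun i => hc _)
    (fun i => hz _) (fun i => hz _) (fun i j hij => h _ _ (by
      intro h'
      exact hij (Prod.mk.inj h').1))
  have h3 := sumsq c δ hδ0 hc h
  have hcard : (Fintype.card (Fin m × Bool) : ℝ) = 2 * m := by
    rw [Fintype.card_prod, Fintype.card_fin, Fintype.card_bool]
    push_cast
    ring
  rw [hcard] at h3
  have hsv : star v = ∑ i, star (c (i, true)) * c (i, false) := by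
    rw [hv, star_sum]
    refine Finset.sum_congr rfl fun i _ => ?_
    rw [star_mul, star_star]
  rw [← hv] at h1
  rw [← hsv, star_star] at h2
  have hsum : ∑ x : Fin m × Bool, (star (c x) * c x) * (star (c x) * c x) =
      ∑ i, (star (c (i, false)) * c (i, false)) * (star (c (i, false)) * c (i, false)) +
      ∑ i, (star (c (i, true)) * c (i, true)) * (star (c (i, true)) * c (i, true)) := by
    rw [Fintype.sum_prod_type, ← Finset.sum_add_distrib]
    refine Finset.sum_congr rfl fun i _ => ?_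
    rw [Fintype.sum_bool, add_comm]
  rw [hsum] at h3
  set S : A := star s * s with hS
  set E : A := ∑ i, star (c i) * c i with hEd
  set D : A := S + E - 1 with hD
  have hn : ‖1 - S‖ ≤ 1 := norm_one_sub s hs
  have hE2 : E * E - (1 - S) * (1 - S) = (1 - S) * D + D * (1 - S) + D * D := by
    have : E = (1 - S) + D := by rw [hD]; abel
    rw [this]
    noncomm_ring
  have h4 : ‖E * E - (1 - S) * (1 - S)‖ ≤ 3 * δ := by
    rw [hE2]
    have a1 : ‖(1 - S) * D‖ ≤ δ := norm_mul_le1 hn hE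
    have a2 : ‖D * (1 - S)‖ ≤ δ := norm_mul_le2 hE hn
    have a3 : ‖D * D‖ ≤ δ := norm_mul_le1 (hE.trans hδ1) hE
    refine (norm_add_le _ _).trans ?_
    have := norm_add_le ((1 - S) * D) (D * (1 - S))
    linarith
  have e : v * star v + star v * v - (1 - S) * (1 - S) =
      (v * star v - ∑ i, (star (c (i, false)) * c (i, false)) * (star (c (i, false)) * c (i, false)))
      + (star v * v - ∑ i, (star (c (i, true)) * c (i, true)) * (star (c (i, true)) * c (i, true)))
      - (E * E - (∑ i, (star (c (i, false)) * c (i, false)) * (star (c (i, false)) * c (i, false)) +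
        ∑ i, (star (c (i, true)) * c (i, true)) * (star (c (i, true)) * c (i, true))))
      + (E * E - (1 - S) * (1 - S)) := by
    abel
  rw [e]
  refine (norm_add_le _ _).trans ?_
  have b1 := norm_sub_le
    ((v * star v - ∑ i, (star (c (i, false)) * c (i, false)) * (star (c (i, false)) * c (i, false)))
      + (star v * v - ∑ i, (star (c (i, true)) * c (i, true)) * (star (c (i, true)) * c (i, true))))
    (E * E - (∑ i, (star (c (i, false)) * c (i, false)) * (star (c (i, false)) * c (i, false)) +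
        ∑ i, (star (c (i, true)) * c (i, true)) * (star (c (i, true)) * c (i, true))))
  have b2 := norm_add_le
    (v * star v - ∑ i, (star (c (i, false)) * c (i, false)) * (star (c (i, false)) * c (i, false)))
    (star v * v - ∑ i, (star (c (i, true)) * c (i, true)) * (star (c (i, true)) * c (i, true)))
  have h3' : ‖E * E - (∑ i, (star (c (i, false)) * c (i, false)) * (star (c (i, false)) * c (i, false)) +
        ∑ i, (star (c (i, true)) * c (i, true)) * (star (c (i, true)) * c (i, true)))‖ ≤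
      4 * (m : ℝ) ^ 2 * δ := by
    refine h3.trans (le_of_eq ?_)
    ring
  linarith

/-- trace part: `n2 (s* s)` is small -/
theorem trace_part (hBAS : S_BAS.{u}) {m : ℕ} (hm : 1 ≤ m) (c : Fin m × Bool → A) (z s : A)
    (δ : ℝ) (hδm : δ ≤ 1 / (4 * m)) (hs : ‖s‖ ≤ 1) (hz' : star z = z)
    (hz : ∀ i, ‖c i * star (c i) - z * z‖ ≤ δ)
    (hE : ‖star s * s + ∑ i, star (c i) * c i - 1‖ ≤ δ) (hzs : ‖z * s - s‖ ≤ δ)
    (τ : A →ₗ[ℂ] ℂ) (hτ : IsTrSt τ) :
    n2 τ (star s * s) ≤ Real.sqrt (1 / m) + δ := by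
  obtain ⟨b1, b2, b3, b4, b5, b6, b7, b8, b9, b10, b11⟩ := hBAS A τ hτ
  have hmr : (1 : ℝ) ≤ m := by exact_mod_cast hm
  -- n2 (s* s) ≤ n2 s
  have s1 : n2 τ (star s * s) ≤ n2 τ s := by
    refine (b8 (star s) s).trans ?_
    rw [norm_star]
    have : 0 ≤ n2 τ s := Real.sqrt_nonneg _
    nlinarith
  -- n2 s ≤ n2 z + δ
  have s2 : n2 τ s ≤ n2 τ z + δ := by
    have e : s = z * s + -(z * s - s) := by abel
    have h1 : n2 τ s ≤ n2 τ (z * s) + n2 τ (-(z * s - s)) := by
      conv_lhs => rw [e]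
      exact b4 _ _
    have h2 : n2 τ (z * s) ≤ n2 τ z := by
      refine (b9 s z).trans ?_
      have : 0 ≤ n2 τ z := Real.sqrt_nonneg _
      nlinarith
    have h3 : n2 τ (-(z * s - s)) ≤ δ := by
      refine (b7 _).trans ?_
      rw [norm_neg]
      exact hzs
    linarith
  -- n2 z ^ 2 ≤ 1 / m
  have hre : ∀ x : A, 0 ≤ (τ (star x * x)).re := fun x => (Complex.le_def.1 (hτ.nonneg x)).1
  have s3 : ∀ i, (τ (z * z)).re - δ ≤ (τ (star (c i) * c i)).re := by
    intro i
    have h1 : τ (star (c i) * c i) = τ (c i * star (c i)) := hτ.tr _ _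
    have h2 := (Complex.abs_re_le_norm _).trans ((b1 (c i * star (c i) - z * z)).trans (hz i))
    rw [map_sub, Complex.sub_re, abs_le] at h2
    rw [h1]
    linarith [h2.1]
  have s4 : (∑ i, (τ (star (c i) * c i)).re) ≤ 1 + δ := by
    have h2 := (Complex.abs_re_le_norm _).trans ((b1 (star s * s + ∑ i, star (c i) * c i - 1)).trans hE)
    rw [map_sub, map_add, map_sum, Complex.sub_re, Complex.add_re, Complex.re_sum, hτ.one, abs_le] at h2
    have := hre s
    simp only [Complex.one_re] at h2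
    linarith [h2.2]
  have s5 : (2 * (m : ℝ)) * ((τ (z * z)).re - δ) ≤ 1 + δ := by
    refine le_trans ?_ s4
    have := Finset.card_nsmul_le_sum (Finset.univ : Finset (Fin m × Bool))
      (fun i => (τ (star (c i) * c i)).re) ((τ (z * z)).re - δ) (fun i _ => s3 i)
    rw [Finset.card_univ, Fintype.card_prod, Fintype.card_fin, Fintype.card_bool, nsmul_eq_mul] at this
    refine le_trans (le_of_eq ?_) this
    push_cast
    ring
  have s6 : n2 τ z ≤ Real.sqrt (1 / m) := by
    unfold n2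
    rw [hz']
    apply Real.sqrt_le_sqrt
    have h4 : δ * (4 * m) ≤ 1 := by
      rw [le_div_iff₀ (by positivity)] at hδm
      exact hδm
    rw [le_div_iff₀ (by positivity)]
    nlinarith
  linarith

end alg

end ZST

open ZST in
theorem t_ZST (hBAS : S_BAS.{u}) : S_ZST.{u} := by
  intro A _ hA F ε hε
  classical
  -- the size
  obtain ⟨m0, hm0⟩ := exists_nat_gt (144 / (min ε 1) ^ 2)
  set ε' : ℝ := min ε 1 with hε'
  have hε'0 : 0 < ε' := lt_min hε one_pos
  have hε'1 : ε' ≤ 1 := min_le_right _ _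
  have hε'2 : ε' ≤ ε := min_le_left _ _
  obtain ⟨m, hmm⟩ : ∃ m, m = m0 + 1 := ⟨_, rfl⟩
  have hm : 1 ≤ m := by omega
  have hmr : (1 : ℝ) ≤ m := by exact_mod_cast hm
  have hm0' : 144 / ε' ^ 2 < m := by
    refine hm0.trans ?_
    rw [hmm]
    push_cast
    linarith
  obtain ⟨δ, hδ⟩ : ∃ δ : ℝ, δ = ε' / (12 * (8 * (m : ℝ) ^ 2 + 5)) := ⟨_, rfl⟩
  have hK : 0 < 8 * (m : ℝ) ^ 2 + 5 := by positivity
  have hδ0 : 0 < δ := by rw [hδ]; positivity
  have hκ : (8 * (m : ℝ) ^ 2 + 5) * δ = ε' / 12 := by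
    rw [hδ]
    field_simp
  have hδ1 : δ ≤ ε' / 12 := by
    rw [← hκ]
    nlinarith
  have hδm : δ ≤ 1 / (4 * m) := by
    rw [le_div_iff₀ (by positivity)]
    have : δ * (4 * m) ≤ (8 * (m : ℝ) ^ 2 + 5) * δ := by nlinarith
    linarith
  obtain ⟨c, z, s, hc, hs, hz', -, hz, hcc, hE, hzs, hcom⟩ :=
    crit hA m hm (F ∪ F.image star) δ hδ0
  obtain ⟨v₀, hv₀⟩ : ∃ v₀ : A, v₀ = ∑ i, star (c (i, false)) * c (i, true) := ⟨_, rfl⟩
  have hcomb := combine c z s δ hδ0.le (by linarith) hc hs hz hcc hE v₀ hv₀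
  rw [hκ] at hcomb
  obtain ⟨κ, hκd⟩ : ∃ κ : ℝ, κ = ε' / 12 := ⟨_, rfl⟩
  rw [← hκd] at hcomb hκ hδ1
  have hκ0 : 0 < κ := by rw [hκd]; positivity
  have hκ1 : κ ≤ 1 / 12 := by rw [hκd]; linarith
  have hvv : ‖v₀ * v₀‖ ≤ (m : ℝ) ^ 2 * δ := by
    rw [hv₀]
    refine vv (fun i => c (i, false)) (fun i => c (i, true)) δ (fun i => hc _) (fun i => hc _) ?_
    intro i j
    refine hcc _ _ ?_
    intro h'
    exact absurd (Prod.mk.inj h').2 (by decide)
  have hvv' : ‖v₀ * v₀‖ ≤ κ := by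
    refine hvv.trans ?_
    rw [← hκ]
    nlinarith [sq_nonneg (m : ℝ)]
  have hn : ‖v₀‖ ^ 2 ≤ 1 + κ := by
    refine (norm_sq_le v₀).trans ?_
    have e : v₀ * star v₀ + star v₀ * v₀ = (1 - star s * s) * (1 - star s * s) +
        (v₀ * star v₀ + star v₀ * v₀ - (1 - star s * s) * (1 - star s * s)) := by abel
    rw [e]
    refine (norm_add_le _ _).trans ?_
    have h1 : ‖(1 - star s * s) * (1 - star s * s)‖ ≤ 1 :=
      norm_mul_le1 (norm_one_sub s hs) (norm_one_sub s hs)
    linarith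
  have hn' : ‖v₀‖ ≤ 1 + κ := by
    nlinarith [norm_nonneg v₀]
  obtain ⟨r, hr⟩ : ∃ r : ℝ, r = 1 / (1 + κ) := ⟨_, rfl⟩
  have hr0 : 0 < r := by rw [hr]; positivity
  have hr1 : r ≤ 1 := by
    rw [hr, div_le_one (by positivity)]
    linarith
  have hrκ : r * (1 + κ) = 1 := by
    rw [hr]
    field_simp
  have hr2 : 1 - κ ≤ r := by nlinarith
  have hrn : ‖(r : ℂ)‖ = r := by
    rw [Complex.norm_real, Real.norm_eq_abs, abs_of_pos hr0]
  refine ⟨(r : ℂ) • v₀, ?_, ?_⟩
  · rw [norm_smul, hrn]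
    nlinarith [norm_nonneg v₀]
  intro τ hτ
  have htr := trace_part hBAS hm c z s δ hδm hs hz' hz hE hzs τ hτ
  obtain ⟨b1, b2, b3, b4, b5, b6, b7, b8, b9, b10, b11⟩ := hBAS A τ hτ
  have hstar : star ((r : ℂ) • v₀) = (r : ℂ) • star v₀ := by
    rw [star_smul]
    congr 1
    simp
  refine ⟨?_, ?_, ?_⟩
  · rw [smul_mul_smul_comm, b5, norm_mul, hrn]
    have h1 := (b7 (v₀ * v₀)).trans hvv'
    have h2 : 0 ≤ n2 τ (v₀ * v₀) := Real.sqrt_nonneg _
    have h3 : r * r ≤ 1 := by nlinarith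
    have h4 : r * r * n2 τ (v₀ * v₀) ≤ 1 * n2 τ (v₀ * v₀) := mul_le_mul_of_nonneg_right h3 h2
    linarith
  · rw [hstar, smul_mul_smul_comm, smul_mul_smul_comm]
    have hone : n2 τ (1 : A) = 1 := by
      unfold n2
      rw [star_one, one_mul, hτ.one]
      simp
    have e : ((r : ℂ) * r) • (star v₀ * v₀) + ((r : ℂ) * r) • (v₀ * star v₀) - 1 =
        ((r : ℂ) * r) • ((v₀ * star v₀ + star v₀ * v₀ - (1 - star s * s) * (1 - star s * s)) +
          ((-2 : ℂ) • (star s * s) + (star s * s) * (star s * s))) +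
        (((r : ℂ) * r) - 1) • (1 : A) := by
      have : (1 - star s * s) * (1 - star s * s) =
          1 - (2 : ℂ) • (star s * s) + (star s * s) * (star s * s) := by
        rw [two_smul]
        noncomm_ring
      rw [this]
      module
    rw [e]
    refine (b4 _ _).trans ?_
    rw [b5, b5, hone, mul_one, norm_mul, hrn]
    have h1 : ‖((r : ℂ) * r) - 1‖ ≤ 2 * κ := by
      have : ((r : ℂ) * r) - 1 = ((r * r - 1 : ℝ) : ℂ) := by push_cast; ring
      rw [this, Complex.norm_real, Real.norm_eq_abs, abs_le]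
      have q1 := mul_self_le_mul_self (by linarith : (0 : ℝ) ≤ 1 - κ) hr2
      have q2 := mul_self_nonneg κ
      have q3 := mul_self_le_mul_self hr0.le hr1
      constructor
      · linarith
      · linarith
    have h2 := b4 (v₀ * star v₀ + star v₀ * v₀ - (1 - star s * s) * (1 - star s * s))
      ((-2 : ℂ) • (star s * s) + (star s * s) * (star s * s))
    have h3 := (b7 (v₀ * star v₀ + star v₀ * v₀ - (1 - star s * s) * (1 - star s * s))).trans hcomb
    have h4 := b4 ((-2 : ℂ) • (star s * s)) ((star s * s) * (star s * s))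
    rw [b5] at h4
    have h5 : ‖(-2 : ℂ)‖ = 2 := by simp
    rw [h5] at h4
    have h6 := b8 (star s * s) (star s * s)
    have h7 : ‖star s * s‖ ≤ 1 := norm_mul_le1 (norm_star_le hs) hs
    have h8 : 0 ≤ n2 τ (star s * s) := Real.sqrt_nonneg _
    have h9 : ‖star s * s‖ * n2 τ (star s * s) ≤ 1 * n2 τ (star s * s) :=
      mul_le_mul_of_nonneg_right h7 h8
    have h10 : Real.sqrt (1 / m) ≤ ε' / 12 := by
      rw [Real.sqrt_le_left (by positivity)]
      rw [div_le_iff₀ (by positivity)]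
      rw [div_lt_iff₀ (by positivity)] at hm0'
      nlinarith
    have h11 : r * r ≤ 1 := by nlinarith
    obtain ⟨Y, hY⟩ : ∃ Y : ℝ, Y = n2 τ ((v₀ * star v₀ + star v₀ * v₀ -
      (1 - star s * s) * (1 - star s * s)) + ((-2 : ℂ) • (star s * s) +
        (star s * s) * (star s * s))) := ⟨_, rfl⟩
    rw [← hY] at h2 ⊢
    have hY0 : 0 ≤ Y := by rw [hY]; exact Real.sqrt_nonneg _
    have h12 : r * r * Y ≤ 1 * Y := mul_le_mul_of_nonneg_right h11 hY0
    linarith
  · intro a ha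
    have e : ((r : ℂ) • v₀) * a - a * ((r : ℂ) • v₀) = (r : ℂ) • (v₀ * a - a * v₀) := by
      rw [smul_sub, smul_mul_assoc, mul_smul_comm]
    rw [e, b5, hrn]
    have h1 : ‖v₀ * a - a * v₀‖ ≤ 2 * m * δ := by
      rw [hv₀]
      refine comm (fun i => c (i, false)) (fun i => c (i, true)) δ a (fun i => hc _)
        (fun i => hc _) ?_ ?_
      · intro i
        exact hcom _ _ (Finset.mem_union_right _ (Finset.mem_image_of_mem _ ha))
      · intro i
        exact hcom _ _ (Finset.mem_union_left _ ha)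
    have h2 := (b7 (v₀ * a - a * v₀)).trans h1
    have h3 : 0 ≤ n2 τ (v₀ * a - a * v₀) := Real.sqrt_nonneg _
    have h4 : 2 * (m : ℝ) * δ ≤ κ := by
      rw [← hκ]
      nlinarith
    have h5 : r * n2 τ (v₀ * a - a * v₀) ≤ 1 * n2 τ (v₀ * a - a * v₀) :=
      mul_le_mul_of_nonneg_right hr1 h3
    linarith

end H215EZ
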