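import Pool.Agent.H215R2.EZ.BAS
import Pool.Agent.H215R2.EZ.HLD
import Pool.Agent.H215R2.EZ.EXL
import Pool.Agent.H215R2.EZ.CH
import Pool.Agent.H215R2.EZ.ULT
import Pool.Agent.H215R2.EZ.GNST
import Pool.Agent.H215R2.EZ.GEN
import Pool.Agent.H215R2.EZ.KMT
import Pool.Agent.H215R2.EZ.IND
import Pool.Agent.H215R2.EZ.IDX
import Pool.Agent.H215R2.EZ.LIM
import Pool.Agent.H215R2.EZ.NAT
import Pool.Agent.H215R2.EZ.SHF
import Pool.Agent.H215R2.EZ.CGR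
import Pool.Agent.H215R2.EZ.UNI
import Pool.Agent.H215R2.EZ.BLK
import Pool.Agent.H215R2.EZ.KB
import Pool.Agent.H215R2.EZ.ISO
import Pool.Agent.H215R2.EZ.PAIR
import Pool.Agent.H215R2.EZ.CNT
import Pool.Agent.H215R2.EZ.Y4
import Pool.Agent.H215R2.EZ.M4
import Pool.Agent.H215R2.EZ.M2
import Pool.Agent.H215R2.EZ.XSA
import Pool.Agent.H215R2.EZ.KC
import Pool.Agent.H215R2.EZ.KPSb
import Pool.Agent.H215R2.EZ.XC
import Pool.Agent.H215R2.EZ.EXC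
import Pool.Agent.H215R2.EZ.WEI
import Pool.Agent.H215R2.EZ.PSM
import Pool.Agent.H215R2.EZ.PMX
import Pool.Agent.H215R2.EZ.KMX
import Pool.Agent.H215R2.EZ.PS
import Pool.Agent.H215R2.EZ.CFB
import Pool.Agent.H215R2.EZ.CHR
import Pool.Agent.H215R2.EZ.INV
import Pool.Agent.H215R2.EZ.ZC
import Pool.Agent.H215R2.EZ.CORE
import Pool.Agent.H215R2.EZ.CHO
import Pool.Agent.H215R2.EZ.PART
import Pool.Agent.H215R2.EZ.ZST
import Pool.Agent.H215R2.EZ.MAIN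
import Pool.Agent.H215R2.EZ.FIN

/-! Project EZ: assembly of all the parts -/

namespace H215EZ

universe u v

theorem all_CORE : S_CORE.{u, v} := by
  have hBAS := t_BAS.{u}
  have hEXC := t_EXC.{u, v} hBAS
  have hBLK := t_BLK.{u, v}
  have hKB := t_KB.{u, v} hBAS
  have hISO := t_ISO.{u, v}
  have hPAIR := t_PAIR.{u, v} hKB
  have hY4 := t_Y4.{u, v} hBAS hISO t_CNT
  have hM4 := t_M4.{u, v} hY4
  have hM2 := t_M2.{u, v} hBAS hISO hPAIR hKB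
  have hXSA := t_XSA.{u, v}
  have hPS := t_PS.{v} t_PSM.{v} t_PMX.{v} t_KMX.{v}
  have hCFB := t_CFB.{v}
  have hCH := t_CH.{u} hBAS
  have hCHR := t_CHR.{u, v} hBAS hCH hEXC hBLK hKB hM2 hM4 hXSA hPS hCFB
  have hINV := t_INV.{u, v} hBAS hEXC hBLK hKB hM2 hXSA hPS hCFB
  have hXC := t_XC.{u, v} hBAS (t_HLD.{u} hBAS) hKB (t_KC.{u, v} hBAS) (t_KPSb.{u, v} hBAS) hY4
    hXSA hCFB
  have hZC := t_ZC.{u, v} hBAS hBLK hXC
  exact t_CORE.{u, v} hBAS (t_EXL.{u} hBAS) t_WEI hCHR hINV hZC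

theorem all_MAIN : S_MAIN.{u, v} := by
  have hBAS := t_BAS.{u}
  have hLIM := t_LIM.{u, v} hBAS (t_ULT.{u} hBAS) t_GEN.{u} (t_GNST.{u} hBAS) (t_KMT.{u} hBAS)
  have hIDX := t_IDX.{u, v} hBAS (t_IND.{u} hBAS)
  exact t_MAIN.{u, v} hBAS hLIM hIDX t_NAT.{u, v} t_SHF.{u, v} t_CGR.{u, v} t_UNI.{u, v}
    all_CORE.{u, v} (t_CHO.{u, v} hBAS)

theorem all_FIN (A : Type u) [CStarAlgebra A] (hA : ZSt A ∨ UMD A) (G : Type v) [Group G]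
    (hG : Reiter G) (α : G →* (A ≃⋆ₐ[ℂ] A)) : EqHaar A G α ∧ EqGamma A G α :=
  t_FIN t_BAS.{u} all_MAIN.{u, v} (t_PART.{u} t_BAS.{u}) A
    (hA.elim (t_ZST.{u} t_BAS.{u} A) id) G hG α

end H215EZ
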