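import Pool.Agent.H215R2.EZ.Stubs

/-!
Project EZ, task BAS: basics of tracial states.
-/

open scoped ComplexOrder

namespace H215EZ

universe u

namespace BAS

variable {M : Type*} [CStarAlgebra M] {τ : M →ₗ[ℂ] ℂ}

theorem pos_re (h : IsTrSt τ) (x : M) : 0 ≤ (τ (star x * x)).re :=
  (Complex.le_def.1 (h.nonneg x)).1

theorem pos_im (h : IsTrSt τ) (x : M) : (τ (star x * x)).im = 0 :=
  ((Complex.le_def.1 (h.nonneg x)).2).symm

theorem symm (h : IsTrSt τ) (x y : M) :
    (starRingEnd ℂ) (τ (star y * x)) = τ (star x * y) := by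
  have h1 := pos_im h (x + y)
  have h2 := pos_im h (x + Complex.I • y)
  have hx := pos_im h x
  have hy := pos_im h y
  have e1 : τ (star (x + y) * (x + y)) =
      τ (star x * x) + τ (star x * y) + τ (star y * x) + τ (star y * y) := by
    rw [star_add, add_mul, mul_add, mul_add]
    simp only [map_add]
    ring
  have e2 : τ (star (x + Complex.I • y) * (x + Complex.I • y)) =
      τ (star x * x) + Complex.I * τ (star x * y) - Complex.I * τ (star y * x)
        + τ (star y * y) := by
    rw [star_add, star_smul, add_mul, mul_add, mul_add]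
    simp only [smul_mul_assoc, mul_smul_comm, map_add, map_smul, smul_eq_mul, Complex.star_def,
      Complex.conj_I]
    linear_combination (- τ (star y * y)) * Complex.I_mul_I
  rw [e1] at h1
  rw [e2] at h2
  simp only [Complex.add_im, Complex.sub_im, Complex.mul_im, Complex.I_re, Complex.I_im] at h1 h2
  apply Complex.ext
  · rw [Complex.conj_re]
    linarith
  · rw [Complex.conj_im]
    linarith

theorem herm (h : IsTrSt τ) (x : M) : τ (star x) = (starRingEnd ℂ) (τ x) := by
  have h1 := symm h x 1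
  rw [star_one, one_mul, mul_one] at h1
  exact h1.symm

/-- the sesquilinear form of a tracial state -/
noncomputable def core (h : IsTrSt τ) : PreInnerProductSpace.Core ℂ M where
  inner x y := τ (star x * y)
  conj_inner_symm x y := symm h x y
  re_inner_nonneg x := pos_re h x
  add_left x y z := by rw [star_add, add_mul, map_add]
  smul_left x y r := by
    rw [star_smul, smul_mul_assoc, map_smul, smul_eq_mul, Complex.star_def]

theorem cs (h : IsTrSt τ) (x y : M) : ‖τ (star x * y)‖ ≤ n2 τ x * n2 τ y := by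
  have h1 : ‖τ (star x * y)‖ * ‖τ (star y * x)‖ ≤
      (τ (star x * x)).re * (τ (star y * y)).re :=
    @InnerProductSpace.Core.inner_mul_inner_self_le ℂ M _ _ _ (core h) x y
  have h2 : ‖τ (star y * x)‖ = ‖τ (star x * y)‖ := by
    rw [← symm h x y, RCLike.norm_conj]
  rw [h2] at h1
  unfold n2
  rw [← Real.sqrt_mul (pos_re h x)]
  apply Real.le_sqrt_of_sq_le
  rw [sq]
  exact h1

theorem n2_nonneg (x : M) : 0 ≤ n2 τ x := Real.sqrt_nonneg _

theorem n2_sq (h : IsTrSt τ) (x : M) : n2 τ x ^ 2 = (τ (star x * x)).re :=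
  Real.sq_sqrt (pos_re h x)

theorem n2_sq' (h : IsTrSt τ) (x : M) : ((n2 τ x ^ 2 : ℝ) : ℂ) = τ (star x * x) := by
  rw [n2_sq h]
  apply Complex.ext
  · simp
  · rw [pos_im h, Complex.ofReal_im]

theorem n2_add (h : IsTrSt τ) (x y : M) : n2 τ (x + y) ≤ n2 τ x + n2 τ y := by
  have hn := add_nonneg (n2_nonneg (τ := τ) x) (n2_nonneg (τ := τ) y)
  apply le_of_sq_le_sq _ hn
  have e1 : τ (star (x + y) * (x + y)) =
      τ (star x * x) + τ (star x * y) + τ (star y * x) + τ (star y * y) := by
    rw [star_add, add_mul, mul_add, mul_add]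
    simp only [map_add]
    ring
  rw [n2_sq h, e1]
  simp only [Complex.add_re]
  rw [← n2_sq h, ← n2_sq h]
  have h1 := (Complex.re_le_norm _).trans (cs h x y)
  have h2 := (Complex.re_le_norm _).trans (cs h y x)
  nlinarith

theorem n2_smul (c : ℂ) (x : M) : n2 τ (c • x) = ‖c‖ * n2 τ x := by
  unfold n2
  have e : τ (star (c • x) * (c • x)) = ((‖c‖ ^ 2 : ℝ) : ℂ) * τ (star x * x) := by
    rw [star_smul, smul_mul_assoc, mul_smul_comm, smul_smul, map_smul, smul_eq_mul,
      Complex.star_def, ← Complex.normSq_eq_conj_mul_self, Complex.normSq_eq_norm_sq]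
  rw [e, Complex.re_ofReal_mul, Real.sqrt_mul (sq_nonneg _), Real.sqrt_sq (norm_nonneg c)]

theorem n2_star (h : IsTrSt τ) (x : M) : n2 τ (star x) = n2 τ x := by
  unfold n2
  rw [star_star, h.tr]

theorem n2_one (h : IsTrSt τ) : n2 τ 1 = 1 := by
  unfold n2
  rw [star_one, one_mul, h.one, Complex.one_re, Real.sqrt_one]

theorem n2_mul (h : IsTrSt τ) (a x : M) : n2 τ (a * x) ≤ ‖a‖ * n2 τ x := by
  letI := CStarAlgebra.spectralOrder M
  haveI := CStarAlgebra.spectralOrderedRing M
  have h1 : star a * a ≤ algebraMap ℝ M (‖a‖ ^ 2) := CStarAlgebra.star_mul_le_algebraMap_norm_sq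
  obtain ⟨d, hd⟩ := CStarAlgebra.nonneg_iff_eq_star_mul_self.1 (sub_nonneg.2 h1)
  have h2 := pos_re h (d * x)
  have e : star (d * x) * (d * x) =
      ((‖a‖ ^ 2 : ℝ) : ℂ) • (star x * x) - star (a * x) * (a * x) := by
    have e1 : star (d * x) * (d * x) = star x * (star d * d) * x := by
      rw [star_mul]
      simp only [mul_assoc]
    have e2 : star (a * x) * (a * x) = star x * (star a * a) * x := by
      rw [star_mul]
      simp only [mul_assoc]
    rw [e1, e2, ← hd, mul_sub, sub_mul]
    congr 1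
    rw [Algebra.algebraMap_eq_smul_one, mul_smul_comm, mul_one, smul_mul_assoc,
      Complex.coe_smul]
  rw [e, map_sub, map_smul, smul_eq_mul, Complex.sub_re, Complex.re_ofReal_mul, ← n2_sq h,
    ← n2_sq h] at h2
  apply le_of_sq_le_sq _ (mul_nonneg (norm_nonneg a) (n2_nonneg x))
  nlinarith

theorem n2_mul' (h : IsTrSt τ) (a x : M) : n2 τ (x * a) ≤ ‖a‖ * n2 τ x := by
  rw [← n2_star h, star_mul]
  refine (n2_mul h (star a) (star x)).trans ?_
  rw [norm_star, n2_star h]

theorem n2_le (h : IsTrSt τ) (x : M) : n2 τ x ≤ ‖x‖ := by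
  have h1 := n2_mul h x 1
  rwa [mul_one, n2_one h, mul_one] at h1

theorem norm_le_n2 (h : IsTrSt τ) (x : M) : ‖τ x‖ ≤ n2 τ x := by
  have h1 := cs h 1 x
  rwa [star_one, one_mul, n2_one h, one_mul] at h1

end BAS

open BAS in
/-- BAS: basics of tracial states -/
theorem t_BAS : S_BAS.{u} := by
  intro M _ τ h
  exact ⟨fun x => (norm_le_n2 h x).trans (n2_le h x), herm h, n2_sq' h, n2_add h, n2_smul,
    n2_star h, n2_le h, n2_mul h, n2_mul' h, cs h, norm_le_n2 h⟩

end H215EZ
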