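import Pool.Agent.H215R2.EZ.Stubs

open scoped ComplexOrder Topology BoundedContinuousFunction
open Filter

namespace H215EZ

universe u v

namespace CGR

theorem avg_congr {M : Type u} [CStarAlgebra M] {G : Type v} (f : G →₀ ℝ)
    {F F' : G → M} (h : ∀ g ∈ f.support, F g = F' g) : avg f F = avg f F' := by
  unfold avg Finsupp.sum
  exact Finset.sum_congr rfl (fun g hg => by simp only [h g hg])

theorem kpow_congr {M : Type u} [CStarAlgebra M] {G : Type v} (f : G →₀ ℝ)
    {K K' : G → G → M} (hK : ∀ g ∈ f.support, ∀ h ∈ f.support, K g h = K' g h) (r : ℕ) :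
    ∀ g ∈ f.support, ∀ h ∈ f.support, kpow f K r g h = kpow f K' r g h := by
  induction r with
  | zero => exact hK
  | succ r ih =>
    intro g hg h hh
    simp only [kpow]
    refine avg_congr f (fun x hx => ?_)
    rw [hK g hg x hx, ih x hx h hh]

theorem Xel_congr {M : Type u} [CStarAlgebra M] {G : Type v} (R : ℕ) (p : ℕ → ℝ)
    (f : G →₀ ℝ) (k : ℕ) {w w' : G → Fin k → M} (h : ∀ g ∈ f.support, w g = w' g) :
    Xel R p f k w = Xel R p f k w' := by
  unfold Xel
  refine avg_congr f (fun g hg => avg_congr f (fun g' hg' => ?_))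
  have h1 : Qk R p f (Khat k w) g g' = Qk R p f (Khat k w') g g' := by
    unfold Qk
    refine Finset.sum_congr rfl (fun r _ => ?_)
    rw [kpow_congr f (K := Khat k w) (K' := Khat k w') _ r g hg g' hg']
    intro a ha b hb
    unfold Khat
    rw [h a ha, h b hb]
  have h2 : Ych k w g g' = Ych k w' g g' := by
    unfold Ych
    rw [h g hg, h g' hg']
  rw [h1, h2]

end CGR

theorem t_CGR : S_CGR.{u, v} := by
  intro M _ G R p ξ N k f V V' hV
  unfold uel Zel
  congr 3
  refine Finset.sum_congr rfl (fun m _ => ?_)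
  congr 1
  refine CGR.Xel_congr R p f k (fun g hg => ?_)
  funext i
  simp only [hV g hg]

end H215EZ
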