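import Mathlib

/-!
Project EZ (MP_ba6511_an): every action of an amenable group on a uniformly McDuff unital
C*-algebra has equivariant uniform property Gamma.  Definitions.
-/

open scoped ComplexOrder

namespace H215EZ

universe u

/-- tracial states of a unital C*-algebra -/
structure IsTrSt {M : Type*} [CStarAlgebra M] (τ : M →ₗ[ℂ] ℂ) : Prop where
  one : τ 1 = 1
  nonneg : ∀ a : M, 0 ≤ τ (star a * a)
  tr : ∀ a b : M, τ (a * b) = τ (b * a)

/-- the 2-norm of a tracial state -/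
noncomputable def n2 {M : Type*} [CStarAlgebra M] (τ : M →ₗ[ℂ] ℂ) (x : M) : ℝ :=
  Real.sqrt (τ (star x * x)).re

/-- extreme tracial state, in the form: every tracial positive functional below it is a multiple -/
structure ExtTr {M : Type*} [CStarAlgebra M] (σ : M →ₗ[ℂ] ℂ) : Prop where
  ts : IsTrSt σ
  ext : ∀ ψ : M →ₗ[ℂ] ℂ, (∀ a : M, 0 ≤ ψ (star a * a)) →
    (∀ a : M, ψ (star a * a) ≤ σ (star a * a)) → (∀ a b : M, ψ (a * b) = ψ (b * a)) →
    ψ = ψ 1 • σ

section formula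

variable {M : Type*} [CStarAlgebra M] {G : Type*}

/-- average of `F` against a finitely supported real weight -/
noncomputable def avg (f : G →₀ ℝ) (F : G → M) : M := f.sum fun g c => (c : ℂ) • F g

/-- the symmetry `v*v - vv*` of a partial isometry `v` with `v^2 = 0`, `v*v + vv* = 1` -/
def bb (v : M) : M := star v * v - v * star v

/-- empirical covariance of `k` copies -/
noncomputable def Khat (k : ℕ) (w : G → Fin k → M) (g h : G) : M :=
  ((k : ℂ)⁻¹) • ∑ i, w g i * w h i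

/-- second chaos of `k` copies -/
noncomputable def Ych (k : ℕ) (w : G → Fin k → M) (g h : G) : M :=
  ((k : ℂ)⁻¹) • ∑ i, ∑ j, if i = j then 0 else w g i * w h j

/-- powers of a kernel with respect to the weight `f` -/
noncomputable def kpow (f : G →₀ ℝ) (K : G → G → M) : ℕ → G → G → M
  | 0 => K
  | r + 1 => fun g h => avg f fun x => K g x * kpow f K r x h

/-- polynomial of a kernel -/
noncomputable def Qk (R : ℕ) (p : ℕ → ℝ) (f : G →₀ ℝ) (K : G → G → M) (g h : G) : M :=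
  ∑ r ∈ Finset.range R, (p r : ℂ) • kpow f K r g h

/-- one block (not yet self-adjoint) -/
noncomputable def Xel (R : ℕ) (p : ℕ → ℝ) (f : G →₀ ℝ) (k : ℕ) (w : G → Fin k → M) : M :=
  avg f fun g => avg f fun h => Qk R p f (Khat k w) g h * Ych k w g h

/-- real part -/
noncomputable def rp (x : M) : M := (1 / 2 : ℂ) • (x + star x)

/-- the self-adjoint element `Z`: `N` blocks of `k` copies each -/
noncomputable def Zel (R : ℕ) (p : ℕ → ℝ) (ξ : ℝ) (N k : ℕ) (f : G →₀ ℝ)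
    (w : G → Fin N × Fin k → M) : M :=
  (ξ : ℂ) • ∑ m, rp (Xel R p f k fun g i => w g (m, i))

/-- the unitary `exp (i Z)` -/
noncomputable def uel (R : ℕ) (p : ℕ → ℝ) (ξ : ℝ) (N k : ℕ) (f : G →₀ ℝ)
    (V : G → Fin N × Fin k → M) : M :=
  NormedSpace.exp (Complex.I • Zel R p ξ N k f fun g i => bb (V g i))

end formula

/-! ### scalar kernels -/

section scalar
variable {G : Type*}

/-- powers of a real kernel with respect to the weight `f` -/
noncomputable def kpr (f : G →₀ ℝ) (K : G → G → ℝ) : ℕ → G → G → ℝ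
  | 0 => K
  | r + 1 => fun g h => f.sum fun x c => c * (K g x * kpr f K r x h)

/-- polynomial of a real kernel -/
noncomputable def Qr (R : ℕ) (p : ℕ → ℝ) (f : G →₀ ℝ) (K : G → G → ℝ) (g h : G) : ℝ :=
  ∑ r ∈ Finset.range R, p r * kpr f K r g h

/-- the coefficient matrix -/
noncomputable def cf (R : ℕ) (p : ℕ → ℝ) (f : G →₀ ℝ) (K : G → G → ℝ) (g h : G) : ℝ :=
  f g * Qr R p f K g h * f h

/-- `Tr (c K c K)` -/
def qf (E : Finset G) (c K : G → G → ℝ) : ℝ :=
  ∑ g ∈ E, ∑ h ∈ E, ∑ g' ∈ E, ∑ h' ∈ E, c g h * c g' h' * K g g' * K h h'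

/-- positive semidefinite real kernel with unit diagonal -/
structure IsCorr (K : G → G → ℝ) : Prop where
  symm : ∀ g h, K g h = K h g
  diag : ∀ g, K g g = 1
  psd : ∀ (E : Finset G) (x : G → ℝ), 0 ≤ ∑ g ∈ E, ∑ h ∈ E, x g * x h * K g h

/-- probability weight -/
structure IsProb (f : G →₀ ℝ) : Prop where
  nonneg : ∀ g, 0 ≤ f g
  sum : (f.sum fun _ c => c) = 1

/-- `|φ(t) - √t| ≤ η` on `[0,1]`, where `φ(t) = Σ_{r<R} p_r t^(r+2)` -/
def IsSqrtPoly (R : ℕ) (p : ℕ → ℝ) (η : ℝ) : Prop :=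
  ∀ t ∈ Set.Icc (0 : ℝ) 1, |∑ r ∈ Finset.range R, p r * t ^ (r + 2) - Real.sqrt t| ≤ η

end scalar

/-- independent copies at a trace -/
structure Ind {M : Type*} [CStarAlgebra M] (σ : M →ₗ[ℂ] ℂ) {G I : Type*}
    (C : Set I → StarSubalgebra ℂ M) (w : G → I → M) : Prop where
  ts : IsTrSt σ
  mono : ∀ J J', J ⊆ J' → C J ≤ C J'
  closed : ∀ J, IsClosed (C J : Set M)
  mem : ∀ J g i, i ∈ J → w g i ∈ C J
  comm : ∀ J J' x y, Disjoint J J' → x ∈ C J → y ∈ C J' → x * y = y * x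
  ind : ∀ J J' x y, Disjoint J J' → x ∈ C J → y ∈ C J' → σ (x * y) = σ x * σ y
  sa : ∀ g i, star (w g i) = w g i
  sq : ∀ g i, w g i * w g i = 1
  mean : ∀ g i, σ (w g i) = 0

section core
variable {M : Type*} [CStarAlgebra M] {G : Type*}

/-- covariance of copy `i` -/
noncomputable def kap {I : Type*} (σ : M →ₗ[ℂ] ℂ) (w : G → I → M) (i : I) (g h : G) : ℝ :=
  (σ (w g i * w h i)).re

/-- average covariance of `k` copies -/
noncomputable def kbar (σ : M →ₗ[ℂ] ℂ) (k : ℕ) (w : G → Fin k → M) (g h : G) : ℝ :=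
  (k : ℝ)⁻¹ * ∑ i, kap σ w i g h

/-- the second chaos with scalar coefficient matrix `c` -/
noncomputable def Xc (k : ℕ) (w : G → Fin k → M) (E : Finset G) (c : G → G → ℝ) : M :=
  ∑ g ∈ E, ∑ h ∈ E, (c g h : ℂ) • Ych k w g h

/-- the block with the scalar coefficients computed from the trace -/
noncomputable def Xs (σ : M →ₗ[ℂ] ℂ) (R : ℕ) (p : ℕ → ℝ) (f : G →₀ ℝ) (k : ℕ)
    (w : G → Fin k → M) : M :=
  Xc k w f.support (cf R p f (kbar σ k w))

end core

/-! ### the main notions -/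

/-- uniformly McDuff (finite form): approximately central approximate 2x2 matrix units, in the
2-norms of all tracial states uniformly -/
def UMD (A : Type*) [CStarAlgebra A] : Prop :=
  ∀ (F : Finset A) (ε : ℝ), 0 < ε → ∃ v : A, ‖v‖ ≤ 1 ∧ ∀ τ : A →ₗ[ℂ] ℂ, IsTrSt τ →
    n2 τ (v * v) ≤ ε ∧ n2 τ (star v * v + v * star v - 1) ≤ ε ∧
    ∀ a ∈ F, n2 τ (v * a - a * v) ≤ ε

/-- Reiter's condition (amenability of a discrete group) -/
def Reiter (G : Type*) [Group G] : Prop :=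
  ∀ (F : Finset G) (δ : ℝ), 0 < δ → ∃ f : G →₀ ℝ, IsProb f ∧
    ∀ s ∈ F, ((f.mapDomain (s * ·) - f).sum fun _ c => |c|) ≤ δ

end H215EZ
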