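import Pool.Agent.H215R2.EZ.Stubs

open scoped ComplexOrder
open Filter Topology

namespace H215EZ

universe u v

namespace EXC

theorem exp_mem {M : Type u} [CStarAlgebra M] (S : StarSubalgebra ℂ M)
    (hS : IsClosed (S : Set M)) (x : M) (hx : x ∈ S) : NormedSpace.exp x ∈ S := by
  have h := NormedSpace.exp_series_hasSum_exp' (𝕂 := ℂ) x
  refine hS.mem_of_tendsto h (Eventually.of_forall fun s => ?_)
  exact sum_mem fun n _ => S.smul_mem (pow_mem hx n) _

end EXC

theorem t_EXC (hBAS : S_BAS.{u}) : S_EXC.{u, v} := by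
  intro M _ σ G I C w hI N
  obtain ⟨-, -, hn, -⟩ := hBAS M σ hI.ts
  induction N with
  | zero =>
    intro X J _ _
    refine ⟨?_, fun _ => ?_⟩
    · simp [hI.ts.one]
    · simp [n2]
  | succ N ih =>
    intro X J hJ hX
    obtain ⟨ih1, ih2⟩ := ih (fun m => X m.castSucc) (fun m => J m.castSucc)
      (fun m m' h => hJ _ _ (fun h' => h (Fin.castSucc_injective _ h')))
      (fun m => hX _)
    set U : Set I := ⋃ m : Fin N, J m.castSucc with hU
    have hdis : Disjoint U (J (Fin.last N)) := by
      rw [hU, Set.disjoint_iUnion_left]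
      intro m
      exact hJ _ _ (Fin.castSucc_lt_last m).ne
    have hY : ∑ m : Fin N, X m.castSucc ∈ C U :=
      sum_mem fun m _ => hI.mono _ _ (Set.subset_iUnion (fun m : Fin N => J m.castSucc) m) (hX _)
    have hL := hX (Fin.last N)
    rw [Fin.sum_univ_castSucc, Fin.prod_univ_castSucc]
    refine ⟨?_, fun h0 => ?_⟩
    · have hcomm : Commute (∑ m : Fin N, X m.castSucc) (X (Fin.last N)) :=
        hI.comm _ _ _ _ hdis hY hL
      letI : NormedAlgebra ℚ M := NormedAlgebra.restrictScalars ℚ ℂ M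
      have hexp := NormedSpace.exp_add_of_commute hcomm
      rw [hexp, hI.ind _ _ _ _ hdis (EXC.exp_mem _ (hI.closed _) _ hY)
        (EXC.exp_mem _ (hI.closed _) _ hL), ih1]
    · rw [Fin.sum_univ_castSucc, ← ih2 (fun m => h0 _)]
      set Y : M := ∑ m : Fin N, X m.castSucc with hYdef
      set L : M := X (Fin.last N) with hLdef
      have hσY : σ Y = 0 := by
        rw [hYdef, map_sum]
        exact Finset.sum_eq_zero fun m _ => h0 _
      have hσL : σ L = 0 := h0 _
      have c1 : σ (star Y * L) = 0 := by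
        rw [hI.ind _ _ _ _ hdis (star_mem hY) hL, hσL, mul_zero]
      have c2 : σ (star L * Y) = 0 := by
        rw [hI.ind _ _ _ _ hdis.symm (star_mem hL) hY, hσY, mul_zero]
      have h3 : ((n2 σ (Y + L) ^ 2 : ℝ) : ℂ) = ((n2 σ Y ^ 2 + n2 σ L ^ 2 : ℝ) : ℂ) := by
        rw [hn, Complex.ofReal_add, hn, hn, star_add, add_mul, mul_add, mul_add, map_add, map_add,
          map_add, c1, c2]
        ring
      exact_mod_cast h3

end H215EZ
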