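import Pool.Agent.H215R2.EZ.Stubs

open scoped ComplexOrder Topology BoundedContinuousFunction
open Filter

namespace H215EZ

universe u v

namespace MAIN

/-- one of the four real parts is large -/
lemma four (z : ℂ) (ε : ℝ) (h : ε < ‖z‖) :
    ∃ θ ∈ ({1, -1, Complex.I, -Complex.I} : Finset ℂ), ε / 2 ≤ (θ * z).re := by
  by_contra hc
  push Not at hc
  have h1 := hc 1 (by simp)
  have h2 := hc (-1) (by simp)
  have h3 := hc Complex.I (by simp)
  have h4 := hc (-Complex.I) (by simp)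
  simp at h1 h2 h3 h4
  have := Complex.norm_le_abs_re_add_abs_im z
  have h5 : |z.re| < ε / 2 := abs_lt.mpr ⟨by linarith, by linarith⟩
  have h6 : |z.im| < ε / 2 := abs_lt.mpr ⟨by linarith, by linarith⟩
  linarith

lemma four_norm (θ : ℂ) (h : θ ∈ ({1, -1, Complex.I, -Complex.I} : Finset ℂ)) : ‖θ‖ = 1 := by
  simp at h
  rcases h with h | h | h | h <;> simp [h]

lemma sq_re (hBAS : S_BAS.{u}) {M : Type u} [CStarAlgebra M] (τ : M →ₗ[ℂ] ℂ) (hτ : IsTrSt τ)
    (x : M) : (τ (star x * x)).re = n2 τ x ^ 2 := by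
  obtain ⟨-, -, h, -⟩ := hBAS M τ hτ
  rw [← h x, Complex.ofReal_re]

end MAIN

open MAIN

theorem t_MAIN (hBAS : S_BAS.{u}) (hLIM : S_LIM.{u, v}) (hIDX : S_IDX.{u, v})
    (hNAT : S_NAT.{u, v}) (hSHF : S_SHF.{u, v}) (hCGR : S_CGR.{u, v}) (hUNI : S_UNI.{u, v})
    (hCORE : S_CORE.{u, v}) (hCHO : S_CHO.{u, v}) : S_MAIN.{u, v} := by
  classical
  intro A _ hA G _ hG α F S T ε hε
  -- star closed finite set
  set F₀ : Finset A := F ∪ F.image star with hF₀
  have hF₀s : ∀ a ∈ F₀, star a ∈ F₀ := by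
    intro a ha
    simp only [hF₀, Finset.mem_union, Finset.mem_image] at ha ⊢
    rcases ha with ha | ⟨b, hb, rfl⟩
    · exact Or.inr ⟨a, ha, rfl⟩
    · left; simpa using hb
  have hFF₀ : ∀ a ∈ F, a ∈ F₀ := fun a ha => by simp [hF₀, ha]
  obtain ⟨B, hB1, hB⟩ : ∃ B : ℝ, 1 ≤ B ∧ ∀ a ∈ F, ‖a‖ ≤ B := by
    refine ⟨1 + ∑ a ∈ F, ‖a‖, ?_, ?_⟩
    · have : 0 ≤ ∑ a ∈ F, ‖a‖ := Finset.sum_nonneg fun _ _ => norm_nonneg _
      linarith
    · intro a ha
      have : ‖a‖ ≤ ∑ a ∈ F, ‖a‖ := Finset.single_le_sum (f := fun a => ‖a‖)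
        (fun _ _ => norm_nonneg _) ha
      linarith
  set ε₁ : ℝ := ε / (4 * B) with hε₁
  have hε₁0 : 0 < ε₁ := by positivity
  have hε₁B : B * ε₁ < ε / 2 := by
    rw [hε₁]
    have : B * (ε / (4 * B)) = ε / 4 := by field_simp
    rw [this]; linarith
  have hε₁ε : ε₁ < ε := by
    have h1 : ε₁ ≤ B * ε₁ := by nlinarith
    linarith
  obtain ⟨δ, hδ, hcore⟩ := hCORE ε₁ hε₁0 T
  obtain ⟨f, hf, hfS⟩ := hG S δ hδ
  set E : Finset G := f.support ∪ S.biUnion fun s => (f.mapDomain (s * ·)).support with hE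
  have hfE : f.support ⊆ E := Finset.subset_union_left
  have hsE : ∀ s ∈ S, (f.mapDomain (s * ·)).support ⊆ E := by
    intro s hs g hg
    rw [hE]
    exact Finset.mem_union_right _ (Finset.mem_biUnion.mpr ⟨s, hs, hg⟩)
  obtain ⟨e₀, he₀⟩ : f.support.Nonempty := by
    rw [Finset.nonempty_iff_ne_empty]
    intro h
    have h0 : f = 0 := by simpa using h
    have := hf.sum
    rw [h0] at this
    simp at this
  obtain ⟨R, p, ξ, N, k, hc⟩ := hcore E.card
  by_contra hcon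
  push Not at hcon
  have hch : ∀ n : ℕ, _ := fun n : ℕ =>
    hCHO A hA G α (Fin N × Fin k) E F₀ (1 / ((n : ℝ) + 1)) (by positivity)
  choose v hv1 hv using hch
  -- retraction
  let ρ : G → G := fun g => if g ∈ E then g else e₀
  have hρ : ∀ g, ρ g ∈ E := by
    intro g
    by_cases h : g ∈ E
    · simp [ρ, h]
    · simp only [ρ, h, if_false]; exact hfE he₀
  have hρE : ∀ g ∈ E, ρ g = g := fun g h => by simp [ρ, h]
  let V : ℕ → G → Fin N × Fin k → A := fun n g i => α (ρ g) (v n i)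
  let un : ℕ → A := fun n => uel R p ξ N k f fun g i => α g (v n i)
  have hun : ∀ n, un n ∈ unitary A := fun n =>
    (hUNI A G R p ξ N k f (fun g i => α g (v n i)) (fun g i => α g (v n i)) ⊤).2.1
  have hτ' : ∀ n : ℕ, _ := fun n : ℕ => hcon (un n) (hun n)
  choose τ hτ hviol using hτ'
  have hlim0 : Tendsto (fun n : ℕ => 1 / ((n : ℝ) + 1)) atTop (𝓝 0) :=
    tendsto_one_div_add_atTop_nhds_zero_nat
  have n2nn : ∀ (n : ℕ) (x : A), 0 ≤ n2 (τ n) x := fun n x => Real.sqrt_nonneg _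
  obtain ⟨L, M, iL, iM, e, π, V', a', heV, hea, hstar, hnorm, r1, r2, r3, r4, hdense, hZ⟩ :=
    hLIM A G (Fin N × Fin k) V F₀ τ
      (fun n g i => by
        have h1 : ‖α (ρ g) (v n i)‖ ≤ ‖v n i‖ :=
          NonUnitalStarAlgHom.norm_apply_le (α (ρ g) : A →⋆ₐ[ℂ] A) (v n i)
        exact h1.trans (hv1 n i))
      hF₀s hτ
      (fun g i => squeeze_zero (fun n => n2nn n _)
        (fun n => ((hv n (τ n) (hτ n)).1 (ρ g) (hρ g) i).1) hlim0)
      (fun g i => squeeze_zero (fun n => n2nn n _)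
        (fun n => ((hv n (τ n) (hτ n)).1 (ρ g) (hρ g) i).2.1) hlim0)
      (fun g h i j hij => ⟨squeeze_zero (fun n => n2nn n _)
        (fun n => ((hv n (τ n) (hτ n)).2 (ρ g) (hρ g) (ρ h) (hρ h) i j hij).1) hlim0,
        squeeze_zero (fun n => n2nn n _)
        (fun n => ((hv n (τ n) (hτ n)).2 (ρ g) (hρ g) (ρ h) (hρ h) i j hij).2) hlim0⟩)
      (fun g i a ha => squeeze_zero (fun n => n2nn n _)
        (fun n => ((hv n (τ n) (hτ n)).1 (ρ g) (hρ g) i).2.2 a ha) hlim0)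
  -- the elements of L
  set U : L := uel R p ξ N k f V' with hU
  let Us : G → L := fun s => uel R p ξ N k (f.mapDomain (s * ·)) V'
  have heU : ∀ n, e n U = un n := by
    intro n
    rw [hU, hNAT L A (e n) G R p ξ N k f V']
    apply hCGR
    intro g hg
    funext i
    simp only [heV, V, hρE g (hfE hg)]
  have heUs : ∀ n, ∀ s ∈ S, e n (Us s) = α s (un n) := by
    intro n s hs
    have h1 : e n (Us s) = uel R p ξ N k (f.mapDomain (s * ·)) (fun g i => α g (v n i)) := by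
      simp only [Us]
      rw [hNAT L A (e n) G R p ξ N k _ V']
      apply hCGR
      intro g hg
      funext i
      simp only [heV, V, hρE g (hsE s hs hg)]
    rw [h1, ← hSHF A G R p ξ N k f (fun g i => α g (v n i)) s]
    have h2 := hNAT A A (α s : A →⋆ₐ[ℂ] A) G R p ξ N k f (fun g i => α g (v n i))
    have h3 : (α s : A →⋆ₐ[ℂ] A) (un n) = α s (un n) := rfl
    rw [← h3]
    simp only [un]
    rw [h2]
    congr 1
    funext g i
    show α (s * g) (v n i) = α s (α g (v n i))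
    rw [map_mul]; rfl
  -- test set
  let Z₁ : Finset (L × ℝ) := ((F ×ˢ Finset.Icc 1 T) ×ˢ
    ({1, -1, Complex.I, -Complex.I} : Finset ℂ)).image
      fun q => (q.2 • (a' q.1.1 * U ^ q.1.2), ε / 2)
  let Z₂ : Finset (L × ℝ) := F.image fun a =>
    (star (U * a' a - a' a * U) * (U * a' a - a' a * U), ε ^ 2)
  let Z₃ : Finset (L × ℝ) := S.image fun s => (star (Us s - U) * (Us s - U), ε ^ 2)
  obtain ⟨q, hq, σ, hσ, hqσ⟩ := hZ (↑(Z₁ ∪ Z₂ ∪ Z₃)) (Finset.finite_toSet _) (by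
    intro n
    have hv' := hviol n
    by_cases c1 : ∀ a ∈ F, ∀ r : ℕ, 1 ≤ r → r ≤ T → ‖τ n (a * un n ^ r)‖ ≤ ε
    · by_cases c2 : ∀ a ∈ F, n2 (τ n) (un n * a - a * un n) ≤ ε
      · obtain ⟨s, hs, hlt⟩ := hv' c1 c2
        refine ⟨(star (Us s - U) * (Us s - U), ε ^ 2), ?_, ?_⟩
        · simp only [Finset.coe_union, Set.mem_union, Finset.mem_coe]
          right
          exact Finset.mem_image.mpr ⟨s, hs, rfl⟩
        · simp only [map_mul, map_star, map_sub, heU, heUs n s hs]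
          rw [sq_re hBAS (τ n) (hτ n)]
          exact pow_le_pow_left₀ hε.le hlt.le 2
      · push Not at c2
        obtain ⟨a, ha, hlt⟩ := c2
        refine ⟨(star (U * a' a - a' a * U) * (U * a' a - a' a * U), ε ^ 2), ?_, ?_⟩
        · simp only [Finset.coe_union, Set.mem_union, Finset.mem_coe]
          left; right
          exact Finset.mem_image.mpr ⟨a, ha, rfl⟩
        · simp only [map_mul, map_star, map_sub, heU, hea n a (hFF₀ a ha)]
          rw [sq_re hBAS (τ n) (hτ n)]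
          exact pow_le_pow_left₀ hε.le hlt.le 2
    · push Not at c1
      obtain ⟨a, ha, r, hr1, hrT, hlt⟩ := c1
      obtain ⟨θ, hθ, hre⟩ := four _ _ hlt
      refine ⟨(θ • (a' a * U ^ r), ε / 2), ?_, ?_⟩
      · simp only [Finset.coe_union, Set.mem_union, Finset.mem_coe]
        left; left
        exact Finset.mem_image.mpr ⟨((a, r), θ), by
          simp only [Finset.mem_product, Finset.mem_Icc]
          exact ⟨⟨ha, hr1, hrT⟩, hθ⟩, rfl⟩
      · simp only [map_smul, map_mul, map_pow, heU, hea n a (hFF₀ a ha), smul_eq_mul]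
        exact hre)
  -- the structure at the extreme trace
  obtain ⟨hInd, hFa⟩ := hIDX M σ G (Fin N × Fin k) (fun g i => π (V' g i))
    {x | ∃ a ∈ F₀, x = π (a' a)} hσ r1 r2 r3
    (by rintro g i _ ⟨a, ha, rfl⟩; exact r4 g i a ha)
    (by
      rintro _ ⟨a, ha, rfl⟩
      exact ⟨star a, hF₀s a ha, by rw [← map_star, hstar a ha]⟩)
    hdense
  have hπU : π U = uel R p ξ N k f fun g i => π (V' g i) := hNAT L M π G R p ξ N k f V'
  have hπUs : ∀ s, π (Us s) = uel R p ξ N k (f.mapDomain (s * ·)) fun g i => π (V' g i) :=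
    fun s => hNAT L M π G R p ξ N k _ V'
  have hUmem : π U ∈ CJ (fun g i => π (V' g i)) Set.univ := by
    rw [hπU]
    refine (hUNI M G R p ξ N k f (fun g i => π (V' g i)) (fun g i => π (V' g i)) _).2.2
      (StarSubalgebra.isClosed_topologicalClosure _) ?_
    intro g i
    exact StarSubalgebra.le_topologicalClosure _
      (StarAlgebra.subset_adjoin ℂ _ ⟨g, i, Set.mem_univ i, rfl⟩)
  have hmp : ∀ s : G, IsProb (f.mapDomain (s * ·)) := by
    intro s
    refine ⟨fun g => ?_, ?_⟩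
    · have h1 : f.mapDomain (s * ·) g = f (s⁻¹ * g) := by
        have h2 := Finsupp.mapDomain_apply (f := (s * ·)) (mul_right_injective s) f (s⁻¹ * g)
        simpa using h2
      rw [h1]; exact hf.nonneg _
    · rw [Finsupp.sum_mapDomain_index (fun _ => rfl) (fun _ _ _ => rfl)]
      exact hf.sum
  have hcσ : ∀ f' : G →₀ ℝ, IsProb f' → f'.support ⊆ E → ∑ g ∈ E, |f g - f' g| ≤ δ → _ :=
    fun f' hf' hs' hd' => hc M σ G (CJ fun g i => π (V' g i)) (fun g i => bb (π (V' g i))) hInd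
      E f f' le_rfl hf hf' hfE hs' hd'
  have hr := (hcσ f hf hfE (by simp; exact hδ.le)).1
  have hσts : IsTrSt σ := hσ.ts
  obtain ⟨b1, b2, b3, b4, b5, b6, b7, b8, b9, b10, b11⟩ := hBAS M σ hσts
  have hq' : q ∈ Z₁ ∨ q ∈ Z₂ ∨ q ∈ Z₃ := by
    have : q ∈ Z₁ ∪ Z₂ ∪ Z₃ := by exact_mod_cast hq
    simp only [Finset.mem_union] at this
    tauto
  rcases hq' with h1 | h2 | h3
  · obtain ⟨⟨⟨a, r⟩, θ⟩, hmem, rfl⟩ := Finset.mem_image.mp h1
    simp only [Finset.mem_product, Finset.mem_Icc] at hmem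
    obtain ⟨⟨ha, hr1, hrT⟩, hθ⟩ := hmem
    simp only [map_smul, map_mul, map_pow, smul_eq_mul] at hqσ
    have h4 := (hFa (π U ^ r) (pow_mem hUmem r) (π (a' a)) ⟨a, hFF₀ a ha, rfl⟩).2
    rw [h4] at hqσ
    have h5 : ‖σ (π U ^ r)‖ ≤ ε₁ := by
      rw [hπU]; exact hr r hr1 hrT
    have h6 : ‖σ (π (a' a))‖ ≤ B :=
      (b1 _).trans ((NonUnitalStarAlgHom.norm_apply_le π _).trans
        ((hnorm a (hFF₀ a ha)).trans (hB a ha)))
    have h7 : (θ * (σ (π (a' a)) * σ (π U ^ r))).re ≤ B * ε₁ := by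
      refine (Complex.re_le_norm _).trans ?_
      rw [norm_mul, norm_mul, four_norm θ hθ, one_mul]
      exact mul_le_mul h6 h5 (norm_nonneg _) (by linarith)
    linarith
  · obtain ⟨a, ha, rfl⟩ := Finset.mem_image.mp h2
    have h4 := (hFa (π U) hUmem (π (a' a)) ⟨a, hFF₀ a ha, rfl⟩).1
    simp only [map_mul, map_star, map_sub] at hqσ
    rw [h4, sub_self] at hqσ
    simp at hqσ
    nlinarith [pow_pos hε 2]
  · obtain ⟨s, hs, rfl⟩ := Finset.mem_image.mp h3
    have hsum : ∑ g ∈ E, |f g - (f.mapDomain (s * ·)) g| ≤ δ := by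
      have h4 := hfS s hs
      rw [Finsupp.sum_of_support_subset (s := E) _ ?_ _ (by simp)] at h4
      · refine le_trans (le_of_eq (Finset.sum_congr rfl fun g _ => ?_)) h4
        rw [Finsupp.sub_apply, abs_sub_comm]
      · refine (Finsupp.support_sub).trans ?_
        exact Finset.union_subset (hsE s hs) hfE
    have h5 := (hcσ _ (hmp s) (hsE s hs) hsum).2
    simp only [map_mul, map_star, map_sub] at hqσ
    rw [hπU, hπUs s, sq_re hBAS σ hσts] at hqσ
    have h6 : n2 σ (uel R p ξ N k (f.mapDomain (s * ·)) (fun g i => π (V' g i)) -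
        uel R p ξ N k f fun g i => π (V' g i)) ≤ ε₁ := by
      have h7 := b5 (-1) (uel R p ξ N k (f.mapDomain (s * ·)) (fun g i => π (V' g i)) -
        uel R p ξ N k f fun g i => π (V' g i))
      rw [norm_neg, norm_one, one_mul, neg_one_smul, neg_sub] at h7
      rw [← h7]
      exact h5
    have h8 : 0 ≤ n2 σ (uel R p ξ N k (f.mapDomain (s * ·)) (fun g i => π (V' g i)) -
        uel R p ξ N k f fun g i => π (V' g i)) := Real.sqrt_nonneg _
    have h9 := pow_le_pow_left₀ h8 (h6.trans_lt hε₁ε).le 2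
    have h10 : n2 σ (uel R p ξ N k (f.mapDomain (s * ·)) (fun g i => π (V' g i)) -
        uel R p ξ N k f fun g i => π (V' g i)) ^ 2 < ε ^ 2 :=
      pow_lt_pow_left₀ (h6.trans_lt hε₁ε) h8 (by norm_num)
    linarith

end H215EZ
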